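import Pool.Agent.Lib.MP_b197b4_ntV3.Defs

/-!
# V3, leaf B1: the number of solutions with prescribed values off a covering set
-/

set_option autoImplicit false
set_option linter.unusedSectionVars false

noncomputable section

namespace Pool.Agent.MP_b197b4_ntV3

open scoped BigOperators
open Pool.Agent.MP_b197b4_ntUV Pool.Agent.MP_b197b4_ntLV

variable {K F : Type*} [Field K] [Field F] [Algebra K F] {N : ℕ}

/-- the partial sum over `J`, as a map `(J → H) → W` -/
private def B1_S (H W : Submodule K F) (hHW : ∀ a b : H, (a : F) * (b : F) ∈ W)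
    (J : Finset (Fin (N + 1))) (v : Fin (N + 1) → H) (u : J → H) : W :=
  ⟨∑ s : J, (v s : F) * (u s : F), W.sum_mem fun s _ => hHW (v s) (u s)⟩

private theorem B1_S_add (H W : Submodule K F) (hHW : ∀ a b : H, (a : F) * (b : F) ∈ W)
    (J : Finset (Fin (N + 1))) (v : Fin (N + 1) → H) (a b : J → H) :
    B1_S H W hHW J v (a + b) = B1_S H W hHW J v a + B1_S H W hHW J v b := by
  apply Subtype.ext
  change ∑ s : J, (v s : F) * (((a + b) s : H) : F) =
    ∑ s : J, (v s : F) * (a s : F) + ∑ s : J, (v s : F) * (b s : F)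
  rw [← Finset.sum_add_distrib]
  exact Finset.sum_congr rfl fun s _ => by
    rw [Pi.add_apply, Submodule.coe_add, mul_add]

private theorem B1_S_sub (H W : Submodule K F) (hHW : ∀ a b : H, (a : F) * (b : F) ∈ W)
    (J : Finset (Fin (N + 1))) (v : Fin (N + 1) → H) (a b : J → H) :
    B1_S H W hHW J v (a - b) = B1_S H W hHW J v a - B1_S H W hHW J v b := by
  rw [eq_sub_iff_add_eq, ← B1_S_add, sub_add_cancel]

private theorem B1_S_surj (H W : Submodule K F) (hHW : ∀ a b : H, (a : F) * (b : F) ∈ W)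
    (J : Finset (Fin (N + 1))) (v : Fin (N + 1) → H) (hv : Cov H W J (fun s => (v s : F))) :
    Function.Surjective (B1_S H W hHW J v) := by
  intro x
  obtain ⟨u, hu⟩ := hv x.1 x.2
  refine ⟨fun s => u s, Subtype.ext ?_⟩
  change ∑ s : J, (v s : F) * (u s : F) = x.1
  rw [← hu]
  exact Finset.sum_coe_sort J (fun s => (v s : F) * (u s : F))

private theorem B1_key (H W : Submodule K F) (hHW : ∀ a b : H, (a : F) * (b : F) ∈ W)
    (J : Finset (Fin (N + 1))) (v : Fin (N + 1) → H) (g w : Fin (N + 1) → H)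
    (hw : ∀ s, s ∉ J → w s = g s) :
    Om v w ↔ (B1_S H W hHW J v (fun s => w s) : F) = - ∑ s ∈ Jᶜ, (v s : F) * (g s : F) := by
  have h1 : ∑ j, (v j : F) * (w j : F) =
      (B1_S H W hHW J v (fun s => w s) : F) + ∑ s ∈ Jᶜ, (v s : F) * (g s : F) := by
    rw [← Finset.sum_add_sum_compl J]
    have h2 : ∑ s ∈ J, (v s : F) * (w s : F) = (B1_S H W hHW J v (fun s => w s) : F) :=
      (Finset.sum_coe_sort J (fun s => (v s : F) * (w s : F))).symm
    have h3 : ∑ s ∈ Jᶜ, (v s : F) * (w s : F) = ∑ s ∈ Jᶜ, (v s : F) * (g s : F) :=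
      Finset.sum_congr rfl fun s hs => by rw [hw s (Finset.mem_compl.mp hs)]
    rw [h2, h3]
  unfold Om
  rw [h1]
  exact ⟨fun h => eq_neg_of_add_eq_zero_left h, fun h => by rw [h, neg_add_cancel]⟩

/-- PROOF. `φ : (J → H) → W`, `u ↦ ∑ s ∈ J, v s * u s` (a well defined additive map because `H * H ⊆ W`), is surjective by `hv`, so
all its fibres have `card H ^ J.card / card W` elements (fibres over `x` = translates of the kernel). The set counted is in
bijection with the fibre over `- ∑ s ∉ J, v s * g s ∈ W`: restrict `w` to `J`; conversely `w s = u s` on `J` and `g s` off `J`.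
(Compare `M_master` and `K0_fix` in `ntUV/M.lean`, `ntUV/K0.lean`: the same argument with three factors.) -/
theorem B1_fib (H W : Submodule K F) [Finite H] [Finite W] (hHW : ∀ a b : H, (a : F) * (b : F) ∈ W)
    (J : Finset (Fin (N + 1))) (v : Fin (N + 1) → H) (hv : Cov H W J (fun s => (v s : F)))
    (g : Fin (N + 1) → H) :
    Nat.card W * Nat.card {w : Fin (N + 1) → H // Om v w ∧ ∀ s, s ∉ J → w s = g s} =
      Nat.card H ^ J.card := by
  classical
  have hc0 : - ∑ s ∈ Jᶜ, (v s : F) * (g s : F) ∈ W :=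
    W.neg_mem (W.sum_mem fun s _ => hHW (v s) (g s))
  have hsurj := B1_S_surj H W hHW J v hv
  obtain ⟨σ, hσ⟩ := hsurj.hasRightInverse
  let c : W := ⟨- ∑ s ∈ Jᶜ, (v s : F) * (g s : F), hc0⟩
  have hkey : ∀ w : Fin (N + 1) → H, (∀ s, s ∉ J → w s = g s) →
      (Om v w ↔ B1_S H W hHW J v (fun s => w s) = c) := by
    intro w hw
    rw [B1_key H W hHW J v g w hw]
    exact ⟨fun h => Subtype.ext h, fun h => congrArg Subtype.val h⟩
  let ext : (J → H) → Fin (N + 1) → H := fun u s => if h : s ∈ J then u ⟨s, h⟩ else g s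
  have hext1 : ∀ u : J → H, (fun s : J => ext u s) = u := by
    intro u
    funext s
    exact dif_pos s.2
  have hext2 : ∀ (u : J → H) (s), s ∉ J → ext u s = g s := fun u s hs => dif_neg hs
  have e : (W × {w : Fin (N + 1) → H // Om v w ∧ ∀ s, s ∉ J → w s = g s}) ≃ (J → H) :=
    { toFun := fun p => (fun s : J => p.2.1 s) + σ p.1
      invFun := fun u => ⟨B1_S H W hHW J v u - c,
        ⟨ext (u - σ (B1_S H W hHW J v u - c)), by
          refine ⟨(hkey _ (hext2 _)).2 ?_, hext2 _⟩
          rw [hext1, B1_S_sub, hσ, sub_sub_cancel]⟩⟩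
      left_inv := by
        rintro ⟨x, w, hw1, hw2⟩
        have h1 : B1_S H W hHW J v (fun s => w s) = c := (hkey w hw2).1 hw1
        have h2 : B1_S H W hHW J v ((fun s : J => w s) + σ x) - c = x := by
          rw [B1_S_add, h1, hσ, add_sub_cancel_left]
        refine Prod.ext h2 (Subtype.ext ?_)
        change ext (((fun s : J => w s) + σ x) - σ (B1_S H W hHW J v ((fun s : J => w s) + σ x) - c)) = w
        rw [h2, add_sub_cancel_right]
        funext s
        by_cases hs : s ∈ J
        · exact dif_pos hs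
        · exact (dif_neg hs).trans (hw2 s hs).symm
      right_inv := by
        intro u
        change (fun s : J => ext (u - σ (B1_S H W hHW J v u - c)) s) + σ (B1_S H W hHW J v u - c) = u
        rw [hext1, sub_add_cancel] }
  have h1 := Nat.card_congr e
  rw [Nat.card_prod, Nat.card_fun, Nat.card_eq_fintype_card (α := J), Fintype.card_coe] at h1
  exact h1

/-- PROOF. Extend the multipliers by zero. -/
theorem Cov_mono {ι : Type*} {H W : Submodule K F} {I J : Finset ι} (hIJ : I ⊆ J) {p : ι → F}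
    (h : Cov H W I p) : Cov H W J p := by
  classical
  intro w hw
  obtain ⟨u, hu⟩ := h w hw
  refine ⟨fun s => if s ∈ I then u s else 0, ?_⟩
  rw [← hu, ← Finset.sum_subset hIJ]
  · refine Finset.sum_congr rfl fun s hs => ?_
    dsimp only
    rw [if_pos hs]
  · intro s _ hs
    dsimp only
    rw [if_neg hs, Submodule.coe_zero, mul_zero]

end Pool.Agent.MP_b197b4_ntV3
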