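import Pool.Agent.Lib.MP_b197b4_ntV3.B1

/-!
# V3, leaf B2: sums over the syzygies
-/

set_option autoImplicit false
set_option linter.unusedSectionVars false

noncomputable section

namespace Pool.Agent.MP_b197b4_ntV3

open scoped BigOperators
open Pool.Agent.MP_b197b4_ntUV Pool.Agent.MP_b197b4_ntLV

variable {K F : Type*} [Field K] [Field F] [Algebra K F] {N : ℕ}

/-- PROOF. Group the `w` by `(w i, w j) = (a, b)`: by `B1_fib` (`J` = the rows other than `i`, `j`, `g = update (update _ i a) j b`,
`J.card = N - 1`) their number is `card H ^ (N - 1) / card W`. (`N ≥ 1` because `i ≠ j`.) -/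
theorem B2_two (P : SL K F) (H W : Submodule K F) [Fintype H] [Finite W]
    (hHW : ∀ a b : H, (a : F) * (b : F) ∈ W) (v : Fin (N + 1) → H) (hv : G2 P H W v)
    {i j : Fin (N + 1)} (hij : i ≠ j) (φ : H → H → ℝ) [DecidablePred (Om v)] :
    (Nat.card W : ℝ) * (∑ w, if Om v w then φ (w i) (w j) else 0) =
      (Nat.card H : ℝ) ^ (N - 1) * ∑ a, ∑ b, φ a b := by
  classical
  have key : ∀ a b : H, (Nat.card W : ℝ) *
      (∑ w : Fin (N + 1) → H, if Om v w ∧ w i = a ∧ w j = b then (1 : ℝ) else 0) =
      (Nat.card H : ℝ) ^ (N - 1) := by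
    intro a b
    have h1 := B1_fib H W hHW ((Finset.univ.erase i).erase j) v (hv.2 i j hij)
      (Function.update (Function.update (fun _ => (0 : H)) i a) j b)
    have hJ : ((Finset.univ.erase i).erase j : Finset (Fin (N + 1))).card = N - 1 := by
      rw [Finset.card_erase_of_mem (by simp [hij.symm]), Finset.card_erase_of_mem (by simp)]
      simp
    rw [hJ] at h1
    have h2 : ∀ w : Fin (N + 1) → H, (∀ s, s ∉ (Finset.univ.erase i).erase j →
        w s = Function.update (Function.update (fun _ => (0 : H)) i a) j b s) ↔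
        w i = a ∧ w j = b := by
      intro w
      constructor
      · intro h
        have hi := h i (by simp)
        have hj := h j (by simp)
        rw [Function.update_of_ne hij, Function.update_self] at hi
        rw [Function.update_self] at hj
        exact ⟨hi, hj⟩
      · rintro ⟨hi, hj⟩ s hs
        have hs' : s = i ∨ s = j := by
          by_contra hcon
          push Not at hcon
          exact hs (by simp [hcon.1, hcon.2])
        rcases hs' with rfl | rfl
        · rw [Function.update_of_ne hij, Function.update_self, hi]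
        · rw [Function.update_self, hj]
    have h3 : Nat.card {w : Fin (N + 1) → H // Om v w ∧
        ∀ s, s ∉ (Finset.univ.erase i).erase j →
          w s = Function.update (Function.update (fun _ => (0 : H)) i a) j b s} =
        ∑ w : Fin (N + 1) → H, if Om v w ∧ w i = a ∧ w j = b then 1 else 0 := by
      rw [Nat.card_eq_fintype_card, Fintype.card_subtype, Finset.card_filter]
      apply Finset.sum_congr rfl
      intro w _
      by_cases hw : Om v w ∧ w i = a ∧ w j = b
      · rw [if_pos hw, if_pos ⟨hw.1, (h2 w).2 hw.2⟩]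
      · rw [if_neg hw, if_neg (fun h => hw ⟨h.1, (h2 w).1 h.2⟩)]
    rw [h3] at h1
    have h4 := congrArg (fun n : ℕ => (n : ℝ)) h1
    push_cast at h4
    exact h4
  have e1 : ∀ w : Fin (N + 1) → H, (if Om v w then φ (w i) (w j) else 0) =
      ∑ a, ∑ b, φ a b * (if Om v w ∧ w i = a ∧ w j = b then (1 : ℝ) else 0) := by
    intro w
    rw [Finset.sum_eq_single (w i), Finset.sum_eq_single (w j)]
    · by_cases hw : Om v w
      · rw [if_pos hw, if_pos ⟨hw, rfl, rfl⟩, mul_one]
      · rw [if_neg hw, if_neg (fun h => hw h.1), mul_zero]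
    · intro b _ hb
      rw [if_neg (fun h => hb h.2.2.symm), mul_zero]
    · intro h
      exact absurd (Finset.mem_univ _) h
    · intro a _ ha
      apply Finset.sum_eq_zero
      intro b _
      rw [if_neg (fun h => ha h.2.1.symm), mul_zero]
    · intro h
      exact absurd (Finset.mem_univ _) h
  calc (Nat.card W : ℝ) * (∑ w, if Om v w then φ (w i) (w j) else 0)
      = (Nat.card W : ℝ) * ∑ w : Fin (N + 1) → H, ∑ a, ∑ b, φ a b *
          (if Om v w ∧ w i = a ∧ w j = b then (1 : ℝ) else 0) := by
        rw [Finset.sum_congr rfl fun w _ => e1 w]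
    _ = ∑ a, ∑ b, φ a b * ((Nat.card W : ℝ) *
          (∑ w : Fin (N + 1) → H, if Om v w ∧ w i = a ∧ w j = b then (1 : ℝ) else 0)) := by
        rw [Finset.sum_comm, Finset.mul_sum]
        apply Finset.sum_congr rfl
        intro a _
        rw [Finset.sum_comm, Finset.mul_sum]
        apply Finset.sum_congr rfl
        intro b _
        rw [← Finset.mul_sum]
        ring
    _ = (Nat.card H : ℝ) ^ (N - 1) * ∑ a, ∑ b, φ a b := by
        rw [Finset.mul_sum]
        apply Finset.sum_congr rfl
        intro a _
        rw [Finset.mul_sum]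
        apply Finset.sum_congr rfl
        intro b _
        rw [key a b]
        ring

/-- PROOF. `B2_two` with a function of the first variable, for some `j ≠ i` (`0 < N`). -/
theorem B2_one (P : SL K F) (H W : Submodule K F) [Fintype H] [Finite W]
    (hHW : ∀ a b : H, (a : F) * (b : F) ∈ W) (hN : 0 < N) (v : Fin (N + 1) → H) (hv : G2 P H W v)
    (i : Fin (N + 1)) (φ : H → ℝ) [DecidablePred (Om v)] :
    (Nat.card W : ℝ) * (∑ w, if Om v w then φ (w i) else 0) =
      (Nat.card H : ℝ) ^ N * ∑ a, φ a := by
  haveI : Nontrivial (Fin (N + 1)) := Fin.nontrivial_iff_two_le.2 (by omega)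
  obtain ⟨j, hj⟩ := exists_ne i
  have h := B2_two P H W hHW v hv hj.symm (fun a _ => φ a)
  rw [h]
  have h2 : ∑ a : H, ∑ _b : H, φ a = (Nat.card H : ℝ) * ∑ a, φ a := by
    rw [Finset.mul_sum]
    apply Finset.sum_congr rfl
    intro a _
    rw [Finset.sum_const, nsmul_eq_mul, Finset.card_univ, Nat.card_eq_fintype_card]
  rw [h2, ← mul_assoc, ← pow_succ]
  congr 2
  omega

/-- PROOF. `B2_one` with `φ = 1`. -/
theorem B2_all (P : SL K F) (H W : Submodule K F) [Fintype H] [Finite W]
    (hHW : ∀ a b : H, (a : F) * (b : F) ∈ W) (hN : 0 < N) (v : Fin (N + 1) → H) (hv : G2 P H W v)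
    [DecidablePred (Om v)] :
    (Nat.card W : ℝ) * (∑ w, if Om v w then (1 : ℝ) else 0) = (Nat.card H : ℝ) ^ (N + 1) := by
  have h := B2_one P H W hHW hN v hv 0 (fun _ => (1 : ℝ))
  rw [h, Finset.sum_const, nsmul_eq_mul, Finset.card_univ, Nat.card_eq_fintype_card, mul_one,
    pow_succ]

end Pool.Agent.MP_b197b4_ntV3
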