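import Pool.Agent.Lib.MP_b197b4_ntV3.Defs

/-!
# V3, leaf B3: alternation
-/

set_option autoImplicit false
set_option linter.unusedSectionVars false

noncomputable section

namespace Pool.Agent.MP_b197b4_ntV3

open scoped BigOperators
open Pool.Agent.MP_b197b4_ntUV Pool.Agent.MP_b197b4_ntLV

variable {K F : Type*} [Field K] [Field F] [Algebra K F] {N : ℕ}

/-- PROOF. `Cov` is invariant under permutations of the indices: `Σ_{s ∈ J} X (σ s) u s = Σ_{r ∈ σ J} X r u (σ⁻¹ r)`, and `σ` maps
`univ.erase i .erase j` to `univ.erase (σ i) .erase (σ j)`. -/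
theorem B3_good (P : SL K F) (H W : Submodule K F) (X : Fin (N + 1) → H) (σ : Equiv.Perm (Fin (N + 1)))
    (h : G2 P H W X) : G2 P H W (X ∘ σ) := by
  classical
  refine ⟨fun j => h.1 (σ j), ?_⟩
  intro i j hij w hw
  obtain ⟨u, hu⟩ := h.2 (σ i) (σ j) (fun h' => hij (σ.injective h')) w hw
  refine ⟨fun s => u (σ s), ?_⟩
  rw [← hu]
  refine Finset.sum_equiv σ ?_ ?_
  · intro s
    simp only [Finset.mem_erase, Finset.mem_univ, and_true, ne_eq, EmbeddingLike.apply_eq_iff_eq]
  · intro s _
    rfl

/-- PROOF. `B3_good` for `σ` and its inverse; `A_theta_perm` (`ntUV/A.lean`), the sign of a swap is `-1`. -/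
theorem B3_swap (P : SL K F) (H W : Submodule K F) (lam : (Additive Fˣ) [⋀^Fin N]→ₗ[ℤ] ℝ)
    (X : Fin (N + 1) → H) {i j : Fin (N + 1)} (hij : i ≠ j) :
    tt P H W lam (X ∘ Equiv.swap i j) = - tt P H W lam X := by
  classical
  by_cases h : G2 P H W X
  · have h' : G2 P H W (X ∘ Equiv.swap i j) := B3_good P H W X (Equiv.swap i j) h
    rw [tt, if_pos h', tt, if_pos h]
    have h1 := A_theta_perm lam (fun s => (X s : F)) (fun s => (h.1 s).ne) (Equiv.swap i j)
    rw [Equiv.Perm.sign_swap hij] at h1
    have h2 : (fun s => ((X ∘ Equiv.swap i j) s : F)) = (fun s => (X s : F)) ∘ Equiv.swap i j := rfl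
    rw [h2, h1]
    simp
  · have h' : ¬ G2 P H W (X ∘ Equiv.swap i j) := by
      intro hg
      apply h
      have h3 := B3_good P H W (X ∘ Equiv.swap i j) (Equiv.swap i j) hg
      have h4 : (X ∘ Equiv.swap i j) ∘ Equiv.swap i j = X := by
        funext s
        simp
      rw [h4] at h3
      exact h3
    rw [tt, if_neg h', tt, if_neg h, neg_zero]

/-- PROOF. Exchange `a` and `b` (`Finset.sum_comm`): the sum is equal to its opposite, by `B3_swap`. -/
theorem B3_sum (P : SL K F) (H W : Submodule K F) [Fintype H] (lam : (Additive Fˣ) [⋀^Fin N]→ₗ[ℤ] ℝ)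
    (X : Fin (N + 1) → H) {i j : Fin (N + 1)} (hij : i ≠ j) :
    ∑ a, ∑ b, tt P H W lam (Function.update (Function.update X i a) j b) = 0 := by
  classical
  have key : ∀ a b : H, tt P H W lam (Function.update (Function.update X i a) j b) =
      - tt P H W lam (Function.update (Function.update X i b) j a) := by
    intro a b
    rw [← B3_swap P H W lam (Function.update (Function.update X i b) j a) hij]
    congr 1
    funext s
    rw [Function.comp_apply]
    by_cases hi : s = i
    · rw [hi, Equiv.swap_apply_left, Function.update_self, Function.update_of_ne hij, Function.update_self]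
    · by_cases hj : s = j
      · rw [hj, Equiv.swap_apply_right, Function.update_self, Function.update_of_ne hij, Function.update_self]
      · rw [Equiv.swap_apply_of_ne_of_ne hi hj, Function.update_of_ne hj, Function.update_of_ne hi,
          Function.update_of_ne hj, Function.update_of_ne hi]
  have h1 : ∑ a, ∑ b, tt P H W lam (Function.update (Function.update X i a) j b) =
      - ∑ a, ∑ b, tt P H W lam (Function.update (Function.update X i a) j b) := by
    conv_lhs => rw [Finset.sum_comm]
    rw [← Finset.sum_neg_distrib]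
    refine Finset.sum_congr rfl fun a _ => ?_
    rw [← Finset.sum_neg_distrib]
    exact Finset.sum_congr rfl fun b _ => key b a
  linarith

end Pool.Agent.MP_b197b4_ntV3
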