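import Pool.Agent.Lib.MP_b197b4_ntV3.Defs

/-!
# V3, leaf B4: the relation
-/

set_option autoImplicit false
set_option linter.unusedSectionVars false

noncomputable section

namespace Pool.Agent.MP_b197b4_ntV3

open scoped BigOperators
open Pool.Agent.MP_b197b4_ntUV Pool.Agent.MP_b197b4_ntLV

variable {K F : Type*} [Field K] [Field F] [Algebra K F] {N : ℕ}

private theorem B4_theta (lam : (Additive Fˣ) [⋀^Fin N]→ₗ[ℤ] ℝ) (y : Fin (N + 1) → F)
    (hy : ∀ j, y j ≠ 0) :
    theta lam y = ∑ i : Fin (N + 1), (-1 : ℝ) ^ (i : ℕ) * ev lam (fun j => y (i.succAbove j)) := by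
  obtain ⟨u, rfl⟩ := A_lift y hy
  have h1 : theta lam (fun i => (u i : F)) = lam (fun j => Additive.ofMul (u j.succ / u 0)) := by
    unfold theta
    have h2 : (fun j : Fin N => (u j.succ : F) / (u 0 : F)) = fun j => ((u j.succ / u 0 : Fˣ) : F) := by
      funext j
      rw [Units.val_div_eq_div_val]
    rw [h2, A_ev_units]
  rw [h1]
  have h3 := A_quot_sum lam (fun i => Additive.ofMul (u i))
  have h4 : (fun j : Fin N => Additive.ofMul (u j.succ) - Additive.ofMul (u 0)) =
      fun j => Additive.ofMul (u j.succ / u 0) := by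
    funext j
    rw [← ofMul_div]
  rw [h4] at h3
  rw [h3]
  refine Finset.sum_congr rfl fun i _ => ?_
  rw [A_ev_units lam (fun j => u (i.succAbove j))]

private theorem B4_prod (lam : (Additive Fˣ) [⋀^Fin N]→ₗ[ℤ] ℝ) (v w : Fin N → F)
    (hv : ∀ j, v j ≠ 0) (hw : ∀ j, w j ≠ 0) :
    ev lam (fun j => v j * w j) =
      ∑ c : Fin N → Bool, ev lam (fun j => if c j then w j else v j) := by
  classical
  obtain ⟨a, rfl⟩ := A_lift v hv
  obtain ⟨b, rfl⟩ := A_lift w hw
  have h1 : (fun j => (a j : F) * (b j : F)) = fun j => ((a j * b j : Fˣ) : F) := by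
    funext j
    rw [Units.val_mul]
  have h2 : ∀ c : Fin N → Bool, (fun j => if c j then (b j : F) else (a j : F)) =
      fun j => ((if c j then b j else a j : Fˣ) : F) := by
    intro c
    funext j
    split_ifs <;> rfl
  rw [h1, A_ev_units]
  simp only [h2, A_ev_units]
  have h3 : (fun j => Additive.ofMul (a j * b j)) =
      fun j => ∑ c : Bool, Additive.ofMul (if c then b j else a j) := by
    funext j
    rw [Fintype.sum_bool]
    simp [ofMul_mul, add_comm]
  rw [h3]
  exact lam.toMultilinearMap.map_sum (fun j (c : Bool) => Additive.ofMul (if c then b j else a j))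

private theorem B4_double (i : Fin (N + 1)) (g : (Fin N → Bool) → ℝ) :
    ∑ c : Fin (N + 1) → Bool, g (fun j => c (i.succAbove j)) = 2 * ∑ c : Fin N → Bool, g c := by
  have h1 := (Fin.insertNthEquiv (fun _ => Bool) i).sum_comp
    (fun c : Fin (N + 1) → Bool => g (fun j => c (i.succAbove j)))
  rw [← h1, Fintype.sum_prod_type]
  simp only [Fin.insertNthEquiv_apply, Fin.insertNth_apply_succAbove]
  rw [Finset.sum_const, Finset.card_univ, Fintype.card_bool, nsmul_eq_mul]
  norm_num

/-- PROOF. All the mixtures are good, so `tt = theta lam`. For units `y j`: `theta lam y = ∑ i, (-1)^i * ev lam (y ∘ i.succAbove)`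
(`A_quot_sum`, `A_ev_units` of `ntUV/A.lean`; `theta` is unchanged if all `y j` are divided by one `s`, here `s = 1`).
Multilinearity: `ev lam (fun j => v (i.succAbove j) * w (i.succAbove j)) = ∑ c' : Fin N → Bool, ev lam (mixture of c')` (compare
`A_prod`), and every `c'` is the restriction (`c ∘ i.succAbove`) of exactly two `c`. So the sum is `2 * ∑ i, (-1)^i ev lam (products)`, which
is zero by `LA_rel` (`f j = v j * w j`, `s = 1`). The `w j` are units: the mixture `c = fun _ => true`. -/
theorem B4_rel (P : SL K F) (H W : Submodule K F) (lam : (Additive Fˣ) [⋀^Fin N]→ₗ[ℤ] ℝ)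
    (hS : StU P lam) (v w : Fin (N + 1) → H) (h : Om v w) (hOK : OK P H W v w) :
    ∑ c : Fin (N + 1) → Bool, tt P H W lam (mix c v w) = 0 := by
  classical
  obtain ⟨hG, hch⟩ := hOK
  have hvU : ∀ j, IsU P (v j : F) := fun j => by
    have := (hG (fun _ => false)).1 j
    simpa [mix] using this
  have hwU : ∀ j, IsU P (w j : F) := fun j => by
    have := (hG (fun _ => true)).1 j
    simpa [mix] using this
  have h1 : ∀ c : Fin (N + 1) → Bool, tt P H W lam (mix c v w) =
      ∑ i : Fin (N + 1), (-1 : ℝ) ^ (i : ℕ) *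
        ev lam (fun j => if c (i.succAbove j) then (w (i.succAbove j) : F) else (v (i.succAbove j) : F)) := by
    intro c
    unfold tt
    rw [if_pos (hG c), B4_theta lam _ (fun j => ((hG c).1 j).ne)]
    refine Finset.sum_congr rfl fun i _ => ?_
    congr 2
    funext j
    unfold mix
    split_ifs <;> rfl
  simp only [h1]
  rw [Finset.sum_comm]
  have h2 : ∀ i : Fin (N + 1), ∑ c : Fin (N + 1) → Bool, (-1 : ℝ) ^ (i : ℕ) *
        ev lam (fun j => if c (i.succAbove j) then (w (i.succAbove j) : F) else (v (i.succAbove j) : F)) =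
      2 * ((-1 : ℝ) ^ (i : ℕ) * ev lam (fun j : Fin N => ((v (i.succAbove j) : F) * (w (i.succAbove j) : F)) / 1)) := by
    intro i
    rw [← Finset.mul_sum]
    have h3 := B4_double i (fun c : Fin N → Bool =>
      ev lam (fun j => if c j then (w (i.succAbove j) : F) else (v (i.succAbove j) : F)))
    simp only at h3
    rw [h3, ← B4_prod lam (fun j => (v (i.succAbove j) : F)) (fun j => (w (i.succAbove j) : F))
      (fun j => (hvU _).ne) (fun j => (hwU _).ne)]
    simp only [div_one]
    ring
  simp only [h2]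
  rw [← Finset.mul_sum, LA_rel P lam hS (fun j => (v j : F) * (w j : F))
    (fun j => (hvU j).mul (hwU j)) h hch 1 one_ne_zero, mul_zero]

end Pool.Agent.MP_b197b4_ntV3
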