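import Pool.Agent.Lib.MP_b197b4_ntV3.B2

/-!
# V3, leaf B5: exchanging variables
-/

set_option autoImplicit false
set_option linter.unusedSectionVars false

noncomputable section

namespace Pool.Agent.MP_b197b4_ntV3

open scoped BigOperators
open Pool.Agent.MP_b197b4_ntUV Pool.Agent.MP_b197b4_ntLV

variable {K F : Type*} [Field K] [Field F] [Algebra K F] {N : ℕ}

private theorem B5_mm {α : Type*} (c : Fin (N + 1) → Bool) (v w : Fin (N + 1) → α) :
    mix c (mix c v w) (mix c w v) = v := by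
  funext j
  by_cases h : c j
  · simp [mix, h]
  · simp [mix, h]

private theorem B5_om {H : Submodule K F} (c : Fin (N + 1) → Bool) (v w : Fin (N + 1) → H) :
    Om (mix c v w) (mix c w v) ↔ Om v w := by
  unfold Om
  have h : ∑ j, ((mix c v w j : H) : F) * ((mix c w v j : H) : F) = ∑ j, (v j : F) * (w j : F) := by
    refine Finset.sum_congr rfl fun j _ => ?_
    by_cases h : c j
    · simp [mix, h, mul_comm]
    · simp [mix, h]
  rw [h]

/-- PROOF. `(v, w) ↦ (mix c v w, mix c w v)` is an involution of the pairs and `Om (mix c v w) (mix c w v) ↔ Om v w`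
(`mix c v w j * mix c w v j = v j * w j`). -/
theorem B5_inv {H : Submodule K F} [Fintype H] (c : Fin (N + 1) → Bool)
    (f : (Fin (N + 1) → H) → (Fin (N + 1) → H) → ℝ) :
    SOm f = SOm fun v w => f (mix c v w) (mix c w v) := by
  classical
  have h : ∀ g : (Fin (N + 1) → H) × (Fin (N + 1) → H) → ℝ,
      ∑ x, g x = ∑ x : (Fin (N + 1) → H) × (Fin (N + 1) → H), g (mix c x.1 x.2, mix c x.2 x.1) := by
    intro g
    let e : (Fin (N + 1) → H) × (Fin (N + 1) → H) ≃ (Fin (N + 1) → H) × (Fin (N + 1) → H) :=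
      ⟨fun x => (mix c x.1 x.2, mix c x.2 x.1), fun x => (mix c x.1 x.2, mix c x.2 x.1),
        fun x => Prod.ext (B5_mm c x.1 x.2) (B5_mm c x.2 x.1), fun x => Prod.ext (B5_mm c x.1 x.2) (B5_mm c x.2 x.1)⟩
    exact (Equiv.sum_comp e g).symm
  unfold SOm
  rw [← Fintype.sum_prod_type', ← Fintype.sum_prod_type', h]
  refine Finset.sum_congr rfl fun x _ => ?_
  exact if_congr (B5_om c x.1 x.2) rfl rfl

/-- PROOF. `tt v ^ 2 = 0` unless `v` is good, and then the number of the `w` with `Om v w` is `card H ^ (N + 1) / card W` (`B2_all`). -/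
theorem B5_sq (P : SL K F) (H W : Submodule K F) [Fintype H] [Finite W]
    (hHW : ∀ a b : H, (a : F) * (b : F) ∈ W) (hN : 0 < N) (lam : (Additive Fˣ) [⋀^Fin N]→ₗ[ℤ] ℝ) :
    (Nat.card W : ℝ) * SOm (fun v _ => tt P H W lam v ^ 2) =
      (Nat.card H : ℝ) ^ (N + 1) * ∑ v, tt P H W lam v ^ 2 := by
  classical
  unfold SOm
  rw [Finset.mul_sum, Finset.mul_sum]
  refine Finset.sum_congr rfl fun v _ => ?_
  by_cases hv : G2 P H W v
  · have h1 : ∀ w : Fin (N + 1) → H, (if Om v w then tt P H W lam v ^ 2 else 0) =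
        (if Om v w then (1 : ℝ) else 0) * tt P H W lam v ^ 2 := by
      intro w
      by_cases hw : Om v w
      · rw [if_pos hw, if_pos hw, one_mul]
      · rw [if_neg hw, if_neg hw, zero_mul]
    rw [Finset.sum_congr rfl fun w _ => h1 w, ← Finset.sum_mul, ← mul_assoc, B2_all P H W hHW hN v hv]
  · have h0 : tt P H W lam v = 0 := if_neg hv
    have h1 : ∀ w : Fin (N + 1) → H, (if Om v w then tt P H W lam v ^ 2 else 0) = 0 := by
      intro w
      rw [h0]
      simp
    rw [Finset.sum_congr rfl fun w _ => h1 w, h0]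
    simp

/-- PROOF. `B5_inv`. -/
theorem B5_mixsq (P : SL K F) (H W : Submodule K F) [Fintype H]
    (lam : (Additive Fˣ) [⋀^Fin N]→ₗ[ℤ] ℝ) (c : Fin (N + 1) → Bool) :
    SOm (fun v w => tt P H W lam (mix c v w) ^ 2) = SOm (fun v (_ : Fin (N + 1) → H) => tt P H W lam v ^ 2) := by
  exact (B5_inv c fun v (_ : Fin (N + 1) → H) => tt P H W lam v ^ 2).symm

end Pool.Agent.MP_b197b4_ntV3
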