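import Pool.Agent.Lib.MP_b197b4_ntV3.B5
import Pool.Agent.Lib.MP_b197b4_ntV3.B3

/-!
# V3, leaf B6: the terms with at least two exchanged rows
-/

set_option autoImplicit false
set_option linter.unusedSectionVars false

noncomputable section

namespace Pool.Agent.MP_b197b4_ntV3

open scoped BigOperators
open Pool.Agent.MP_b197b4_ntUV Pool.Agent.MP_b197b4_ntLV

variable {K F : Type*} [Field K] [Field F] [Algebra K F] {N : ℕ}

/-- The move. -/
def mv {H : Submodule K F} (i j : Fin (N + 1)) (τ : K) (v w : Fin (N + 1) → H) : Fin (N + 1) → H :=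
  Function.update (Function.update v i (v i + τ • w j)) j (v j - τ • w i)

private theorem B6_at_j {H : Submodule K F} (i j : Fin (N + 1)) (τ : K) (v w : Fin (N + 1) → H) :
    mv i j τ v w j = v j - τ • w i := by
  unfold mv
  rw [Function.update_self]

private theorem B6_at_i {H : Submodule K F} {i j : Fin (N + 1)} (hij : i ≠ j) (τ : K)
    (v w : Fin (N + 1) → H) : mv i j τ v w i = v i + τ • w j := by
  unfold mv
  rw [Function.update_of_ne hij, Function.update_self]

private theorem B6_at_k {H : Submodule K F} {i j k : Fin (N + 1)} (hki : k ≠ i) (hkj : k ≠ j)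
    (τ : K) (v w : Fin (N + 1) → H) : mv i j τ v w k = v k := by
  unfold mv
  rw [Function.update_of_ne hkj, Function.update_of_ne hki]

private theorem B6_comp {H : Submodule K F} {i j : Fin (N + 1)} (hij : i ≠ j) (σ τ : K)
    (v w : Fin (N + 1) → H) : mv i j σ (mv i j τ v w) w = mv i j (σ + τ) v w := by
  funext k
  by_cases hkj : k = j
  · subst hkj
    rw [B6_at_j, B6_at_j, B6_at_j, add_smul]
    abel
  · by_cases hki : k = i
    · subst hki
      rw [B6_at_i hij, B6_at_i hij, B6_at_i hij, add_smul]
      abel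
    · rw [B6_at_k hki hkj, B6_at_k hki hkj, B6_at_k hki hkj]

private theorem B6_mv_zero {H : Submodule K F} {i j : Fin (N + 1)} (hij : i ≠ j)
    (v w : Fin (N + 1) → H) : mv i j 0 v w = v := by
  funext k
  by_cases hkj : k = j
  · subst hkj
    rw [B6_at_j, zero_smul, sub_zero]
  · by_cases hki : k = i
    · subst hki
      rw [B6_at_i hij, zero_smul, add_zero]
    · rw [B6_at_k hki hkj]

private theorem B6_Om {H : Submodule K F} {i j : Fin (N + 1)} (hij : i ≠ j) (τ : K)
    (v w : Fin (N + 1) → H) : Om (mv i j τ v w) w ↔ Om v w := by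
  have key : ∑ k, ((mv i j τ v w k : H) : F) * (w k : F) = ∑ k, (v k : F) * (w k : F) := by
    have h1 : ∀ k, ((mv i j τ v w k : H) : F) * (w k : F) =
        (v k : F) * (w k : F) + ((if k = i then (τ • ((w j : F) * (w i : F))) else 0) -
          (if k = j then (τ • ((w i : F) * (w j : F))) else 0)) := by
      intro k
      by_cases hkj : k = j
      · subst hkj
        have hki : k ≠ i := fun h => hij h.symm
        rw [B6_at_j, if_neg hki, if_pos rfl, Submodule.coe_sub, Submodule.coe_smul, sub_mul,
          smul_mul_assoc]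
        ring
      · by_cases hki : k = i
        · subst hki
          rw [B6_at_i hij, if_pos rfl, if_neg hkj, Submodule.coe_add, Submodule.coe_smul, add_mul,
            smul_mul_assoc]
          ring
        · rw [B6_at_k hki hkj, if_neg hki, if_neg hkj]
          ring
    rw [Finset.sum_congr rfl fun k _ => h1 k, Finset.sum_add_distrib, Finset.sum_sub_distrib,
      Finset.sum_ite_eq', Finset.sum_ite_eq', if_pos (Finset.mem_univ _), if_pos (Finset.mem_univ _),
      mul_comm (w j : F) (w i : F), sub_self, add_zero]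
  unfold Om
  rw [key]

private def B6_equiv {H : Submodule K F} {i j : Fin (N + 1)} (hij : i ≠ j) (τ : K)
    (w : Fin (N + 1) → H) : (Fin (N + 1) → H) ≃ (Fin (N + 1) → H) where
  toFun v := mv i j τ v w
  invFun v := mv i j (-τ) v w
  left_inv v := by
    change mv i j (-τ) (mv i j τ v w) w = v
    rw [B6_comp hij, neg_add_cancel, B6_mv_zero hij]
  right_inv v := by
    change mv i j τ (mv i j (-τ) v w) w = v
    rw [B6_comp hij, add_neg_cancel, B6_mv_zero hij]

/-- PROOF. `mv i j τ` (with `w` fixed) is a permutation of the `v` (inverse `mv i j (-τ)`), and `Om (mv i j τ v w) w ↔ Om v w`: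
the sum changes by `τ • (w j * w i) - τ • (w i * w j) = 0`. -/
theorem B6_inv {H : Submodule K F} [Fintype H] {i j : Fin (N + 1)} (hij : i ≠ j) (τ : K)
    (f : (Fin (N + 1) → H) → (Fin (N + 1) → H) → ℝ) :
    SOm f = SOm fun v w => f (mv i j τ v w) w := by
  classical
  unfold SOm
  rw [Finset.sum_comm]
  conv_rhs => rw [Finset.sum_comm]
  refine Finset.sum_congr rfl fun w _ => ?_
  rw [← Equiv.sum_comp (B6_equiv hij τ w)]
  refine Finset.sum_congr rfl fun v _ => ?_
  change (if Om (mv i j τ v w) w then f (mv i j τ v w) w else 0) = _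
  by_cases h : Om v w
  · rw [if_pos h, if_pos ((B6_Om hij τ v w).2 h)]
  · rw [if_neg h, if_neg fun h' => h ((B6_Om hij τ v w).1 h')]

private def B6_subE {H : Submodule K F} (x : H) (δ : K) (hδ : δ ≠ 0) : H ≃ H where
  toFun b := x - δ • b
  invFun b := δ⁻¹ • (x - b)
  left_inv b := by
    change δ⁻¹ • (x - (x - δ • b)) = b
    rw [sub_sub_cancel, smul_smul, inv_mul_cancel₀ hδ, one_smul]
  right_inv b := by
    change x - δ • (δ⁻¹ • (x - b)) = b
    rw [smul_smul, mul_inv_cancel₀ hδ, one_smul, sub_sub_cancel]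

private def B6_affE {H : Submodule K F} (x : H) (δ : K) (hδ : δ ≠ 0) : H ≃ H where
  toFun b := x + δ • b
  invFun b := δ⁻¹ • (b - x)
  left_inv b := by
    change δ⁻¹ • (x + δ • b - x) = b
    rw [add_sub_cancel_left, smul_smul, inv_mul_cancel₀ hδ, one_smul]
  right_inv b := by
    change x + δ • (δ⁻¹ • (b - x)) = b
    rw [smul_smul, mul_inv_cancel₀ hδ, one_smul, add_sub_cancel]

/-- PROOF. If `δ ≠ 0`: if `v` is not good the term is zero; if it is, `mv i j δ v w` depends only on `w i`, `w j`, so by `B2_two`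
the sum over `w` is a constant times `∑ a b, tt (update (update v i (v i + δ • b)) j (v j - δ • a))`, and this is zero by `B3_sum`
(`a' = v i + δ • b` and `b' = v j - δ • a` run through `H × H`; `Equiv` of the sums). -/
theorem B6_zero (P : SL K F) (H W : Submodule K F) [Fintype H] [Finite W]
    (hHW : ∀ a b : H, (a : F) * (b : F) ∈ W) (lam : (Additive Fˣ) [⋀^Fin N]→ₗ[ℤ] ℝ)
    {i j : Fin (N + 1)} (hij : i ≠ j) (δ : K) (hδ : δ ≠ 0) :
    SOm (fun v w => tt P H W lam v * tt P H W lam (mv i j δ v w)) = 0 := by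
  classical
  unfold SOm
  refine Finset.sum_eq_zero fun v _ => ?_
  by_cases hv : G2 P H W v
  · have hS : ∑ a : H, ∑ b : H, tt P H W lam v *
        tt P H W lam (Function.update (Function.update v i (v i + δ • b)) j (v j - δ • a)) = 0 := by
      have h0 := B3_sum P H W lam v hij
      rw [← Equiv.sum_comp (B6_affE (v i) δ hδ)] at h0
      have h1 : ∀ b : H, ∑ b' : H, tt P H W lam
          (Function.update (Function.update v i ((B6_affE (v i) δ hδ) b)) j b') =
          ∑ a : H, tt P H W lam
            (Function.update (Function.update v i (v i + δ • b)) j (v j - δ • a)) := by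
        intro b
        rw [← Equiv.sum_comp (B6_subE (v j) δ hδ)]
        rfl
      rw [Finset.sum_congr rfl fun b _ => h1 b, Finset.sum_comm] at h0
      have h2 : ∑ a : H, ∑ b : H, tt P H W lam v *
          tt P H W lam (Function.update (Function.update v i (v i + δ • b)) j (v j - δ • a)) =
          tt P H W lam v * ∑ a : H, ∑ b : H,
            tt P H W lam (Function.update (Function.update v i (v i + δ • b)) j (v j - δ • a)) := by
        rw [Finset.mul_sum]
        exact Finset.sum_congr rfl fun a _ => (Finset.mul_sum _ _ _).symm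
      rw [h2, h0, mul_zero]
    have h3 := B2_two P H W hHW v hv hij (fun a b : H => tt P H W lam v *
      tt P H W lam (Function.update (Function.update v i (v i + δ • b)) j (v j - δ • a)))
    rw [hS, mul_zero] at h3
    have hW : (Nat.card W : ℝ) ≠ 0 := by
      have : 0 < Nat.card W := Nat.card_pos
      positivity
    rcases mul_eq_zero.1 h3 with h | h
    · exact absurd h hW
    · exact h
  · refine Finset.sum_eq_zero fun w _ => ?_
    have : tt P H W lam v = 0 := by
      unfold tt
      rw [if_neg hv]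
    change (if Om v w then tt P H W lam v * tt P H W lam (mv i j δ v w) else 0) = 0
    rw [this, zero_mul, ite_self]

private theorem B6_SOm_sum {ι : Type*} {H : Submodule K F} [Fintype H] (s : Finset ι)
    (f : ι → (Fin (N + 1) → H) → (Fin (N + 1) → H) → ℝ) :
    SOm (fun v w => ∑ t ∈ s, f t v w) = ∑ t ∈ s, SOm (f t) := by
  classical
  unfold SOm
  conv_rhs => rw [Finset.sum_comm]
  refine Finset.sum_congr rfl fun v _ => ?_
  conv_rhs => rw [Finset.sum_comm]
  refine Finset.sum_congr rfl fun w _ => ?_
  by_cases h : Om v w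
  · simp only [if_pos h]
  · simp only [if_neg h, Finset.sum_const_zero]

/-- PROOF. `m v w = (∑ τ, tt (mv i j τ v w))` (sum over `τ : K`). `SOm (m ^ 2) = ∑ τ τ', SOm (tt (mv τ v w) * tt (mv τ' v w))`, and by `B6_inv`
(with `-τ`; `mv i j τ' (mv i j (-τ) v w) w = mv i j (τ' - τ) v w`) the term is `SOm (tt v * tt (mv (τ' - τ) v w))`: zero for
`τ ≠ τ'` (`B6_zero`), `SOm (tt v ^ 2)` for `τ = τ'`. -/
theorem B6_avg [Fintype K] (P : SL K F) (H W : Submodule K F) [Fintype H] [Finite W]
    (hHW : ∀ a b : H, (a : F) * (b : F) ∈ W) (lam : (Additive Fˣ) [⋀^Fin N]→ₗ[ℤ] ℝ)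
    {i j : Fin (N + 1)} (hij : i ≠ j) :
    SOm (fun v w => (∑ τ : K, tt P H W lam (mv i j τ v w)) ^ 2) =
      (Fintype.card K : ℝ) * SOm (fun v (_ : Fin (N + 1) → H) => tt P H W lam v ^ 2) := by
  classical
  have h1 : (fun v w : Fin (N + 1) → H => (∑ τ : K, tt P H W lam (mv i j τ v w)) ^ 2) =
      fun v w => ∑ τ : K, ∑ σ : K, tt P H W lam (mv i j τ v w) * tt P H W lam (mv i j σ v w) := by
    funext v w
    rw [sq, Finset.sum_mul_sum]
  have h2 : ∀ τ σ : K, SOm (fun v w : Fin (N + 1) → H =>
      tt P H W lam (mv i j τ v w) * tt P H W lam (mv i j σ v w)) =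
      if τ = σ then SOm (fun v (_ : Fin (N + 1) → H) => tt P H W lam v ^ 2) else 0 := by
    intro τ σ
    rw [B6_inv hij (-τ)]
    have h3 : (fun v w : Fin (N + 1) → H => tt P H W lam (mv i j τ (mv i j (-τ) v w) w) *
        tt P H W lam (mv i j σ (mv i j (-τ) v w) w)) =
        fun v w => tt P H W lam v * tt P H W lam (mv i j (σ - τ) v w) := by
      funext v w
      rw [B6_comp hij, B6_comp hij, add_neg_cancel, B6_mv_zero hij, ← sub_eq_add_neg]
    rw [h3]
    by_cases h : τ = σ
    · subst h
      rw [if_pos rfl, sub_self]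
      have h4 : (fun v w : Fin (N + 1) → H => tt P H W lam v * tt P H W lam (mv i j 0 v w)) =
          fun v (_ : Fin (N + 1) → H) => tt P H W lam v ^ 2 := by
        funext v w
        rw [B6_mv_zero hij, sq]
      rw [h4]
    · rw [if_neg h]
      exact B6_zero P H W hHW lam hij (σ - τ) (sub_ne_zero.2 fun h' => h h'.symm)
  rw [h1, B6_SOm_sum Finset.univ]
  have h5 : ∀ τ : K, SOm (fun v w : Fin (N + 1) → H => ∑ σ : K,
      tt P H W lam (mv i j τ v w) * tt P H W lam (mv i j σ v w)) =
      SOm (fun v (_ : Fin (N + 1) → H) => tt P H W lam v ^ 2) := by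
    intro τ
    rw [B6_SOm_sum Finset.univ, Finset.sum_congr rfl fun σ _ => h2 τ σ, Finset.sum_ite_eq,
      if_pos (Finset.mem_univ _)]
  rw [Finset.sum_congr rfl fun τ _ => h5 τ, Finset.sum_const, Finset.card_univ, nsmul_eq_mul]

end Pool.Agent.MP_b197b4_ntV3
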