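import Pool.Agent.Lib.MP_b197b4_ntV3.B6

/-!
# V3, leaf B6b: the terms with at least two exchanged rows, conclusion
-/

set_option autoImplicit false
set_option linter.unusedSectionVars false

noncomputable section

namespace Pool.Agent.MP_b197b4_ntV3

open scoped BigOperators
open Pool.Agent.MP_b197b4_ntUV Pool.Agent.MP_b197b4_ntLV

variable {K F : Type*} [Field K] [Field F] [Algebra K F] {N : ℕ}

private theorem B6b_cs {H : Submodule K F} [Fintype H]
    (f g : (Fin (N + 1) → H) → (Fin (N + 1) → H) → ℝ) :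
    SOm (fun v w => f v w * g v w) ^ 2 ≤ SOm (fun v w => f v w ^ 2) * SOm (fun v w => g v w ^ 2) := by
  classical
  have h1 : ∀ h : (Fin (N + 1) → H) → (Fin (N + 1) → H) → ℝ,
      SOm h = ∑ p : (Fin (N + 1) → H) × (Fin (N + 1) → H), if Om p.1 p.2 then h p.1 p.2 else 0 := by
    intro h
    unfold SOm
    exact (Fintype.sum_prod_type'
      (f := fun v w => if Om v w then h v w else (0 : ℝ))).symm
  rw [h1, h1, h1]
  have h2 := Finset.sum_mul_sq_le_sq_mul_sq (Finset.univ)
    (fun p : (Fin (N + 1) → H) × (Fin (N + 1) → H) => if Om p.1 p.2 then f p.1 p.2 else 0)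
    (fun p : (Fin (N + 1) → H) × (Fin (N + 1) → H) => if Om p.1 p.2 then g p.1 p.2 else 0)
  refine le_of_eq_of_le ?_ (le_of_le_of_eq h2 ?_)
  · refine congrArg (fun x : ℝ => x ^ 2) (Finset.sum_congr rfl fun p _ => ?_)
    by_cases hp : Om p.1 p.2
    · rw [if_pos hp, if_pos hp, if_pos hp]
    · rw [if_neg hp, if_neg hp, zero_mul]
  · refine congrArg₂ (fun x y : ℝ => x * y) (Finset.sum_congr rfl fun p _ => ?_)
      (Finset.sum_congr rfl fun p _ => ?_)
    · by_cases hp : Om p.1 p.2
      · rw [if_pos hp, if_pos hp]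
      · rw [if_neg hp, if_neg hp]
        ring
    · by_cases hp : Om p.1 p.2
      · rw [if_pos hp, if_pos hp]
      · rw [if_neg hp, if_neg hp]
        ring

private theorem B6b_sum {H : Submodule K F} [Fintype H] [Fintype K]
    (f : K → (Fin (N + 1) → H) → (Fin (N + 1) → H) → ℝ) :
    ∑ τ, SOm (f τ) = SOm fun v w => ∑ τ, f τ v w := by
  classical
  unfold SOm
  rw [Finset.sum_comm]
  refine Finset.sum_congr rfl fun v _ => ?_
  rw [Finset.sum_comm]
  refine Finset.sum_congr rfl fun w _ => ?_
  by_cases h : Om v w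
  · rw [if_pos h]
    exact Finset.sum_congr rfl fun τ _ => if_pos h
  · rw [if_neg h]
    exact Finset.sum_eq_zero fun τ _ => if_neg h

private theorem B6b_mix {H : Submodule K F} (c : Fin (N + 1) → Bool) {i j : Fin (N + 1)}
    (hi : c i = true) (hj : c j = true) (τ : K) (v w : Fin (N + 1) → H) :
    mix c (mv i j τ v w) w = mix c v w := by
  funext s
  unfold mix
  by_cases hs : c s = true
  · rw [if_pos hs, if_pos hs]
  · rw [if_neg hs, if_neg hs]
    have h1 : s ≠ i := fun h => hs (by rw [h]; exact hi)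
    have h2 : s ≠ j := fun h => hs (by rw [h]; exact hj)
    unfold mv
    rw [Function.update_of_ne h2, Function.update_of_ne h1]

/-- PROOF. `Q = SOm (tt v * tt (mix c v w))`. For every `τ`, `mix c (mv i j τ v w) w = mix c v w` (`c i = c j = true`), so by `B6_inv`
`Q = SOm (tt (mv τ v w) * tt (mix c v w))`, `card K * Q = SOm ((∑ τ, tt (mv τ v w)) * tt (mix c v w))`; Cauchy-Schwarz
(`Finset.sum_mul_sq_le_sq_mul_sq`, on the pairs) with `B6_avg`, `B5_mixsq`: `(card K * Q) ^ 2 ≤ card K * S * S`,
`S = SOm (tt v ^ 2)`. Divide by `card K`. -/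
theorem B6_main [Fintype K] (P : SL K F) (H W : Submodule K F) [Fintype H] [Finite W]
    (hHW : ∀ a b : H, (a : F) * (b : F) ∈ W) (lam : (Additive Fˣ) [⋀^Fin N]→ₗ[ℤ] ℝ)
    (c : Fin (N + 1) → Bool) {i j : Fin (N + 1)} (hij : i ≠ j) (hi : c i = true) (hj : c j = true) :
    (Fintype.card K : ℝ) * SOm (fun v w => tt P H W lam v * tt P H W lam (mix c v w)) ^ 2 ≤
      SOm (fun v (_ : Fin (N + 1) → H) => tt P H W lam v ^ 2) ^ 2 := by
  have hQ : (Fintype.card K : ℝ) * SOm (fun v w => tt P H W lam v * tt P H W lam (mix c v w)) =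
      SOm (fun v w => (∑ τ : K, tt P H W lam (mv i j τ v w)) * tt P H W lam (mix c v w)) := by
    have h1 : ∀ τ : K, SOm (fun v w => tt P H W lam v * tt P H W lam (mix c v w)) =
        SOm (fun v w => tt P H W lam (mv i j τ v w) * tt P H W lam (mix c v w)) := by
      intro τ
      rw [B6_inv hij τ (fun v w => tt P H W lam v * tt P H W lam (mix c v w))]
      refine congrArg SOm ?_
      funext v w
      rw [B6b_mix c hi hj τ v w]
    calc (Fintype.card K : ℝ) * SOm (fun v w => tt P H W lam v * tt P H W lam (mix c v w))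
        = ∑ _τ : K, SOm (fun v w => tt P H W lam v * tt P H W lam (mix c v w)) := by
          rw [Finset.sum_const, Finset.card_univ, nsmul_eq_mul]
      _ = ∑ τ : K, SOm (fun v w => tt P H W lam (mv i j τ v w) * tt P H W lam (mix c v w)) :=
          Finset.sum_congr rfl fun τ _ => h1 τ
      _ = SOm (fun v w => ∑ τ : K, tt P H W lam (mv i j τ v w) * tt P H W lam (mix c v w)) :=
          B6b_sum (fun (τ : K) v w => tt P H W lam (mv i j τ v w) * tt P H W lam (mix c v w))
      _ = _ := by
          refine congrArg SOm ?_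
          funext v w
          rw [Finset.sum_mul]
  have h2 := B6b_cs (fun v w => ∑ τ : K, tt P H W lam (mv i j τ v w))
    (fun v w => tt P H W lam (mix c v w))
  rw [← hQ, B6_avg P H W hHW lam hij, B5_mixsq P H W lam c] at h2
  have h3 : (0 : ℝ) < (Fintype.card K : ℝ) := by
    have : 0 < Fintype.card K := Fintype.card_pos
    exact_mod_cast this
  have h4 : (Fintype.card K : ℝ) * ((Fintype.card K : ℝ) *
      SOm (fun v w => tt P H W lam v * tt P H W lam (mix c v w)) ^ 2) ≤
      (Fintype.card K : ℝ) * SOm (fun v (_ : Fin (N + 1) → H) => tt P H W lam v ^ 2) ^ 2 := by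
    nlinarith [h2]
  exact le_of_mul_le_mul_left h4 h3

end Pool.Agent.MP_b197b4_ntV3
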