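import Pool.Agent.Lib.MP_b197b4_ntV3.B5

/-!
# V3, leaf B7: the terms with one exchanged row
-/

set_option autoImplicit false
set_option linter.unusedSectionVars false

noncomputable section

namespace Pool.Agent.MP_b197b4_ntV3

open scoped BigOperators
open Pool.Agent.MP_b197b4_ntUV Pool.Agent.MP_b197b4_ntLV

variable {K F : Type*} [Field K] [Field F] [Algebra K F] {N : ℕ}

private theorem B7_avg {α : Type*} [Fintype α] {n : ℕ} (i : Fin n) (g : (Fin n → α) → ℝ) :
    ∑ v : Fin n → α, ∑ a : α, g (Function.update v i a) = (Fintype.card α : ℝ) * ∑ v, g v := by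
  let e : ((Fin n → α) × α) ≃ ((Fin n → α) × α) :=
    { toFun := fun p => (Function.update p.1 i p.2, p.1 i)
      invFun := fun p => (Function.update p.1 i p.2, p.1 i)
      left_inv := by
        intro p
        apply Prod.ext
        · change Function.update (Function.update p.1 i p.2) i (p.1 i) = p.1
          rw [Function.update_idem, Function.update_eq_self]
        · change Function.update p.1 i p.2 i = p.2
          rw [Function.update_self]
      right_inv := by
        intro p
        apply Prod.ext
        · change Function.update (Function.update p.1 i p.2) i (p.1 i) = p.1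
          rw [Function.update_idem, Function.update_eq_self]
        · change Function.update p.1 i p.2 i = p.2
          rw [Function.update_self] }
  have h1 : ∑ v : Fin n → α, ∑ a : α, g (Function.update v i a) = ∑ p : (Fin n → α) × α, g (e p).1 := by
    rw [Fintype.sum_prod_type]
    rfl
  rw [h1, Equiv.sum_comp e (fun p => g p.1), Fintype.sum_prod_type, Finset.mul_sum]
  refine Finset.sum_congr rfl fun v _ => ?_
  change ∑ _y : α, g v = _
  rw [Finset.sum_const, Finset.card_univ, nsmul_eq_mul]

/-- PROOF. `mix c v w = update v i (w i)`. For `v` good the sum over `w` of `tt (update v i (w i))` is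
`card H ^ N / card W * ∑ a, tt (update v i a)` (`B2_one`); for `v` not good both sides are zero after multiplication with `tt v`. So `card W`
times the sum is `card H ^ N * ∑ v, tt v * T v`, `T v = ∑ a, tt (update v i a)`; `T v` does not depend on `v i`, so
`card H * ∑ v, tt v * T v = ∑ v, ∑ a, tt (update v i a) * T (update v i a) = ∑ v, T v ^ 2 ≥ 0`. -/
theorem B7_one (P : SL K F) (H W : Submodule K F) [Fintype H] [Finite W]
    (hHW : ∀ a b : H, (a : F) * (b : F) ∈ W) (hN : 0 < N) (lam : (Additive Fˣ) [⋀^Fin N]→ₗ[ℤ] ℝ)
    (c : Fin (N + 1) → Bool) (i : Fin (N + 1)) (hi : c i = true) (hc : ∀ j, j ≠ i → c j = false) :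
    0 ≤ SOm (fun v w => tt P H W lam v * tt P H W lam (mix c v w)) := by
  classical
  have hmix : ∀ v w : Fin (N + 1) → H, mix c v w = Function.update v i (w i) := by
    intro v w
    funext j
    unfold mix
    by_cases hj : j = i
    · rw [hj, Function.update_self, if_pos hi]
    · rw [Function.update_of_ne hj, if_neg (by rw [hc j hj]; exact Bool.false_ne_true)]
  set T : (Fin (N + 1) → H) → ℝ := fun v => ∑ a, tt P H W lam (Function.update v i a) with hT
  have hTu : ∀ v a, T (Function.update v i a) = T v := by
    intro v a
    rw [hT]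
    dsimp only
    refine Finset.sum_congr rfl fun b _ => ?_
    rw [Function.update_idem]
  have hone : ∀ v, (Nat.card W : ℝ) * (∑ w, if Om v w then tt P H W lam v * tt P H W lam (mix c v w) else 0) =
      (Nat.card H : ℝ) ^ N * (tt P H W lam v * T v) := by
    intro v
    by_cases hv : G2 P H W v
    · have h1 := B2_one P H W hHW hN v hv i (fun a => tt P H W lam v * tt P H W lam (Function.update v i a))
      have h2 : (∑ w, if Om v w then tt P H W lam v * tt P H W lam (mix c v w) else 0) =
          ∑ w, if Om v w then tt P H W lam v * tt P H W lam (Function.update v i (w i)) else 0 := by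
        refine Finset.sum_congr rfl fun w _ => ?_
        rw [hmix]
      rw [h2, h1, hT, ← Finset.mul_sum]
    · have h0 : tt P H W lam v = 0 := by
        unfold tt
        rw [if_neg hv]
      have h2 : (∑ w, if Om v w then tt P H W lam v * tt P H W lam (mix c v w) else 0) = 0 := by
        apply Finset.sum_eq_zero
        intro w _
        rw [h0, zero_mul, ite_self]
      rw [h2, h0, mul_zero, zero_mul, mul_zero]
  have hS : (Nat.card W : ℝ) * SOm (fun v w => tt P H W lam v * tt P H W lam (mix c v w)) =
      (Nat.card H : ℝ) ^ N * ∑ v, tt P H W lam v * T v := by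
    have h3 : SOm (fun v w => tt P H W lam v * tt P H W lam (mix c v w)) =
        ∑ v, ∑ w, if Om v w then tt P H W lam v * tt P H W lam (mix c v w) else 0 := rfl
    rw [h3, Finset.mul_sum, Finset.mul_sum]
    exact Finset.sum_congr rfl fun v _ => hone v
  have hsq : (Fintype.card H : ℝ) * ∑ v, tt P H W lam v * T v = ∑ v, T v * T v := by
    rw [← B7_avg i (fun v => tt P H W lam v * T v)]
    refine Finset.sum_congr rfl fun v _ => ?_
    have h4 : ∑ a, tt P H W lam (Function.update v i a) * T (Function.update v i a) =
        ∑ a, tt P H W lam (Function.update v i a) * T v :=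
      Finset.sum_congr rfl fun a _ => by rw [hTu]
    rw [h4, ← Finset.sum_mul]
  have hH : (0 : ℝ) < Fintype.card H := by exact_mod_cast Fintype.card_pos
  have hW : (0 : ℝ) < Nat.card W := by exact_mod_cast Nat.card_pos
  have hpos : 0 ≤ ∑ v, tt P H W lam v * T v := by
    have h5 : 0 ≤ (Fintype.card H : ℝ) * ∑ v, tt P H W lam v * T v := by
      rw [hsq]
      exact Finset.sum_nonneg fun v _ => mul_self_nonneg _
    exact nonneg_of_mul_nonneg_right h5 hH
  have h6 : 0 ≤ (Nat.card W : ℝ) * SOm (fun v w => tt P H W lam v * tt P H W lam (mix c v w)) := by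
    rw [hS]
    exact mul_nonneg (pow_nonneg (Nat.cast_nonneg _) _) hpos
  exact nonneg_of_mul_nonneg_right h6 hW


end Pool.Agent.MP_b197b4_ntV3
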