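import Mathlib

/-!
# V3, leaf S2: counting along lines, and in proper subspaces
-/

set_option autoImplicit false
set_option linter.unusedSectionVars false

noncomputable section

namespace Pool.Agent.MP_b197b4_ntV3

open scoped BigOperators

/-- PROOF. Count the pairs `(w, t)`, `w ∈ S`, `t ≠ 0`, with `Bad (w0 + t • (w - w0))`: at most `D * card S` by `h`; for every `t ≠ 0` the map
`w ↦ w0 + t • (w - w0)` is a bijection of `S`, so their number is `(card K - 1) * card {w ∈ S, Bad w}`. -/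
theorem S2_lines {K M : Type*} [Field K] [Fintype K] [AddCommGroup M] [Module K M] [Finite M] (S : Submodule K M)
    (w0 : M) (hw0 : w0 ∈ S) (Bad : M → Prop) (D : ℕ)
    (h : ∀ w ∈ S, Nat.card {t : K // t ≠ 0 ∧ Bad (w0 + t • (w - w0))} ≤ D) :
    (Fintype.card K - 1) * Nat.card {w : M // w ∈ S ∧ Bad w} ≤ D * Nat.card S := by
  classical
  have : Fintype M := Fintype.ofFinite M
  have e1 : ∀ t : K, t ≠ 0 → Nat.card {w : M // w ∈ S ∧ Bad w} =
      ∑ w : S, if Bad (w0 + t • ((w : M) - w0)) then 1 else 0 := by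
    intro t ht
    rw [Finset.sum_boole, ← Fintype.card_subtype, Nat.cast_id, ← Nat.card_eq_fintype_card]
    refine Nat.card_congr ⟨fun w => ⟨⟨w0 + t⁻¹ • ((w : M) - w0), S.add_mem hw0 (S.smul_mem _ (S.sub_mem w.2.1 hw0))⟩,
      ?_⟩, fun w => ⟨w0 + t • ((w : M) - w0), S.add_mem hw0 (S.smul_mem _ (S.sub_mem w.1.2 hw0)), w.2⟩, ?_, ?_⟩
    · have h1 : w0 + t • (w0 + t⁻¹ • ((w : M) - w0) - w0) = w := by
        rw [add_sub_cancel_left, smul_smul, mul_inv_cancel₀ ht, one_smul, add_sub_cancel]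
      rw [h1]
      exact w.2.2
    · intro w
      apply Subtype.ext
      change w0 + t • (w0 + t⁻¹ • ((w : M) - w0) - w0) = w
      rw [add_sub_cancel_left, smul_smul, mul_inv_cancel₀ ht, one_smul, add_sub_cancel]
    · intro w
      apply Subtype.ext
      apply Subtype.ext
      change w0 + t⁻¹ • (w0 + t • ((w : M) - w0) - w0) = w
      rw [add_sub_cancel_left, smul_smul, inv_mul_cancel₀ ht, one_smul, add_sub_cancel]
  have e2 : ∀ w : S, Nat.card {t : K // t ≠ 0 ∧ Bad (w0 + t • ((w : M) - w0))} =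
      ∑ t ∈ Finset.univ.filter (fun t : K => t ≠ 0), if Bad (w0 + t • ((w : M) - w0)) then 1 else 0 := by
    intro w
    rw [Finset.sum_boole, Finset.filter_filter, Nat.cast_id, ← Fintype.card_subtype, Nat.card_eq_fintype_card]
  have e3 : (Finset.univ.filter (fun t : K => t ≠ 0)).card = Fintype.card K - 1 := by
    rw [Finset.filter_ne', Finset.card_erase_of_mem (Finset.mem_univ _), Finset.card_univ]
  calc (Fintype.card K - 1) * Nat.card {w : M // w ∈ S ∧ Bad w}
      = ∑ t ∈ Finset.univ.filter (fun t : K => t ≠ 0), Nat.card {w : M // w ∈ S ∧ Bad w} := by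
        rw [Finset.sum_const, e3, smul_eq_mul]
    _ = ∑ t ∈ Finset.univ.filter (fun t : K => t ≠ 0), ∑ w : S,
          if Bad (w0 + t • ((w : M) - w0)) then 1 else 0 :=
        Finset.sum_congr rfl fun t ht => e1 t (Finset.mem_filter.1 ht).2
    _ = ∑ w : S, ∑ t ∈ Finset.univ.filter (fun t : K => t ≠ 0),
          if Bad (w0 + t • ((w : M) - w0)) then 1 else 0 := Finset.sum_comm
    _ = ∑ w : S, Nat.card {t : K // t ≠ 0 ∧ Bad (w0 + t • ((w : M) - w0))} :=
        Finset.sum_congr rfl fun w _ => (e2 w).symm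
    _ ≤ ∑ _w : S, D := Finset.sum_le_sum fun w _ => h w w.2
    _ = D * Nat.card S := by
        rw [Finset.sum_const, Finset.card_univ, smul_eq_mul, mul_comm, Nat.card_eq_fintype_card]

/-- PROOF. `L = {w ∈ S, A w}` is a subgroup of `S` closed under `K` and there is `w0 ∈ S` outside: the translates `L + t • w0`, `t : K`, are
disjoint subsets of `S`. (`A` is given as the membership in the subspace `Q` of the value of a linear map `l`.) -/
theorem S2_proper {K M Y : Type*} [Field K] [Fintype K] [AddCommGroup M] [Module K M] [Finite M] [AddCommGroup Y]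
    [Module K Y] (S : Submodule K M) (l : M →ₗ[K] Y) (Q : Submodule K Y) (w0 : M) (hw0 : w0 ∈ S) (hl : l w0 ∉ Q) :
    Fintype.card K * Nat.card {w : M // w ∈ S ∧ l w ∈ Q} ≤ Nat.card S := by
  classical
  rw [← Nat.card_eq_fintype_card, ← Nat.card_prod]
  refine Nat.card_le_card_of_injective
    (fun x : K × {w : M // w ∈ S ∧ l w ∈ Q} =>
      (⟨(x.2 : M) + x.1 • w0, S.add_mem x.2.2.1 (S.smul_mem _ hw0)⟩ : S)) ?_
  rintro ⟨t, w⟩ ⟨t', w'⟩ hx
  have h1 : (w : M) + t • w0 = (w' : M) + t' • w0 := congrArg Subtype.val hx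
  have h2 : (t - t') • l w0 = l w' - l w := by
    have h3 := congrArg l h1
    rw [map_add, map_add, map_smul, map_smul] at h3
    rw [sub_smul, sub_eq_sub_iff_add_eq_add, add_comm (t • l w0), h3, add_comm]
  have h4 : t = t' := by
    by_contra hne
    apply hl
    have h5 : l w0 = (t - t')⁻¹ • (l w' - l w) := by
      rw [← h2, smul_smul, inv_mul_cancel₀ (sub_ne_zero.2 hne), one_smul]
    rw [h5]
    exact Q.smul_mem _ (Q.sub_mem w'.2.2 w.2.2)
  subst h4
  have h6 : (w : M) = w' := add_right_cancel h1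
  rw [Prod.mk.injEq]
  exact ⟨rfl, Subtype.ext h6⟩

end Pool.Agent.MP_b197b4_ntV3
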