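import Pool.Agent.Lib.MP_b197b4_ntV3.Defs
import Pool.Agent.Lib.MP_b197b4_ntV3.S2

/-!
# V3, leaf B8c: entries and partial sums which are not units
-/

set_option autoImplicit false
set_option linter.unusedSectionVars false

noncomputable section

namespace Pool.Agent.MP_b197b4_ntV3

open scoped BigOperators
open Pool.Agent.MP_b197b4_ntUV Pool.Agent.MP_b197b4_ntLV

variable {K F : Type*} [Field K] [Field F] [Algebra K F] {N : ℕ}

/-- the syzygy with `w a = v b`, `w b = - v a`, the others `0` -/
private def b8cW {H : Submodule K F} (v : Fin (N + 1) → H) (a b : Fin (N + 1)) : Fin (N + 1) → H :=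
  Function.update (Function.update (fun _ => (0 : H)) b (-(v a))) a (v b)

private theorem b8cW_a {H : Submodule K F} (v : Fin (N + 1) → H) (a b : Fin (N + 1)) : b8cW v a b a = v b := by
  unfold b8cW
  rw [Function.update_self]

private theorem b8cW_b {H : Submodule K F} (v : Fin (N + 1) → H) (a b : Fin (N + 1)) (hab : a ≠ b) :
    b8cW v a b b = -(v a) := by
  unfold b8cW
  rw [Function.update_of_ne (Ne.symm hab), Function.update_self]

private theorem b8cW_o {H : Submodule K F} (v : Fin (N + 1) → H) (a b c : Fin (N + 1)) (hca : c ≠ a) (hcb : c ≠ b) :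
    b8cW v a b c = 0 := by
  unfold b8cW
  rw [Function.update_of_ne hca, Function.update_of_ne hcb]

private theorem b8cW_mem {H : Submodule K F} (v : Fin (N + 1) → H) (a b : Fin (N + 1)) (hab : a ≠ b) :
    b8cW v a b ∈ Syz v := by
  rw [mem_Syz]
  unfold Om
  have h1 : ∑ j, (v j : F) * (b8cW v a b j : F) =
      ∑ j ∈ ({a, b} : Finset (Fin (N + 1))), (v j : F) * (b8cW v a b j : F) := by
    symm
    apply Finset.sum_subset (Finset.subset_univ _)
    intro c _ hc
    rw [Finset.mem_insert, Finset.mem_singleton, not_or] at hc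
    rw [b8cW_o v a b c hc.1 hc.2, Submodule.coe_zero, mul_zero]
  rw [h1, Finset.sum_pair hab, b8cW_a, b8cW_b v a b hab, Submodule.coe_neg]
  ring

/-- PROOF. `S2_proper` with `l w = w j`, `Q = P.M l`. A syzygy with `w j = v j'` for some `j' ≠ j` (`0 < N`): `w j = v j'`, `w j' = - v j`, the others `0`;
`v j'` is a unit, so not in `P.M l` (`IsU.not_mem`). -/
theorem B8_unit [Fintype K] (P : SL K F) (H W : Submodule K F) [Finite H] (hN : 0 < N)
    (v : Fin (N + 1) → H) (hv : G2 P H W v) (j : Fin (N + 1)) (l : Fin P.r) :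
    Fintype.card K * Nat.card {w : Fin (N + 1) → H // w ∈ Syz v ∧ (w j : F) ∈ P.M l} ≤ Nat.card (Syz v) := by
  have : Nontrivial (Fin (N + 1)) := Fin.nontrivial_iff_two_le.2 (by omega)
  obtain ⟨j', hj'⟩ := exists_ne j
  have hk := S2_proper (Syz v) (H.subtype.comp (LinearMap.proj (R := K) (φ := fun _ : Fin (N + 1) => H) j)) (P.M l)
    (b8cW v j j') (b8cW_mem v j j' hj'.symm) (by
      change ((b8cW v j j' j : H) : F) ∉ P.M l
      rw [b8cW_a]
      exact (hv.1 j').not_mem l)
  exact hk

/-- the linear map: the partial sum -/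
private def b8cL {H : Submodule K F} (v : Fin (N + 1) → H) : List (Fin N) → ((Fin (N + 1) → H) →ₗ[K] F)
  | [] => 0
  | j :: L => (LinearMap.mulLeft K (v j.succ : F)).comp
      (H.subtype.comp (LinearMap.proj (R := K) (φ := fun _ : Fin (N + 1) => H) j.succ)) + b8cL v L

private theorem b8cL_eq {H : Submodule K F} (v : Fin (N + 1) → H) (L : List (Fin N)) (w : Fin (N + 1) → H) :
    b8cL v L w = (L.map fun j => (v j.succ : F) * (w j.succ : F)).sum := by
  induction L with
  | nil => rfl
  | cons j L ih =>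
    rw [List.map_cons, List.sum_cons, ← ih]
    rfl

/-- PROOF. `S2_proper` with the linear map `w ↦` the partial sum; the syzygy `w 1 = v 0`, `w 0 = - v 1`, the others zero (`0 < N`, `1 = Fin.succ 0`): its
partial sums (`0 < t`; the first element of `List.finRange N` is `0`) are `v 1 * v 0`, a unit. -/
theorem B8_part [Fintype K] (P : SL K F) (H W : Submodule K F) [Finite H]
    (v : Fin (N + 1) → H) (hv : G2 P H W v) (t : ℕ) (ht : 0 < t) (htN : t ≤ N) (l : Fin P.r) :
    Fintype.card K * Nat.card {w : Fin (N + 1) → H // w ∈ Syz v ∧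
      (((List.finRange N).take t).map fun j => (v j.succ : F) * (w j.succ : F)).sum ∈ P.M l} ≤ Nat.card (Syz v) := by
  obtain ⟨n, rfl⟩ : ∃ n, N = n + 1 := ⟨N - 1, by omega⟩
  obtain ⟨s, rfl⟩ : ∃ s, t = s + 1 := ⟨t - 1, by omega⟩
  have hne : (Fin.succ (0 : Fin (n + 1))) ≠ 0 := Fin.succ_ne_zero 0
  have hk := S2_proper (Syz v) (b8cL v ((List.finRange (n + 1)).take (s + 1))) (P.M l)
    (b8cW v (Fin.succ 0) 0) (b8cW_mem v (Fin.succ 0) 0 hne) (by
      rw [b8cL_eq]
      rw [List.finRange_succ, List.take_succ_cons, List.map_cons, List.sum_cons]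
      have h0 : ((((List.map Fin.succ (List.finRange n)).take s).map fun j : Fin (n + 1) =>
          (v j.succ : F) * (b8cW v (Fin.succ 0) 0 j.succ : F))).sum = 0 := by
        apply List.sum_eq_zero
        intro x hx
        rw [List.mem_map] at hx
        obtain ⟨j, hj, rfl⟩ := hx
        have hj2 := List.mem_of_mem_take hj
        rw [List.mem_map] at hj2
        obtain ⟨i, _, rfl⟩ := hj2
        rw [b8cW_o v (Fin.succ 0) 0 i.succ.succ (by
          intro h
          exact Fin.succ_ne_zero i (Fin.succ_injective _ h)) (Fin.succ_ne_zero _), Submodule.coe_zero, mul_zero]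
      rw [h0, add_zero, b8cW_a]
      exact ((hv.1 (Fin.succ 0)).mul (hv.1 0)).not_mem l)
  simp only [b8cL_eq] at hk
  exact hk

end Pool.Agent.MP_b197b4_ntV3
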