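import Pool.Agent.Lib.MP_b197b4_ntV3.B8b
import Pool.Agent.Lib.MP_b197b4_ntV3.B8c

/-!
# V3, leaf B8: the bad event
-/

set_option autoImplicit false
set_option linter.unusedSectionVars false

noncomputable section

namespace Pool.Agent.MP_b197b4_ntV3

open scoped BigOperators
open Pool.Agent.MP_b197b4_ntUV Pool.Agent.MP_b197b4_ntLV

variable {K F : Type*} [Field K] [Field F] [Algebra K F] {N : ℕ}

private theorem B8_or {M : Type*} [Finite M] (q a b : ℕ) (X Y Z : M → Prop) (hZ : ∀ w, Z w → X w ∨ Y w)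
    (hX : q * Nat.card {w : M // X w} ≤ a) (hY : q * Nat.card {w : M // Y w} ≤ b) :
    q * Nat.card {w : M // Z w} ≤ a + b := by
  have hX' : q * Set.ncard {w : M | X w} ≤ a := hX
  have hY' : q * Set.ncard {w : M | Y w} ≤ b := hY
  change q * Set.ncard {w : M | Z w} ≤ a + b
  have h1 : Set.ncard {w : M | Z w} ≤ Set.ncard {w : M | X w} + Set.ncard {w : M | Y w} :=
    (Set.ncard_le_ncard (fun w hw => hZ w hw) (Set.toFinite _)).trans (Set.ncard_union_le _ _)
  calc q * Set.ncard {w : M | Z w} ≤ q * (Set.ncard {w : M | X w} + Set.ncard {w : M | Y w}) :=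
        Nat.mul_le_mul_left _ h1
    _ = q * Set.ncard {w : M | X w} + q * Set.ncard {w : M | Y w} := mul_add _ _ _
    _ ≤ a + b := add_le_add hX' hY'

private theorem B8_union {M ι : Type*} [Finite M] (q b : ℕ) (A : ι → M → Prop) (I : Finset ι)
    (h : ∀ i ∈ I, q * Nat.card {w : M // A i w} ≤ b) :
    q * Nat.card {w : M // ∃ i ∈ I, A i w} ≤ I.card * b := by
  classical
  induction I using Finset.induction_on with
  | empty =>
    have he : IsEmpty {w : M // ∃ i ∈ (∅ : Finset ι), A i w} := by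
      refine ⟨?_⟩
      rintro ⟨w, i, hi, -⟩
      exact Finset.notMem_empty i hi
    rw [Nat.card_of_isEmpty, mul_zero]
    exact Nat.zero_le _
  | insert x I hx ih =>
    rw [Finset.card_insert_of_notMem hx, Nat.add_mul, one_mul, add_comm]
    refine B8_or q _ _ (A x) (fun w => ∃ i ∈ I, A i w) _ ?_ (h x (Finset.mem_insert_self _ _))
      (ih fun i hi => h i (Finset.mem_insert_of_mem hi))
    rintro w ⟨i, hi, hA⟩
    rcases Finset.mem_insert.1 hi with rfl | hi
    · exact Or.inl hA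
    · exact Or.inr ⟨i, hi, hA⟩

private theorem B8_ok (P : SL K F) (H W : Submodule K F) (hHS : H ≤ P.S) (v w : Fin (N + 1) → H)
    (hv : G2 P H W v) (h1 : ∀ j l, (w j : F) ∉ P.M l)
    (h2 : ∀ c i j, i ≠ j → Cov H W ((Finset.univ.erase i).erase j) (fun s => ((mix c v w s : H) : F)))
    (h3 : ∀ t, 0 < t → t ≤ N → ∀ l,
      (((List.finRange N).take t).map fun j => (v j.succ : F) * (w j.succ : F)).sum ∉ P.M l) :
    OK P H W v w := by
  refine ⟨fun c => ⟨fun j => ?_, fun i j hij => h2 c i j hij⟩, ?_⟩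
  · change IsU P (((if c j then w j else v j) : H) : F)
    by_cases hc : c j = true
    · rw [if_pos hc]
      exact IsU.of (hHS (w j).2) (h1 j)
    · rw [if_neg hc]
      exact hv.1 j
  · refine ⟨List.finRange N, List.nodup_finRange N, fun j => List.mem_finRange j, ?_⟩
    intro t ht htN
    refine IsU.of (list_sum_mem ?_) (h3 t ht htN)
    intro x hx
    obtain ⟨j, -, rfl⟩ := List.mem_map.1 hx
    exact P.mul_mem _ _ (hHS (v j.succ).2) (hHS (w j.succ).2)

private theorem B8_g1 [Fintype K] (P : SL K F) (H W : Submodule K F) [Finite H] (hN : 0 < N)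
    (v : Fin (N + 1) → H) (hv : G2 P H W v) (q : ℕ) (hq : q ≤ Fintype.card K) :
    q * Nat.card {w : Fin (N + 1) → H // ∃ a ∈ (Finset.univ : Finset (Fin (N + 1) × Fin P.r)),
      w ∈ Syz v ∧ (w a.1 : F) ∈ P.M a.2} ≤ (N + 1) * P.r * Nat.card (Syz v) := by
  have h := B8_union q (Nat.card (Syz v))
    (fun (a : Fin (N + 1) × Fin P.r) (w : Fin (N + 1) → H) => w ∈ Syz v ∧ (w a.1 : F) ∈ P.M a.2)
    Finset.univ (fun a _ => (Nat.mul_le_mul_right _ hq).trans (B8_unit P H W hN v hv a.1 a.2))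
  rw [Finset.card_univ, Fintype.card_prod, Fintype.card_fin, Fintype.card_fin] at h
  exact h

private theorem B8_g2 [Fintype K] (P : SL K F) (H W : Submodule K F) [Finite H] [Finite W]
    (hHW : ∀ a b : H, (a : F) * (b : F) ∈ W) (v : Fin (N + 1) → H) (hv : G2 P H W v) :
    (Fintype.card K - 1) * Nat.card {w : Fin (N + 1) → H // ∃ a ∈ (Finset.univ :
      Finset ((Fin (N + 1) → Bool) × (Fin (N + 1) × Fin (N + 1)))), a.2.1 ≠ a.2.2 ∧ (w ∈ Syz v ∧
      ¬ Cov H W ((Finset.univ.erase a.2.1).erase a.2.2) (fun s => ((mix a.1 v w s : H) : F)))} ≤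
      2 ^ (N + 1) * ((N + 1) * (N + 1)) * (Module.finrank K W * Nat.card (Syz v)) := by
  have h := B8_union (Fintype.card K - 1) (Module.finrank K W * Nat.card (Syz v))
    (fun (a : (Fin (N + 1) → Bool) × (Fin (N + 1) × Fin (N + 1))) (w : Fin (N + 1) → H) =>
      a.2.1 ≠ a.2.2 ∧ (w ∈ Syz v ∧
      ¬ Cov H W ((Finset.univ.erase a.2.1).erase a.2.2) (fun s => ((mix a.1 v w s : H) : F))))
    Finset.univ ?_
  · rw [Finset.card_univ, Fintype.card_prod, Fintype.card_prod, Fintype.card_fun, Fintype.card_fin,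
      Fintype.card_bool] at h
    exact h
  · intro a _
    by_cases hij : a.2.1 = a.2.2
    · have he : IsEmpty {w : Fin (N + 1) → H // a.2.1 ≠ a.2.2 ∧ (w ∈ Syz v ∧
          ¬ Cov H W ((Finset.univ.erase a.2.1).erase a.2.2) (fun s => ((mix a.1 v w s : H) : F)))} :=
        ⟨fun w => w.2.1 hij⟩
      rw [Nat.card_of_isEmpty, mul_zero]
      exact Nat.zero_le _
    · have h3 := B8_cov P H W hHW v hv a.1 hij
      refine le_trans (Nat.mul_le_mul_left _ ?_) h3
      exact Set.ncard_le_ncard (s := {w : Fin (N + 1) → H | a.2.1 ≠ a.2.2 ∧ (w ∈ Syz v ∧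
          ¬ Cov H W ((Finset.univ.erase a.2.1).erase a.2.2) (fun s => ((mix a.1 v w s : H) : F)))})
        (t := {w : Fin (N + 1) → H | w ∈ Syz v ∧
          ¬ Cov H W ((Finset.univ.erase a.2.1).erase a.2.2) (fun s => ((mix a.1 v w s : H) : F))})
        (fun w hw => hw.2) (Set.toFinite _)

private theorem B8_g3 [Fintype K] (P : SL K F) (H W : Submodule K F) [Finite H]
    (v : Fin (N + 1) → H) (hv : G2 P H W v) (q : ℕ) (hq : q ≤ Fintype.card K) :
    q * Nat.card {w : Fin (N + 1) → H // ∃ a ∈ (Finset.univ : Finset (Fin N × Fin P.r)),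
      w ∈ Syz v ∧ (((List.finRange N).take (a.1.val + 1)).map
        fun j => (v j.succ : F) * (w j.succ : F)).sum ∈ P.M a.2} ≤ N * P.r * Nat.card (Syz v) := by
  have h := B8_union q (Nat.card (Syz v))
    (fun (a : Fin N × Fin P.r) (w : Fin (N + 1) → H) => w ∈ Syz v ∧
      (((List.finRange N).take (a.1.val + 1)).map
        fun j => (v j.succ : F) * (w j.succ : F)).sum ∈ P.M a.2)
    Finset.univ (fun a _ => (Nat.mul_le_mul_right _ hq).trans
      (B8_part P H W v hv (a.1.val + 1) (Nat.succ_pos _) a.1.isLt a.2))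
  rw [Finset.card_univ, Fintype.card_prod, Fintype.card_fin, Fintype.card_fin] at h
  exact h

private theorem B8_num (r N D n : ℕ) :
    (N + 1) * r * n + (2 ^ (N + 1) * ((N + 1) * (N + 1)) * (D * n) + N * r * n) ≤ c3 r N D * n := by
  have h4 : (N + 1) * r + N * r ≤ 2 * (N + 1) * (r + 1) := by
    have h5 : (N + 1) * r + N * r + (r + 2 * N + 2) = 2 * (N + 1) * (r + 1) := by ring
    rw [← h5]
    exact Nat.le_add_right _ _
  calc (N + 1) * r * n + (2 ^ (N + 1) * ((N + 1) * (N + 1)) * (D * n) + N * r * n)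
      = 2 ^ (N + 1) * (N + 1) ^ 2 * D * n + ((N + 1) * r + N * r) * n := by ring
    _ ≤ 2 ^ (N + 1) * (N + 1) ^ 2 * D * n + (2 * (N + 1) * (r + 1)) * n :=
      Nat.add_le_add_left (Nat.mul_le_mul_right _ h4) _
    _ = c3 r N D * n := by
      unfold c3
      rw [add_mul]

/-- some entry is in some `P.M l` -/
private def B8_A (P : SL K F) {H : Submodule K F} (v w : Fin (N + 1) → H) : Prop :=
  ∃ a ∈ (Finset.univ : Finset (Fin (N + 1) × Fin P.r)), w ∈ Syz v ∧ (w a.1 : F) ∈ P.M a.2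

/-- some mixture does not cover -/
private def B8_B {H : Submodule K F} (W : Submodule K F) (v w : Fin (N + 1) → H) : Prop :=
  ∃ a ∈ (Finset.univ : Finset ((Fin (N + 1) → Bool) × (Fin (N + 1) × Fin (N + 1)))),
    a.2.1 ≠ a.2.2 ∧ (w ∈ Syz v ∧
    ¬ Cov H W ((Finset.univ.erase a.2.1).erase a.2.2) (fun s => ((mix a.1 v w s : H) : F)))

/-- some partial sum is in some `P.M l` -/
private def B8_C (P : SL K F) {H : Submodule K F} (v w : Fin (N + 1) → H) : Prop :=
  ∃ a ∈ (Finset.univ : Finset (Fin N × Fin P.r)),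
    w ∈ Syz v ∧ (((List.finRange N).take (a.1.val + 1)).map
      fun j => (v j.succ : F) * (w j.succ : F)).sum ∈ P.M a.2

private theorem B8_abc (P : SL K F) (H W : Submodule K F) (hHS : H ≤ P.S) (v w : Fin (N + 1) → H)
    (hv : G2 P H W v) (hw : w ∈ Syz v) (hnot : ¬ OK P H W v w) :
    B8_A P v w ∨ (B8_B W v w ∨ B8_C P v w) := by
  by_contra hcon
  rw [not_or, not_or] at hcon
  obtain ⟨ha, hb, hc⟩ := hcon
  apply hnot
  refine B8_ok P H W hHS v w hv ?_ ?_ ?_
  · intro j l hl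
    exact ha ⟨(j, l), Finset.mem_univ _, hw, hl⟩
  · intro c i j hij
    by_contra h5
    exact hb ⟨(c, i, j), Finset.mem_univ _, hij, hw, h5⟩
  · intro t ht htN l hl
    refine hc ⟨(⟨t - 1, by omega⟩, l), Finset.mem_univ _, hw, ?_⟩
    change (((List.finRange N).take (t - 1 + 1)).map
      fun j => (v j.succ : F) * (w j.succ : F)).sum ∈ P.M l
    rw [Nat.sub_add_cancel ht]
    exact hl

/-- PROOF. If `w` is a syzygy and not `OK P H W v w` then one of the following holds: some `w j` is in some `P.M l` (`B8_unit`; otherwise all entries of all mixtures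
are units: `IsU.of`, `H ≤ P.S`); some mixture does not cover for some `i ≠ j` (`B8_cov`); some partial sum (`l = List.finRange N`, `0 < t ≤ N`) is in some `P.M l` (`B8_part`;
otherwise `ChainU`). Union bound: `2 ^ (N+1) * (N+1) ^ 2 * D + (N+1) r + N r ≤ c3 r N D`. -/
theorem B8_bad [Fintype K] (P : SL K F) (H W : Submodule K F) [Finite H] [Finite W] (hHS : H ≤ P.S)
    (hHW : ∀ a b : H, (a : F) * (b : F) ∈ W) (hN : 0 < N) (v : Fin (N + 1) → H) (hv : G2 P H W v) :
    (Fintype.card K - 1) * Nat.card {w : Fin (N + 1) → H // w ∈ Syz v ∧ ¬ OK P H W v w} ≤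
      c3 P.r N (Module.finrank K W) * Nat.card (Syz v) := by
  have hqK : Fintype.card K - 1 ≤ Fintype.card K := Nat.sub_le _ _
  have hA : (Fintype.card K - 1) * Nat.card {w : Fin (N + 1) → H // B8_A P v w} ≤
      (N + 1) * P.r * Nat.card (Syz v) := B8_g1 P H W hN v hv _ hqK
  have hB : (Fintype.card K - 1) * Nat.card {w : Fin (N + 1) → H // B8_B W v w} ≤
      2 ^ (N + 1) * ((N + 1) * (N + 1)) * (Module.finrank K W * Nat.card (Syz v)) :=
    B8_g2 P H W hHW v hv
  have hC : (Fintype.card K - 1) * Nat.card {w : Fin (N + 1) → H // B8_C P v w} ≤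
      N * P.r * Nat.card (Syz v) := B8_g3 P H W v hv _ hqK
  have hBC : (Fintype.card K - 1) * Nat.card {w : Fin (N + 1) → H // B8_B W v w ∨ B8_C P v w} ≤
      2 ^ (N + 1) * ((N + 1) * (N + 1)) * (Module.finrank K W * Nat.card (Syz v)) +
      N * P.r * Nat.card (Syz v) :=
    B8_or (Fintype.card K - 1) _ _ (B8_B W v) (B8_C P v) (fun w => B8_B W v w ∨ B8_C P v w)
      (fun w hw => hw) hB hC
  have hABC : (Fintype.card K - 1) * Nat.card {w : Fin (N + 1) → H // w ∈ Syz v ∧ ¬ OK P H W v w} ≤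
      (N + 1) * P.r * Nat.card (Syz v) +
      (2 ^ (N + 1) * ((N + 1) * (N + 1)) * (Module.finrank K W * Nat.card (Syz v)) +
      N * P.r * Nat.card (Syz v)) :=
    B8_or (Fintype.card K - 1) _ _ (B8_A P v) (fun w => B8_B W v w ∨ B8_C P v w)
      (fun w => w ∈ Syz v ∧ ¬ OK P H W v w)
      (fun w hw => B8_abc P H W hHS v w hv hw.1 hw.2) hA hBC
  exact hABC.trans (B8_num _ _ _ _)

end Pool.Agent.MP_b197b4_ntV3
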