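import Mathlib

/-!
# V3, leaf S3: a pairing of the elements of a finite set
-/

set_option autoImplicit false
set_option linter.unusedSectionVars false

noncomputable section

namespace Pool.Agent.MP_b197b4_ntV3

open scoped BigOperators

/-- PROOF. Induction on `C`. `C = ∅`: `π = 1`, `σ = 1`. `insert a C`: let `π`, `σ` be given for `C`. If `π i = i`: `π' = π * swap a i` (so `a ↔ i`, `π a = a`
because `a ∉ C`, `a ≠ i`), `σ' = update (update σ a 1) i (-1)`. If `π i = m ≠ i` (then `m ∈ C`): `π'` exchanges `m` and `a` and fixes `i`, and is `π` elsewhere;
`σ' m = 1`, `σ' a = -1`. -/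
theorem S3_pair {α R : Type*} [DecidableEq α] [CommRing R] (C : Finset α) (i j : α) (hi : i ∉ C) (hj : j ∉ C) (hij : i ≠ j) :
    ∃ (π : Equiv.Perm α) (σ : α → R), (∀ s, π (π s) = s) ∧ π j = j ∧ (∀ s ∈ C, π s ≠ s) ∧
      (∀ s, s ∉ C → s ≠ i → π s = s) ∧ (∀ s, σ s = 1 ∨ σ s = -1) ∧ ∀ s, π s ≠ s → σ (π s) = -σ s := by
  induction C using Finset.induction_on with
  | empty =>
    exact ⟨1, fun _ => 1, fun _ => rfl, rfl, fun s hs => absurd hs (Finset.notMem_empty s),
      fun _ _ _ => rfl, fun _ => Or.inl rfl, fun s hs => absurd rfl hs⟩
  | insert a C haC ih =>
    have hai : a ≠ i := fun h => hi (h ▸ Finset.mem_insert_self a C)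
    have haj : a ≠ j := fun h => hj (h ▸ Finset.mem_insert_self a C)
    have hiC : i ∉ C := fun h => hi (Finset.mem_insert_of_mem h)
    have hjC : j ∉ C := fun h => hj (Finset.mem_insert_of_mem h)
    obtain ⟨π, σ, h1, h2, h3, h4, h5, h6⟩ := ih hiC hjC
    have ha : π a = a := h4 a haC hai
    have hinj : ∀ s t, π s = t → s = π t := fun s t h => by rw [← h, h1]
    by_cases hpi : π i = i
    · let f : α → α := fun s => if s = a then i else if s = i then a else π s
      have fa : f a = i := if_pos rfl
      have fi : f i = a := by
        show (if i = a then i else if i = i then a else π i) = a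
        rw [if_neg hai.symm, if_pos rfl]
      have fo : ∀ s, s ≠ a → s ≠ i → f s = π s := fun s hs hs' => by
        show (if s = a then i else if s = i then a else π s) = π s
        rw [if_neg hs, if_neg hs']
      have ho : ∀ s, s ≠ a → s ≠ i → π s ≠ a ∧ π s ≠ i := fun s hs hs' =>
        ⟨fun h => hs ((hinj s a h).trans ha), fun h => hs' ((hinj s i h).trans hpi)⟩
      have hf : Function.Involutive f := by
        intro s
        by_cases hs : s = a
        · rw [hs, fa, fi]
        · by_cases hs' : s = i
          · rw [hs', fi, fa]
          · rw [fo s hs hs', fo _ (ho s hs hs').1 (ho s hs hs').2, h1]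
      refine ⟨hf.toPerm f, fun s => if s = a then 1 else if s = i then -1 else σ s, hf, ?_, ?_, ?_, ?_, ?_⟩
      · exact (fo j haj.symm hij.symm).trans h2
      · intro s hs
        show f s ≠ s
        rcases Finset.mem_insert.mp hs with hs | hs
        · rw [hs, fa]
          exact hai.symm
        · rw [fo s (fun h => haC (h ▸ hs)) (fun h => hiC (h ▸ hs))]
          exact h3 s hs
      · intro s hs hsi
        have hsa : s ≠ a := fun h => hs (h ▸ Finset.mem_insert_self a C)
        exact (fo s hsa hsi).trans (h4 s (fun h => hs (Finset.mem_insert_of_mem h)) hsi)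
      · intro s
        by_cases hs : s = a
        · left
          show (if s = a then (1 : R) else if s = i then -1 else σ s) = 1
          rw [if_pos hs]
        · by_cases hs' : s = i
          · right
            show (if s = a then (1 : R) else if s = i then -1 else σ s) = -1
            rw [if_neg hs, if_pos hs']
          · show (if s = a then (1 : R) else if s = i then -1 else σ s) = 1 ∨
              (if s = a then (1 : R) else if s = i then -1 else σ s) = -1
            rw [if_neg hs, if_neg hs']
            exact h5 s
      · intro s hs
        have hs0 : f s ≠ s := hs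
        show (if f s = a then (1 : R) else if f s = i then -1 else σ (f s)) =
          -(if s = a then (1 : R) else if s = i then -1 else σ s)
        by_cases hsa : s = a
        · rw [hsa, fa, if_neg hai.symm, if_pos rfl, if_pos rfl]
        · by_cases hsi : s = i
          · rw [hsi, fi, if_pos rfl, if_neg hai.symm, if_pos rfl, neg_neg]
          · rw [fo s hsa hsi] at hs0 ⊢
            rw [if_neg (ho s hsa hsi).1, if_neg (ho s hsa hsi).2, if_neg hsa, if_neg hsi]
            exact h6 s hs0
    · obtain ⟨m, hm⟩ : ∃ m, π i = m := ⟨_, rfl⟩
      have hmi : m ≠ i := fun h => hpi (hm.trans h)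
      have hm' : π m = i := by rw [← hm, h1]
      have hmC : m ∈ C := by
        by_contra h
        have h7 := h4 m h hmi
        rw [hm'] at h7
        exact hmi h7.symm
      have hma : m ≠ a := fun h => haC (h ▸ hmC)
      have hjm : j ≠ m := fun h => hjC (h ▸ hmC)
      let f : α → α := fun s => if s = a then m else if s = m then a else if s = i then i else π s
      have fa : f a = m := if_pos rfl
      have fm : f m = a := by
        show (if m = a then m else if m = m then a else if m = i then i else π m) = a
        rw [if_neg hma, if_pos rfl]
      have fi : f i = i := by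
        show (if i = a then m else if i = m then a else if i = i then i else π i) = i
        rw [if_neg hai.symm, if_neg hmi.symm, if_pos rfl]
      have fo : ∀ s, s ≠ a → s ≠ m → s ≠ i → f s = π s := fun s hs hs' hs'' => by
        show (if s = a then m else if s = m then a else if s = i then i else π s) = π s
        rw [if_neg hs, if_neg hs', if_neg hs'']
      have ho : ∀ s, s ≠ a → s ≠ m → s ≠ i → π s ≠ a ∧ π s ≠ m ∧ π s ≠ i := fun s hs hs' hs'' =>
        ⟨fun h => hs ((hinj s a h).trans ha), fun h => hs'' ((hinj s m h).trans hm'),
          fun h => hs' ((hinj s i h).trans hm)⟩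
      have hf : Function.Involutive f := by
        intro s
        by_cases hs : s = a
        · rw [hs, fa, fm]
        · by_cases hs' : s = m
          · rw [hs', fm, fa]
          · by_cases hs'' : s = i
            · rw [hs'', fi, fi]
            · obtain ⟨h7, h8, h9⟩ := ho s hs hs' hs''
              rw [fo s hs hs' hs'', fo _ h7 h8 h9, h1]
      refine ⟨hf.toPerm f, fun s => if s = a then -1 else if s = m then 1 else σ s, hf, ?_, ?_, ?_, ?_, ?_⟩
      · exact (fo j haj.symm hjm hij.symm).trans h2
      · intro s hs
        show f s ≠ s
        rcases Finset.mem_insert.mp hs with hs | hs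
        · rw [hs, fa]
          exact hma
        · by_cases hsm : s = m
          · rw [hsm, fm]
            exact hma.symm
          · rw [fo s (fun h => haC (h ▸ hs)) hsm (fun h => hiC (h ▸ hs))]
            exact h3 s hs
      · intro s hs hsi
        have hsa : s ≠ a := fun h => hs (h ▸ Finset.mem_insert_self a C)
        have hsC : s ∉ C := fun h => hs (Finset.mem_insert_of_mem h)
        exact (fo s hsa (fun h => hsC (h ▸ hmC)) hsi).trans (h4 s hsC hsi)
      · intro s
        by_cases hs : s = a
        · right
          show (if s = a then (-1 : R) else if s = m then 1 else σ s) = -1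
          rw [if_pos hs]
        · by_cases hs' : s = m
          · left
            show (if s = a then (-1 : R) else if s = m then 1 else σ s) = 1
            rw [if_neg hs, if_pos hs']
          · show (if s = a then (-1 : R) else if s = m then 1 else σ s) = 1 ∨
              (if s = a then (-1 : R) else if s = m then 1 else σ s) = -1
            rw [if_neg hs, if_neg hs']
            exact h5 s
      · intro s hs
        have hs0 : f s ≠ s := hs
        show (if f s = a then (-1 : R) else if f s = m then 1 else σ (f s)) =
          -(if s = a then (-1 : R) else if s = m then 1 else σ s)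
        by_cases hsa : s = a
        · rw [hsa, fa, if_neg hma, if_pos rfl, if_pos rfl, neg_neg]
        · by_cases hsm : s = m
          · rw [hsm, fm, if_pos rfl, if_neg hma, if_pos rfl]
          · by_cases hsi : s = i
            · rw [hsi] at hs0
              exact absurd fi hs0
            · rw [fo s hsa hsm hsi] at hs0 ⊢
              rw [if_neg (ho s hsa hsm hsi).1, if_neg (ho s hsa hsm hsi).2.1, if_neg hsa, if_neg hsm]
              exact h6 s hs0

end Pool.Agent.MP_b197b4_ntV3
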