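import Pool.Agent.Lib.MP_b197b4_ntV3.Defs
import Pool.Agent.Lib.MP_b197b4_ntV3.S3

/-!
# V3, leaf B8a: a syzygy for which the mixture covers
-/

set_option autoImplicit false
set_option linter.unusedSectionVars false

noncomputable section

namespace Pool.Agent.MP_b197b4_ntV3

open scoped BigOperators
open Pool.Agent.MP_b197b4_ntUV Pool.Agent.MP_b197b4_ntLV

variable {K F : Type*} [Field K] [Field F] [Algebra K F] {N : ℕ}

/-- PROOF. `C = {s | c s = true, s ≠ i, s ≠ j}`, `π`, `σ` from `S3_pair` (`R = K`); `w s = σ s • v (π s)` if `π s ≠ s`, else `0`.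
`Om v w`: `Finset.sum_involution` with `π`: `v s * (σ s • v (π s)) + v (π s) * (σ (π s) • v s) = 0`. For `s ≠ i, j`: `mix c v w s = ± v (π s)` (if `s ∈ C` then
`π s ≠ s`; if `s ∉ C`, `s ≠ i`, then `π s = s` and `mix c v w s = v s`: here `c s = false`). `π i ≠ j` (`π j = j`), so by `hv.2 (π i) j` every `z ∈ W`
is `∑ r ∉ {π i, j}, v r * u r`; put `r = π s`, `s ∉ {i, j}`. -/
theorem B8_star (P : SL K F) (H W : Submodule K F) (v : Fin (N + 1) → H) (hv : G2 P H W v)
    (c : Fin (N + 1) → Bool) {i j : Fin (N + 1)} (hij : i ≠ j) :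
    ∃ w : Fin (N + 1) → H, Om v w ∧
      Cov H W ((Finset.univ.erase i).erase j) (fun s => ((mix c v w s : H) : F)) := by
  classical
  obtain ⟨π, σ, hπ, hj, hC, hnC, hσ, hσπ⟩ := S3_pair (R := K)
    (Finset.univ.filter fun s : Fin (N + 1) => c s = true ∧ s ≠ i ∧ s ≠ j) i j (by simp) (by simp) hij
  have hpij : π i ≠ j := by
    intro h
    apply hij
    have h1 := hπ i
    rw [h, hj] at h1
    exact h1.symm
  refine ⟨fun s => if π s = s then 0 else σ s • v (π s), ?_, ?_⟩
  · change ∑ s, (v s : F) * (((if π s = s then 0 else σ s • v (π s) : H)) : F) = 0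
    apply Finset.sum_involution (fun s _ => π s)
    · intro s _
      by_cases h : π s = s
      · have h' : π (π s) = π s := by rw [h, h]
        rw [if_pos h, if_pos h', Submodule.coe_zero, mul_zero, mul_zero, add_zero]
      · have h' : ¬ π (π s) = π s := by
          rw [hπ s]
          exact fun e => h e.symm
        rw [if_neg h, if_neg h', hπ s, hσπ s h, Submodule.coe_smul, Submodule.coe_smul, neg_smul,
          mul_neg, mul_smul_comm, mul_smul_comm, mul_comm (v (π s) : F) (v s : F)]
        exact add_neg_cancel _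
    · intro s _ hne h
      apply hne
      rw [if_pos h, Submodule.coe_zero, mul_zero]
    · intro s _
      exact Finset.mem_univ _
    · intro s _
      exact hπ s
  · obtain ⟨τ, hτ, hmix⟩ : ∃ τ : Fin (N + 1) → K, (∀ s, τ s * τ s = 1) ∧ ∀ s, s ≠ i → s ≠ j →
        mix c v (fun s => if π s = s then 0 else σ s • v (π s)) s = τ s • v (π s) := by
      refine ⟨fun s => if c s = true then σ s else 1, ?_, ?_⟩
      · intro s
        dsimp only
        split_ifs with h
        · rcases hσ s with h1 | h1 <;> rw [h1] <;> ring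
        · ring
      · intro s hsi hsj
        dsimp only [mix]
        by_cases h : c s = true
        · have hs : π s ≠ s := hC s (Finset.mem_filter.2 ⟨Finset.mem_univ _, h, hsi, hsj⟩)
          rw [if_pos h, if_neg hs, if_pos h]
        · have hs : π s = s := hnC s (fun hm => h (Finset.mem_filter.1 hm).2.1) hsi
          rw [if_neg h, if_neg h, one_smul, hs]
    intro z hz
    obtain ⟨u, hu⟩ := hv.2 (π i) j hpij z hz
    refine ⟨fun s => τ s • u (π s), ?_⟩
    rw [← hu]
    apply Finset.sum_bij (fun s _ => π s)
    · intro s hs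
      rw [Finset.mem_erase, Finset.mem_erase] at hs ⊢
      refine ⟨?_, ?_, Finset.mem_univ _⟩
      · intro h
        apply hs.1
        have h1 : π s = π j := by rw [h, hj]
        exact π.injective h1
      · intro h
        exact hs.2.1 (π.injective h)
    · intro a _ b _ h
      exact π.injective h
    · intro r hr
      refine ⟨π r, ?_, hπ r⟩
      rw [Finset.mem_erase, Finset.mem_erase] at hr ⊢
      refine ⟨?_, ?_, Finset.mem_univ _⟩
      · intro h
        apply hr.1
        have h1 : π r = π j := by rw [h, hj]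
        exact π.injective h1
      · intro h
        apply hr.2.1
        rw [← h, hπ]
    · intro s hs
      rw [Finset.mem_erase, Finset.mem_erase] at hs
      dsimp only
      rw [hmix s hs.2.1 hs.1, Submodule.coe_smul, Submodule.coe_smul, smul_mul_smul_comm, hτ s, one_smul]


end Pool.Agent.MP_b197b4_ntV3
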