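import Mathlib

/-!
# V3, leaf S1: surjective linear maps on a line
-/

set_option autoImplicit false
set_option linter.unusedSectionVars false

noncomputable section

namespace Pool.Agent.MP_b197b4_ntV3

open scoped BigOperators

/-- PROOF. Let `s` be a right inverse of `f` (`f ∘ₗ s = id`), `a = g ∘ₗ s : Y → Y`. If `f + t • g` is not surjective then `id + t • a`
is not surjective, so not injective (`Y` finite-dimensional): `t ≠ 0` and `-1 / t` is an eigenvalue of `a`. The map `t ↦ -1 / t` is
injective on the nonzero `t`, and `a` has at most `finrank K Y` eigenvalues (roots of the characteristic polynomial,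
or linear independence of eigenvectors). -/
theorem S1_line {K X Y : Type*} [Field K] [AddCommGroup X] [Module K X] [AddCommGroup Y] [Module K Y]
    [FiniteDimensional K Y] (f g : X →ₗ[K] Y) (hf : Function.Surjective f) :
    {t : K | ¬ Function.Surjective (f + t • g)}.Finite ∧
      {t : K | ¬ Function.Surjective (f + t • g)}.ncard ≤ Module.finrank K Y := by
  classical
  obtain ⟨s, hs⟩ := f.exists_rightInverse_of_surjective (LinearMap.range_eq_top.2 hf)
  set a : Module.End K Y := g ∘ₗ s with ha
  have key : ∀ t : K, ¬ Function.Surjective (f + t • g) → -t⁻¹ ∈ (LinearMap.charpoly a).roots.toFinset := by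
    intro t ht
    have h1 : ¬ Function.Surjective (LinearMap.id + t • a : Y →ₗ[K] Y) := by
      intro h
      apply ht
      intro y
      obtain ⟨v, hv⟩ := h y
      refine ⟨s v, ?_⟩
      rw [← hv]
      have h2 : f (s v) = v := LinearMap.congr_fun hs v
      simp [ha, h2]
    rw [← LinearMap.injective_iff_surjective, injective_iff_map_eq_zero] at h1
    push Not at h1
    obtain ⟨v, hv0, hv⟩ := h1
    have hv1 : v + t • a v = 0 := by simpa using hv0
    have ht0 : t ≠ 0 := by
      rintro rfl
      apply hv
      simpa using hv1
    have hav : a v = (-t⁻¹) • v := by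
      have h3 : t • a v = - v := by rw [eq_neg_iff_add_eq_zero, add_comm]; exact hv1
      calc a v = t⁻¹ • (t • a v) := by rw [smul_smul, inv_mul_cancel₀ ht0, one_smul]
        _ = (-t⁻¹) • v := by rw [h3, smul_neg, neg_smul]
    have h4 : Module.End.HasEigenvalue a (-t⁻¹) :=
      Module.End.hasEigenvalue_of_hasEigenvector ⟨Module.End.mem_eigenspace_iff.2 hav, hv⟩
    rw [Module.End.hasEigenvalue_iff_isRoot_charpoly] at h4
    rw [Multiset.mem_toFinset, Polynomial.mem_roots (LinearMap.charpoly_monic a).ne_zero]
    exact h4
  have hinj : Function.Injective (fun t : K => -t⁻¹) := fun x y h => inv_injective (neg_injective h)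
  have hsub : {t : K | ¬ Function.Surjective (f + t • g)} ⊆
      (fun t : K => -t⁻¹) ⁻¹' ((LinearMap.charpoly a).roots.toFinset : Set K) := fun t ht => key t ht
  have hfin : ((fun t : K => -t⁻¹) ⁻¹' ((LinearMap.charpoly a).roots.toFinset : Set K)).Finite :=
    (Finset.finite_toSet _).preimage hinj.injOn
  refine ⟨hfin.subset hsub, ?_⟩
  calc {t : K | ¬ Function.Surjective (f + t • g)}.ncard
      ≤ ((fun t : K => -t⁻¹) '' {t : K | ¬ Function.Surjective (f + t • g)}).ncard :=
        (Set.ncard_image_of_injective _ hinj).ge
    _ ≤ ((LinearMap.charpoly a).roots.toFinset : Set K).ncard := by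
        apply Set.ncard_le_ncard _ (Finset.finite_toSet _)
        rintro _ ⟨t, ht, rfl⟩
        exact key t ht
    _ = (LinearMap.charpoly a).roots.toFinset.card := Set.ncard_coe_finset _
    _ ≤ Multiset.card (LinearMap.charpoly a).roots := Multiset.toFinset_card_le _
    _ ≤ (LinearMap.charpoly a).natDegree := Polynomial.card_roots' _
    _ = Module.finrank K Y := LinearMap.charpoly_natDegree a

end Pool.Agent.MP_b197b4_ntV3
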