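import Pool.Agent.Lib.MP_b197b4_ntV3.B8a
import Pool.Agent.Lib.MP_b197b4_ntV3.S1
import Pool.Agent.Lib.MP_b197b4_ntV3.S2

/-!
# V3, leaf B8b: the mixtures which do not cover
-/

set_option autoImplicit false
set_option linter.unusedSectionVars false

noncomputable section

namespace Pool.Agent.MP_b197b4_ntV3

open scoped BigOperators
open Pool.Agent.MP_b197b4_ntUV Pool.Agent.MP_b197b4_ntLV

variable {K F : Type*} [Field K] [Field F] [Algebra K F] {N : ℕ}

/-- the linear map `u ↦ ∑ X s * u s` to `W` -/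
private def B8b_Phi (H W : Submodule K F) (hHW : ∀ a b : H, (a : F) * (b : F) ∈ W)
    (I : Finset (Fin (N + 1))) (X : Fin (N + 1) → H) : (Fin (N + 1) → H) →ₗ[K] W where
  toFun u := ⟨∑ s ∈ I, (X s : F) * (u s : F), W.sum_mem fun s _ => hHW _ _⟩
  map_add' u u' := by
    apply Subtype.ext
    change ∑ s ∈ I, (X s : F) * (((u + u') s : H) : F) =
      ∑ s ∈ I, (X s : F) * (u s : F) + ∑ s ∈ I, (X s : F) * (u' s : F)
    rw [← Finset.sum_add_distrib]
    exact Finset.sum_congr rfl fun s _ => by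
      rw [Pi.add_apply, Submodule.coe_add, mul_add]
  map_smul' a u := by
    apply Subtype.ext
    change ∑ s ∈ I, (X s : F) * (((a • u) s : H) : F) = a • ∑ s ∈ I, (X s : F) * (u s : F)
    rw [Finset.smul_sum]
    exact Finset.sum_congr rfl fun s _ => by
      rw [Pi.smul_apply, Submodule.coe_smul, mul_smul_comm]

private theorem B8b_surj (H W : Submodule K F) (hHW : ∀ a b : H, (a : F) * (b : F) ∈ W)
    (I : Finset (Fin (N + 1))) (X : Fin (N + 1) → H) :
    Cov H W I (fun s => (X s : F)) ↔ Function.Surjective (B8b_Phi H W hHW I X) := by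
  constructor
  · intro h y
    obtain ⟨u, hu⟩ := h (y : F) y.2
    exact ⟨u, Subtype.ext hu⟩
  · intro h w hw
    obtain ⟨u, hu⟩ := h ⟨w, hw⟩
    exact ⟨u, congrArg Subtype.val hu⟩

private theorem B8b_add (H W : Submodule K F) (hHW : ∀ a b : H, (a : F) * (b : F) ∈ W)
    (I : Finset (Fin (N + 1))) (X Y : Fin (N + 1) → H) (t : K) :
    B8b_Phi H W hHW I (X + t • Y) = B8b_Phi H W hHW I X + t • B8b_Phi H W hHW I Y := by
  apply LinearMap.ext
  intro u
  apply Subtype.ext
  change ∑ s ∈ I, (((X + t • Y) s : H) : F) * (u s : F) =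
    ∑ s ∈ I, (X s : F) * (u s : F) + t • ∑ s ∈ I, (Y s : F) * (u s : F)
  rw [Finset.smul_sum, ← Finset.sum_add_distrib]
  exact Finset.sum_congr rfl fun s _ => by
    rw [Pi.add_apply, Pi.smul_apply, Submodule.coe_add, Submodule.coe_smul, add_mul, smul_mul_assoc]

private theorem B8b_mix {H : Submodule K F} (c : Fin (N + 1) → Bool) (v w0 d : Fin (N + 1) → H) (t : K) :
    mix c v (w0 + t • d) = mix c v w0 + t • (fun s => if c s then d s else 0) := by
  funext s
  rw [Pi.add_apply, Pi.smul_apply]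
  unfold mix
  cases c s with
  | true => simp only [if_true, Pi.add_apply, Pi.smul_apply]
  | false => simp only [Bool.false_eq_true, if_false, smul_zero, add_zero]

/-- PROOF. `w0` from `B8_star`. For `w` a syzygy, `δ = w - w0`: `mix c v (w0 + t • δ) s = mix c v w0 s + t • (if c s then δ s else 0)`, and `Cov` says that the linear
map `(Fin (N + 1) → H) → W`, `u ↦ ∑ s ≠ i j, (mix ..) s * u s` (well defined by `hHW`), is surjective: `S1_line` bounds the number of the bad `t` by
`finrank K W`. Conclude with `S2_lines` (`S = Syz v`). -/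
theorem B8_cov [Fintype K] (P : SL K F) (H W : Submodule K F) [Finite H] [Finite W]
    (hHW : ∀ a b : H, (a : F) * (b : F) ∈ W) (v : Fin (N + 1) → H) (hv : G2 P H W v)
    (c : Fin (N + 1) → Bool) {i j : Fin (N + 1)} (hij : i ≠ j) :
    (Fintype.card K - 1) * Nat.card {w : Fin (N + 1) → H // w ∈ Syz v ∧
      ¬ Cov H W ((Finset.univ.erase i).erase j) (fun s => ((mix c v w s : H) : F))} ≤
    Module.finrank K W * Nat.card (Syz v) := by
  obtain ⟨w0, hw0, hc0⟩ := B8_star P H W v hv c hij
  refine S2_lines (Syz v) w0 hw0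
    (fun w => ¬ Cov H W ((Finset.univ.erase i).erase j) (fun s => ((mix c v w s : H) : F)))
    (Module.finrank K W) ?_
  intro w hw
  have hf := (B8b_surj H W hHW ((Finset.univ.erase i).erase j) (mix c v w0)).1 hc0
  obtain ⟨h1, h2⟩ := S1_line _
    (B8b_Phi H W hHW ((Finset.univ.erase i).erase j) (fun s => if c s then (w - w0) s else 0)) hf
  refine le_trans ?_ h2
  change Set.ncard {t : K | t ≠ 0 ∧ ¬ Cov H W ((Finset.univ.erase i).erase j)
    (fun s => ((mix c v (w0 + t • (w - w0)) s : H) : F))} ≤ _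
  refine Set.ncard_le_ncard ?_ h1
  rintro t ⟨-, ht⟩
  change ¬ Function.Surjective _
  intro h3
  apply ht
  refine (B8b_surj H W hHW ((Finset.univ.erase i).erase j) (mix c v (w0 + t • (w - w0)))).2 ?_
  rw [B8b_mix, B8b_add]
  exact h3

end Pool.Agent.MP_b197b4_ntV3
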