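import Pool.Agent.Lib.MP_b197b4_ntV3.B5
import Pool.Agent.Lib.MP_b197b4_ntV3.B4
import Pool.Agent.Lib.MP_b197b4_ntV3.B8

/-!
# V3, leaf B9b: the upper bound
-/

set_option autoImplicit false
set_option linter.unusedSectionVars false

noncomputable section

namespace Pool.Agent.MP_b197b4_ntV3

open scoped BigOperators
open Pool.Agent.MP_b197b4_ntUV Pool.Agent.MP_b197b4_ntLV

variable {K F : Type*} [Field K] [Field F] [Algebra K F] {N : ℕ}

private theorem B9b_mono {H : Submodule K F} [Fintype H] {f g : (Fin (N + 1) → H) → (Fin (N + 1) → H) → ℝ}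
    (h : ∀ v w, Om v w → f v w ≤ g v w) : SOm f ≤ SOm g := by
  unfold SOm
  refine Finset.sum_le_sum fun v _ => Finset.sum_le_sum fun w _ => ?_
  split_ifs with h1
  · exact h v w h1
  · exact le_rfl

private theorem B9b_lin {H : Submodule K F} [Fintype H] (a b : ℝ)
    (f g : (Fin (N + 1) → H) → (Fin (N + 1) → H) → ℝ) :
    SOm (fun v w => a * f v w + b * g v w) = a * SOm f + b * SOm g := by
  unfold SOm
  rw [Finset.mul_sum, Finset.mul_sum, ← Finset.sum_add_distrib]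
  refine Finset.sum_congr rfl fun v _ => ?_
  rw [Finset.mul_sum, Finset.mul_sum, ← Finset.sum_add_distrib]
  refine Finset.sum_congr rfl fun w _ => ?_
  split_ifs
  · rfl
  · ring

private theorem B9b_sum {H : Submodule K F} [Fintype H] {ι : Type*} (s : Finset ι)
    (f : ι → (Fin (N + 1) → H) → (Fin (N + 1) → H) → ℝ) :
    SOm (fun v w => ∑ c ∈ s, f c v w) = ∑ c ∈ s, SOm (f c) := by
  symm
  unfold SOm
  rw [Finset.sum_comm]
  refine Finset.sum_congr rfl fun v _ => ?_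
  rw [Finset.sum_comm]
  refine Finset.sum_congr rfl fun w _ => ?_
  split_ifs
  · rfl
  · exact Finset.sum_const_zero

private theorem B9b_cnt {α : Type*} [Fintype α] (p : α → Prop) [DecidablePred p] (a : ℝ) :
    ∑ w, (if p w then a else 0) = (Nat.card {w // p w} : ℝ) * a := by
  rw [← Finset.sum_filter, Finset.sum_const, nsmul_eq_mul, Nat.card_eq_fintype_card, Fintype.card_subtype]

private theorem B9b_sq [Fintype K] (P : SL K F) (H W : Submodule K F) [Fintype H]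
    (lam : (Additive Fˣ) [⋀^Fin N]→ₗ[ℤ] ℝ) :
    SOm (fun v w => (∑ c : Fin (N + 1) → Bool, tt P H W lam (mix c v w)) ^ 2) ≤
      (4 : ℝ) ^ (N + 1) * SOm (fun v (_ : Fin (N + 1) → H) => tt P H W lam v ^ 2) := by
  have h1 : SOm (fun v w => (∑ c : Fin (N + 1) → Bool, tt P H W lam (mix c v w)) ^ 2) ≤
      SOm (fun v w => ∑ c : Fin (N + 1) → Bool, (2 : ℝ) ^ (N + 1) * tt P H W lam (mix c v w) ^ 2) := by
    refine B9b_mono fun v w _ => ?_
    have h2 := sq_sum_le_card_mul_sum_sq (s := (Finset.univ : Finset (Fin (N + 1) → Bool)))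
      (f := fun c => tt P H W lam (mix c v w))
    have h3 : ((Finset.univ : Finset (Fin (N + 1) → Bool)).card : ℝ) = (2 : ℝ) ^ (N + 1) := by
      rw [Finset.card_univ, Fintype.card_fun, Fintype.card_bool, Fintype.card_fin]
      push_cast
      rfl
    rw [h3] at h2
    rw [← Finset.mul_sum]
    exact h2
  rw [B9b_sum] at h1
  refine h1.trans (le_of_eq ?_)
  have h4 : ∀ c : Fin (N + 1) → Bool,
      SOm (fun v w => (2 : ℝ) ^ (N + 1) * tt P H W lam (mix c v w) ^ 2) =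
        (2 : ℝ) ^ (N + 1) * SOm (fun v (_ : Fin (N + 1) → H) => tt P H W lam v ^ 2) := by
    intro c
    have h5 := B9b_lin ((2 : ℝ) ^ (N + 1)) 0 (fun v w => tt P H W lam (mix c v w) ^ 2)
      (fun _ (_ : Fin (N + 1) → H) => (0 : ℝ))
    simp only [zero_mul, add_zero] at h5
    rw [h5, B5_mixsq]
  rw [Finset.sum_congr rfl fun c _ => h4 c, Finset.sum_const, Finset.card_univ, Fintype.card_fun,
    Fintype.card_bool, Fintype.card_fin, nsmul_eq_mul]
  push_cast
  rw [← mul_assoc, ← mul_pow]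
  norm_num

open Classical in
private theorem B9b_bad [Fintype K] (P : SL K F) (H W : Submodule K F) [Fintype H] [Finite W] (hHS : H ≤ P.S)
    (hHW : ∀ a b : H, (a : F) * (b : F) ∈ W) (hN : 0 < N)
    (lam : (Additive Fˣ) [⋀^Fin N]→ₗ[ℤ] ℝ) :
    ((Fintype.card K - 1 : ℕ) : ℝ) * SOm (fun v w => if OK P H W v w then 0 else tt P H W lam v ^ 2) ≤
      (c3 P.r N (Module.finrank K W) : ℝ) * SOm (fun v (_ : Fin (N + 1) → H) => tt P H W lam v ^ 2) := by
  unfold SOm
  rw [Finset.mul_sum, Finset.mul_sum]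
  refine Finset.sum_le_sum fun v _ => ?_
  by_cases hv : G2 P H W v
  · have h1 : ∑ w, (if Om v w then (if OK P H W v w then 0 else tt P H W lam v ^ 2) else 0) =
        (Nat.card {w : Fin (N + 1) → H // w ∈ Syz v ∧ ¬ OK P H W v w} : ℝ) * tt P H W lam v ^ 2 := by
      rw [← B9b_cnt]
      refine Finset.sum_congr rfl fun w _ => ?_
      by_cases ha : Om v w
      · by_cases hb : OK P H W v w
        · rw [if_pos ha, if_pos hb, if_neg (fun h => h.2 hb)]
        · rw [if_pos ha, if_neg hb, if_pos ⟨ha, hb⟩]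
      · rw [if_neg ha, if_neg (fun h => ha h.1)]
    have h2 : ∑ w, (if Om v w then tt P H W lam v ^ 2 else 0) =
        (Nat.card (Syz v) : ℝ) * tt P H W lam v ^ 2 := B9b_cnt (fun w => Om v w) _
    rw [h1, h2, ← mul_assoc, ← mul_assoc]
    refine mul_le_mul_of_nonneg_right ?_ (sq_nonneg _)
    have h3 := B8_bad P H W hHS hHW hN v hv
    exact_mod_cast h3
  · have h0 : tt P H W lam v = 0 := by
      unfold tt
      rw [if_neg hv]
    have h1 : ∑ w, (if Om v w then (if OK P H W v w then 0 else tt P H W lam v ^ 2) else 0) = (0 : ℝ) := by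
      refine Finset.sum_eq_zero fun w _ => ?_
      rw [h0]
      split_ifs <;> norm_num
    have h2 : ∑ w, (if Om v w then tt P H W lam v ^ 2 else 0) = (0 : ℝ) := by
      refine Finset.sum_eq_zero fun w _ => ?_
      rw [h0]
      split_ifs <;> norm_num
    rw [h1, h2, mul_zero, mul_zero]

/-- PROOF. `A v w = ∑ c, tt (mix c v w)` is zero if `OK v w` (`B4_rel`). `tt v * A ≤ (μ * [not OK] * tt v ^ 2 + A ^ 2 / μ) / 2`, `μ = 4 ^ (N+2)`.
`SOm (A ^ 2) ≤ 2 ^ (N+1) * ∑ c, SOm (tt (mix c v w) ^ 2) = 4 ^ (N+1) * Z` (Cauchy-Schwarz on the sum over `c`, `B5_mixsq`). `SOm ([not OK] tt v ^ 2) = ∑ v, tt v ^ 2 * card {w ∈ Syz v, not OK}`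
`≤ c3 / (card K - 1) * Z` by `B8_bad` (`tt v = 0` if `v` is not good), and `4 ^ (N+4) * c3 ≤ card K - 1`. Total `≤ (1/16 + 1/4) / 2 * Z ≤ Z / 4`. -/
theorem B9_up [Fintype K] (P : SL K F) (H W : Submodule K F) [Fintype H] [Finite W] (hHS : H ≤ P.S)
    (hHW : ∀ a b : H, (a : F) * (b : F) ∈ W) (hN : 0 < N)
    (hq : q3 P.r N (Module.finrank K W) ≤ Fintype.card K)
    (lam : (Additive Fˣ) [⋀^Fin N]→ₗ[ℤ] ℝ) (hS : StU P lam) :
    SOm (fun v w => tt P H W lam v * ∑ c : Fin (N + 1) → Bool, tt P H W lam (mix c v w)) ≤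
      1 / 4 * SOm (fun v (_ : Fin (N + 1) → H) => tt P H W lam v ^ 2) := by
  classical
  have hsq := B9b_sq P H W lam
  have hbad := B9b_bad P H W hHS hHW hN lam
  set Z : ℝ := SOm (fun v (_ : Fin (N + 1) → H) => tt P H W lam v ^ 2) with hZ
  set s : ℝ := SOm (fun v w => if OK P H W v w then 0 else tt P H W lam v ^ 2) with hs
  set B : ℝ := SOm (fun v w => (∑ c : Fin (N + 1) → Bool, tt P H W lam (mix c v w)) ^ 2) with hB
  have hs0 : 0 ≤ s := by
    rw [hs]
    unfold SOm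
    refine Finset.sum_nonneg fun v _ => Finset.sum_nonneg fun w _ => ?_
    beta_reduce
    split_ifs
    · exact le_rfl
    · exact sq_nonneg _
    · exact le_rfl
  have hZ0 : 0 ≤ Z := by
    rw [hZ]
    unfold SOm
    refine Finset.sum_nonneg fun v _ => Finset.sum_nonneg fun w _ => ?_
    split_ifs
    · exact sq_nonneg _
    · exact le_rfl
  have hmu : (0 : ℝ) < (4 : ℝ) ^ (N + 2) := by positivity
  have h1 : SOm (fun v w => tt P H W lam v * ∑ c : Fin (N + 1) → Bool, tt P H W lam (mix c v w)) ≤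
      (4 : ℝ) ^ (N + 2) / 2 * s + 1 / (2 * (4 : ℝ) ^ (N + 2)) * B := by
    rw [hs, hB, ← B9b_lin]
    refine B9b_mono fun v w hOm => ?_
    by_cases hOK : OK P H W v w
    · rw [if_pos hOK, B4_rel P H W lam hS v w hOm hOK]
      norm_num
    · rw [if_neg hOK]
      set x : ℝ := tt P H W lam v
      set y : ℝ := ∑ c : Fin (N + 1) → Bool, tt P H W lam (mix c v w)
      have h2 : (4 : ℝ) ^ (N + 2) / 2 * x ^ 2 + 1 / (2 * (4 : ℝ) ^ (N + 2)) * y ^ 2 - x * y =
          1 / (2 * (4 : ℝ) ^ (N + 2)) * ((4 : ℝ) ^ (N + 2) * x - y) ^ 2 := by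
        field_simp
        ring
      have h3 : 0 ≤ 1 / (2 * (4 : ℝ) ^ (N + 2)) * ((4 : ℝ) ^ (N + 2) * x - y) ^ 2 := by positivity
      linarith
  have hc : (0 : ℝ) < (c3 P.r N (Module.finrank K W) : ℝ) := by
    have : 0 < c3 P.r N (Module.finrank K W) := by
      unfold c3
      positivity
    exact_mod_cast this
  have hq' : (4 : ℝ) ^ (N + 4) * (c3 P.r N (Module.finrank K W) : ℝ) ≤ ((Fintype.card K - 1 : ℕ) : ℝ) := by
    have h4 : 4 ^ (N + 4) * c3 P.r N (Module.finrank K W) ≤ Fintype.card K - 1 := by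
      unfold q3 at hq
      rw [mul_add] at hq
      omega
    exact_mod_cast h4
  have h5 : (4 : ℝ) ^ (N + 4) * s ≤ Z := by
    have h6 : (c3 P.r N (Module.finrank K W) : ℝ) * ((4 : ℝ) ^ (N + 4) * s) ≤
        (c3 P.r N (Module.finrank K W) : ℝ) * Z := by
      calc (c3 P.r N (Module.finrank K W) : ℝ) * ((4 : ℝ) ^ (N + 4) * s)
          = ((4 : ℝ) ^ (N + 4) * (c3 P.r N (Module.finrank K W) : ℝ)) * s := by ring
        _ ≤ ((Fintype.card K - 1 : ℕ) : ℝ) * s := mul_le_mul_of_nonneg_right hq' hs0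
        _ ≤ _ := hbad
    exact le_of_mul_le_mul_left h6 hc
  have h7 : (4 : ℝ) ^ (N + 2) / 2 * s ≤ 1 / 32 * Z := by
    have h8 : (4 : ℝ) ^ (N + 4) = 16 * (4 : ℝ) ^ (N + 2) := by ring
    rw [h8] at h5
    linarith
  have h9 : 1 / (2 * (4 : ℝ) ^ (N + 2)) * B ≤ 1 / 8 * Z := by
    calc 1 / (2 * (4 : ℝ) ^ (N + 2)) * B ≤ 1 / (2 * (4 : ℝ) ^ (N + 2)) * ((4 : ℝ) ^ (N + 1) * Z) :=
          mul_le_mul_of_nonneg_left hsq (by positivity)
      _ = 1 / 8 * Z := by
        have h10 : (4 : ℝ) ^ (N + 2) = 4 * (4 : ℝ) ^ (N + 1) := by ring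
        have h11 : (4 : ℝ) ^ (N + 1) ≠ 0 := by positivity
        rw [h10]
        field_simp
        ring
  linarith

end Pool.Agent.MP_b197b4_ntV3
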