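import Pool.Agent.Lib.MP_b197b4_ntV3.B9a
import Pool.Agent.Lib.MP_b197b4_ntV3.B9b

/-!
# V3, THEOREM B
-/

set_option autoImplicit false
set_option linter.unusedSectionVars false

noncomputable section

namespace Pool.Agent.MP_b197b4_ntV3

open scoped BigOperators
open Pool.Agent.MP_b197b4_ntUV Pool.Agent.MP_b197b4_ntLV

variable {K F : Type*} [Field K] [Field F] [Algebra K F] {N : ℕ}

/-- THEOREM B. PROOF. By `B9_low`, `B9_up` `Z = SOm (tt v ^ 2) ≤ 0`; by `B5_sq` `∑ v, tt v ^ 2 ≤ 0`, so `tt X = 0`, and `tt X = theta lam X` because `X` is good. -/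
theorem B9_main [Fintype K] (P : SL K F) (H W : Submodule K F) [Finite H] [Finite W] (hHS : H ≤ P.S)
    (hHW : ∀ a b : H, (a : F) * (b : F) ∈ W) (hN : 0 < N)
    (hq : q3 P.r N (Module.finrank K W) ≤ Fintype.card K)
    (lam : (Additive Fˣ) [⋀^Fin N]→ₗ[ℤ] ℝ) (hS : StU P lam) (X : Fin (N + 1) → H) (hX : G2 P H W X) :
    theta lam (fun j => (X j : F)) = 0 := by
  classical
  have : Fintype H := Fintype.ofFinite H
  have hq4 : 4 ^ (N + 4) ≤ Fintype.card K := by
    refine le_trans ?_ hq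
    unfold q3
    have h0 : 4 ^ (N + 4) * 1 ≤ 4 ^ (N + 4) * (c3 P.r N (Module.finrank K W) + 1) :=
      Nat.mul_le_mul_left _ (Nat.le_add_left _ _)
    omega
  have h1 := B9_low P H W hHW hN hq4 lam
  have h2 := B9_up P H W hHS hHW hN hq lam hS
  have hZ0 : SOm (fun v (_ : Fin (N + 1) → H) => tt P H W lam v ^ 2) ≤ 0 := by linarith
  have h5 := B5_sq P H W hHW hN lam
  have hsum : ∑ v : Fin (N + 1) → H, tt P H W lam v ^ 2 ≤ 0 := by
    have hW : (0 : ℝ) ≤ (Nat.card W : ℝ) := Nat.cast_nonneg _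
    have hH : (0 : ℝ) < (Nat.card H : ℝ) ^ (N + 1) := by
      have h0 : 0 < Nat.card H := Nat.card_pos
      have h0' : (0 : ℝ) < (Nat.card H : ℝ) := by exact_mod_cast h0
      exact pow_pos h0' _
    by_contra hc
    push Not at hc
    have h6 := mul_pos hH hc
    rw [← h5] at h6
    have h7 := mul_nonpos_of_nonneg_of_nonpos hW hZ0
    linarith
  have hX0 : tt P H W lam X ^ 2 ≤ 0 :=
    le_trans (Finset.single_le_sum (f := fun v : Fin (N + 1) → H => tt P H W lam v ^ 2)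
      (fun v _ => sq_nonneg _) (Finset.mem_univ X)) hsum
  have hX1 : tt P H W lam X = 0 := by
    have h8 : tt P H W lam X ^ 2 = 0 := le_antisymm hX0 (sq_nonneg _)
    exact pow_eq_zero_iff (two_ne_zero) |>.1 h8
  unfold tt at hX1
  rw [if_pos hX] at hX1
  exact hX1

end Pool.Agent.MP_b197b4_ntV3
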