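import Pool.Agent.Lib.MP_b197b4_ntV3.B6b
import Pool.Agent.Lib.MP_b197b4_ntV3.B7

/-!
# V3, leaf B9a: the lower bound
-/

set_option autoImplicit false
set_option linter.unusedSectionVars false

noncomputable section

namespace Pool.Agent.MP_b197b4_ntV3

open scoped BigOperators
open Pool.Agent.MP_b197b4_ntUV Pool.Agent.MP_b197b4_ntLV

variable {K F : Type*} [Field K] [Field F] [Algebra K F] {N : ℕ}

private theorem B9a_sum {H : Submodule K F} [Fintype H] {ι : Type*} [Fintype ι]
    (f : ι → (Fin (N + 1) → H) → (Fin (N + 1) → H) → ℝ) :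
    SOm (fun v w => ∑ c, f c v w) = ∑ c, SOm (f c) := by
  classical
  symm
  unfold SOm
  rw [Finset.sum_comm]
  refine Finset.sum_congr rfl fun v _ => ?_
  rw [Finset.sum_comm]
  refine Finset.sum_congr rfl fun w _ => ?_
  by_cases h : Om v w
  · simp only [if_pos h]
  · simp only [if_neg h, Finset.sum_const_zero]

private theorem B9a_nonneg {H : Submodule K F} [Fintype H]
    (f : (Fin (N + 1) → H) → (Fin (N + 1) → H) → ℝ) (hf : ∀ v w, 0 ≤ f v w) : 0 ≤ SOm f := by
  classical
  unfold SOm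
  refine Finset.sum_nonneg fun v _ => Finset.sum_nonneg fun w _ => ?_
  by_cases h : Om v w
  · rw [if_pos h]
    exact hf v w
  · rw [if_neg h]

/-- PROOF. `SOm (tt v * A) = ∑ c, Q c`, `Q c = SOm (tt v * tt (mix c v w))`, `Z = SOm (tt v ^ 2) ≥ 0`. `c = false`: `Q c = Z` (`mix c v w = v`). `c` with exactly one `true`:
`Q c ≥ 0` (`B7_one`). All others: `B6_main` and `4 ^ (N+4) ≤ card K` give `Q c ^ 2 ≤ (Z / 2 ^ (N+4)) ^ 2`, so `Q c ≥ - Z / 2 ^ (N+4)`; there are at most `2 ^ (N+1)` of them. -/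
theorem B9_low [Fintype K] (P : SL K F) (H W : Submodule K F) [Fintype H] [Finite W]
    (hHW : ∀ a b : H, (a : F) * (b : F) ∈ W) (hN : 0 < N) (hq : 4 ^ (N + 4) ≤ Fintype.card K)
    (lam : (Additive Fˣ) [⋀^Fin N]→ₗ[ℤ] ℝ) :
    7 / 8 * SOm (fun v (_ : Fin (N + 1) → H) => tt P H W lam v ^ 2) ≤
      SOm (fun v w => tt P H W lam v * ∑ c : Fin (N + 1) → Bool, tt P H W lam (mix c v w)) := by
  classical
  set Z : ℝ := SOm (fun v (_ : Fin (N + 1) → H) => tt P H W lam v ^ 2) with hZ
  let Q : (Fin (N + 1) → Bool) → ℝ := fun c => SOm (fun v w => tt P H W lam v * tt P H W lam (mix c v w))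
  have hZ0 : 0 ≤ Z := B9a_nonneg _ fun v w => sq_nonneg _
  have h1 : SOm (fun v w => tt P H W lam v * ∑ c : Fin (N + 1) → Bool, tt P H W lam (mix c v w)) =
      ∑ c : Fin (N + 1) → Bool, Q c := by
    have h : (fun v w => tt P H W lam v * ∑ c : Fin (N + 1) → Bool, tt P H W lam (mix c v w)) =
        fun v w => ∑ c : Fin (N + 1) → Bool, tt P H W lam v * tt P H W lam (mix c v w) := by
      funext v w
      rw [Finset.mul_sum]
    rw [h]
    exact B9a_sum fun (c : Fin (N + 1) → Bool) v w => tt P H W lam v * tt P H W lam (mix c v w)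
  have h2 : Q (fun _ => false) = Z := by
    change SOm _ = SOm _
    refine congrArg SOm ?_
    funext v w
    have h : mix (fun _ => false) v w = v := by
      funext j
      simp [mix]
    rw [h, sq]
  have hpos : (0 : ℝ) < 2 ^ (N + 4) := by positivity
  have h3 : ∀ c, - (Z / 2 ^ (N + 4)) ≤ Q c := by
    intro c
    have h0 : - (Z / 2 ^ (N + 4)) ≤ 0 := by
      have : 0 ≤ Z / 2 ^ (N + 4) := div_nonneg hZ0 hpos.le
      linarith
    by_cases hc : ∃ i j, i ≠ j ∧ c i = true ∧ c j = true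
    · obtain ⟨i, j, hij, hi, hj⟩ := hc
      have h := B6_main P H W hHW lam c hij hi hj
      have hq' : ((4 : ℝ) ^ (N + 4)) ≤ (Fintype.card K : ℝ) := by exact_mod_cast hq
      have h4 : (2 ^ (N + 4) * Q c) ^ 2 ≤ Z ^ 2 := by
        have e : (2 ^ (N + 4) * Q c) ^ 2 = 4 ^ (N + 4) * Q c ^ 2 := by
          rw [mul_pow, ← pow_mul, mul_comm (N + 4) 2, pow_mul]
          norm_num
        rw [e]
        exact (mul_le_mul_of_nonneg_right hq' (sq_nonneg _)).trans h
      have h5 := (abs_le_of_sq_le_sq' h4 hZ0).1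
      rw [neg_le_iff_add_nonneg, ← mul_le_mul_iff_right₀ hpos]
      rw [mul_zero, mul_add, mul_div_cancel₀ Z hpos.ne']
      linarith
    · refine h0.trans ?_
      by_cases hc' : ∃ i, c i = true
      · obtain ⟨i, hi⟩ := hc'
        refine B7_one P H W hHW hN lam c i hi fun j hj => ?_
        by_contra hne
        exact hc ⟨j, i, hj, by simpa using hne, hi⟩
      · have e : c = fun _ => false := by
          funext j
          by_contra hne
          exact hc' ⟨j, by simpa using hne⟩
        rw [e, h2]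
        exact hZ0
  rw [h1, ← Finset.add_sum_erase Finset.univ Q (Finset.mem_univ fun _ => false), h2]
  have h6 : - (Z / 8) ≤ ∑ c ∈ Finset.univ.erase (fun _ => false), Q c := by
    have h7 := Finset.card_nsmul_le_sum (Finset.univ.erase (fun _ : Fin (N + 1) => false)) Q (- (Z / 2 ^ (N + 4)))
      fun c _ => h3 c
    refine le_trans ?_ h7
    have h8 : ((Finset.univ.erase (fun _ : Fin (N + 1) => false)).card : ℝ) ≤ 2 ^ (N + 1) := by
      have h9 := Finset.card_le_univ (Finset.univ.erase (fun _ : Fin (N + 1) => false))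
      rw [Fintype.card_fun, Fintype.card_bool, Fintype.card_fin] at h9
      exact_mod_cast h9
    rw [nsmul_eq_mul, mul_neg]
    refine neg_le_neg ?_
    have h10 : Z / 8 = 2 ^ (N + 1) * (Z / 2 ^ (N + 4)) := by
      have e : (2 : ℝ) ^ (N + 4) = 2 ^ (N + 1) * 8 := by
        rw [show N + 4 = (N + 1) + 3 from rfl, pow_add]
        norm_num
      rw [e]
      field_simp
    rw [h10]
    exact mul_le_mul_of_nonneg_right h8 (div_nonneg hZ0 hpos.le)
  linarith

end Pool.Agent.MP_b197b4_ntV3
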