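import Pool.Agent.Lib.MP_b197b4_ntV3.CDefs

/-!
# V3, leaf C0: rules for the combinations `Cb`
-/

set_option autoImplicit false
set_option linter.unusedSectionVars false

noncomputable section

namespace Pool.Agent.MP_b197b4_ntV3

open scoped BigOperators
open Pool.Agent.MP_b197b4_ntUV Pool.Agent.MP_b197b4_ntLV

variable {k F : Type} [Field k] [Field F] [Algebra k F]

theorem Cb_zero (V : Submodule k F) (d : ℕ) {ι : Type} (I : Finset ι) (y : ι → F) : Cb V d I y 0 :=
  ⟨fun _ => 0, fun _ => Submodule.zero_mem _, by simp⟩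

theorem Cb_add {V : Submodule k F} {d : ℕ} {ι : Type} {I : Finset ι} {y : ι → F} {w w' : F}
    (h : Cb V d I y w) (h' : Cb V d I y w') : Cb V d I y (w + w') := by
  obtain ⟨g, hg, hw⟩ := h
  obtain ⟨g', hg', hw'⟩ := h'
  refine ⟨fun i => g i + g' i, fun i => Submodule.add_mem _ (hg i) (hg' i), ?_⟩
  rw [← hw, ← hw', ← Finset.sum_add_distrib]
  exact Finset.sum_congr rfl fun i _ => mul_add _ _ _

theorem Cb_smul {V : Submodule k F} {d : ℕ} {ι : Type} {I : Finset ι} {y : ι → F} {w : F} (c : k)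
    (h : Cb V d I y w) : Cb V d I y (c • w) := by
  obtain ⟨g, hg, hw⟩ := h
  refine ⟨fun i => c • g i, fun i => Submodule.smul_mem _ c (hg i), ?_⟩
  rw [← hw, Finset.smul_sum]
  exact Finset.sum_congr rfl fun i _ => mul_smul_comm _ _ _

theorem Cb_sum {V : Submodule k F} {d : ℕ} {ι : Type} {I : Finset ι} {y : ι → F} {α : Type} (S : Finset α)
    (f : α → F) (h : ∀ a ∈ S, Cb V d I y (f a)) : Cb V d I y (∑ a ∈ S, f a) := by
  classical
  induction S using Finset.induction_on with
  | empty =>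
    rw [Finset.sum_empty]
    exact Cb_zero V d I y
  | insert a S ha ih =>
    rw [Finset.sum_insert ha]
    exact Cb_add (h a (Finset.mem_insert_self _ _))
      (ih fun b hb => h b (Finset.mem_insert_of_mem hb))

/-- PROOF helper: `pow_add`. -/
private theorem C0_mul_mem {V : Submodule k F} {a b : ℕ} {x y : F} (hx : x ∈ V ^ a) (hy : y ∈ V ^ b) :
    x * y ∈ V ^ (a + b) := by
  rw [pow_add]
  exact Submodule.mul_mem_mul hx hy

theorem Cb_mul {V : Submodule k F} {d e : ℕ} {ι : Type} {I : Finset ι} {y : ι → F} {w z : F}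
    (h : Cb V d I y w) (hz : z ∈ V ^ e) : Cb V (d + e) I y (w * z) := by
  obtain ⟨g, hg, hw⟩ := h
  refine ⟨fun i => g i * z, fun i => C0_mul_mem (hg i) hz, ?_⟩
  rw [← hw, Finset.sum_mul]
  exact Finset.sum_congr rfl fun i _ => (mul_assoc _ _ _).symm

theorem Cb_single {V : Submodule k F} {d : ℕ} {ι : Type} {I : Finset ι} {y : ι → F} {i : ι} (hi : i ∈ I) {z : F}
    (hz : z ∈ V ^ d) : Cb V d I y (y i * z) := by
  classical
  refine ⟨fun j => if j = i then z else 0, fun j => ?_, ?_⟩
  · by_cases hj : j = i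
    · simpa [hj] using hz
    · simp [hj]
  · rw [Finset.sum_eq_single_of_mem i hi]
    · simp
    · intro j _ hj
      simp [hj]

/-- PROOF. Induction on `I` (as `C3_mono_mem`). -/
theorem EE_mem {V : Submodule k F} {ι : Type} {eps : ι → F} (U : Finset ι) (h : ∀ j ∈ U, eps j ∈ V) :
    EE eps U ∈ V ^ U.card := by
  classical
  induction U using Finset.induction_on with
  | empty =>
    rw [Finset.card_empty, pow_zero]
    change (∏ j ∈ (∅ : Finset ι), eps j) ∈ _
    rw [Finset.prod_empty]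
    exact Submodule.one_le.1 le_rfl
  | insert a S ha ih =>
    rw [Finset.card_insert_of_notMem ha, pow_succ']
    change (∏ j ∈ insert a S, eps j) ∈ _
    rw [Finset.prod_insert ha]
    exact Submodule.mul_mem_mul (h a (Finset.mem_insert_self _ _))
      (ih fun b hb => h b (Finset.mem_insert_of_mem hb))

/-- PROOF. `V ^ 1 = V`, `pow_add`. -/
theorem mul_mem_pow {V : Submodule k F} {a b : ℕ} {x y : F} (hx : x ∈ V ^ a) (hy : y ∈ V ^ b) :
    x * y ∈ V ^ (a + b) := C0_mul_mem hx hy

end Pool.Agent.MP_b197b4_ntV3
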