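import Pool.Agent.Lib.MP_b197b4_ntV3.C0

/-!
# V3, leaf C1a: multisets of given size
-/

set_option autoImplicit false
set_option linter.unusedSectionVars false

noncomputable section

namespace Pool.Agent.MP_b197b4_ntV3

open scoped BigOperators
open Pool.Agent.MP_b197b4_ntUV Pool.Agent.MP_b197b4_ntLV

variable {k F : Type} [Field k] [Field F] [Algebra k F]

/-- PROOF. `Multiset.count` over all the elements sums up to the cardinality. -/
theorem cnt_sum {m d : ℕ} (s : Sym (Fin m) d) : ∑ i, cnt s i = d := by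
  have h := Multiset.sum_count_eq_card (s := Finset.univ) (m := (s : Multiset (Fin m)))
    (fun a _ => Finset.mem_univ a)
  exact h.trans s.2

private theorem C1a_cons {m d : ℕ} (j : Fin m) (s : Sym (Fin m) d) (i : Fin m) :
    cnt (Sym.cons j s) i = cnt s i + if i = j then 1 else 0 := by
  unfold cnt
  rw [Sym.coe_cons, Multiset.count_cons]

/-- PROOF. Induction on `d`: for `d + 1` take some `i` with `γ i > 0` and apply the induction hypothesis to `γ - e_i`. -/
theorem cnt_exists {m d : ℕ} (γ : Fin m → ℕ) (h : d ≤ ∑ i, γ i) : ∃ s : Sym (Fin m) d, ∀ i, cnt s i ≤ γ i := by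
  induction d generalizing γ with
  | zero =>
    refine ⟨Sym.nil, fun i => ?_⟩
    have h1 : cnt (Sym.nil : Sym (Fin m) 0) i = 0 := Multiset.count_zero i
    rw [h1]
    exact Nat.zero_le _
  | succ d ih =>
    have hpos : ∃ i, 0 < γ i := by
      by_contra hc
      have h0 : ∑ i, γ i = 0 := Finset.sum_eq_zero fun i _ => by
        by_contra hne
        exact hc ⟨i, Nat.pos_of_ne_zero hne⟩
      omega
    obtain ⟨j, hj⟩ := hpos
    have hsum : ∑ i, (γ i - if i = j then 1 else 0) + 1 = ∑ i, γ i := by
      have h1 : ∑ i, (γ i - if i = j then 1 else 0) + ∑ i, (if i = j then 1 else 0) = ∑ i, γ i := by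
        rw [← Finset.sum_add_distrib]
        refine Finset.sum_congr rfl fun i _ => ?_
        split_ifs with hij
        · subst hij
          omega
        · omega
      rw [Finset.sum_ite_eq' Finset.univ j (fun _ => 1), if_pos (Finset.mem_univ j)] at h1
      exact h1
    obtain ⟨s, hs⟩ := ih (fun i => γ i - if i = j then 1 else 0) (by omega)
    refine ⟨Sym.cons j s, fun i => ?_⟩
    rw [C1a_cons]
    have h2 := hs i
    split_ifs with hij
    · subst hij
      rw [if_pos rfl] at h2
      omega
    · rw [if_neg hij] at h2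
      omega

/-- PROOF. `cnt_exists` and `cnt_sum` (equality of the sums). -/
theorem cnt_exists_eq {m d : ℕ} (γ : Fin m → ℕ) (h : ∑ i, γ i = d) : ∃ s : Sym (Fin m) d, ∀ i, cnt s i = γ i := by
  obtain ⟨s, hs⟩ := cnt_exists (d := d) γ h.ge
  refine ⟨s, fun i => ?_⟩
  have h1 : ∑ i, cnt s i = ∑ i, γ i := by rw [cnt_sum, h]
  exact (Finset.sum_eq_sum_iff_of_le fun i _ => hs i).1 h1 i (Finset.mem_univ i)

/-- PROOF. `Multiset.ext`. -/
theorem cnt_inj {m d : ℕ} (s s' : Sym (Fin m) d) (h : ∀ i, cnt s i = cnt s' i) : s = s' := by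
  apply Sym.coe_injective
  exact Multiset.ext.2 h

/-- PROOF. `Finset.prod_mul_distrib`, `pow_add` (compare `C3_mono_add`). -/
theorem mono_split {n : ℕ} (T : Fin (n + 1) → F) (a b : Fin (n + 1) → ℕ) (h : ∀ i, a i ≤ b i) :
    mono T b = mono T a * mono T (fun i => b i - a i) := by
  unfold mono
  rw [← Finset.prod_mul_distrib]
  refine Finset.prod_congr rfl fun i _ => ?_
  rw [← pow_add, Nat.add_sub_cancel' (h i)]

/-- PROOF. As `C3_mono_mem` (`ntUV/C3.lean`). -/
theorem mono_mem {n : ℕ} (V : Submodule k F) (T : Fin (n + 1) → F) (hT : ∀ i, T i ∈ V)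
    (a : Fin (n + 1) → ℕ) : mono T a ∈ V ^ (∑ i, a i) := by
  unfold mono
  have h : ∀ s : Finset (Fin (n + 1)), ∏ i ∈ s, T i ^ a i ∈ V ^ (∑ i ∈ s, a i) := by
    intro s
    induction s using Finset.induction_on with
    | empty =>
      rw [Finset.prod_empty, Finset.sum_empty, pow_zero]
      exact Submodule.one_le.mp le_rfl
    | insert x s hx ih =>
      rw [Finset.prod_insert hx, Finset.sum_insert hx, pow_add]
      exact Submodule.mul_mem_mul (Submodule.pow_mem_pow V (hT x) (a x)) ih
  exact h Finset.univ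

end Pool.Agent.MP_b197b4_ntV3
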