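import Pool.Agent.Lib.MP_b197b4_ntLV.LA
import Pool.Agent.Lib.MP_b197b4_ntUV.P

/-!
# V3: high Milnor K-groups, two factors.  Definitions.  See T_V3_helper62.md.

Rows: the indices `0, …, N` (`Fin (N + 1)`).  `H * H ⊆ W`.
-/

set_option autoImplicit false

noncomputable section

namespace Pool.Agent.MP_b197b4_ntV3

open scoped BigOperators
open Pool.Agent.MP_b197b4_ntUV Pool.Agent.MP_b197b4_ntLV

section B

variable {K F : Type*} [Field K] [Field F] [Algebra K F]

/-- Good families: units, and the rows different from `i`, `j` cover `W`, for all `i ≠ j`. -/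
def G2 (P : SL K F) (H W : Submodule K F) {N : ℕ} (X : Fin (N + 1) → H) : Prop :=
  (∀ j, IsU P (X j : F)) ∧
    ∀ i j, i ≠ j → Cov H W ((Finset.univ.erase i).erase j) (fun s => (X s : F))

/-- the syzygies: `sum_j v_j w_j = 0` -/
def Om {H : Submodule K F} {N : ℕ} (v w : Fin (N + 1) → H) : Prop := ∑ j, (v j : F) * (w j : F) = 0

/-- the mixture: `w j` if `c j`, `v j` otherwise -/
def mix {α : Type*} {N : ℕ} (c : Fin (N + 1) → Bool) (v w : Fin (N + 1) → α) : Fin (N + 1) → α :=
  fun j => if c j then w j else v j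

open Classical in
/-- `theta` on good families, zero on the others -/
def tt (P : SL K F) (H W : Submodule K F) {N : ℕ} (lam : (Additive Fˣ) [⋀^Fin N]→ₗ[ℤ] ℝ)
    (X : Fin (N + 1) → H) : ℝ := if G2 P H W X then theta lam (fun j => (X j : F)) else 0

/-- all the mixtures of `v` and `w` are good, and the partial sums of the products are units -/
def OK (P : SL K F) (H W : Submodule K F) {N : ℕ} (v w : Fin (N + 1) → H) : Prop :=
  (∀ c, G2 P H W (mix c v w)) ∧ ChainU P (fun j => (v j : F) * (w j : F))

/-- the space of the syzygies of `v` -/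
def Syz {H : Submodule K F} {N : ℕ} (v : Fin (N + 1) → H) : Submodule K (Fin (N + 1) → H) where
  carrier := {w | Om v w}
  add_mem' := by
    intro a b ha hb
    change ∑ j, (v j : F) * (a j : F) = 0 at ha
    change ∑ j, (v j : F) * (b j : F) = 0 at hb
    change ∑ j, (v j : F) * (((a + b) j : H) : F) = 0
    have h : ∑ j, (v j : F) * (((a + b) j : H) : F) = ∑ j, (v j : F) * (a j : F) + ∑ j, (v j : F) * (b j : F) := by
      rw [← Finset.sum_add_distrib]
      exact Finset.sum_congr rfl fun j _ => by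
        rw [Pi.add_apply, Submodule.coe_add, mul_add]
    rw [h, ha, hb, add_zero]
  zero_mem' := by
    simp [Om]
  smul_mem' := by
    intro c a ha
    change ∑ j, (v j : F) * (a j : F) = 0 at ha
    change ∑ j, (v j : F) * (((c • a) j : H) : F) = 0
    have h : ∑ j, (v j : F) * (((c • a) j : H) : F) = c • ∑ j, (v j : F) * (a j : F) := by
      rw [Finset.smul_sum]
      exact Finset.sum_congr rfl fun j _ => by
        rw [Pi.smul_apply, Submodule.coe_smul, mul_smul_comm]
    rw [h, ha, smul_zero]

theorem mem_Syz {H : Submodule K F} {N : ℕ} (v w : Fin (N + 1) → H) : w ∈ Syz v ↔ Om v w := Iff.rfl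

open Classical in
/-- the sum over all pairs with `Om v w` -/
def SOm {H : Submodule K F} [Fintype H] {N : ℕ} (f : (Fin (N + 1) → H) → (Fin (N + 1) → H) → ℝ) : ℝ :=
  ∑ v, ∑ w, if Om v w then f v w else 0

/-- the constant of the bad event -/
def c3 (r N D : ℕ) : ℕ := 2 ^ (N + 1) * (N + 1) ^ 2 * D + 2 * (N + 1) * (r + 1)

/-- the lower bound for `card K` -/
def q3 (r N D : ℕ) : ℕ := 4 ^ (N + 4) * (c3 r N D + 1) + 2

end B

section C

variable {k F : Type} [Field k] [Field F] [Algebra k F]

/-- the number of the forms -/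
def cst (e : ℕ) : ℕ := if e = 0 then 1 else 2 ^ e + 1

/-- the largest number of rows which vanish at a point at which `v` conditions hold -/
def Rv (n v : ℕ) : ℕ := if v = 0 then 0 else max n 2 + 2 * (v - 1)

/-- `w` is a combination of the `y i`, `i ∈ I`, with coefficients in `V ^ d` -/
def Cb (V : Submodule k F) (d : ℕ) {ι : Type} (I : Finset ι) (y : ι → F) (w : F) : Prop :=
  ∃ g : ι → F, (∀ i, g i ∈ V ^ d) ∧ ∑ i ∈ I, y i * g i = w

/-- the product of the `eps j`, `j ∈ U` -/
def EE {ι : Type} (eps : ι → F) (U : Finset ι) : F := ∏ j ∈ U, eps j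

/-- the rows: `C` and the `A j` or the `B j` -/
def rowE {N : ℕ} (A B : Fin N → Fˣ) (C : Fˣ) (e : Fin N → Bool) : Fin (N + 1) → F :=
  Fin.cons (C : F) fun j => if e j then (A j : F) else (B j : F)

/-- the numerical condition -/
def NumN (n N : ℕ) : Prop := ∀ v, v ≤ n → cst (n - v) + Rv n v + 1 ≤ N

end C

end Pool.Agent.MP_b197b4_ntV3
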