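import Pool.Agent.Lib.MP_b197b4_ntV3.G9
import Pool.Agent.Lib.MP_b197b4_ntV3.Defs

/-!
# V3: the forms
-/

set_option autoImplicit false
set_option linter.unusedSectionVars false

noncomputable section

namespace Pool.Agent.MP_b197b4_ntV3

open scoped BigOperators
open Pool.Agent.MP_b197b4_ntUV Pool.Agent.MP_b197b4_ntLV

variable {k F : Type} [Field k] [Field F] [Algebra k F]

theorem F3_infinite (hk : LocFin k) : Infinite k := by
  by_contra h
  rw [not_infinite_iff_finite] at h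
  obtain ⟨K, hK, hq, -⟩ := hk ∅ (Nat.card k + 1)
  have : Nat.card K ≤ Nat.card k := Nat.card_le_card_of_injective _ Subtype.val_injective
  omega

/-- `G9_main` (and `T4_main` for `e = 0`) with the number `cst e`. -/
theorem C2_main (hk : LocFin k) (e C : ℕ) : ∃ D0, ∀ D, D0 ≤ D → (e = 0 ∨ e ∣ D) → ∀ (V : Submodule k F) (T : Fin (e + 1) → F),
    (∀ i, T i ∈ V) → ∃ Y : Fin (cst e) → F, (∀ i, Y i ∈ V ^ D) ∧
      ∀ b : Fin (e + 1) → ℕ, 2 * D ≤ ∑ i, b i + C → Cb V (∑ i, b i - D) Finset.univ Y (mono T b) := by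
  rcases Nat.eq_zero_or_pos e with rfl | he
  · have := F3_infinite hk
    obtain ⟨D0, h⟩ := T4_main (k := k) (F := F) 0 C
    exact ⟨D0, fun D hD _ V T hT => h D hD V T hT⟩
  · obtain ⟨D0, h⟩ := G9_main (F := F) hk e C he
    have h1 : cst e = 2 ^ e + 1 := if_neg he.ne'
    rw [h1]
    exact ⟨D0, fun D hD _ V T hT => h D hD V T hT⟩

end Pool.Agent.MP_b197b4_ntV3
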