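import Pool.Agent.Lib.MP_b197b4_ntV3.C0
import Pool.Agent.Lib.MP_b197b4_ntUV.C1
import Pool.Agent.Lib.MP_b197b4_ntV3.C1a

/-!
# V3, leaf C3a: generation by monomials modulo a few elements
-/

set_option autoImplicit false
set_option linter.unusedSectionVars false

noncomputable section

namespace Pool.Agent.MP_b197b4_ntV3

open scoped BigOperators
open Pool.Agent.MP_b197b4_ntUV Pool.Agent.MP_b197b4_ntLV

variable {k F : Type} [Field k] [Field F] [Algebra k F]

private theorem C3a_mono_add {n : ℕ} (T : Fin (n + 1) → F) (a b : Fin (n + 1) → ℕ) :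
    mono T (fun j => a j + b j) = mono T a * mono T b := by
  unfold mono
  rw [← Finset.prod_mul_distrib]
  exact Finset.prod_congr rfl fun j _ => pow_add _ _ _

private theorem C3a_mono_single {n : ℕ} (T : Fin (n + 1) → F) (i : Fin (n + 1)) :
    mono T (Pi.single i 1 : Fin (n + 1) → ℕ) = T i := by
  unfold mono
  rw [Finset.prod_eq_single i]
  · rw [Pi.single_eq_same, pow_one]
  · intro j _ hj
    rw [Pi.single_eq_of_ne hj, pow_zero]
  · intro h
    exact absurd (Finset.mem_univ i) h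

private theorem C3a_ind {ι : Type} (V : Submodule k F) {e : ℕ} (T : Fin (e + 1) → F) (hT : ∀ i, T i ∈ V)
    (J : Finset ι) (eps : ι → F) (m0 : ℕ)
    (hm0 : ∀ m, m0 ≤ m → ∀ w ∈ V ^ (m + 1), ∃ u : Fin (e + 1) ⊕ {j // j ∈ J} → F, (∀ j, u j ∈ V ^ m) ∧
      ∑ j, (Sum.elim T (fun j => eps j.1) : Fin (e + 1) ⊕ {j // j ∈ J} → F) j * u j = w) (d : ℕ) :
    ∀ Q : F → Prop, Q 0 → (∀ x y, Q x → Q y → Q (x + y)) →
      (∀ b : Fin (e + 1) → ℕ, ∑ i, b i = d → ∀ z ∈ V ^ m0, Q (mono T b * z)) →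
      (∀ j ∈ J, ∀ z ∈ V ^ (m0 + d - 1), 1 ≤ d → Q (eps j * z)) → ∀ w ∈ V ^ (m0 + d), Q w := by
  induction d with
  | zero =>
    intro Q h0 hadd h _ w hw
    have h1 := h (fun _ => 0) (by simp) w hw
    have h2 : mono T (fun _ => 0) = 1 := by
      unfold mono
      simp
    rw [h2, one_mul] at h1
    exact h1
  | succ d ih =>
    intro Q h0 hadd h he w hw
    obtain ⟨u, hu, rfl⟩ := hm0 (m0 + d) (Nat.le_add_right _ _) w hw
    have hT' : ∀ i, Q (T i * u (Sum.inl i)) := by
      intro i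
      refine ih (fun x => Q (T i * x)) ?_ ?_ ?_ ?_ (u (Sum.inl i)) (hu _)
      · show Q (T i * 0)
        rw [mul_zero]
        exact h0
      · intro x y hx hy
        show Q (T i * (x + y))
        rw [mul_add]
        exact hadd _ _ hx hy
      · intro b hb z hz
        have h2 := h (fun j => (Pi.single i 1 : Fin (e + 1) → ℕ) j + b j) (by
          rw [Finset.sum_add_distrib, hb, Finset.sum_pi_single', if_pos (Finset.mem_univ _)]
          omega) z hz
        rw [C3a_mono_add, C3a_mono_single, mul_assoc] at h2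
        exact h2
      · intro j hj z hz hd
        show Q (T i * (eps j * z))
        have h3 : T i * (eps j * z) = eps j * (T i * z) := by ring
        rw [h3]
        refine he j hj _ ?_ (Nat.le_add_left 1 d)
        have h4 : m0 + (d + 1) - 1 = 1 + (m0 + d - 1) := by omega
        rw [h4, pow_add, pow_one]
        exact Submodule.mul_mem_mul (hT i) hz
    have he' : ∀ j : {j // j ∈ J}, Q (eps j.1 * u (Sum.inr j)) := by
      intro j
      refine he j.1 j.2 _ ?_ (Nat.le_add_left 1 d)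
      have h4 : m0 + (d + 1) - 1 = m0 + d := by omega
      rw [h4]
      exact hu _
    have h5 : ∀ j, Q ((Sum.elim T (fun j => eps j.1) : Fin (e + 1) ⊕ {j // j ∈ J} → F) j * u j) := by
      intro j
      cases j with
      | inl i => exact hT' i
      | inr j => exact he' j
    have h2 : ∀ s : Finset (Fin (e + 1) ⊕ {j // j ∈ J}),
        Q (∑ j ∈ s, (Sum.elim T (fun j => eps j.1) : Fin (e + 1) ⊕ {j // j ∈ J} → F) j * u j) := by
      classical
      intro s
      induction s using Finset.induction_on with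
      | empty =>
        rw [Finset.sum_empty]
        exact h0
      | insert x s hx ih =>
        rw [Finset.sum_insert hx]
        exact hadd _ _ (h5 x) ih
    exact h2 Finset.univ

/-- PROOF. `C1_pow` for the family `T i`, `eps j` (`i : Fin (e+1)`, `j ∈ J`; index type `Fin (e+1) ⊕ J`): `V ^ (m+1) = ∑ T i V ^ m + ∑ eps j V ^ m` for `m ≥ m0`. Induction on `d` (as `C3_ind` in
`ntUV/C3.lean`): every element of `V ^ (m0 + d)` is a sum of products `mono T b * z`, `∑ b = d`, `z ∈ V ^ m0`, and of `∑_{j ∈ J} eps j * h j`, `h j ∈ V ^ (m0 + d - 1)`. -/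
theorem C3_gen {ι : Type} (V : Submodule k F) [FiniteDimensional k V] {e : ℕ} (T : Fin (e + 1) → F)
    (hT : ∀ i, T i ∈ V) (J : Finset ι) (eps : ι → F) (heps : ∀ j, eps j ∈ V)
    (hp : ∀ O : ValuationSubring F, IsPt k O → (∃ i, ¬ Van O V (T i)) ∨ ∃ j ∈ J, ¬ Van O V (eps j)) :
    ∃ m0 : ℕ, ∀ d : ℕ, ∀ Q : F → Prop, Q 0 → (∀ x y, Q x → Q y → Q (x + y)) →
      (∀ b : Fin (e + 1) → ℕ, ∑ i, b i = d → ∀ z ∈ V ^ m0, Q (mono T b * z)) →
      (∀ j ∈ J, ∀ z ∈ V ^ (m0 + d - 1), 1 ≤ d → Q (eps j * z)) → ∀ w ∈ V ^ (m0 + d), Q w := by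
  obtain ⟨m0, hm0⟩ := C1_pow V (Sum.elim T (fun j => eps j.1) : Fin (e + 1) ⊕ {j // j ∈ J} → F) (by
    intro j
    cases j with
    | inl i => exact hT i
    | inr j => exact heps j.1) (by
    intro O hO
    rcases hp O hO with ⟨i, hi⟩ | ⟨j, hj, hj'⟩
    · exact ⟨Sum.inl i, hi⟩
    · exact ⟨Sum.inr ⟨j, hj⟩, hj'⟩)
  exact ⟨m0, fun d => C3a_ind V T hT J eps m0 hm0 d⟩

end Pool.Agent.MP_b197b4_ntV3
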