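import Pool.Agent.Lib.MP_b197b4_ntV3.C3a
import Pool.Agent.Lib.MP_b197b4_ntV3.C2b

/-!
# V3, leaf C3b: one condition can be satisfied
-/

set_option autoImplicit false
set_option linter.unusedSectionVars false

noncomputable section

namespace Pool.Agent.MP_b197b4_ntV3

open scoped BigOperators
open Pool.Agent.MP_b197b4_ntUV Pool.Agent.MP_b197b4_ntLV

variable {k F : Type} [Field k] [Field F] [Algebra k F]

private theorem C3b_single {ι : Type} [DecidableEq ι] {n : ℕ} (f : Fin n → ι)
    (hf : Function.Injective f) (Y : Fin n → F) (i : Fin n) :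
    (∑ i', if f i' = f i then Y i' else 0) = Y i := by
  rw [Finset.sum_eq_single i]
  · rw [if_pos rfl]
  · intro j _ hj
    rw [if_neg]
    intro h
    exact hj (hf h)
  · intro h
    exact absurd (Finset.mem_univ _) h

private theorem C3b_sum {ι : Type} [DecidableEq ι] {n : ℕ} (f : Fin n → ι)
    (hf : Function.Injective f) (U : Finset ι) (hU : ∀ i, f i ∈ U) (Y g : Fin n → F) :
    ∑ s ∈ U, (∑ i, if f i = s then Y i else 0) * (∑ i, if f i = s then g i else 0) =
      ∑ i, Y i * g i := by
  have h1 : ∀ s, (∑ i, if f i = s then Y i else 0) * (∑ i, if f i = s then g i else 0) =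
      ∑ i, if f i = s then Y i * g i else 0 := by
    intro s
    by_cases hs : ∃ i, f i = s
    · obtain ⟨i, rfl⟩ := hs
      rw [C3b_single f hf, C3b_single f hf, C3b_single f hf]
    · push Not at hs
      rw [Finset.sum_eq_zero fun i _ => if_neg (hs i),
        Finset.sum_eq_zero (f := fun i => if f i = s then Y i * g i else 0)
          fun i _ => if_neg (hs i), zero_mul]
  rw [Finset.sum_congr rfl fun s _ => h1 s, Finset.sum_comm]
  refine Finset.sum_congr rfl fun i _ => ?_
  rw [Finset.sum_ite_eq, if_pos (hU i)]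

/-- PROOF. `m0` from `C3_gen`; `C2_main` with the constant `m0 + u`; `D0` also `≥ u + m0`. Put the `Y i` on `cst e` of the elements of `U` (an injection `Fin (cst e) ↪ U`), `eta = 0` elsewhere.
`w ∈ V ^ (2D+2-u)`, `2D+2-u = m0 + d`: for `∑ b = d`, `z ∈ V ^ m0`: `mono T b = ∑ Y i * q i`, `q i ∈ V ^ (d - D)` (`2D ≤ d + (m0 + u)`), so `mono T b * z = ∑ Y i * (q i * z)`,
`q i * z ∈ V ^ (d - D + m0) = V ^ (D+2-u)`; and `eps j * z`, `z ∈ V ^ (m0 + d - 1) = V ^ (2D+1-u)`. The predicate `Q w` is the conclusion of `CondS` for `w`. -/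
theorem C3_cond (hk : LocFin k) {ι : Type} [DecidableEq ι] (V : Submodule k F) [FiniteDimensional k V] {e : ℕ} (T : Fin (e + 1) → F)
    (hT : ∀ i, T i ∈ V) (J : Finset ι) (eps : ι → F) (heps : ∀ j, eps j ∈ V)
    (hp : ∀ O : ValuationSubring F, IsPt k O → (∃ i, ¬ Van O V (T i)) ∨ ∃ j ∈ J, ¬ Van O V (eps j)) (u : ℕ) :
    ∃ D0, ∀ D, D0 ≤ D → (e = 0 ∨ e ∣ D) → ∀ U : Finset ι, cst e ≤ U.card →
      ∃ eta : ι → F, (∀ s, eta s ∈ V ^ D) ∧
        CondS V (2 * D + 2 - u) (D + 2 - u) (2 * D + 1 - u) U J eps eta := by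
  obtain ⟨m0, hm0⟩ := C3_gen V T hT J eps heps hp
  obtain ⟨D1, hD1⟩ := C2_main (F := F) hk e (m0 + u)
  refine ⟨max D1 (u + m0), ?_⟩
  intro D hD heD U hU
  have hD1' : D1 ≤ D := le_trans (le_max_left _ _) hD
  have hDu : u + m0 ≤ D := le_trans (le_max_right _ _) hD
  obtain ⟨Y, hYV, hY⟩ := hD1 D hD1' heD V T hT
  obtain ⟨U', hU'U, hcard⟩ := Finset.exists_subset_card_eq hU
  set f : Fin (cst e) → ι := fun i => ((U'.equivFinOfCardEq hcard).symm i : ι) with hfdef
  have hf : Function.Injective f := by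
    intro i j h
    exact (U'.equivFinOfCardEq hcard).symm.injective (Subtype.ext h)
  have hfU : ∀ i, f i ∈ U := fun i => hU'U ((U'.equivFinOfCardEq hcard).symm i).2
  refine ⟨fun s => ∑ i, if f i = s then Y i else 0, ?_, ?_⟩
  · intro s
    refine Submodule.sum_mem _ fun i _ => ?_
    split_ifs
    · exact hYV i
    · exact Submodule.zero_mem _
  · have hd : m0 + (2 * D + 2 - u - m0) = 2 * D + 2 - u := by omega
    unfold CondS
    intro w hw
    rw [← hd] at hw
    refine hm0 (2 * D + 2 - u - m0) (fun w => ∃ g h : ι → F, (∀ i, g i ∈ V ^ (D + 2 - u)) ∧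
      (∀ i, h i ∈ V ^ (2 * D + 1 - u)) ∧
      ∑ s ∈ U, (∑ i, if f i = s then Y i else 0) * g s + ∑ j ∈ J, eps j * h j = w) ?_ ?_ ?_ ?_ w hw
    · refine ⟨0, 0, fun _ => Submodule.zero_mem _, fun _ => Submodule.zero_mem _, ?_⟩
      simp
    · rintro x y ⟨g, h, h1, h2, h3⟩ ⟨g', h', h1', h2', h3'⟩
      refine ⟨g + g', h + h', fun i => Submodule.add_mem _ (h1 i) (h1' i),
        fun i => Submodule.add_mem _ (h2 i) (h2' i), ?_⟩
      rw [← h3, ← h3']
      simp only [Pi.add_apply, mul_add, Finset.sum_add_distrib]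
      ring
    · intro b hb z hz
      obtain ⟨q, hq, hqs⟩ := hY b (by rw [hb]; omega)
      refine ⟨fun s => ∑ i, if f i = s then q i * z else 0, 0, ?_, fun _ => Submodule.zero_mem _, ?_⟩
      · intro s
        refine Submodule.sum_mem _ fun i _ => ?_
        split_ifs
        · have h1 := Submodule.mul_mem_mul (hq i) hz
          rw [← pow_add] at h1
          have h2 : ∑ i, b i - D + m0 = D + 2 - u := by rw [hb]; omega
          rw [h2] at h1
          exact h1
        · exact Submodule.zero_mem _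
      · rw [C3b_sum f hf U hfU, ← hqs, Finset.sum_mul]
        simp only [Pi.zero_apply, mul_zero, Finset.sum_const_zero, add_zero]
        exact Finset.sum_congr rfl fun i _ => by ring
    · intro j hj z hz hd1
      refine ⟨0, fun i => if i = j then z else 0, fun _ => Submodule.zero_mem _, ?_, ?_⟩
      · intro i
        have h2 : m0 + (2 * D + 2 - u - m0) - 1 = 2 * D + 1 - u := by omega
        rw [h2] at hz
        dsimp only
        split_ifs
        · exact hz
        · exact Submodule.zero_mem _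
      · simp only [Pi.zero_apply, mul_zero, Finset.sum_const_zero, zero_add, mul_ite]
        rw [Finset.sum_ite_eq' J j, if_pos hj]

end Pool.Agent.MP_b197b4_ntV3
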