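import Pool.Agent.Lib.MP_b197b4_ntV3.CDefs
import Pool.Agent.Lib.MP_b197b4_ntV3.S1

/-!
# V3, leaf C4a: a condition on a line
-/

set_option autoImplicit false
set_option linter.unusedSectionVars false

noncomputable section

namespace Pool.Agent.MP_b197b4_ntV3

open scoped BigOperators
open Pool.Agent.MP_b197b4_ntUV Pool.Agent.MP_b197b4_ntLV

variable {k F : Type} [Field k] [Field F] [Algebra k F]

/-- the linear map `(p, q) ↦ ∑_{s ∈ U} x s * p s` -/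
private def C4a_L1 {ι : Type} (V : Submodule k F) (b c : ℕ) (U : Finset ι) (x : ι → F) :
    ((ι → ↥(V ^ b)) × (ι → ↥(V ^ c))) →ₗ[k] F :=
  ∑ s ∈ U, (LinearMap.mulLeft k (x s)) ∘ₗ (V ^ b).subtype ∘ₗ LinearMap.proj s ∘ₗ
    LinearMap.fst k (ι → ↥(V ^ b)) (ι → ↥(V ^ c))

/-- the linear map `(p, q) ↦ ∑_{j ∈ J} e j * q j` -/
private def C4a_L2 {ι : Type} (V : Submodule k F) (b c : ℕ) (J : Finset ι) (e : ι → F) :
    ((ι → ↥(V ^ b)) × (ι → ↥(V ^ c))) →ₗ[k] F :=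
  ∑ j ∈ J, (LinearMap.mulLeft k (e j)) ∘ₗ (V ^ c).subtype ∘ₗ LinearMap.proj j ∘ₗ
    LinearMap.snd k (ι → ↥(V ^ b)) (ι → ↥(V ^ c))

private theorem C4a_L1_apply {ι : Type} (V : Submodule k F) (b c : ℕ) (U : Finset ι) (x : ι → F)
    (z : (ι → ↥(V ^ b)) × (ι → ↥(V ^ c))) :
    C4a_L1 V b c U x z = ∑ s ∈ U, x s * (z.1 s : F) := by
  unfold C4a_L1
  rw [LinearMap.sum_apply]
  rfl

private theorem C4a_L2_apply {ι : Type} (V : Submodule k F) (b c : ℕ) (J : Finset ι) (e : ι → F)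
    (z : (ι → ↥(V ^ b)) × (ι → ↥(V ^ c))) :
    C4a_L2 V b c J e z = ∑ j ∈ J, e j * (z.2 j : F) := by
  unfold C4a_L2
  rw [LinearMap.sum_apply]
  rfl

private theorem C4a_mem1 {ι : Type} (V : Submodule k F) {a b D : ℕ} (c : ℕ) (hab : D + b = a) (U : Finset ι)
    (x : ι → F) (hx : ∀ s, x s ∈ V ^ D) (z : (ι → ↥(V ^ b)) × (ι → ↥(V ^ c))) :
    C4a_L1 V b c U x z ∈ V ^ a := by
  rw [C4a_L1_apply, ← hab, pow_add]
  exact Submodule.sum_mem _ fun s _ => Submodule.mul_mem_mul (hx s) (z.1 s).2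

private theorem C4a_mem2 {ι : Type} (V : Submodule k F) {a c : ℕ} (b : ℕ) (hac : c + 1 = a) (J : Finset ι)
    (e : ι → F) (he : ∀ j, e j ∈ V) (z : (ι → ↥(V ^ b)) × (ι → ↥(V ^ c))) :
    C4a_L2 V b c J e z ∈ V ^ a := by
  rw [C4a_L2_apply, ← hac, pow_succ']
  exact Submodule.sum_mem _ fun j _ => Submodule.mul_mem_mul (he j) (z.2 j).2

/-- PROOF. `CondS` says that the linear map `(ι → V ^ b) × (ι → V ^ c) → V ^ a`, `(g, h) ↦ ∑_{s ∈ U} eta s * g s + ∑_{j ∈ J} eps j * h j`, is surjective; it is well defined because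
`eta s ∈ V ^ D`, `D + b = a`, `eps j ∈ V`, `c + 1 = a`. For `eta s + t • (eta' s - eta s)` it is `f + t • g`: `S1_line`. (For `s ∉ U` nothing is needed.) -/
theorem C4_line {ι : Type} [Fintype ι] (V : Submodule k F) [FiniteDimensional k V] {a b c D : ℕ} (hab : D + b = a)
    (hac : c + 1 = a) (U J : Finset ι) (eps eta eta' : ι → F) (heps : ∀ j, eps j ∈ V) (h1 : ∀ s, eta s ∈ V ^ D)
    (h2 : ∀ s, eta' s ∈ V ^ D) (h : CondS V a b c U J eps eta) :
    {t : k | ¬ CondS V a b c U J eps (fun s => eta s + t • (eta' s - eta s))}.Finite := by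
  classical
  have hfin : FiniteDimensional k ↥(V ^ a) := by
    have hV : V.FG := Module.Finite.iff_fg.mp inferInstance
    exact Module.Finite.iff_fg.mpr (hV.pow a)
  have h3 : ∀ s, eta' s - eta s ∈ V ^ D := fun s => Submodule.sub_mem _ (h2 s) (h1 s)
  let f : ((ι → ↥(V ^ b)) × (ι → ↥(V ^ c))) →ₗ[k] ↥(V ^ a) :=
    (C4a_L1 V b c U eta + C4a_L2 V b c J eps).codRestrict (V ^ a) fun z => by
      rw [LinearMap.add_apply]
      exact Submodule.add_mem _ (C4a_mem1 V c hab U eta h1 z) (C4a_mem2 V b hac J eps heps z)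
  let g : ((ι → ↥(V ^ b)) × (ι → ↥(V ^ c))) →ₗ[k] ↥(V ^ a) :=
    (C4a_L1 V b c U fun s => eta' s - eta s).codRestrict (V ^ a) fun z =>
      C4a_mem1 V c hab U _ h3 z
  have hf : Function.Surjective f := by
    rintro ⟨w, hw⟩
    obtain ⟨p, q, hp, hq, hs⟩ := h w hw
    refine ⟨(fun i => ⟨p i, hp i⟩, fun i => ⟨q i, hq i⟩), ?_⟩
    apply Subtype.ext
    change (C4a_L1 V b c U eta + C4a_L2 V b c J eps) (fun i => ⟨p i, hp i⟩, fun i => ⟨q i, hq i⟩) = w
    rw [LinearMap.add_apply, C4a_L1_apply, C4a_L2_apply]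
    exact hs
  refine (S1_line f g hf).1.subset ?_
  intro t ht hsurj
  apply ht
  intro w hw
  obtain ⟨z, hz⟩ := hsurj ⟨w, hw⟩
  refine ⟨fun i => (z.1 i : F), fun i => (z.2 i : F), fun i => (z.1 i).2, fun i => (z.2 i).2, ?_⟩
  have hz' : ((f + t • g) z : F) = w := by rw [hz]
  have hz2 : ((f + t • g) z : F) = (∑ s ∈ U, eta s * (z.1 s : F) + ∑ j ∈ J, eps j * (z.2 j : F)) +
      t • ∑ s ∈ U, (eta' s - eta s) * (z.1 s : F) := by
    have e1 : ((f z : ↥(V ^ a)) : F) = ∑ s ∈ U, eta s * (z.1 s : F) + ∑ j ∈ J, eps j * (z.2 j : F) := by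
      change (C4a_L1 V b c U eta + C4a_L2 V b c J eps) z = _
      rw [LinearMap.add_apply, C4a_L1_apply, C4a_L2_apply]
    have e2 : ((g z : ↥(V ^ a)) : F) = ∑ s ∈ U, (eta' s - eta s) * (z.1 s : F) := by
      change (C4a_L1 V b c U fun s => eta' s - eta s) z = _
      rw [C4a_L1_apply]
    rw [LinearMap.add_apply, LinearMap.smul_apply, Submodule.coe_add, Submodule.coe_smul, e1, e2]
  have hsum : ∑ s ∈ U, (eta s + t • (eta' s - eta s)) * (z.1 s : F) =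
      ∑ s ∈ U, eta s * (z.1 s : F) + t • ∑ s ∈ U, (eta' s - eta s) * (z.1 s : F) := by
    rw [Finset.smul_sum, ← Finset.sum_add_distrib]
    exact Finset.sum_congr rfl fun s _ => by rw [add_mul, smul_mul_assoc]
  have hgoal : ∑ s ∈ U, (eta s + t • (eta' s - eta s)) * (z.1 s : F) + ∑ j ∈ J, eps j * (z.2 j : F) = w := by
    rw [hsum, ← hz', hz2]
    abel
  exact hgoal

end Pool.Agent.MP_b197b4_ntV3
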