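import Pool.Agent.Lib.MP_b197b4_ntV3.CDefs

/-!
# V3, leaf C4b: general position on lines
-/

set_option autoImplicit false
set_option linter.unusedSectionVars false

noncomputable section

namespace Pool.Agent.MP_b197b4_ntV3

open scoped BigOperators
open Pool.Agent.MP_b197b4_ntUV Pool.Agent.MP_b197b4_ntLV

variable {k F : Type} [Field k] [Field F] [Algebra k F]

/-- PROOF. Induction on a finite set of the `i : κ`: `eta` satisfies the conditions already treated. For one more condition `i0` let `eta' ∈ E` satisfy it (`h1`). On the line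
`eta + t • (eta' - eta)` each old condition fails for finitely many `t` (`h2` at `eta`), and the new one as well (`h2` at `eta'` towards `eta`: `eta + t • (eta' - eta) =
eta' + (1 - t) • (eta - eta')`). `k` is infinite: choose `t` outside. -/
theorem C4_gen [Infinite k] (E : Submodule k F) {ι κ : Type} [Finite κ] (Pr : κ → (ι → F) → Prop)
    (h1 : ∀ i, ∃ eta : ι → F, (∀ s, eta s ∈ E) ∧ Pr i eta)
    (h2 : ∀ i (eta eta' : ι → F), (∀ s, eta s ∈ E) → (∀ s, eta' s ∈ E) → Pr i eta →
      {t : k | ¬ Pr i (fun s => eta s + t • (eta' s - eta s))}.Finite) :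
    ∃ eta : ι → F, (∀ s, eta s ∈ E) ∧ ∀ i, Pr i eta := by
  classical
  have _ := Fintype.ofFinite κ
  have key : ∀ T : Finset κ, ∃ eta : ι → F, (∀ s, eta s ∈ E) ∧ ∀ i ∈ T, Pr i eta := by
    intro T
    induction T using Finset.induction_on with
    | empty => exact ⟨fun _ => 0, fun _ => E.zero_mem, fun i hi => absurd hi (Finset.notMem_empty i)⟩
    | insert i0 T hi0 ih =>
      obtain ⟨eta, he, hT⟩ := ih
      obtain ⟨eta', he', h0⟩ := h1 i0
      have hfin : (⋃ i ∈ (T : Set κ),
          {t : k | ¬ Pr i (fun s => eta s + t • (eta' s - eta s))}).Finite :=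
        T.finite_toSet.biUnion fun i hi => h2 i eta eta' he he' (hT i hi)
      have hfin2 : {t : k | ¬ Pr i0 (fun s => eta s + t • (eta' s - eta s))}.Finite := by
        refine ((h2 i0 eta' eta he' he h0).image (fun t => 1 - t)).subset ?_
        intro t ht
        refine ⟨1 - t, ?_, sub_sub_cancel 1 t⟩
        intro h5
        apply ht
        have h6 : (fun s => eta' s + (1 - t) • (eta s - eta' s)) =
            fun s => eta s + t • (eta' s - eta s) := by
          funext s
          module
        rw [← h6]
        exact h5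
      obtain ⟨t, ht⟩ := (hfin.union hfin2).infinite_compl.nonempty
      refine ⟨fun s => eta s + t • (eta' s - eta s), fun s => E.add_mem (he s)
        (E.smul_mem t (E.sub_mem (he' s) (he s))), fun i hi => ?_⟩
      by_contra hni
      apply ht
      rcases Finset.mem_insert.1 hi with rfl | hi
      · exact Or.inr hni
      · exact Or.inl (Set.mem_biUnion (Finset.mem_coe.2 hi) hni)
  obtain ⟨eta, h3, h4⟩ := key Finset.univ
  exact ⟨eta, h3, fun i => h4 i (Finset.mem_univ i)⟩

/-- PROOF. If `eta s ∉ M` then `eta s + t • (eta' s - eta s) ∈ M` for at most one `t`. -/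
theorem C4_unit (M : Submodule k F) {ι : Type} (s : ι) (eta eta' : ι → F) (h : eta s ∉ M) :
    {t : k | ¬ (eta s + t • (eta' s - eta s) ∉ M)}.Finite := by
  refine Set.Subsingleton.finite fun t ht t' ht' => ?_
  have h1 : eta s + t • (eta' s - eta s) ∈ M := not_not.1 ht
  have h2 : eta s + t' • (eta' s - eta s) ∈ M := not_not.1 ht'
  by_contra hne
  apply h
  have h3 : (t - t') • (eta' s - eta s) ∈ M := by
    have h4 := M.sub_mem h1 h2
    have h5 : eta s + t • (eta' s - eta s) - (eta s + t' • (eta' s - eta s)) =
        (t - t') • (eta' s - eta s) := by module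
    rwa [h5] at h4
  have h4 : eta' s - eta s ∈ M := (M.smul_mem_iff (sub_ne_zero.2 hne)).1 h3
  have h5 := M.sub_mem h1 (M.smul_mem t h4)
  rwa [add_sub_cancel_right] at h5

end Pool.Agent.MP_b197b4_ntV3
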