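import Pool.Agent.Lib.MP_b197b4_ntV3.C0

/-!
# V3, leaf C5b: the induction on the set of vanishing rows
-/

set_option autoImplicit false
set_option linter.unusedSectionVars false

noncomputable section

namespace Pool.Agent.MP_b197b4_ntV3

open scoped BigOperators
open Pool.Agent.MP_b197b4_ntUV Pool.Agent.MP_b197b4_ntLV

variable {k F : Type} [Field k] [Field F] [Algebra k F]

private theorem C5b_step {ι : Type} [DecidableEq ι] (V : Submodule k F) (S : Finset ι) (eps eta : ι → F)
    (heps : ∀ j, eps j ∈ V) (t D : ℕ) (ht : t < S.card) (hD : S.card ≤ D)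
    (hc : ∀ J, J ⊆ S → J.card ≤ t → CondS V (2 * D + 2 - (S \ J).card) (D + 2 - (S \ J).card)
      (2 * D + 1 - (S \ J).card) (S \ J) J eps eta) (J : Finset ι) (hJS : J ⊆ S) (hJt : J.card ≤ t)
    (hi : ∀ j ∈ J, ∀ w ∈ V ^ (2 * D + 2 - (S \ J.erase j).card),
      Cb V (D + 1) S (fun s => eps s * eta s) (EE eps (S \ J.erase j) * w)) :
    ∀ w ∈ V ^ (2 * D + 2 - (S \ J).card),
      Cb V (D + 1) S (fun s => eps s * eta s) (EE eps (S \ J) * w) := by
  intro w hw
  obtain ⟨g, h, hg, hh, hsum⟩ := hc J hJS hJt w hw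
  have hcard : (S \ J).card = S.card - J.card := Finset.card_sdiff_of_subset hJS
  have hu1 : 1 ≤ (S \ J).card := by omega
  have huD : (S \ J).card ≤ D := by omega
  have hdecomp : EE eps (S \ J) * w
      = ∑ s ∈ S \ J, (eps s * eta s) * (EE eps ((S \ J).erase s) * g s)
        + ∑ j ∈ J, EE eps (S \ J.erase j) * h j := by
    rw [← hsum, mul_add, Finset.mul_sum, Finset.mul_sum]
    congr 1
    · refine Finset.sum_congr rfl fun s hs => ?_
      have e1 : EE eps (S \ J) = eps s * EE eps ((S \ J).erase s) := by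
        unfold EE
        exact (Finset.mul_prod_erase (S \ J) eps hs).symm
      rw [e1]; ring
    · refine Finset.sum_congr rfl fun j hj => ?_
      have hjS : j ∈ S := hJS hj
      have e2 : S \ J.erase j = insert j (S \ J) := by
        ext x
        simp only [Finset.mem_sdiff, Finset.mem_erase, Finset.mem_insert]
        constructor
        · rintro ⟨hx, hx'⟩
          by_cases hxj : x = j
          · exact Or.inl hxj
          · exact Or.inr ⟨hx, fun hxJ => hx' ⟨hxj, hxJ⟩⟩
        · rintro (rfl | ⟨hx, hx'⟩)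
          · exact ⟨hjS, fun hc' => hc'.1 rfl⟩
          · exact ⟨hx, fun hc' => hx' hc'.2⟩
      have hjn : j ∉ S \ J := fun hc' => (Finset.mem_sdiff.mp hc').2 hj
      have e3 : EE eps (S \ J.erase j) = eps j * EE eps (S \ J) := by
        rw [e2]; unfold EE
        exact Finset.prod_insert hjn
      rw [e3]; ring
  rw [hdecomp]
  refine Cb_add (Cb_sum _ _ fun s hs => ?_) (Cb_sum _ _ fun j hj => ?_)
  · have hsS : s ∈ S := (Finset.mem_sdiff.mp hs).1
    have hz : EE eps ((S \ J).erase s) * g s ∈ V ^ (D + 1) := by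
      have h1 : EE eps ((S \ J).erase s) ∈ V ^ ((S \ J).erase s).card := EE_mem _ fun j _ => heps j
      have h2 := mul_mem_pow h1 (hg s)
      have h3 : ((S \ J).erase s).card + (D + 2 - (S \ J).card) = D + 1 := by
        rw [Finset.card_erase_of_mem hs]; omega
      rw [h3] at h2
      exact h2
    exact Cb_single (y := fun s => eps s * eta s) hsS hz
  · refine hi j hj (h j) ?_
    have hle : (J.erase j).card = J.card - 1 := Finset.card_erase_of_mem hj
    have hJpos : 1 ≤ J.card := Finset.card_pos.mpr ⟨j, hj⟩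
    have hcard2 : (S \ J.erase j).card = S.card - (J.erase j).card :=
      Finset.card_sdiff_of_subset ((Finset.erase_subset j J).trans hJS)
    have h4 : 2 * D + 2 - (S \ J.erase j).card = 2 * D + 1 - (S \ J).card := by
      have hJS' : J.card ≤ S.card := Finset.card_le_card hJS
      omega
    rw [h4]
    exact hh j

/-- PROOF. Induction on `J.card`. `U = S \ J`, `u = U.card ≥ 1`. `w = ∑_{s ∈ U} eta s * g s + ∑_{j ∈ J} eps j * h j` by `hc J`, so
`EE eps U * w = ∑_{s ∈ U} (eps s * eta s) * (EE eps (U.erase s) * g s) + ∑_{j ∈ J} EE eps (insert j U) * h j`. `EE eps (U.erase s) * g s ∈ V ^ (u - 1 + (D + 2 - u)) = V ^ (D + 1)` (`EE_mem`, `mul_mem_pow`,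
`u ≤ D + 2`): `Cb_single`. `insert j U = S \ (J.erase j)` and `h j ∈ V ^ (2D+1-u) = V ^ (2D + 2 - (u+1))`: induction hypothesis for `J.erase j`. `Cb_sum`, `Cb_add`. -/
theorem C5_ind {ι : Type} [DecidableEq ι] (V : Submodule k F) (S : Finset ι) (eps eta : ι → F)
    (heps : ∀ j, eps j ∈ V) (t D : ℕ) (ht : t < S.card) (hD : S.card ≤ D)
    (hc : ∀ J, J ⊆ S → J.card ≤ t → CondS V (2 * D + 2 - (S \ J).card) (D + 2 - (S \ J).card)
      (2 * D + 1 - (S \ J).card) (S \ J) J eps eta) :
    ∀ J, J ⊆ S → J.card ≤ t → ∀ w ∈ V ^ (2 * D + 2 - (S \ J).card),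
      Cb V (D + 1) S (fun s => eps s * eta s) (EE eps (S \ J) * w) := by
  intro J
  induction hn : J.card generalizing J with
  | zero =>
    intro hJS _ w hw
    have hJ : J = ∅ := Finset.card_eq_zero.mp hn
    exact C5b_step V S eps eta heps t D ht hD hc J hJS (by omega) (by intro j hj; simp [hJ] at hj) w hw
  | succ n ih =>
    intro hJS hJt w hw
    refine C5b_step V S eps eta heps t D ht hD hc J hJS (by omega) ?_ w hw
    intro j hj w' hw'
    exact ih (J.erase j) (by rw [Finset.card_erase_of_mem hj]; omega)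
      ((Finset.erase_subset j J).trans hJS) (by omega) w' hw'

end Pool.Agent.MP_b197b4_ntV3
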