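import Pool.Agent.Lib.MP_b197b4_ntV3.C5a
import Pool.Agent.Lib.MP_b197b4_ntV3.C5b

/-!
# V3, leaf C5: the covering
-/

set_option autoImplicit false
set_option linter.unusedSectionVars false

noncomputable section

namespace Pool.Agent.MP_b197b4_ntV3

open scoped BigOperators
open Pool.Agent.MP_b197b4_ntUV Pool.Agent.MP_b197b4_ntLV

variable {k F : Type} [Field k] [Field F] [Algebra k F]

/-- PROOF. `M0` from `C5_gen`, `D0 = M0 + S.card`. `C5_gen` with `M = 2D+2`, `Q = Cb V (D+1) S (eps * eta)` (`Cb_zero`, `Cb_add`): `U = S \ J`, `J = S \ U`, `J.card = t`; `C5_ind`. -/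
theorem C5_cover {ι : Type} [DecidableEq ι] (V : Submodule k F) [FiniteDimensional k V] (S : Finset ι) (eps : ι → F)
    (heps : ∀ j, eps j ∈ V) (t : ℕ) (ht : t < S.card)
    (hv : ∀ O : ValuationSubring F, IsPt k O → {j | j ∈ S ∧ Van O V (eps j)}.ncard ≤ t) :
    ∃ D0, ∀ D, D0 ≤ D → ∀ eta : ι → F,
      (∀ J, J ⊆ S → J.card ≤ t → CondS V (2 * D + 2 - (S \ J).card) (D + 2 - (S \ J).card)
        (2 * D + 1 - (S \ J).card) (S \ J) J eps eta) →
      ∀ w ∈ V ^ (2 * D + 2), Cb V (D + 1) S (fun s => eps s * eta s) w := by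
  obtain ⟨M0, hM0⟩ := C5_gen V S eps heps t ht hv
  refine ⟨M0 + S.card, fun D hD eta hc w hw => ?_⟩
  refine hM0 (2 * D + 2) (by omega) (Cb V (D + 1) S (fun s => eps s * eta s)) (Cb_zero _ _ _ _)
    (fun _ _ => Cb_add) (fun U hU hcard z hz => ?_) w hw
  have h1 : S \ (S \ U) = U := Finset.sdiff_sdiff_eq_self hU
  have h2 : (S \ U).card ≤ t := by
    rw [Finset.card_sdiff_of_subset hU, hcard]
    omega
  have h3 := C5_ind V S eps eta heps t D ht (by omega) hc (S \ U) Finset.sdiff_subset h2 z (by rwa [h1, hcard])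
  rwa [h1] at h3

end Pool.Agent.MP_b197b4_ntV3
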