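import Pool.Agent.Lib.MP_b197b4_ntV3.C0
import Pool.Agent.Lib.MP_b197b4_ntUV.C1

/-!
# V3, leaf C5a: products do not vanish
-/

set_option autoImplicit false
set_option linter.unusedSectionVars false

noncomputable section

namespace Pool.Agent.MP_b197b4_ntV3

open scoped BigOperators
open Pool.Agent.MP_b197b4_ntUV Pool.Agent.MP_b197b4_ntLV

variable {k F : Type} [Field k] [Field F] [Algebra k F]

/-- PROOF. `¬ Van O V (eps s)` says `O.valuation y ≤ O.valuation (eps s)` for all `y ∈ V`. Induction on `U`: an element of `V ^ (m+1) = V * V ^ m` is a sum of products (`Submodule.mul_induction_on`),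
`O.valuation (x * y) ≤ ..`, and the valuation of a sum is at most the maximum (`Valuation.map_add_le`). -/
theorem C5_van {O : ValuationSubring F} (hO : IsPt k O) (V : Submodule k F) {ι : Type} (eps : ι → F) (U : Finset ι)
    (h : ∀ s ∈ U, ¬ Van O V (eps s)) : ¬ Van O (V ^ U.card) (EE eps U) := by
  classical
  have key : ∀ U : Finset ι, (∀ s ∈ U, ¬ Van O V (eps s)) → ∀ y ∈ V ^ U.card,
      O.valuation y ≤ O.valuation (EE eps U) := by
    intro U
    induction U using Finset.induction_on with
    | empty =>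
      intro _ y hy
      rw [Finset.card_empty, pow_zero] at hy
      obtain ⟨c, rfl⟩ := Submodule.mem_one.1 hy
      unfold EE
      rw [Finset.prod_empty, map_one]
      exact (O.valuation_le_one_iff _).2 (hO c)
    | insert a s ha ih =>
      intro hs y hy
      rw [Finset.card_insert_of_notMem ha, pow_succ] at hy
      have hEE : EE eps (insert a s) = EE eps s * eps a := by
        unfold EE
        rw [Finset.prod_insert ha, mul_comm]
      have h1 := ih fun j hj => hs j (Finset.mem_insert_of_mem hj)
      have h2 : ∀ z ∈ V, O.valuation z ≤ O.valuation (eps a) := fun z hz => by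
        by_contra hc
        exact hs a (Finset.mem_insert_self a s) ⟨z, hz, not_le.1 hc⟩
      rw [hEE, map_mul]
      refine Submodule.mul_induction_on hy ?_ ?_
      · intro x hx z hz
        rw [map_mul]
        exact mul_le_mul' (h1 x hx) (h2 z hz)
      · intro x z hx hz
        exact (O.valuation.map_add x z).trans (max_le hx hz)
  rintro ⟨y, hy, hlt⟩
  exact absurd (key U h y hy) (not_le.2 hlt)

/-- PROOF. `C1_pow` for `V ^ u`, `u = S.card - t ≥ 1`, and the family `EE eps U`, `U ⊆ S`, `U.card = u` (finite index type `{U // U ∈ S.powersetCard u}`): at every point at least `u` of the `eps s`, `s ∈ S`, do not vanish,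
so some `EE eps U` does not vanish (`C5_van`). So `V ^ (u (m+1)) = ∑ EE eps U * V ^ (u m)` for `m ≥ m1`, and multiplied with `V ^ r` one gets `V ^ M = ∑ EE eps U * V ^ (M - u)` for all
`M ≥ u (m1 + 1)`, stated for a predicate `Q` closed under sums. -/
theorem C5_gen {ι : Type} [DecidableEq ι] (V : Submodule k F) [FiniteDimensional k V] (S : Finset ι) (eps : ι → F)
    (heps : ∀ j, eps j ∈ V) (t : ℕ) (ht : t < S.card)
    (hv : ∀ O : ValuationSubring F, IsPt k O → {j | j ∈ S ∧ Van O V (eps j)}.ncard ≤ t) :
    ∃ M0 : ℕ, ∀ M, M0 ≤ M → ∀ Q : F → Prop, Q 0 → (∀ x y, Q x → Q y → Q (x + y)) →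
      (∀ U, U ⊆ S → U.card = S.card - t → ∀ z ∈ V ^ (M - (S.card - t)), Q (EE eps U * z)) →
      ∀ w ∈ V ^ M, Q w := by
  obtain ⟨u, hu⟩ : ∃ u, u = S.card - t := ⟨_, rfl⟩
  have hfd : FiniteDimensional k (V ^ u : Submodule k F) := by
    have h1 : V.FG := (Module.Finite.iff_fg (N := V)).1 inferInstance
    exact (Module.Finite.iff_fg (N := V ^ u)).2 (h1.pow u)
  have hq : ∀ j : {U // U ∈ S.powersetCard u}, EE eps j.1 ∈ V ^ u := fun j => by
    have h1 := (Finset.mem_powersetCard.1 j.2).2
    have h2 := EE_mem (V := V) (eps := eps) j.1 fun i _ => heps i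
    rwa [h1] at h2
  obtain ⟨m0, hm0⟩ := C1_pow (V ^ u) (fun j : {U // U ∈ S.powersetCard u} => EE eps j.1) hq (by
    intro O hO
    classical
    have h1 := hv O hO
    have h2 : {j | j ∈ S ∧ Van O V (eps j)} = ((S.filter fun j => Van O V (eps j) : Finset ι) : Set ι) := by
      ext j
      simp
    rw [h2, Set.ncard_coe_finset] at h1
    have h3 : u ≤ (S.filter fun j => ¬ Van O V (eps j)).card := by
      have h4 := Finset.card_filter_add_card_filter_not (s := S) (fun j => Van O V (eps j))
      omega
    obtain ⟨U, hU, hUc⟩ := Finset.exists_subset_card_eq h3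
    refine ⟨⟨U, Finset.mem_powersetCard.2 ⟨fun j hj => (Finset.mem_filter.1 (hU hj)).1, hUc⟩⟩, ?_⟩
    have h5 := C5_van hO V eps U fun j hj => (Finset.mem_filter.1 (hU hj)).2
    rwa [hUc] at h5)
  refine ⟨u * (m0 + 1), ?_⟩
  intro M hM Q Q0 Qa hQ w hw
  obtain ⟨r, rfl⟩ := Nat.exists_eq_add_of_le hM
  rw [pow_add, pow_mul] at hw
  refine Submodule.mul_induction_on hw ?_ Qa
  intro a ha b hb
  obtain ⟨g, hg, rfl⟩ := hm0 m0 le_rfl a ha
  rw [Finset.sum_mul]
  have hs : ∀ T : Finset {U // U ∈ S.powersetCard u}, Q (∑ j ∈ T, EE eps j.1 * g j * b) := by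
    intro T
    classical
    induction T using Finset.induction_on with
    | empty => rw [Finset.sum_empty]; exact Q0
    | insert c T hc ih =>
      rw [Finset.sum_insert hc]
      refine Qa _ _ ?_ ih
      rw [mul_assoc]
      refine hQ c.1 (Finset.mem_powersetCard.1 c.2).1 ?_ _ ?_
      · rw [(Finset.mem_powersetCard.1 c.2).2, hu]
      · have h1 : u * (m0 + 1) + r - (S.card - t) = u * m0 + r := by
          rw [← hu]
          have h2 : u * (m0 + 1) = u * m0 + u := by ring
          omega
        rw [h1, pow_add, pow_mul]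
        exact Submodule.mul_mem_mul (hg c) hb
  exact hs Finset.univ

end Pool.Agent.MP_b197b4_ntV3
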