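import Pool.Agent.Lib.MP_b197b4_ntV3.Defs

/-!
# V3, definitions of block C
-/

set_option autoImplicit false
set_option linter.unusedSectionVars false

noncomputable section

namespace Pool.Agent.MP_b197b4_ntV3

open scoped BigOperators
open Pool.Agent.MP_b197b4_ntUV Pool.Agent.MP_b197b4_ntLV

variable {k F : Type} [Field k] [Field F] [Algebra k F]

/-- the condition `(*)`: `V ^ a = ∑_{s ∈ U} eta s * V ^ b + ∑_{j ∈ J} eps j * V ^ c` -/
def CondS (V : Submodule k F) (a b c : ℕ) {ι : Type} (U J : Finset ι) (eps eta : ι → F) : Prop :=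
  ∀ w ∈ V ^ a, ∃ g h : ι → F, (∀ i, g i ∈ V ^ b) ∧ (∀ i, h i ∈ V ^ c) ∧
    ∑ s ∈ U, eta s * g s + ∑ j ∈ J, eps j * h j = w

/-- the exponents of a multiset -/
def cnt {m d : ℕ} (s : Sym (Fin m) d) (i : Fin m) : ℕ := Multiset.count i (s : Multiset (Fin m))

end Pool.Agent.MP_b197b4_ntV3
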