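import Pool.Agent.Lib.MP_b197b4_ntV3.C7b
import Pool.Agent.Lib.MP_b197b4_ntV3.C6
import Pool.Agent.Lib.MP_b197b4_ntV3.B9

/-!
# V3, THEOREM BC
-/

set_option autoImplicit false
set_option linter.unusedSectionVars false

noncomputable section

namespace Pool.Agent.MP_b197b4_ntV3

open scoped BigOperators
open Pool.Agent.MP_b197b4_ntUV Pool.Agent.MP_b197b4_ntLV

variable {k F : Type} [Field k] [Field F] [Algebra k F]

/-- THEOREM BC. PROOF. `D`, `eta` from `C7_eta`; `H = V ^ (D+1)`, `W = V ^ (2D+2)` (`H * H ⊆ W`). `C6_descent` with the finite set of all `A j * eta j.succ`, `B j * eta j.succ`, `C * eta 0` and `q = q3 P.r N (finrank k W)`: `K`, `H0`, `W0`.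
For every `e` the family `X s = rowE A B C e s * eta s` is `G2 (P.restr K) H0 W0`: units; `Cov` from `hdesc` and `C7_eta`. `B9_main` (`H0 ≤ P.S` since `V ^ (D+1) ≤ P.S`, see `LC5_pow_le` in `ntLV/LC5.lean`): `theta lam X = 0`, that is
`ev lam (fun j => (if e j then A j * eta j.succ else B j * eta j.succ) / (C * eta 0)) = 0`. Conclude with `A_div` as at the end of `LC5_BC`. (`0 < N` by `hN 0`.) -/
theorem C7_BC (hk : LocFin k) {n N : ℕ} (hN : NumN n N) (P : SL k F) (V : Submodule k F) (hV : FiniteDimensional k V)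
    (hVS : V ≤ P.S) (A B : Fin N → Fˣ) (C : Fˣ) (T : Fin (n + 1) → Fˣ) (hA : ∀ j, (A j : F) ∈ V)
    (hB : ∀ j, (B j : F) ∈ V) (hC : (C : F) ∈ V) (hT : ∀ i, (T i : F) ∈ V) (hAu : ∀ j, IsU P (A j : F))
    (hBu : ∀ j, IsU P (B j : F)) (hCu : IsU P (C : F)) (hTu : ∀ i, IsU P (T i : F))
    (gp : ∀ O : ValuationSubring F, IsPt k O → ∀ e : Fin N → Bool, ∃ v,
      {j | Van O V (rowE A B C e j)}.ncard ≤ Rv n v ∧ {i | Van O V (T i : F)}.ncard + v ≤ n)
    (lam : (Additive Fˣ) [⋀^Fin N]→ₗ[ℤ] ℝ) (hS : StU P lam) :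
    lam (fun j => Additive.ofMul (A j / B j)) = 0 := by
  classical
  have hN0 : 0 < N := by
    have h := hN 0 (Nat.zero_le n)
    omega
  obtain ⟨D, eta, heta, hetau, hcov⟩ := C7_eta hk hN P V hVS A B C T hA hB hC hT hTu gp
  have heta_ne : ∀ s, eta s ≠ 0 := fun s => (hetau s).ne
  have hfd : ∀ m : ℕ, FiniteDimensional k (V ^ m : Submodule k F) := by
    intro m
    rw [← Submodule.fg_iff_finiteDimensional]
    exact Submodule.FG.pow (Submodule.fg_iff_finiteDimensional V |>.mpr inferInstance) m
  have := hfd (D + 1)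
  have := hfd (2 * D + 2)
  have hmulD : ∀ x y : F, x ∈ V → y ∈ V ^ D → x * y ∈ V ^ (D + 1) := by
    intro x y hx hy
    rw [pow_succ, mul_comm x y]
    exact Submodule.mul_mem_mul hy hx
  -- descent
  obtain ⟨K', H0, W0, hK'fin, hq, hH0fin, hW0fin, hrk, hS0, hH0H, hHW0, hdesc⟩ :=
    C6_descent hk (V ^ (D + 1)) (V ^ (2 * D + 2))
      (by
        intro a b ha hb
        have h1 : V ^ (2 * D + 2) = V ^ (D + 1) * V ^ (D + 1) := by
          rw [← pow_add]
          congr 1
          ring
        rw [h1]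
        exact Submodule.mul_mem_mul ha hb)
      ((Finset.univ.image fun j : Fin N => (A j : F) * eta j.succ) ∪
        (Finset.univ.image fun j : Fin N => (B j : F) * eta j.succ) ∪ {(C : F) * eta 0})
      (by
        intro x hx
        simp only [Finset.mem_union, Finset.mem_image, Finset.mem_univ, true_and,
          Finset.mem_singleton] at hx
        rcases hx with (⟨j, rfl⟩ | ⟨j, rfl⟩) | rfl
        · exact hmulD _ _ (hA j) (heta _)
        · exact hmulD _ _ (hB j) (heta _)
        · exact hmulD _ _ hC (heta _))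
      (q3 P.r N (Module.finrank k (V ^ (2 * D + 2) : Submodule k F)))
  have hSA : ∀ j : Fin N, (A j : F) * eta j.succ ∈ H0 := fun j => hS0 _ (by simp)
  have hSB : ∀ j : Fin N, (B j : F) * eta j.succ ∈ H0 := fun j => hS0 _ (by simp)
  have hSC : (C : F) * eta 0 ∈ H0 := hS0 _ (by simp)
  have : Fintype K' := Fintype.ofFinite K'
  have hCne : (C : F) * eta 0 ≠ 0 := mul_ne_zero C.ne_zero (heta_ne 0)
  have hrow : ∀ (e : Fin N → Bool) (s : Fin (N + 1)), rowE A B C e s * eta s ∈ H0 := by
    intro e s
    refine Fin.cases ?_ (fun j => ?_) s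
    · exact hSC
    · show (if e j then (A j : F) else (B j : F)) * eta j.succ ∈ H0
      split_ifs
      · exact hSA j
      · exact hSB j
  have hrowu : ∀ (e : Fin N → Bool) (s : Fin (N + 1)), IsU P (rowE A B C e s * eta s) := by
    intro e s
    refine IsU.mul ?_ (hetau s)
    refine Fin.cases ?_ (fun j => ?_) s
    · exact hCu
    · show IsU P (if e j then (A j : F) else (B j : F))
      split_ifs
      · exact hAu j
      · exact hBu j
  have hH0S : H0 ≤ (P.restr K').S := fun x hx => by
    have h1 : ∀ m : ℕ, V ^ m ≤ P.S := by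
      intro m
      induction m with
      | zero =>
        rw [pow_zero, Submodule.one_le]
        exact P.one_mem
      | succ m ih =>
        rw [pow_succ, Submodule.mul_le]
        exact fun a ha b hb => P.mul_mem a b (ih ha) (hVS hb)
    exact h1 (D + 1) (hH0H x hx)
  -- all the choices vanish
  have hzero : ∀ e : Fin N → Bool,
      ev lam (fun j : Fin N => (if e j then (A j : F) * eta j.succ else (B j : F) * eta j.succ) /
        ((C : F) * eta 0)) = 0 := by
    intro e
    let X : Fin (N + 1) → H0 := fun s => ⟨rowE A B C e s * eta s, hrow e s⟩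
    have hX : G2 (P.restr K') H0 W0 X := by
      refine ⟨fun s => hrowu e s, fun i j hij => ?_⟩
      have h1 := hdesc (Fin (N + 1)) ((Finset.univ.erase i).erase j) (fun s => (X s : F))
        (fun s => (X s).2) (fun w hw => hcov e i j hij w hw)
      intro w hw
      obtain ⟨u, hu, huw⟩ := h1 w hw
      exact ⟨fun s => ⟨u s, hu s⟩, huw⟩
    have hB := B9_main (P.restr K') H0 W0 hH0S (fun a b => hHW0 _ _ a.2 b.2) hN0
      (by rw [hrk, ← Nat.card_eq_fintype_card]; exact hq) lam hS X hX
    have h2 : theta lam (fun j => (X j : F)) =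
        ev lam (fun j : Fin N => (if e j then (A j : F) * eta j.succ else (B j : F) * eta j.succ) /
          ((C : F) * eta 0)) := by
      unfold theta
      refine congrArg (ev lam) ?_
      funext j
      show (if e j then (A j : F) else (B j : F)) * eta j.succ / ((C : F) * eta 0) = _
      split_ifs <;> rfl
    rw [← h2]
    exact hB
  have hdiv := A_div lam (fun j : Fin N => (A j : F) * eta j.succ)
    (fun j : Fin N => (B j : F) * eta j.succ)
    (fun j => mul_ne_zero (A j).ne_zero (heta_ne _))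
    (fun j => mul_ne_zero (B j).ne_zero (heta_ne _)) ((C : F) * eta 0) hCne
  rw [Finset.sum_eq_zero (fun c _ => by rw [hzero c, mul_zero])] at hdiv
  rw [← A_ev_units lam (fun j => A j / B j), ← hdiv]
  congr 1
  funext j
  rw [Units.val_div_eq_div_val, mul_div_mul_right _ _ (heta_ne _)]

end Pool.Agent.MP_b197b4_ntV3
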