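import Pool.Agent.Lib.MP_b197b4_ntV3.CDefs

/-!
# V3, leaf C7a: arithmetic and the dimension of the strata
-/

set_option autoImplicit false
set_option linter.unusedSectionVars false

noncomputable section

namespace Pool.Agent.MP_b197b4_ntV3

open scoped BigOperators
open Pool.Agent.MP_b197b4_ntUV Pool.Agent.MP_b197b4_ntLV

variable {k F : Type} [Field k] [Field F] [Algebra k F]

/-- the number of conditions which hold if `x` rows vanish (at least) -/
def vm (n x : ℕ) : ℕ := if x = 0 then 0 else (x - max n 2 + 1) / 2 + 1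

/-- the dimension attached to a number of vanishing rows -/
def ed (n x : ℕ) : ℕ := n - vm n x

theorem vm_le {n x : ℕ} (hx : x ≤ Rv n n) : vm n x ≤ n := by
  unfold vm
  unfold Rv at hx
  split_ifs at hx ⊢ with h1 h2 h2
  · omega
  · omega
  · omega
  · omega

theorem le_Rv (n x : ℕ) : x ≤ Rv n (vm n x) := by
  by_cases h1 : x = 0
  · rw [h1]
    exact Nat.zero_le _
  · have h2 : vm n x = (x - max n 2 + 1) / 2 + 1 := if_neg h1
    rw [h2]
    unfold Rv
    rw [if_neg (Nat.succ_ne_zero _)]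
    omega

theorem Rv_mono {n v w : ℕ} (h : v ≤ w) : Rv n v ≤ Rv n w := by
  unfold Rv
  split_ifs with h1 h2 h2
  · exact le_rfl
  · exact Nat.zero_le _
  · omega
  · omega

theorem ed_cst {n N x : ℕ} (hN : NumN n N) (hx : x ≤ Rv n n) : cst (ed n x) ≤ N - 1 - x := by
  have h := hN (vm n x) (vm_le hx)
  have h2 := le_Rv n x
  unfold ed
  generalize cst (n - vm n x) = a at h ⊢
  generalize Rv n (vm n x) = c at h h2
  omega

theorem vm_le_of {n x v : ℕ} (h : x ≤ Rv n v) : vm n x ≤ v := by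
  unfold vm
  unfold Rv at h
  split_ifs at h ⊢ with h1 h2 h2
  · omega
  · omega
  · omega
  · omega

/-- PROOF. At a point where all the `eps j`, `j ∈ J`, vanish: `J.card ≤ Rv n v`, so `vm n J.card ≤ v`, and at most `n - v` of the `T i` vanish (`i : Fin (n+1)`), so not all of
the first `ed n J.card + 1 ≥ n - v + 1`. -/
theorem ed_point {n N : ℕ} (V : Submodule k F) (eps : Fin (N + 1) → F) (T : Fin (n + 1) → F) (J : Finset (Fin (N + 1)))
    (O : ValuationSubring F)
    (gp : ∃ v, {j | Van O V (eps j)}.ncard ≤ Rv n v ∧ {i | Van O V (T i)}.ncard + v ≤ n)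
    (hle : ed n J.card + 1 ≤ n + 1) :
    (∃ i : Fin (ed n J.card + 1), ¬ Van O V (T (Fin.castLE hle i))) ∨ ∃ j ∈ J, ¬ Van O V (eps j) := by
  by_contra hcon
  push Not at hcon
  obtain ⟨h1, h2⟩ := hcon
  obtain ⟨v, hv1, hv2⟩ := gp
  have c1 : J.card ≤ {j | Van O V (eps j)}.ncard := by
    rw [← Set.ncard_coe_finset J]
    exact Set.ncard_le_ncard (fun j hj => h2 j hj) (Set.toFinite _)
  have c2 : ed n J.card + 1 ≤ {i | Van O V (T i)}.ncard := by
    have e1 : (Set.range (Fin.castLE hle)).ncard = ed n J.card + 1 := by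
      rw [← Set.image_univ, Set.ncard_image_of_injective _ (Fin.castLE_injective hle),
        Set.ncard_univ, Nat.card_eq_fintype_card, Fintype.card_fin]
    rw [← e1]
    apply Set.ncard_le_ncard _ (Set.toFinite _)
    rintro _ ⟨i, rfl⟩
    exact h1 i
  have c3 := vm_le_of (c1.trans hv1)
  unfold ed at c2
  omega

private theorem C7a_two (n : ℕ) (h : 2 ≤ n) : 3 * n ≤ 2 ^ n + 2 := by
  induction n, h using Nat.le_induction with
  | base => decide
  | succ n hn ih =>
    have h1 : 4 ≤ 2 ^ n := by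
      calc 4 = 2 ^ 2 := rfl
        _ ≤ 2 ^ n := Nat.pow_le_pow_right (by norm_num) hn
    rw [pow_succ]
    omega

/-- `cst (n - v) + Rv n v + 1 ≤ 2 ^ n + 2` -/
theorem num_main {n N : ℕ} (h : 2 ^ n + 2 ≤ N) : NumN n N := by
  intro v hv
  refine le_trans ?_ h
  unfold cst Rv
  rcases Nat.eq_zero_or_pos v with rfl | hv0
  · rw [if_pos rfl, Nat.sub_zero]
    have := Nat.one_le_two_pow (n := n)
    split_ifs
    · omega
    · omega
  rw [if_neg hv0.ne']
  rcases Nat.lt_or_ge n 2 with h4 | h4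
  · have h5 : n = 1 := by omega
    have h6 : v = 1 := by omega
    subst h5 h6
    decide
  rw [max_eq_left h4]
  split_ifs with h0
  · have h5 := C7a_two n h4
    omega
  · obtain ⟨e, he⟩ : ∃ e, e = n - v := ⟨_, rfl⟩
    obtain ⟨w, hw⟩ : ∃ w, v = w + 1 := ⟨v - 1, by omega⟩
    have hn : n = e + w + 1 := by omega
    rw [← he, hw, Nat.add_sub_cancel, hn, pow_succ, pow_add]
    have h1 : e + 1 ≤ 2 ^ e := Nat.lt_two_pow_self
    have h2 : w + 1 ≤ 2 ^ w := Nat.lt_two_pow_self
    have h3 : 2 ^ e * (w + 1) ≤ 2 ^ e * 2 ^ w := Nat.mul_le_mul_left _ h2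
    have h5 : 2 * w ≤ 2 ^ e * w := Nat.mul_le_mul_right _ (by omega)
    rw [mul_add, mul_one] at h3
    omega

end Pool.Agent.MP_b197b4_ntV3
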