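import Pool.Agent.Lib.MP_b197b4_ntV3.C7a
import Pool.Agent.Lib.MP_b197b4_ntV3.C3b
import Pool.Agent.Lib.MP_b197b4_ntV3.C4a
import Pool.Agent.Lib.MP_b197b4_ntV3.C4b
import Pool.Agent.Lib.MP_b197b4_ntV3.C5

/-!
# V3, leaf C7b: the multipliers
-/

set_option autoImplicit false
set_option linter.unusedSectionVars false

noncomputable section

namespace Pool.Agent.MP_b197b4_ntV3

open scoped BigOperators
open Pool.Agent.MP_b197b4_ntUV Pool.Agent.MP_b197b4_ntLV

variable {k F : Type} [Field k] [Field F] [Algebra k F]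

private theorem C7b_card {N : ℕ} {i j : Fin (N + 1)} (h : i ≠ j) :
    ((Finset.univ.erase i).erase j).card = N - 1 := by
  rw [Finset.card_erase_of_mem (Finset.mem_erase.2 ⟨h.symm, Finset.mem_univ j⟩),
    Finset.card_erase_of_mem (Finset.mem_univ i), Finset.card_univ, Fintype.card_fin,
    Nat.add_sub_cancel]

private theorem C7b_pow_le (P : SL k F) (V : Submodule k F) (hVS : V ≤ P.S) (D : ℕ) :
    V ^ D ≤ P.S := by
  induction D with
  | zero =>
    rw [pow_zero]
    exact Submodule.one_le.2 P.one_mem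
  | succ D ih =>
    rw [pow_succ]
    exact Submodule.mul_le.2 fun x hx y hy => P.mul_mem x y (ih hx) (hVS hy)

private theorem C7b_row {N : ℕ} {V : Submodule k F} {A B : Fin N → Fˣ} {C : Fˣ}
    (hA : ∀ j, (A j : F) ∈ V) (hB : ∀ j, (B j : F) ∈ V) (hC : (C : F) ∈ V) (e : Fin N → Bool)
    (j : Fin (N + 1)) : rowE A B C e j ∈ V := by
  refine Fin.cases ?_ (fun j => ?_) j
  · exact hC
  · show (if e j then (A j : F) else (B j : F)) ∈ V
    split_ifs
    · exact hA j
    · exact hB j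

private theorem C7b_one (hk : LocFin k) {n N : ℕ} (hN : NumN n N) (V : Submodule k F) [FiniteDimensional k V]
    (A B : Fin N → Fˣ) (C : Fˣ) (T : Fin (n + 1) → Fˣ) (hA : ∀ j, (A j : F) ∈ V)
    (hB : ∀ j, (B j : F) ∈ V) (hC : (C : F) ∈ V) (hT : ∀ i, (T i : F) ∈ V)
    (gp : ∀ O : ValuationSubring F, IsPt k O → ∀ e : Fin N → Bool, ∃ v,
      {j | Van O V (rowE A B C e j)}.ncard ≤ Rv n v ∧ {i | Van O V (T i : F)}.ncard + v ≤ n)
    (e : Fin N → Bool) (i j : Fin (N + 1)) (J : Finset (Fin (N + 1))) :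
    ∃ D0, ∀ D, D0 ≤ D → (∀ m, m ≤ n → m = 0 ∨ m ∣ D) → i ≠ j →
      J ⊆ (Finset.univ.erase i).erase j → J.card ≤ Rv n n →
      ∃ eta : Fin (N + 1) → F, (∀ s, eta s ∈ V ^ D) ∧
        CondS V (2 * D + 2 - (((Finset.univ.erase i).erase j) \ J).card)
          (D + 2 - (((Finset.univ.erase i).erase j) \ J).card)
          (2 * D + 1 - (((Finset.univ.erase i).erase j) \ J).card)
          (((Finset.univ.erase i).erase j) \ J) J (rowE A B C e) eta := by
  have hed : ed n J.card ≤ n := Nat.sub_le _ _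
  have hle : ed n J.card + 1 ≤ n + 1 := by omega
  obtain ⟨D0, hD0⟩ := C3_cond hk V (fun i : Fin (ed n J.card + 1) => (T (Fin.castLE hle i) : F))
    (fun i => hT _) J (rowE A B C e) (C7b_row hA hB hC e)
    (fun O hO => ed_point V (rowE A B C e) (fun i => (T i : F)) J O (gp O hO e) hle)
    (((Finset.univ.erase i).erase j) \ J).card
  refine ⟨D0, fun D hD hdiv hij hJ hJc => ?_⟩
  refine hD0 D hD (hdiv _ hed) _ ?_
  rw [Finset.card_sdiff_of_subset hJ, C7b_card hij]
  exact ed_cst hN hJc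

private theorem C7b_two {n N : ℕ} (hN : NumN n N) (V : Submodule k F) [FiniteDimensional k V]
    (A B : Fin N → Fˣ) (C : Fˣ) (T : Fin (n + 1) → Fˣ) (hA : ∀ j, (A j : F) ∈ V)
    (hB : ∀ j, (B j : F) ∈ V) (hC : (C : F) ∈ V)
    (gp : ∀ O : ValuationSubring F, IsPt k O → ∀ e : Fin N → Bool, ∃ v,
      {j | Van O V (rowE A B C e j)}.ncard ≤ Rv n v ∧ {i | Van O V (T i : F)}.ncard + v ≤ n)
    (e : Fin N → Bool) (i j : Fin (N + 1)) :
    ∃ D0, ∀ D, D0 ≤ D → i ≠ j → ∀ eta : Fin (N + 1) → F,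
      (∀ J, J ⊆ (Finset.univ.erase i).erase j → J.card ≤ Rv n n →
        CondS V (2 * D + 2 - (((Finset.univ.erase i).erase j) \ J).card)
          (D + 2 - (((Finset.univ.erase i).erase j) \ J).card)
          (2 * D + 1 - (((Finset.univ.erase i).erase j) \ J).card)
          (((Finset.univ.erase i).erase j) \ J) J (rowE A B C e) eta) →
      ∀ w ∈ V ^ (2 * D + 2),
        Cb V (D + 1) ((Finset.univ.erase i).erase j) (fun s => rowE A B C e s * eta s) w := by
  by_cases hij : i ≠ j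
  · have h0 := hN n le_rfl
    have hc0 : cst 0 = 1 := rfl
    rw [Nat.sub_self, hc0] at h0
    obtain ⟨D0, hD0⟩ := C5_cover V ((Finset.univ.erase i).erase j) (rowE A B C e)
      (C7b_row hA hB hC e) (Rv n n) (by rw [C7b_card hij]; omega) (fun O hO => by
        obtain ⟨v, hv1, hv2⟩ := gp O hO e
        refine (Set.ncard_le_ncard (fun x hx => hx.2) (Set.toFinite _)).trans (hv1.trans ?_)
        exact Rv_mono (by omega))
    exact ⟨D0, fun D hD _ eta h => hD0 D hD eta h⟩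
  · exact ⟨0, fun D _ h => absurd h hij⟩

/-- PROOF. For every choice `e`, all `i ≠ j` and `J ⊆ S = univ.erase i .erase j` with `J.card ≤ Rv n n`: `ed_point` gives the hypothesis of `C3_cond` for `T ∘ castLE`, `eps = rowE A B C e`, `u = (S \ J).card =
N - 1 - J.card ≥ cst (ed n J.card)` (`ed_cst`), `U = S \ J`. `C5_cover` for `S` with `t = Rv n n` (`< N - 1` by `hN n`; at most `Rv n v` rows vanish). Take `D = n! * M` larger than all the (finitely many) `D0`,
so `e = 0 ∨ e ∣ D` for all `e ≤ n`. `C4_gen` with `E = V ^ D`, `κ` = the set of all `(e, i, j, J)` (conditions `CondS`, trivial if not admissible; `C3_cond`, `C4_line` with `a = 2D+2-u`, `b = D+2-u`, `c = 2D+1-u`)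
together with all `(s, l)`: `eta s ∉ P.M l` (`eta = T 0 ^ D` everywhere is an example: a unit; `C4_unit`). `IsU.of`, `V ^ D ≤ P.S`. -/
theorem C7_eta (hk : LocFin k) {n N : ℕ} (hN : NumN n N) (P : SL k F) (V : Submodule k F) [FiniteDimensional k V]
    (hVS : V ≤ P.S) (A B : Fin N → Fˣ) (C : Fˣ) (T : Fin (n + 1) → Fˣ) (hA : ∀ j, (A j : F) ∈ V)
    (hB : ∀ j, (B j : F) ∈ V) (hC : (C : F) ∈ V) (hT : ∀ i, (T i : F) ∈ V) (hTu : ∀ i, IsU P (T i : F))
    (gp : ∀ O : ValuationSubring F, IsPt k O → ∀ e : Fin N → Bool, ∃ v,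
      {j | Van O V (rowE A B C e j)}.ncard ≤ Rv n v ∧ {i | Van O V (T i : F)}.ncard + v ≤ n) :
    ∃ (D : ℕ) (eta : Fin (N + 1) → F), (∀ s, eta s ∈ V ^ D) ∧ (∀ s, IsU P (eta s)) ∧
      ∀ (e : Fin N → Bool) (i j : Fin (N + 1)), i ≠ j → ∀ w ∈ V ^ (2 * D + 2),
        Cb V (D + 1) ((Finset.univ.erase i).erase j) (fun s => rowE A B C e s * eta s) w := by
  classical
  have := F3_infinite hk
  choose D1 hD1 using fun q : (Fin N → Bool) × Fin (N + 1) × Fin (N + 1) × Finset (Fin (N + 1)) =>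
    C7b_one hk hN V A B C T hA hB hC hT gp q.1 q.2.1 q.2.2.1 q.2.2.2
  choose D2 hD2 using fun q : (Fin N → Bool) × Fin (N + 1) × Fin (N + 1) =>
    C7b_two hN V A B C T hA hB hC gp q.1 q.2.1 q.2.2
  obtain ⟨D, hD⟩ : ∃ D, D = n.factorial * (∑ q, D1 q + ∑ q, D2 q + N) := ⟨_, rfl⟩
  have hDge : ∑ q, D1 q + ∑ q, D2 q + N ≤ D := by
    rw [hD]
    exact Nat.le_mul_of_pos_left _ n.factorial_pos
  have h1D : ∀ q, D1 q ≤ D := fun q =>
    (Finset.single_le_sum (f := D1) (fun _ _ => Nat.zero_le _) (Finset.mem_univ q)).trans (by omega)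
  have h2D : ∀ q, D2 q ≤ D := fun q =>
    (Finset.single_le_sum (f := D2) (fun _ _ => Nat.zero_le _) (Finset.mem_univ q)).trans (by omega)
  have hND : N ≤ D := by omega
  have hdiv : ∀ m, m ≤ n → m = 0 ∨ m ∣ D := by
    intro m hm
    rcases Nat.eq_zero_or_pos m with h | h
    · exact Or.inl h
    · right
      rw [hD]
      exact (Nat.dvd_factorial h hm).mul_right _
  -- the conditions
  obtain ⟨Pr, hPr⟩ : ∃ Pr : ((Fin N → Bool) × Fin (N + 1) × Fin (N + 1) × Finset (Fin (N + 1))) ⊕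
      (Fin (N + 1) × Fin P.r) → (Fin (N + 1) → F) → Prop,
      Pr = Sum.elim (fun q eta => q.2.1 ≠ q.2.2.1 →
        q.2.2.2 ⊆ (Finset.univ.erase q.2.1).erase q.2.2.1 → q.2.2.2.card ≤ Rv n n →
        CondS V (2 * D + 2 - (((Finset.univ.erase q.2.1).erase q.2.2.1) \ q.2.2.2).card)
          (D + 2 - (((Finset.univ.erase q.2.1).erase q.2.2.1) \ q.2.2.2).card)
          (2 * D + 1 - (((Finset.univ.erase q.2.1).erase q.2.2.1) \ q.2.2.2).card)
          (((Finset.univ.erase q.2.1).erase q.2.2.1) \ q.2.2.2) q.2.2.2 (rowE A B C q.1) eta)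
        (fun q eta => eta q.1 ∉ P.M q.2) := ⟨_, rfl⟩
  obtain ⟨eta, heta, hall⟩ := C4_gen (V ^ D) Pr (by
      rintro (q | q)
      · by_cases hc : q.2.1 ≠ q.2.2.1 ∧ q.2.2.2 ⊆ (Finset.univ.erase q.2.1).erase q.2.2.1 ∧
          q.2.2.2.card ≤ Rv n n
        · obtain ⟨eta, h1, h2⟩ := hD1 q D (h1D q) hdiv hc.1 hc.2.1 hc.2.2
          exact ⟨eta, h1, by rw [hPr]; exact fun _ _ _ => h2⟩
        · exact ⟨fun _ => 0, fun _ => Submodule.zero_mem _, by
            rw [hPr]
            exact fun h1 h2 h3 => absurd ⟨h1, h2, h3⟩ hc⟩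
      · refine ⟨fun _ => (T 0 : F) ^ D, fun _ => Submodule.pow_mem_pow V (hT 0) D, ?_⟩
        rw [hPr]
        exact ((hTu 0).pow D).not_mem q.2) (by
      rintro (q | q) eta eta' h1 h2 h3
      · by_cases hc : q.2.1 ≠ q.2.2.1 ∧ q.2.2.2 ⊆ (Finset.univ.erase q.2.1).erase q.2.2.1 ∧
          q.2.2.2.card ≤ Rv n n
        · rw [hPr] at h3
          have h4 := h3 hc.1 hc.2.1 hc.2.2
          have hu : (((Finset.univ.erase q.2.1).erase q.2.2.1) \ q.2.2.2).card ≤ N - 1 := by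
            rw [← C7b_card hc.1]
            exact Finset.card_le_card Finset.sdiff_subset
          have h5 := C4_line V (D := D)
            (a := 2 * D + 2 - (((Finset.univ.erase q.2.1).erase q.2.2.1) \ q.2.2.2).card)
            (b := D + 2 - (((Finset.univ.erase q.2.1).erase q.2.2.1) \ q.2.2.2).card)
            (c := 2 * D + 1 - (((Finset.univ.erase q.2.1).erase q.2.2.1) \ q.2.2.2).card)
            (by omega) (by omega) (((Finset.univ.erase q.2.1).erase q.2.2.1) \ q.2.2.2) q.2.2.2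
            (rowE A B C q.1) eta eta' (C7b_row hA hB hC q.1) h1 h2 h4
          refine h5.subset fun t ht hcond => ht ?_
          rw [hPr]
          exact fun _ _ _ => hcond
        · refine Set.finite_empty.subset fun t ht => ht ?_
          rw [hPr]
          exact fun h1 h2 h3 => absurd ⟨h1, h2, h3⟩ hc
      · rw [hPr] at h3 ⊢
        exact C4_unit (P.M q.2) q.1 eta eta' h3)
  rw [hPr] at hall
  refine ⟨D, eta, heta, fun s => IsU.of (C7b_pow_le P V hVS D (heta s)) fun l =>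
    hall (Sum.inr (s, l)), fun e i j hij w hw => ?_⟩
  exact hD2 (e, i, j) D (h2D _) hij eta (fun J hJ hJc => hall (Sum.inl (e, i, j, J)) hij hJ hJc) w hw

end Pool.Agent.MP_b197b4_ntV3
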