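import Pool.Agent.Lib.MP_b197b4_ntUV.EGP

/-!
# V3, leaf GP2: general position, avoiding finitely many subspaces, relative to finitely many fixed elements

Copy of ntLV/LGP.lean with one more property: at a point where one of the fixed elements `f i` vanishes at most `n - 1` of the
generic elements vanish.
-/

set_option autoImplicit false
set_option linter.unusedSectionVars false

noncomputable section

namespace Pool.Agent.MP_b197b4_ntV3

open scoped BigOperators
open Pool.Agent.MP_b197b4_ntUV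

variable {k F : Type} [Field k] [Field F] [Algebra k F]

section

open Module

variable {G : Type} (W : G → Submodule k F) [hW : ∀ i, FiniteDimensional k (W i)]

/-- the element `l` of the basis of `W i` -/
private def GP2_b (i : G) (l : Fin (finrank k (W i))) : F := (finBasis k (W i) l : F)

private theorem GP2_b_mem (i : G) (l : Fin (finrank k (W i))) : GP2_b W i l ∈ W i :=
  (finBasis k (W i) l).2

private theorem GP2_b_ne (i : G) (l : Fin (finrank k (W i))) : GP2_b W i l ≠ 0 := fun h =>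
  (finBasis k (W i)).ne_zero l (Subtype.ext h)

/-- the elements are combinations of the basis -/
private theorem GP2_sum (i : G) (w : W i) :
    (w : F) = ∑ l, (finBasis k (W i)).repr w l • GP2_b W i l := by
  have h1 := congrArg Subtype.val ((finBasis k (W i)).sum_repr w)
  rw [← h1, Submodule.coe_sum]
  rfl

variable [Finite G]

/-- the algebra of the chart `x` -/
private def GP2_A (x : ∀ i, Fin (finrank k (W i))) : Subalgebra k F :=
  Algebra.adjoin k (Set.range fun p : Σ i : G, Fin (finrank k (W i)) =>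
    GP2_b W p.1 p.2 / GP2_b W p.1 (x p.1))

private theorem GP2_noeth (x : ∀ i, Fin (finrank k (W i))) : IsNoetherianRing (GP2_A W x) := by
  have h1 : Algebra.FiniteType k (GP2_A W x) := Algebra.FiniteType.adjoin_of_finite (Set.finite_range _)
  exact Algebra.FiniteType.isNoetherianRing k _

private theorem GP2_mem (x : ∀ i, Fin (finrank k (W i))) (r : G) (w : W r) :
    (w : F) / GP2_b W r (x r) ∈ GP2_A W x := by
  rw [GP2_sum W r w, Finset.sum_div]
  refine Subalgebra.sum_mem _ fun l _ => ?_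
  rw [smul_div_assoc]
  have h1 : GP2_b W r l / GP2_b W r (x r) ∈ GP2_A W x := Algebra.subset_adjoin ⟨⟨r, l⟩, rfl⟩
  exact Subalgebra.smul_mem _ h1 _

/-- division by the element of the basis -/
private def GP2_q (x : ∀ i, Fin (finrank k (W i))) (r : G) : W r →ₗ[k] GP2_A W x where
  toFun w := ⟨(w : F) / GP2_b W r (x r), GP2_mem W x r w⟩
  map_add' _ _ := Subtype.ext (add_div _ _ _)
  map_smul' c _ := Subtype.ext (smul_div_assoc c _ _)

private theorem GP2_q_self (x : ∀ i, Fin (finrank k (W i))) (r : G) :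
    GP2_q W x r ⟨GP2_b W r (x r), GP2_b_mem W r (x r)⟩ = 1 :=
  Subtype.ext (div_self (GP2_b_ne W r (x r)))

/-- The property of the elements `s i`, `i ∈ S`; `Q` is the set of the fixed elements. -/
private def GP2_Phi (Q : Set G) (n : ℕ) (S : Finset G) (s : ∀ i, W i) : Prop :=
  ∀ (x : ∀ i, Fin (finrank k (W i))) (J U : Finset G), J ⊆ S → (∀ j ∈ U, j ∈ Q) → U.card ≤ 1 →
    ∀ P : Ideal (GP2_A W x), P.IsPrime →
    (∀ j ∈ J, GP2_q W x j (s j) ∈ P) → (∀ j ∈ U, GP2_q W x j (s j) ∈ P) →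
    ∀ m, m + J.card + U.card = n + 1 → TdLt k (GP2_A W x ⧸ P) m

private theorem GP2_q_ne (x : ∀ i, Fin (finrank k (W i))) (r : G) (w : W r) (h : (w : F) ≠ 0) :
    GP2_q W x r w ≠ 0 := by
  intro h1
  have h2 : (w : F) / GP2_b W r (x r) = 0 := congrArg Subtype.val h1
  rcases div_eq_zero_iff.1 h2 with h3 | h3
  · exact h h3
  · exact GP2_b_ne W r (x r) h3

private theorem GP2_base {n : ℕ} (htd : TdLt k F (n + 1)) (Q : Set G) (s : ∀ i, W i)
    (hs : ∀ i ∈ Q, (s i : F) ≠ 0) : GP2_Phi W Q n ∅ s := by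
  intro x J U hJ hUQ hU P hP _ hPU m hm
  rw [Finset.subset_empty.1 hJ, Finset.card_empty, add_zero] at hm
  have h1 : TdLt k (GP2_A W x) (n + 1) := htd.of_injective (GP2_A W x).val Subtype.val_injective
  rcases U.eq_empty_or_nonempty with h | h
  · rw [h, Finset.card_empty, add_zero] at hm
    subst hm
    exact h1.quotient P
  · obtain ⟨j, hj⟩ := h
    have h2 : U.card = 1 := le_antisymm hU (Finset.card_pos.2 ⟨j, hj⟩)
    rw [h2] at hm
    have h3 : (⊥ : Ideal (GP2_A W x)) < P := by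
      refine lt_of_le_of_ne bot_le fun h => ?_
      have h4 := hPU j hj
      rw [← h, Ideal.mem_bot] at h4
      exact GP2_q_ne W x j (s j) (hs j (hUQ j hj)) h4
    have h4 : (⊥ : Ideal (GP2_A W x)).IsPrime := Ideal.isPrime_bot
    refine td_drop h4 h3 ?_
    rw [hm]
    exact h1.quotient ⊥

/-- A vector of `W r` outside finitely many proper subspaces. -/
private theorem GP2_choose [Infinite k] (h0 : ∀ i, W i ≠ ⊥) {q : ℕ} (L : Fin q → Submodule k F)
    (r : G) (hL : ∀ l, ¬ W r ≤ L l) (s : ∀ i, W i) :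
    ∃ w : W r, (w ≠ 0 ∧ ∀ l, (w : F) ∉ L l) ∧ ∀ (x : ∀ i, Fin (finrank k (W i))) (J : Finset G),
      ∀ P ∈ (Ideal.span ((fun j => GP2_q W x j (s j)) '' (J : Set G))).minimalPrimes,
        GP2_q W x r w ∉ P := by
  classical
  have hfin : ∀ i, Finite (Fin (finrank k (W i))) := fun i => inferInstance
  let T : Set (Submodule k (W r)) := ({⊥} ∪ Set.range fun l => (L l).comap (W r).subtype) ∪ ⋃ (x : ∀ i, Fin (finrank k (W i))) (J : Finset G),
    (fun P : Ideal (GP2_A W x) => (P.restrictScalars k).comap (GP2_q W x r)) ''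
      (Ideal.span ((fun j => GP2_q W x j (s j)) '' (J : Set G))).minimalPrimes
  have hT : T.Finite := by
    refine ((Set.finite_singleton _).union (Set.finite_range _)).union (Set.finite_iUnion fun x => Set.finite_iUnion fun J => ?_)
    have := GP2_noeth W x
    exact (Ideal.finite_minimalPrimes_of_isNoetherianRing _ _).image _
  have hne : Nontrivial (W r) := (Submodule.nontrivial_iff_ne_bot).2 (h0 r)
  have htop : (⊤ : Submodule k (W r)) ∉ hT.toFinset := by
    rw [Set.Finite.mem_toFinset]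
    rintro ((h | h) | h)
    · exact bot_ne_top (α := Submodule k (W r)) (Set.mem_singleton_iff.1 h).symm
    · obtain ⟨l, hl⟩ := h
      refine hL l fun w hw => ?_
      have h1 : (⟨w, hw⟩ : W r) ∈ (L l).comap (W r).subtype := by
        rw [show (L l).comap (W r).subtype = ⊤ from hl]
        exact Submodule.mem_top
      exact h1
    · obtain ⟨x, h⟩ := Set.mem_iUnion.1 h
      obtain ⟨J, h⟩ := Set.mem_iUnion.1 h
      obtain ⟨P, hP, h⟩ := h
      have hPp : P.IsPrime := hP.1.1
      have h1 : (⟨GP2_b W r (x r), GP2_b_mem W r (x r)⟩ : W r) ∈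
          (P.restrictScalars k).comap (GP2_q W x r) := by
        rw [show (P.restrictScalars k).comap (GP2_q W x r) = ⊤ from h]
        exact Submodule.mem_top
      have h2 : GP2_q W x r ⟨GP2_b W r (x r), GP2_b_mem W r (x r)⟩ ∈ P := h1
      rw [GP2_q_self] at h2
      exact hPp.ne_top ((Ideal.eq_top_iff_one P).2 h2)
  have hcov := Subspace.biUnion_ne_univ_of_top_notMem htop
  obtain ⟨w, hw⟩ := (Set.ne_univ_iff_exists_notMem _).1 hcov
  have hw' : ∀ p ∈ T, w ∉ p := fun p hp hwp =>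
    hw (Set.mem_iUnion₂.2 ⟨p, (Set.Finite.mem_toFinset _).2 hp, hwp⟩)
  refine ⟨w, ⟨fun h => hw' ⊥ (Or.inl (Or.inl rfl)) ?_, fun l h => hw' _ (Or.inl (Or.inr ⟨l, rfl⟩)) h⟩,
    fun x J P hP h => ?_⟩
  · rw [h]
    exact Submodule.zero_mem _
  · exact hw' _ (Or.inr (Set.mem_iUnion.2 ⟨x, Set.mem_iUnion.2 ⟨J, P, hP, rfl⟩⟩)) h

private theorem GP2_step [Infinite k] [DecidableEq G] (h0 : ∀ i, W i ≠ ⊥) {q : ℕ} (L : Fin q → Submodule k F)
    (Q : Set G) {n : ℕ} {S : Finset G} {r : G} (hL : ∀ l, ¬ W r ≤ L l)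
    (hr : r ∉ S) (hrQ : r ∉ Q) {s : ∀ i, W i} (hs : ∀ i ∉ Q, s i ≠ 0 ∧ ∀ l, (s i : F) ∉ L l)
    (hPhi : GP2_Phi W Q n S s) :
    ∃ s' : ∀ i, W i, (∀ i ∈ Q, s' i = s i) ∧ (∀ i ∉ Q, s' i ≠ 0 ∧ ∀ l, (s' i : F) ∉ L l) ∧
      GP2_Phi W Q n (insert r S) s' := by
  obtain ⟨w, hw0, hw⟩ := GP2_choose W h0 L r hL s
  refine ⟨Function.update s r w, fun i hi => ?_, fun i hi => ?_, ?_⟩
  · exact Function.update_of_ne (fun h => hrQ (by rw [← h]; exact hi)) _ _
  · by_cases h : i = r
    · subst h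
      rw [Function.update_self]
      exact hw0
    · rw [Function.update_of_ne h]
      exact hs i hi
  · intro x J U hJ hUQ hU P hP hmem hmemU m hm
    have hmU : ∀ j ∈ U, GP2_q W x j (s j) ∈ P := by
      intro j hj
      have h3 := hmemU j hj
      rw [Function.update_of_ne (fun h => hrQ (by rw [← h]; exact hUQ j hj))] at h3
      exact h3
    by_cases hrJ : r ∈ J
    · -- the prime is not minimal over the others
      have hsub : J.erase r ⊆ S := by
        intro j hj
        obtain ⟨h1, h2⟩ := Finset.mem_erase.1 hj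
        exact (Finset.mem_insert.1 (hJ h2)).resolve_left h1
      have hle : Ideal.span ((fun j => GP2_q W x j (s j)) '' ((J.erase r ∪ U : Finset G) : Set G)) ≤ P := by
        rw [Ideal.span_le]
        rintro _ ⟨j, hj, rfl⟩
        rcases Finset.mem_union.1 (Finset.mem_coe.1 hj) with hj | hj
        · obtain ⟨h1, h2⟩ := Finset.mem_erase.1 hj
          have h3 := hmem j h2
          rw [Function.update_of_ne h1] at h3
          exact h3
        · exact hmU j hj
      obtain ⟨P', hP', hPP⟩ := Ideal.exists_minimalPrimes_le hle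
      have hP'p : P'.IsPrime := hP'.1.1
      have hin : ∀ j ∈ J.erase r, GP2_q W x j (s j) ∈ P' := fun j hj =>
        hP'.1.2 (Ideal.subset_span ⟨j, Finset.mem_coe.2 (Finset.mem_union_left _ hj), rfl⟩)
      have hinU : ∀ j ∈ U, GP2_q W x j (s j) ∈ P' := fun j hj =>
        hP'.1.2 (Ideal.subset_span ⟨j, Finset.mem_coe.2 (Finset.mem_union_right _ hj), rfl⟩)
      have hcard : m + 1 + (J.erase r).card + U.card = n + 1 := by
        rw [Finset.card_erase_of_mem hrJ]
        have h1 : 0 < J.card := Finset.card_pos.2 ⟨r, hrJ⟩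
        omega
      have htd := hPhi x (J.erase r) U hsub hUQ hU P' hP'p hin hinU (m + 1) hcard
      have hlt : P' < P := by
        refine lt_of_le_of_ne hPP fun h => ?_
        have h1 := hmem r hrJ
        rw [Function.update_self, ← h] at h1
        exact hw x (J.erase r ∪ U) P' hP' h1
      exact td_drop hP'p hlt htd
    · refine hPhi x J U (fun j hj => ?_) hUQ hU P hP (fun j hj => ?_) hmU m hm
      · exact (Finset.mem_insert.1 (hJ hj)).resolve_left fun h => hrJ (by rw [← h]; exact hj)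
      · have h3 := hmem j hj
        rw [Function.update_of_ne (fun h => hrJ (by rw [← h]; exact hj))] at h3
        exact h3

private theorem GP2_all [Infinite k] (h0 : ∀ i, W i ≠ ⊥) {q : ℕ} (L : Fin q → Submodule k F)
    (Q : Set G) (hL : ∀ i ∉ Q, ∀ l, ¬ W i ≤ L l) {n : ℕ} (htd : TdLt k F (n + 1))
    (f : ∀ i, W i) (hf : ∀ i ∈ Q, (f i : F) ≠ 0)
    (S : Finset G) (hSQ : ∀ i ∈ S, i ∉ Q) : ∃ s : ∀ i, W i, (∀ i ∈ Q, s i = f i) ∧
      (∀ i ∉ Q, s i ≠ 0 ∧ ∀ l, (s i : F) ∉ L l) ∧ GP2_Phi W Q n S s := by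
  classical
  induction S using Finset.induction_on with
  | empty =>
    have h1 : ∀ i, ∃ w : W i, (i ∈ Q → w = f i) ∧ (i ∉ Q → w ≠ 0 ∧ ∀ l, (w : F) ∉ L l) := fun i => by
      by_cases hi : i ∈ Q
      · exact ⟨f i, fun _ => rfl, fun h => absurd hi h⟩
      · obtain ⟨w, hw, _⟩ := GP2_choose W h0 L i (hL i hi) (fun _ => 0)
        exact ⟨w, fun h => absurd h hi, fun _ => hw⟩
    choose s hs1 hs2 using h1
    exact ⟨s, hs1, hs2, GP2_base W htd Q s fun i hi => by rw [hs1 i hi]; exact hf i hi⟩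
  | insert r S hr ih =>
    obtain ⟨s, hs1, hs2, hPhi⟩ := ih fun i hi => hSQ i (Finset.mem_insert_of_mem hi)
    have hrQ := hSQ r (Finset.mem_insert_self r S)
    obtain ⟨s', h1, h2, h3⟩ := GP2_step W h0 L Q (hL r hrQ) hr hrQ hs2 hPhi
    exact ⟨s', fun i hi => (h1 i hi).trans (hs1 i hi), h2, h3⟩

/-- The chart of a point. -/
private theorem GP2_chart (h0 : ∀ i, W i ≠ ⊥) {O : ValuationSubring F} (hO : IsPt k O) :
    ∃ x : ∀ i, Fin (finrank k (W i)), (∀ i, ∀ w : W i, O.valuation (w : F) ≤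
      O.valuation (GP2_b W i (x i))) ∧ ∀ a ∈ GP2_A W x, a ∈ O := by
  have h1 : ∀ i, ∃ l : Fin (finrank k (W i)), ∀ l', O.valuation (GP2_b W i l') ≤
      O.valuation (GP2_b W i l) := by
    intro i
    have : Nontrivial (W i) := (Submodule.nontrivial_iff_ne_bot).2 (h0 i)
    have : 0 < finrank k (W i) := finrank_pos
    have : Nonempty (Fin (finrank k (W i))) := ⟨⟨0, this⟩⟩
    exact Finite.exists_max _
  choose x hx using h1
  have h2 : ∀ i, ∀ w : W i, O.valuation (w : F) ≤ O.valuation (GP2_b W i (x i)) := by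
    intro i w
    rw [GP2_sum W i w]
    refine Valuation.map_sum_le _ fun l _ => ?_
    rw [Algebra.smul_def, map_mul]
    have h3 : O.valuation (algebraMap k F ((finBasis k (W i)).repr w l)) ≤ 1 :=
      (O.valuation_le_one_iff _).2 (hO _)
    calc _ ≤ 1 * O.valuation (GP2_b W i l) := mul_le_mul_left h3 _
      _ ≤ _ := by
        rw [one_mul]
        exact hx i l
  refine ⟨x, h2, fun a ha => ?_⟩
  let B : Subalgebra k F := { O.toSubring with algebraMap_mem' := hO }
  have h4 : GP2_A W x ≤ B := by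
    refine Algebra.adjoin_le ?_
    rintro _ ⟨⟨i, l⟩, rfl⟩
    show _ ∈ O
    rw [← O.valuation_le_one_iff, map_div₀]
    have h5 : O.valuation (GP2_b W i (x i)) ≠ 0 := (Valuation.ne_zero_iff _).2 (GP2_b_ne W i (x i))
    rw [div_le_iff₀ (zero_lt_iff.2 h5), one_mul]
    exact hx i l
  exact h4 ha

private theorem GP2_point {n : ℕ} (h0 : ∀ i, W i ≠ ⊥) (Q : Set G) (S : Finset G) (s : ∀ i, W i)
    (hPhi : GP2_Phi W Q n S s) {O : ValuationSubring F} (hO : IsPt k O) (J U : Finset G) (hJ : J ⊆ S)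
    (hUQ : ∀ j ∈ U, j ∈ Q) (hU : U.card ≤ 1) (hJV : ∀ j ∈ J, Van O (W j) (s j : F))
    (hUV : ∀ j ∈ U, Van O (W j) (s j : F)) : J.card + U.card ≠ n + 1 := by
  intro hcard
  obtain ⟨x, hx, hA⟩ := GP2_chart W h0 hO
  let φ : GP2_A W x →+* O :=
    { toFun := fun a => ⟨a.1, hA a.1 a.2⟩
      map_one' := rfl
      map_mul' := fun _ _ => rfl
      map_zero' := rfl
      map_add' := fun _ _ => rfl }
  let P : Ideal (GP2_A W x) := (IsLocalRing.maximalIdeal O).comap φ
  have hP : P.IsPrime := Ideal.IsPrime.comap φ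
  have key : ∀ j, Van O (W j) (s j : F) → GP2_q W x j (s j) ∈ P := by
    intro j hj
    obtain ⟨w, hw, hlt⟩ := hj
    show φ (GP2_q W x j (s j)) ∈ IsLocalRing.maximalIdeal O
    rw [O.valuation_lt_one_iff]
    show O.valuation ((s j : F) / GP2_b W j (x j)) < 1
    have h5 : O.valuation (GP2_b W j (x j)) ≠ 0 := (Valuation.ne_zero_iff _).2 (GP2_b_ne W j (x j))
    rw [map_div₀, div_lt_iff₀ (zero_lt_iff.2 h5), one_mul]
    exact hlt.trans_le (hx j ⟨w, hw⟩)
  exact not_tdLt_zero (hPhi x J U hJ hUQ hU P hP (fun j hj => key j (hJV j hj))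
    (fun j hj => key j (hUV j hj)) 0 (by omega))

end

/-- General position: at every point at most `n` of the generic elements `s i` vanish, and at most `n - 1` if one of the
fixed elements `f i` vanishes. -/
theorem GP2_main [Infinite k] {n : ℕ} (htd : TdLt k F (n + 1)) {G S : Type} [Finite G] [Finite S]
    (W : G → Submodule k F) (hW : ∀ i, FiniteDimensional k (W i)) (h0 : ∀ i, W i ≠ ⊥)
    {q : ℕ} (L : Fin q → Submodule k F) (hL : ∀ i l, ¬ W i ≤ L l)
    (W' : S → Submodule k F) (hW' : ∀ i, FiniteDimensional k (W' i)) (f : S → F) (hf : ∀ i, f i ∈ W' i)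
    (hf0 : ∀ i, f i ≠ 0) :
    ∃ s : G → F, (∀ i, s i ∈ W i) ∧ (∀ i, s i ≠ 0) ∧ (∀ i l, s i ∉ L l) ∧
      ∀ O : ValuationSubring F, IsPt k O → {i | Van O (W i) (s i)}.ncard ≤ n ∧
        ((∃ i, Van O (W' i) (f i)) → {i | Van O (W i) (s i)}.ncard + 1 ≤ n) := by
  classical
  have hG := Fintype.ofFinite G
  have hS := Fintype.ofFinite S
  let WW : G ⊕ S → Submodule k F := Sum.elim W W'
  have hWW : ∀ i, FiniteDimensional k (WW i) := by
    rintro (i | i)
    · exact hW i
    · exact hW' i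
  have hWW0 : ∀ i, WW i ≠ ⊥ := by
    rintro (i | i)
    · exact h0 i
    · intro h
      have h1 : f i ∈ WW (Sum.inr i) := hf i
      rw [h, Submodule.mem_bot] at h1
      exact hf0 i h1
  let Q : Set (G ⊕ S) := Set.range Sum.inr
  have hQ : ∀ i : G, (Sum.inl i : G ⊕ S) ∉ Q := by
    rintro i ⟨j, hj⟩
    cases hj
  let ff : ∀ i, WW i := fun i => match i with
    | Sum.inl _ => 0
    | Sum.inr i => ⟨f i, hf i⟩
  obtain ⟨s, hs1, hs2, hPhi⟩ := GP2_all WW hWW0 L Q (by
      rintro (i | i) hi l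
      · exact hL i l
      · exact absurd ⟨i, rfl⟩ hi) htd ff (by
      rintro _ ⟨i, rfl⟩
      exact hf0 i) (Finset.univ.map ⟨Sum.inl, Sum.inl_injective⟩) (by
      intro i hi
      obtain ⟨j, _, rfl⟩ := Finset.mem_map.1 hi
      exact hQ j)
  refine ⟨fun i => (s (Sum.inl i) : F), fun i => (s (Sum.inl i)).2, fun i h => (hs2 _ (hQ i)).1 (Subtype.ext h),
    fun i l => (hs2 _ (hQ i)).2 l, fun O hO => ?_⟩
  have main : ∀ U : Finset (G ⊕ S), (∀ j ∈ U, j ∈ Q) → U.card ≤ 1 → (∀ j ∈ U, Van O (WW j) (s j : F)) →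
      {i | Van O (W i) (s (Sum.inl i) : F)}.ncard + U.card ≤ n := by
    intro U hUQ hU hUV
    by_contra hcon
    rw [not_le, ← Nat.succ_le_iff] at hcon
    have hfin : {i | Van O (W i) (s (Sum.inl i) : F)}.Finite := Set.toFinite _
    rw [Set.ncard_eq_toFinset_card _ hfin] at hcon
    have hc2 : n + 1 - U.card ≤ hfin.toFinset.card := by omega
    obtain ⟨J, hJ, hcard⟩ := Finset.exists_subset_card_eq hc2
    refine GP2_point WW hWW0 Q _ s hPhi hO (J.map ⟨Sum.inl, Sum.inl_injective⟩) U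
      (Finset.map_subset_map.2 (Finset.subset_univ _)) hUQ hU (fun j hj => ?_) hUV ?_
    · obtain ⟨i, hi, rfl⟩ := Finset.mem_map.1 hj
      exact (Set.Finite.mem_toFinset hfin).1 (hJ hi)
    · rw [Finset.card_map]
      omega
  refine ⟨?_, fun ⟨i, hi⟩ => ?_⟩
  · have h1 := main ∅ (fun j hj => absurd hj (Finset.notMem_empty j)) (by simp)
      (fun j hj => absurd hj (Finset.notMem_empty j))
    simpa using h1
  · have h1 := main {Sum.inr i} (fun j hj => by
        rw [Finset.mem_singleton] at hj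
        exact ⟨i, hj.symm⟩) (by simp) (fun j hj => by
        rw [Finset.mem_singleton] at hj
        subst hj
        rw [hs1 _ ⟨i, rfl⟩]
        exact hi)
    simpa using h1

end Pool.Agent.MP_b197b4_ntV3
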