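import Pool.Agent.Lib.MP_b197b4_ntLV.LE
import Pool.Agent.Lib.MP_b197b4_ntV3.CDefs
import Pool.Agent.Lib.MP_b197b4_ntV3.GP2

/-!
# V3, leaf E3: every symbol of units is a sum of symbols of units in good position
-/

set_option autoImplicit false
set_option linter.unusedSectionVars false

noncomputable section

namespace Pool.Agent.MP_b197b4_ntV3

open scoped BigOperators
open Pool.Agent.MP_b197b4_ntUV Pool.Agent.MP_b197b4_ntLV

variable {k F : Type} [Field k] [Field F] [Algebra k F]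

private theorem E3_mul {P : SL k F} {x y : Fˣ} (hx : IsU P (x : F)) (hy : IsU P (y : F)) :
    IsU P ((x * y : Fˣ) : F) := by
  rw [Units.val_mul]
  exact hx.mul hy

private theorem E3_pow {P : SL k F} {x : Fˣ} (hx : IsU P (x : F)) (m : ℕ) :
    IsU P ((x ^ m : Fˣ) : F) := by
  rw [Units.val_pow_eq_pow_val]
  exact hx.pow m

private theorem E3_prod {P : SL k F} {ι : Type} [Fintype ι] {f : ι → Fˣ}
    (h : ∀ i, IsU P (f i : F)) : IsU P ((∏ i, f i : Fˣ) : F) := by
  rw [Units.coe_prod]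
  exact IsU.prod _ _ fun i _ => h i

private theorem E3_mon {N : ℕ} (P : SL k F) (g : Fin N → Fˣ) (hg : ∀ j, IsU P (g j : F)) (β : Fin N → ℤ) :
    IsU P (mon g β : F) := by
  unfold mon
  refine E3_prod fun j => ?_
  rw [Units.val_zpow_eq_zpow_val]
  exact (hg j).zpow _

section

variable {N : ℕ} {S : Type} [Fintype S] [DecidableEq S] {g : Fin N → Fˣ} {b : S → Fin N → ℤ} {D : ℕ}
  {z : GG N S → Fˣ}

private theorem E3_PP (P : SL k F) (hg : ∀ j, IsU P (g j : F)) (hz : ∀ γ, IsU P (z γ : F))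
    (j : Fin N) : IsU P (PP g b D z j : F) := by
  unfold PP
  exact E3_mul (E3_pow (hg j) _) (E3_prod fun s => E3_mul (E3_pow (hz _) _) (E3_pow (hz _) _))

private theorem E3_QQ (P : SL k F) (hz : ∀ γ, IsU P (z γ : F)) (j : Fin N) :
    IsU P (QQ b z j : F) := by
  unfold QQ
  exact E3_prod fun s => E3_mul (E3_pow (hz _) _) (E3_pow (hz _) _)

private theorem E3_nn (P : SL k F) (hg : ∀ j, IsU P (g j : F)) (hz : ∀ γ, IsU P (z γ : F))
    (c : Fin N → Option S) (j : Fin N) : IsU P (nn g b D z c j : F) := by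
  unfold nn
  rcases c j with _ | s
  · exact E3_PP P hg hz j
  · rcases pr c j with _ | i
    · exact hz _
    · exact E3_mul (hz _) (hz _)

private theorem E3_dd (P : SL k F) (hz : ∀ γ, IsU P (z γ : F))
    (c : Fin N → Option S) (j : Fin N) : IsU P (dd b z c j : F) := by
  unfold dd
  rcases c j with _ | s
  · exact E3_QQ P hz j
  · rcases pr c j with _ | i
    · exact hz _
    · exact E3_mul (hz _) (hz _)

private theorem E3_bad {B1 B2 : S → Finset (Fin N → ℤ)} (c : Fin N → Option S) {O : ValuationSubring F} {n m : ℕ}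
    (T : Set (GG N S)) (hT : T.ncard ≤ m) (h : {s | MB O g (B1 s) < MB O g (B2 s)}.ncard ≤ n) :
    {j | (∃ γ ∈ T, γ ∈ UU c j) ∨ XX g B1 B2 c j O}.ncard ≤ 2 * m + n := by
  classical
  have h1 : {j | ∃ γ ∈ T, γ ∈ UU c j}.ncard ≤ 2 * m := by
    have hTf : T.Finite := Set.toFinite T
    have h2 : {j | ∃ γ ∈ T, γ ∈ UU c j} =
        ((hTf.toFinset.biUnion fun γ => (Set.toFinite {j | γ ∈ UU c j}).toFinset : Finset (Fin N)) : Set (Fin N)) := by
      ext j
      rw [Finset.mem_coe, Finset.mem_biUnion]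
      constructor
      · rintro ⟨γ, hγ, hj⟩
        exact ⟨γ, hTf.mem_toFinset.2 hγ, (Set.Finite.mem_toFinset _).2 hj⟩
      · rintro ⟨γ, hγ, hj⟩
        have hj' : j ∈ {j | γ ∈ UU c j} := (Set.Finite.mem_toFinset _).1 hj
        exact ⟨γ, hTf.mem_toFinset.1 hγ, hj'⟩
    rw [h2, Set.ncard_coe_finset]
    refine (Finset.card_biUnion_le_card_mul _ _ 2 fun γ _ => ?_).trans ?_
    · rw [← Set.ncard_eq_toFinset_card]
      exact card_rows c γ
    · rw [← Set.ncard_eq_toFinset_card, mul_comm]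
      exact Nat.mul_le_mul_left 2 hT
  have h2 := card_special c h
  have h3 : {j | (∃ γ ∈ T, γ ∈ UU c j) ∨ XX g B1 B2 c j O} =
      {j | ∃ γ ∈ T, γ ∈ UU c j} ∪ {j | XX g B1 B2 c j O} := rfl
  rw [h3]
  refine (Set.ncard_union_le _ _).trans ?_
  omega

end

private theorem E3_row {n N m : ℕ} (Vn : Fin (N + 1) → Prop) (V0 : Prop) [Decidable V0]
    (W : Fin N → Prop) (h0 : Vn 0 → V0)
    (h1 : ∀ j : Fin N, Vn j.succ → W j) (hW : {j | W j}.ncard ≤ 2 * m + n) :
    {j | Vn j}.ncard ≤ n + 2 * (m + if V0 then 1 else 0) := by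
  classical
  have hsub : {j | Vn j} ⊆ (if V0 then {0} else ∅) ∪ Fin.succ '' {j | W j} := by
    intro j hj
    induction j using Fin.cases with
    | zero =>
      left
      rw [if_pos (h0 hj)]
      rfl
    | succ j => exact Or.inr ⟨j, h1 j hj, rfl⟩
  refine (Set.ncard_le_ncard hsub (Set.toFinite _)).trans ((Set.ncard_union_le _ _).trans ?_)
  rw [Set.ncard_image_of_injective _ (Fin.succ_injective N)]
  split_ifs
  · rw [Set.ncard_singleton]
    omega
  · rw [Set.ncard_empty]
    omega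

private theorem E3_count {n d m : ℕ} {α β : Type} [Finite α] [Finite β] (Z : Set (α ⊕ β × Option (Fin (n + 1))))
    (hZ : Z.ncard ≤ d) (c : β) (hm : {a | Sum.inl a ∈ Z}.ncard = m)
    [Decidable ((Sum.inr (c, none) : α ⊕ β × Option (Fin (n + 1))) ∈ Z)] :
    {i : Fin (n + 1) | (Sum.inr (c, some i) : α ⊕ β × Option (Fin (n + 1))) ∈ Z}.ncard +
      (m + if (Sum.inr (c, none) : α ⊕ β × Option (Fin (n + 1))) ∈ Z then 1 else 0) ≤ d := by
  classical
  let f1 : α → α ⊕ β × Option (Fin (n + 1)) := Sum.inl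
  let f2 : Fin (n + 1) → α ⊕ β × Option (Fin (n + 1)) := fun i => Sum.inr (c, some i)
  have hf2 : Function.Injective f2 := by
    intro i i' h
    have h1 : (c, some i) = (c, some i') := Sum.inr_injective h
    exact Option.some_injective _ (Prod.ext_iff.1 h1).2
  have h1 : (f1 '' {a | Sum.inl a ∈ Z}).ncard = m := by
    rw [Set.ncard_image_of_injective _ Sum.inl_injective, hm]
  have h2 : (f2 '' {i | (Sum.inr (c, some i) : α ⊕ β × Option (Fin (n + 1))) ∈ Z}).ncard =
      {i | (Sum.inr (c, some i) : α ⊕ β × Option (Fin (n + 1))) ∈ Z}.ncard :=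
    Set.ncard_image_of_injective _ hf2
  have hd12 : Disjoint (f1 '' {a | Sum.inl a ∈ Z})
      (f2 '' {i | (Sum.inr (c, some i) : α ⊕ β × Option (Fin (n + 1))) ∈ Z}) := by
    rw [Set.disjoint_left]
    rintro _ ⟨a, _, rfl⟩ ⟨i, _, h⟩
    cases h
  have hs12 : f1 '' {a | Sum.inl a ∈ Z} ∪
      f2 '' {i | (Sum.inr (c, some i) : α ⊕ β × Option (Fin (n + 1))) ∈ Z} ⊆ Z := by
    rintro _ (⟨a, ha, rfl⟩ | ⟨i, hi, rfl⟩)
    · exact ha
    · exact hi
  have h3 := Set.ncard_union_eq hd12 (Set.toFinite _) (Set.toFinite _)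
  by_cases hC : (Sum.inr (c, none) : α ⊕ β × Option (Fin (n + 1))) ∈ Z
  · rw [if_pos hC]
    have h4 : (Sum.inr (c, none) : α ⊕ β × Option (Fin (n + 1))) ∉ f1 '' {a | Sum.inl a ∈ Z} ∪
        f2 '' {i | (Sum.inr (c, some i) : α ⊕ β × Option (Fin (n + 1))) ∈ Z} := by
      rintro (⟨a, _, h⟩ | ⟨i, _, h⟩)
      · cases h
      · have h5 : (c, some i) = (c, none) := Sum.inr_injective h
        cases (Prod.ext_iff.1 h5).2
    have h5 := Set.ncard_insert_of_notMem h4 (Set.toFinite _)
    have h6 : insert (Sum.inr (c, none) : α ⊕ β × Option (Fin (n + 1))) (f1 '' {a | Sum.inl a ∈ Z} ∪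
        f2 '' {i | (Sum.inr (c, some i) : α ⊕ β × Option (Fin (n + 1))) ∈ Z}) ⊆ Z :=
      Set.insert_subset hC hs12
    have h7 := Set.ncard_le_ncard h6 (Set.toFinite _)
    omega
  · rw [if_neg hC]
    have h7 := Set.ncard_le_ncard hs12 (Set.toFinite _)
    omega

section

open scoped Pointwise

private theorem E3_main [Infinite k] {n N : ℕ} (htd : TdLt k F (n + 1)) (P : SL k F)
    (lam : (Additive Fˣ) [⋀^Fin N]→ₗ[ℤ] ℝ)
    (hBC : ∀ (V : Submodule k F), FiniteDimensional k V → V ≤ P.S → ∀ (A B : Fin N → Fˣ) (C : Fˣ) (T : Fin (n + 1) → Fˣ),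
      (∀ j, (A j : F) ∈ V) → (∀ j, (B j : F) ∈ V) → (C : F) ∈ V → (∀ i, (T i : F) ∈ V) →
      (∀ j, IsU P (A j : F)) → (∀ j, IsU P (B j : F)) → IsU P (C : F) → (∀ i, IsU P (T i : F)) →
      (∀ O : ValuationSubring F, IsPt k O → ∀ e : Fin N → Bool, ∃ v,
        {j | Van O V (rowE A B C e j)}.ncard ≤ Rv n v ∧ {i | Van O V (T i : F)}.ncard + v ≤ n) →
      lam (fun j => Additive.ofMul (A j / B j)) = 0) (g : Fin N → Fˣ) (hg : ∀ j, IsU P (g j : F)) :
    lam (fun j => Additive.ofMul (g j)) = 0 := by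
  classical
  obtain ⟨S, _, _, b, B1, B2, D, hD0, h1, h12, hO⟩ := tents htd g
  -- the generic elements
  have hBB : ∀ γ : GG N S, (BB b B1 B2 D γ).Nonempty := by
    rintro (⟨j, s, e⟩ | ⟨j, c⟩)
    · rcases e with _ | _
      · exact h1 s
      · exact (h1 s).mono (h12 s)
    · exact ne_sum _ fun i _ => ER_ne b B1 B2 D h1 h12 c i
  let EX : GG N S ⊕ (Fin N → Option S) × Option (Fin (n + 1)) → Finset (Fin N → ℤ) :=
    fun γ => match γ with
      | Sum.inl γ => BB b B1 B2 D γ
      | Sum.inr (c, _) => ∑ j, ER b B1 B2 D c j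
  have hEX : ∀ γ, (EX γ).Nonempty := by
    rintro (γ | ⟨c, i⟩)
    · exact hBB γ
    · exact ne_sum _ fun i _ => ER_ne b B1 B2 D h1 h12 c i
  have hLE : ∀ γ (l : Fin P.r), ¬ HB k g (EX γ) ≤ P.M l := by
    intro γ l h
    obtain ⟨β, hβ⟩ := hEX γ
    exact (E3_mon P g hg β).not_mem l (h (mon_mem hβ))
  choose β hβ using h1
  obtain ⟨z0, hz, hz0, hzL, hgp⟩ := GP2_main htd
    (fun γ => HB k g (EX γ)) (fun γ => HB_fin _) (fun γ => HB_ne (hEX γ)) P.M hLE
    (fun s => HB k g (B2 s)) (fun s => HB_fin _) (fun s => (mon g (β s) : F)) (fun s => mon_mem (h12 s (hβ s)))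
    (fun s => Units.ne_zero _)
  have h1 : ∀ s, (B1 s).Nonempty := fun s => ⟨β s, hβ s⟩
  let zz : GG N S ⊕ (Fin N → Option S) × Option (Fin (n + 1)) → Fˣ := fun γ => Units.mk0 (z0 γ) (hz0 γ)
  let z : GG N S → Fˣ := fun γ => zz (Sum.inl γ)
  have hzm : ∀ γ, (z γ : F) ∈ HB k g (BB b B1 B2 D γ) := fun γ => hz (Sum.inl γ)
  have hzzU : ∀ γ, IsU P (zz γ : F) := fun γ => IsU.of (LE_HB_le P g hg _ (hz γ)) (hzL γ)
  have hzU : ∀ γ, IsU P (z γ : F) := fun γ => hzzU (Sum.inl γ)
  -- the symbols in good position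
  have key : ∀ c : Fin N → Option S, lam (fun j => Additive.ofMul (yy g b D z j (c j))) = 0 := by
    intro c
    let Δ : Finset (Fin N → ℤ) := ∑ j, ER b B1 B2 D c j
    have hΔ : ∀ j, ER b B1 B2 D c j + BB b B1 B2 D (Sum.inr (j, c)) = Δ := fun j =>
      Finset.add_sum_erase Finset.univ (fun i => ER b B1 B2 D c i) (Finset.mem_univ j)
    let A : Fin N → Fˣ := fun j => nn g b D z c j * z (Sum.inr (j, c))
    let B : Fin N → Fˣ := fun j => dd b z c j * z (Sum.inr (j, c))
    have hrow : ∀ j, Rep k g (BB b B1 B2 D) z (A j : F) Δ (UU c j) (XX g B1 B2 c j) ∧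
        Rep k g (BB b B1 B2 D) z (B j : F) Δ (UU c j) (XX g B1 B2 c j) := by
      intro j
      obtain ⟨r1, r2⟩ := rep_row hzm h1 h12 (fun O hO' => (hO O hO').1) c j
      have r3 : Rep k g (BB b B1 B2 D) z (z (Sum.inr (j, c)) : F) (BB b B1 B2 D (Sum.inr (j, c))) (UU c j)
          (XX g B1 B2 c j) := Rep.gen (hzm _) (Or.inr (Or.inr rfl))
      have r4 := r1.mul r3
      have r5 := r2.mul r3
      rw [hΔ j] at r4 r5
      exact ⟨r4, r5⟩
    have hAU : ∀ j, IsU P (A j : F) := fun j => E3_mul (E3_nn P hg hzU c j) (hzU _)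
    have hBU : ∀ j, IsU P (B j : F) := fun j => E3_mul (E3_dd P hzU c j) (hzU _)
    have h2 := hBC (HB k g Δ) (HB_fin _) (LE_HB_le P g hg Δ) A B (zz (Sum.inr (c, none)))
      (fun i => zz (Sum.inr (c, some i))) (fun j => (hrow j).1.mem)
      (fun j => (hrow j).2.mem) (hz (Sum.inr (c, none))) (fun i => hz (Sum.inr (c, some i)))
      hAU hBU (hzzU _) (fun i => hzzU _) ?_
    · have h3 : (fun j => Additive.ofMul (A j / B j)) = fun j => Additive.ofMul (ww g b D z c j) := by
        funext j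
        show Additive.ofMul (nn g b D z c j * z (Sum.inr (j, c)) / (dd b z c j * z (Sum.inr (j, c)))) = _
        rw [mul_div_mul_right_eq_div, nn_dd]
      rw [h3] at h2
      rw [chain lam (fun j => yy g b D z j (c j)) (pr c) fun j i h => (pr_lt h).1]
      exact h2
    · intro O hO' e
      let Z : Set (GG N S ⊕ (Fin N → Option S) × Option (Fin (n + 1))) := {γ | Van O (HB k g (EX γ)) (z0 γ)}
      obtain ⟨m, hm⟩ : ∃ m, {γ : GG N S | Sum.inl γ ∈ Z}.ncard = m := ⟨_, rfl⟩
      obtain ⟨w, hw⟩ : ∃ w, w = m + if (Sum.inr (c, none) : GG N S ⊕ (Fin N → Option S) × Option (Fin (n + 1))) ∈ Z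
          then 1 else 0 := ⟨_, rfl⟩
      have hstep : ∀ d, {s | MB O g (B1 s) < MB O g (B2 s)}.ncard ≤ d →
          {j | Van O (HB k g Δ) (rowE A B (zz (Sum.inr (c, none))) e j)}.ncard ≤ d + 2 * w := by
        intro d hd
        rw [hw]
        refine E3_row _ _ (fun j => (∃ γ ∈ {γ : GG N S | Sum.inl γ ∈ Z}, γ ∈ UU c j) ∨ XX g B1 B2 c j O)
          (fun h => h) ?_ (E3_bad c _ (le_of_eq hm) hd)
        intro j hj
        by_contra hcon
        rw [not_or] at hcon
        obtain ⟨hc1, hc2⟩ := hcon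
        have h3 : ∀ γ ∈ UU c j, O.valuation (z γ : F) = MB O g (BB b B1 B2 D γ) := by
          intro γ hγ
          refine le_antisymm (le_MB hO' (hzm γ)) ?_
          by_contra h4
          exact hc1 ⟨γ, (van_iff hO').2 (not_le.1 h4), hγ⟩
        have h4 : O.valuation (if e j then (A j : F) else B j) = MB O g Δ := by
          split
          · exact (hrow j).1.val O hO' h3 hc2
          · exact (hrow j).2.val O hO' h3 hc2
        have h5 : Van O (HB k g Δ) (if e j then (A j : F) else B j) := hj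
        rw [van_iff hO', h4] at h5
        exact lt_irrefl _ h5
      by_cases hact : ∃ s, MB O g (B1 s) < MB O g (B2 s)
      · have hZ : Z.ncard + 1 ≤ n := (hgp O hO').2 (by
          obtain ⟨s, hs⟩ := hact
          refine ⟨s, (van_iff hO').2 (lt_of_le_of_lt ?_ hs)⟩
          exact Finset.le_sup (f := fun β => O.valuation (mon g β : F)) (hβ s))
        refine ⟨w + 1, ?_, ?_⟩
        · refine (hstep n (hO O hO').2).trans ?_
          unfold Rv
          rw [if_neg (Nat.succ_ne_zero w)]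
          omega
        · have h3 := E3_count (d := n - 1) Z (by omega) c hm
          rw [← hw] at h3
          show {i : Fin (n + 1) | (Sum.inr (c, some i) : GG N S ⊕ (Fin N → Option S) × Option (Fin (n + 1))) ∈ Z}.ncard +
            (w + 1) ≤ n
          omega
      · refine ⟨w, ?_, ?_⟩
        · have hS0 : {s | MB O g (B1 s) < MB O g (B2 s)} = ∅ := by
            ext s
            exact ⟨fun h => absurd ⟨s, h⟩ hact, fun h => absurd h (Set.notMem_empty s)⟩
          have h3 := hstep 0 (by rw [hS0, Set.ncard_empty])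
          refine h3.trans ?_
          unfold Rv
          split_ifs with hw0
          · omega
          · omega
        · rw [hw]
          exact E3_count Z (hgp O hO').1 c hm
  -- the expansion
  have h2 : lam (fun j => Additive.ofMul (g j ^ D)) = 0 := by
    have h3 : (fun j => Additive.ofMul (g j ^ D)) = fun j =>
        ∑ τ : Option S, (τ.elim 1 fun s => b s j : ℤ) • Additive.ofMul (yy g b D z j τ) :=
      funext fun j => sum_yy g b D z j
    rw [h3]
    have h4 := lam.toMultilinearMap.map_sum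
      (g := fun (j : Fin N) (τ : Option S) => (τ.elim 1 fun s => b s j : ℤ) • Additive.ofMul (yy g b D z j τ))
    refine h4.trans ?_
    refine Finset.sum_eq_zero fun c _ => ?_
    have h5 := lam.toMultilinearMap.map_smul_univ
      (fun j => ((c j).elim 1 fun s => b s j : ℤ)) (fun j => Additive.ofMul (yy g b D z j (c j)))
    refine h5.trans ?_
    have h6 := key c
    rw [show lam.toMultilinearMap (fun j => Additive.ofMul (yy g b D z j (c j))) = 0 from h6, smul_zero]
  have h3 : (fun j => Additive.ofMul (g j ^ D)) = fun j => (D : ℤ) • Additive.ofMul (g j) := by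
    funext j
    rw [ofMul_pow, natCast_zsmul]
  rw [h3] at h2
  have h4 := lam.toMultilinearMap.map_smul_univ (fun _ => (D : ℤ)) (fun j => Additive.ofMul (g j))
  have h5 : (∏ _j : Fin N, (D : ℤ)) • lam (fun j => Additive.ofMul (g j)) = 0 := h4.symm.trans h2
  rw [smul_eq_zero] at h5
  refine h5.resolve_left ?_
  rw [Finset.prod_const]
  exact pow_ne_zero _ (by exact_mod_cast hD0.ne')

end

/-- PROOF. Copy of `LE_part` (`ntLV/LE.lean`) with `GP2_main` (the fixed elements are monomials of `B1 s` in `HB k g (B2 s)`) and more generic elements: the index type `GG N S ⊕ ((Fin N → Option S) × Option (Fin (n + 1)))`, with the spaces `HB k g (BB b B1 B2 D γ)` for `inl γ` and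
`HB k g (∑ j, ER b B1 B2 D c j)` for `inr (c, _)` (`ne_sum`, `ER_ne` for the nonemptiness); `C = z (inr (c, none))`, `T i = z (inr (c, some i))`. At a point `O` at most `n` of all the generic elements vanish:
let `m` = number of the vanishing `inl γ`, `w = m + (1 if C vanishes)`; then `w` + the number of the vanishing `T i` is `≤ n`. If no special part vanishes at `O` then at most `2 w` of the rows vanish (`v = w`); if a special part vanishes
then `w` + the number of the vanishing `T i` is `≤ n - 1` and at most `n + 2 w` of the rows vanish (`v = w + 1`). -/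
theorem E3_part [Infinite k] {n N : ℕ} (htd : TdLt k F (n + 1)) (P : SL k F)
    (lam : (Additive Fˣ) [⋀^Fin N]→ₗ[ℤ] ℝ)
    (hBC : ∀ (V : Submodule k F), FiniteDimensional k V → V ≤ P.S → ∀ (A B : Fin N → Fˣ) (C : Fˣ) (T : Fin (n + 1) → Fˣ),
      (∀ j, (A j : F) ∈ V) → (∀ j, (B j : F) ∈ V) → (C : F) ∈ V → (∀ i, (T i : F) ∈ V) →
      (∀ j, IsU P (A j : F)) → (∀ j, IsU P (B j : F)) → IsU P (C : F) → (∀ i, IsU P (T i : F)) →
      (∀ O : ValuationSubring F, IsPt k O → ∀ e : Fin N → Bool, ∃ v,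
        {j | Van O V (rowE A B C e j)}.ncard ≤ Rv n v ∧ {i | Van O V (T i : F)}.ncard + v ≤ n) →
      lam (fun j => Additive.ofMul (A j / B j)) = 0) (g : Fin N → Fˣ) (hg : ∀ j, IsU P (g j : F)) :
    lam (fun j => Additive.ofMul (g j)) = 0 :=
  E3_main htd P lam hBC g hg

end Pool.Agent.MP_b197b4_ntV3
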