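import Pool.Agent.Lib.MP_b197b4_ntV3.E3
import Pool.Agent.Lib.MP_b197b4_ntV3.C7

/-!
# V3: all functionals vanish, over an infinite algebraic extension of a prime field
-/

set_option autoImplicit false

noncomputable section

namespace Pool.Agent.MP_b197b4_ntV3

open Pool.Agent.MP_b197b4_ntUV Pool.Agent.MP_b197b4_ntLV

variable {k F : Type} [Field k] [Field F] [Algebra k F]

/-- all alternating maps of large degree which kill the Steinberg symbols of units vanish on units -/
theorem F3_units (hk : LocFin k) {n N : ℕ} (htd : TdLt k F (n + 1)) (hN : NumN n N) (P : SL k F)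
    (lam : (Additive Fˣ) [⋀^Fin N]→ₗ[ℤ] ℝ) (hS : StU P lam) (g : Fin N → Fˣ) (hg : ∀ j, IsU P (g j : F)) :
    lam (fun j => Additive.ofMul (g j)) = 0 := by
  have := F3_infinite hk
  exact E3_part htd P lam (fun V hV hVS A B C T hA hB hC hT hAu hBu hCu hTu gp =>
    C7_BC hk hN P V hV hVS A B C T hA hB hC hT hAu hBu hCu hTu gp lam hS) g hg

/-- the field itself -/
def F3_triv (k F : Type) [Field k] [Field F] [Algebra k F] : SL k F where
  S := ⊤
  r := 1
  M := fun _ => ⊥
  one_mem := Submodule.mem_top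
  mul_mem := fun _ _ _ _ => Submodule.mem_top
  ideal := fun _ x y _ hy => by
    rw [Submodule.mem_bot] at hy ⊢
    rw [hy, mul_zero]
  not_one := fun _ h => one_ne_zero ((Submodule.mem_bot k).1 h)
  unit := fun _ _ h => ⟨fun h0 => h 0 ((Submodule.mem_bot k).2 h0), Submodule.mem_top⟩

/-- all alternating Steinberg maps of large degree vanish -/
theorem F3_field (hk : LocFin k) {n N : ℕ} (htd : TdLt k F (n + 1)) (hN : NumN n N)
    (lam : (Additive Fˣ) [⋀^Fin N]→ₗ[ℤ] ℝ) (hS : Steinberg lam) (g : Fin N → Additive Fˣ) : lam g = 0 :=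
  F3_units hk htd hN (F3_triv k F) lam (fun a i j hij _ h => hS a i j hij h)
    (fun j => Additive.toMul (g j)) (fun _ => ⟨Submodule.mem_top, Units.ne_zero _, Submodule.mem_top⟩)

end Pool.Agent.MP_b197b4_ntV3
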