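import Pool.Agent.Lib.MP_b197b4_ntV3.F0
import Pool.Agent.Lib.MP_b197b4_ntLV.LAlt
import Pool.Agent.Lib.MP_b197b4_ntLV.LExt
import Pool.Agent.Lib.MP_b197b4_ntLV.LRing
import Pool.Agent.Lib.MP_b197b4_ntUV.FCard
import Pool.Agent.Lib.MP_b197b4_ntUV.FAlt
import Pool.Agent.Lib.MP_b197b4_ntUV.FLoc
import Pool.Agent.Lib.MP_b197b4_ntUV.NMain

/-!
# V3: the theorem for semilocal domains and for fields
-/

set_option autoImplicit false

noncomputable section

namespace Pool.Agent.MP_b197b4_ntV3

open Algebra
open Pool.Agent.MP_b197b4_ntUV (locFin_of_algebraic tdLt_of_trdeg_le countable_of_trdeg LocFin)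
open Pool.Agent.MP_b197b4_ntLV

/-- all functionals vanish -/
theorem F3_lam {k S : Type} [Field k] [CommRing S] [IsDomain S] (hk : LocFin k) [Algebra k S]
    (hM : Finite (MaximalSpectrum S)) {n m : ℕ} (htd : Algebra.trdeg k S ≤ n) (hm : NumN n m)
    (lam : (Additive Sˣ) [⋀^Fin m]→ₗ[ℤ] ℝ) (hS : ∀ (a : Fin m → Sˣ) (i j : Fin m), i ≠ j →
      (a i : S) + (a j : S) = 1 → lam (fun l => Additive.ofMul (a l)) = 0) (g : Fin m → Additive Sˣ) :
    lam g = 0 := by
  let F := FractionRing S
  obtain ⟨P, hP⟩ := LRing_SL (k := k) (R := S) (F := F) hM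
  have hF : Algebra.trdeg k F ≤ n := LRing_trdeg (R := S) htd
  let j : Sˣ →* Fˣ := Units.map (algebraMap S F : S →* F)
  have hj : Function.Injective j := fun x y h => by
    apply Units.ext
    have h1 : algebraMap S F (x : S) = algebraMap S F (y : S) := congrArg (fun z : Fˣ => (z : F)) h
    exact IsFractionRing.injective S F h1
  let ι : Additive Sˣ →ₗ[ℤ] Additive Fˣ := (MonoidHom.toAdditive j).toIntLinearMap
  have hι : Function.Injective ι := hj
  obtain ⟨lam', hlam'⟩ := LExt_alt ι hι lam
  have hS' : StU P lam' := by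
    intro a i l hil ha h
    choose u hu using fun l => (hP _).1 (ha l)
    have e : ∀ l, a l = j (u l) := fun l => Units.ext (hu l).symm
    have e1 : lam' (fun l => Additive.ofMul (a l)) = lam (fun l => Additive.ofMul (u l)) := by
      rw [← hlam']
      congr 1
      funext l
      rw [e l]
      rfl
    rw [e1]
    refine hS u i l hil ?_
    apply IsFractionRing.injective S F
    rw [map_add, map_one, hu, hu]
    exact h
  have h1 := F3_units hk (tdLt_of_trdeg_le hF) hm P lam' hS' (fun i => j (Additive.toMul (g i)))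
    (fun i => (hP _).2 ⟨Additive.toMul (g i), rfl⟩)
  rw [← hlam' g]
  exact h1

section big

universe u

/-- the elements of a domain which are algebraic over `F_p` -/
abbrev F3_k (p : ℕ) [Fact p.Prime] (S : Type u) [CommRing S] [Algebra (ZMod p) S] : Subalgebra (ZMod p) S :=
  integralClosure (ZMod p) S

theorem F3_isField (p : ℕ) [Fact p.Prime] (S : Type u) [CommRing S] [IsDomain S] [Algebra (ZMod p) S] :
    IsField (F3_k p S) :=
  isField_of_isIntegral_of_isField' (Field.toIsField (ZMod p))

theorem F3_inf (p : ℕ) [Fact p.Prime] (S : Type u) [CommRing S] [IsDomain S] [Algebra (ZMod p) S]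
    (h : {x : S | IsAlgebraic (ZMod p) x}.Infinite) : Infinite (F3_k p S) := by
  have h1 : {x : S | IsAlgebraic (ZMod p) x} = ((F3_k p S : Subalgebra (ZMod p) S) : Set S) := by
    ext x
    exact isAlgebraic_iff_isIntegral
  rw [h1] at h
  exact h.to_subtype

theorem F3_trdeg (p : ℕ) [Fact p.Prime] (S : Type u) [CommRing S] [IsDomain S] [Algebra (ZMod p) S] {n : ℕ}
    (h : Algebra.trdeg (ZMod p) S ≤ n) : Algebra.trdeg (F3_k p S) S ≤ n := by
  have h1 : Algebra.trdeg (ZMod p) (F3_k p S) + Algebra.trdeg (F3_k p S) S = Algebra.trdeg (ZMod p) S :=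
    trdeg_add_eq (ZMod p) (F3_k p S)
  have h2 : Algebra.trdeg (ZMod p) (F3_k p S) = 0 := trdeg_eq_zero
  rw [h2, zero_add] at h1
  rw [h1]
  exact h

/-- the theorem for all functionals, `S` in the universe `0` -/
theorem F3_lam0 (p : ℕ) [Fact p.Prime] (S : Type) [CommRing S] [IsDomain S] [Algebra (ZMod p) S]
    (hinf : {x : S | IsAlgebraic (ZMod p) x}.Infinite)
    (hM : Finite (MaximalSpectrum S)) {n m : ℕ} (htd : Algebra.trdeg (ZMod p) S ≤ n) (hm : NumN n m)
    (lam : (Additive Sˣ) [⋀^Fin m]→ₗ[ℤ] ℝ) (hS : ∀ (a : Fin m → Sˣ) (i j : Fin m), i ≠ j →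
      (a i : S) + (a j : S) = 1 → lam (fun l => Additive.ofMul (a l)) = 0) (g : Fin m → Additive Sˣ) :
    lam g = 0 := by
  letI : Field (F3_k p S) := (F3_isField p S).toField
  have hi : Infinite (F3_k p S) := F3_inf p S hinf
  have hk : LocFin (F3_k p S) := locFin_of_algebraic p (F3_k p S)
  exact F3_lam hk hM (F3_trdeg p S htd) hm lam hS g

theorem F3_pow (p : ℕ) [Fact p.Prime] (S : Type u) [CommRing S] [Algebra (ZMod p) S]
    (y : S) (hy : IsIntegral (ZMod p) y) : ∃ a b : ℕ, a < b ∧ y ^ a = y ^ b := by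
  have h1 : Module.Finite (ZMod p) (Algebra.adjoin (ZMod p) {y}) :=
    Module.Finite.iff_fg.2 hy.fg_adjoin_singleton
  have h2 : Finite (Algebra.adjoin (ZMod p) {y}) := Module.finite_of_finite (ZMod p)
  have h4 : y ∈ Algebra.adjoin (ZMod p) {y} := Algebra.self_mem_adjoin_singleton _ _
  obtain ⟨a, b, hne, hab⟩ := Finite.exists_ne_map_eq_of_infinite
    (fun n : ℕ => (⟨y, h4⟩ : Algebra.adjoin (ZMod p) {y}) ^ n)
  have hab' : y ^ a = y ^ b := by
    have := congrArg Subtype.val hab
    simpa using this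
  rcases lt_or_gt_of_ne hne with h | h
  · exact ⟨a, b, h, hab'⟩
  · exact ⟨b, a, h, hab'.symm⟩

theorem F3_max {S' : Type} {S : Type u} [CommRing S] [CommRing S'] (e : S' ≃+* S)
    (hM : Finite (MaximalSpectrum S)) : Finite (MaximalSpectrum S') := by
  refine Finite.of_injective (fun I : MaximalSpectrum S' =>
    (⟨I.asIdeal.comap (e.symm : S →+* S'), by
      have := I.isMaximal
      exact Ideal.comap_isMaximal_of_equiv e.symm⟩ : MaximalSpectrum S)) ?_
  intro I J h
  have h1 : I.asIdeal.comap (e.symm : S →+* S') = J.asIdeal.comap (e.symm : S →+* S') :=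
    congrArg MaximalSpectrum.asIdeal h
  ext x
  have h2 : e x ∈ I.asIdeal.comap (e.symm : S →+* S') ↔ e x ∈ J.asIdeal.comap (e.symm : S →+* S') := by
    rw [h1]
  simpa [Ideal.mem_comap] using h2

theorem F3_neg (p : ℕ) [Fact p.Prime] (S : Type u) [CommRing S] [IsDomain S] [Algebra (ZMod p) S]
    (hinf : {x : S | IsAlgebraic (ZMod p) x}.Infinite) (hM : Finite (MaximalSpectrum S))
    (c : Sˣ → Sˣ → ℝ) (h1 : ∀ x y z, c (x * y) z = c x z + c y z)
    (h2 : ∀ x y z, c x (y * z) = c x y + c x z)
    (h3 : ∀ x y : Sˣ, (x : S) + y = 1 → c x y = 0) (x : Sˣ) : c x (-x) = 0 := by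
  letI : Field (F3_k p S) := (F3_isField p S).toField
  have hi : Infinite (F3_k p S) := F3_inf p S hinf
  refine LAlt_neg (k := F3_k p S) (fun y => ?_) hM c h1 h2 h3 x
  have hy : IsIntegral (ZMod p) (y : F3_k p S) := Algebra.IsIntegral.isIntegral _
  obtain ⟨a, b, h, hab⟩ := F3_pow p (F3_k p S) (y : F3_k p S) hy
  have hab2 : y ^ a = y ^ b := Units.ext (by push_cast; exact hab)
  refine ⟨b - a, by omega, ?_⟩
  rw [pow_sub _ h.le, ← hab2, mul_inv_cancel]

theorem F3_countable (p : ℕ) [Fact p.Prime] (S : Type u) [CommRing S] [IsDomain S] [Algebra (ZMod p) S] {n : ℕ}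
    (h : Algebra.trdeg (ZMod p) S ≤ n) : Countable S := by
  have h1 : Algebra.trdeg (ZMod p) S + Algebra.trdeg S (FractionRing S) = Algebra.trdeg (ZMod p) (FractionRing S) :=
    trdeg_add_eq (ZMod p) S
  have h2 : Algebra.IsAlgebraic S (FractionRing S) := IsLocalization.isAlgebraic _ (nonZeroDivisors S)
  have h3 : Algebra.trdeg S (FractionRing S) = 0 := trdeg_eq_zero
  rw [h3, add_zero] at h1
  rw [h1] at h
  have h4 : Countable (FractionRing S) := countable_of_trdeg h
  exact (IsFractionRing.injective S (FractionRing S)).countable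

/-- all functionals vanish, in every universe -/
theorem F3_lamU (p : ℕ) [Fact p.Prime] (S : Type u) [CommRing S] [IsDomain S] [Algebra (ZMod p) S]
    (hinf : {x : S | IsAlgebraic (ZMod p) x}.Infinite)
    (hM : Finite (MaximalSpectrum S)) {n m : ℕ} (htd : Algebra.trdeg (ZMod p) S ≤ n)
    (hm : NumN n m)
    (lam : (Additive Sˣ) [⋀^Fin m]→ₗ[ℤ] ℝ) (hS : ∀ (a : Fin m → Sˣ) (i j : Fin m), i ≠ j →
      (a i : S) + (a j : S) = 1 → lam (fun l => Additive.ofMul (a l)) = 0) (g : Fin m → Additive Sˣ) :
    lam g = 0 := by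
  have hc : Countable S := F3_countable p S htd
  let S' : Type := Shrink.{0} S
  let e : S' ≃+* S := Shrink.ringEquiv.{0} S
  letI : Algebra (ZMod p) S' := (e.symm.toRingHom.comp (algebraMap (ZMod p) S)).toAlgebra
  have hdom : IsDomain S' := e.injective.isDomain e.toRingHom
  let e' : S' ≃ₐ[ZMod p] S := AlgEquiv.ofRingEquiv (f := e) (fun r => by
      show e (e.symm (algebraMap (ZMod p) S r)) = _
      exact e.apply_symm_apply _)
  have htd' : Algebra.trdeg (ZMod p) S' ≤ n := by
    have h1 := e'.lift_trdeg_eq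
    have h2 : Cardinal.lift.{u} (Algebra.trdeg (ZMod p) S') ≤ (n : Cardinal) := by
      rw [h1]
      simpa using htd
    exact_mod_cast Cardinal.lift_le_nat_iff.1 h2
  have hinf' : {x : S' | IsAlgebraic (ZMod p) x}.Infinite := by
    have h1 : {x : S | IsAlgebraic (ZMod p) x} ⊆ e '' {x : S' | IsAlgebraic (ZMod p) x} := by
      intro x hx
      refine ⟨e.symm x, ?_, e.apply_symm_apply x⟩
      exact IsAlgebraic.algHom e'.symm.toAlgHom hx
    exact (hinf.mono h1).of_image _
  have hM' : Finite (MaximalSpectrum S') := F3_max e hM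
  let u : S'ˣ ≃* Sˣ := Units.mapEquiv e.toMulEquiv
  let lam' : (Additive S'ˣ) [⋀^Fin m]→ₗ[ℤ] ℝ := lam.compLinearMap u.toAdditive.toAddMonoidHom.toIntLinearMap
  have h2 := F3_lam0 p S' hinf' hM' htd' hm lam' (fun a i j hij h => by
    refine hS (fun l => u (a l)) i j hij ?_
    show e (a i) + e (a j) = 1
    rw [← map_add, h, map_one]) (fun i => Additive.ofMul (u.symm (Additive.toMul (g i))))
  have h3 : lam' (fun i => Additive.ofMul (u.symm (Additive.toMul (g i)))) = lam g := by
    show lam _ = lam g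
    congr 1
    funext i
    show Additive.ofMul (u (u.symm (Additive.toMul (g i)))) = g i
    rw [MulEquiv.apply_symm_apply]
    rfl
  rw [← h3]
  exact h2

/-- Units lift along surjections from a semilocal ring with infinitely many roots of unity. -/
theorem F3_lift {k S R : Type*} [Field k] [Infinite k] [CommRing S] [Algebra k S] [CommRing R]
    (hM : Finite (MaximalSpectrum S)) (f : S →+* R) (hf : Function.Surjective f) (u : Rˣ) :
    ∃ v : Sˣ, f (v : S) = u := by
  classical
  obtain ⟨a, ha⟩ := hf u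
  have : Fintype (MaximalSpectrum S) := Fintype.ofFinite _
  -- for every maximal ideal an element of the kernel outside of it, if there is one
  have hc : ∀ M : MaximalSpectrum S, ∃ c ∈ RingHom.ker f, c ∉ M.asIdeal ∨ RingHom.ker f ≤ M.asIdeal := by
    intro M
    by_cases h : RingHom.ker f ≤ M.asIdeal
    · exact ⟨0, Ideal.zero_mem _, Or.inr h⟩
    · obtain ⟨c, hc, hcM⟩ := Set.not_subset.1 h
      exact ⟨c, hc, Or.inl hcM⟩
  -- an element `a'` congruent to `a` outside of all the maximal ideals of a finite set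
  have key : ∀ T : Finset (MaximalSpectrum S), ∃ a' : S, f a' = u ∧ ∀ M ∈ T, a' ∉ M.asIdeal := by
    intro T
    induction T using Finset.induction_on with
    | empty => exact ⟨a, ha, fun M hM => absurd hM (Finset.notMem_empty M)⟩
    | insert M T hMT ih =>
      obtain ⟨a', ha', hT⟩ := ih
      obtain ⟨c, hc, hcM⟩ := hc M
      have hfc : f c = 0 := hc
      by_cases hM2 : RingHom.ker f ≤ M.asIdeal
      · refine ⟨a', ha', fun M' hM' => ?_⟩
        rcases Finset.mem_insert.1 hM' with rfl | h
        · intro h1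
          -- a' is a unit modulo the kernel
          obtain ⟨b, hb⟩ := hf ((u⁻¹ : Rˣ) : R)
          have h2 : a' * b - 1 ∈ RingHom.ker f := by
            rw [RingHom.mem_ker, map_sub, map_mul, ha', hb, map_one, Units.mul_inv, sub_self]
          have h3 := hM2 h2
          have h4 : a' * b ∈ M'.asIdeal := Ideal.mul_mem_right _ _ h1
          have h5 : (1 : S) ∈ M'.asIdeal := by
            have := Ideal.sub_mem _ h4 h3
            simpa using this
          exact M'.isMaximal.ne_top ((Ideal.eq_top_iff_one _).2 h5)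
        · exact hT M' h
      · have hcM' : c ∉ M.asIdeal := hcM.resolve_right hM2
        -- for every maximal ideal at most one bad `t ≠ 0`...
        have hbad : ∀ M' ∈ insert M T, {t : k | t ≠ 0 ∧ a' + t • c ∈ M'.asIdeal}.Finite := by
          intro M' hM'
          by_cases hcM2 : c ∈ M'.asIdeal
          · have hM'T : M' ∈ T := by
              rcases Finset.mem_insert.1 hM' with rfl | h
              · exact absurd hcM2 hcM'
              · exact h
            refine Set.Finite.subset Set.finite_empty ?_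
            rintro t ⟨-, ht⟩
            refine hT M' hM'T ?_
            have h1 : t • c ∈ M'.asIdeal := by
              rw [Algebra.smul_def]
              exact Ideal.mul_mem_left _ _ hcM2
            have := Ideal.sub_mem _ ht h1
            simpa using this
          · refine Set.Subsingleton.finite ?_
            rintro t ⟨-, ht⟩ t' ⟨-, ht'⟩
            by_contra hne
            have h1 : (t - t') • c ∈ M'.asIdeal := by
              have := Ideal.sub_mem _ ht ht'
              rw [sub_smul]
              simpa using this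
            apply hcM2
            have h2 : c = (t - t')⁻¹ • ((t - t') • c) := by
              rw [smul_smul, inv_mul_cancel₀ (sub_ne_zero.2 hne), one_smul]
            rw [h2, Algebra.smul_def]
            exact Ideal.mul_mem_left _ _ h1
        have hfin : (⋃ M' ∈ insert M T, {t : k | t ≠ 0 ∧ a' + t • c ∈ M'.asIdeal}).Finite :=
          Set.Finite.biUnion (Finset.finite_toSet _) hbad
        obtain ⟨t, ht⟩ := ((hfin.union (Set.finite_singleton (0 : k))).infinite_compl).nonempty
        have ht0 : t ≠ 0 := fun h => ht (Or.inr h)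
        refine ⟨a' + t • c, ?_, fun M' hM' h => ht (Or.inl (Set.mem_iUnion₂.2 ⟨M', hM', ht0, h⟩))⟩
        rw [map_add, Algebra.smul_def, map_mul, hfc, mul_zero, add_zero, ha']
  obtain ⟨a', ha', hT⟩ := key Finset.univ
  have hunit : IsUnit a' := by
    by_contra h
    obtain ⟨M, hM, haM⟩ := exists_max_ideal_of_mem_nonunits h
    exact hT ⟨M, hM⟩ (Finset.mem_univ _) haM
  obtain ⟨v, rfl⟩ := hunit
  exact ⟨v, ha'⟩

/-- From a ring `S` all of whose functionals vanish to its quotients `R` for which the units lift. -/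
theorem F3_quot {S : Type u} [CommRing S] {m : ℕ}
    (hneg : ∀ c : Sˣ → Sˣ → ℝ, (∀ x y z, c (x * y) z = c x z + c y z) → (∀ x y z, c x (y * z) = c x y + c x z) →
      (∀ x y : Sˣ, (x : S) + y = 1 → c x y = 0) → ∀ x, c x (-x) = 0)
    (hlam : ∀ lam : (Additive Sˣ) [⋀^Fin m]→ₗ[ℤ] ℝ, (∀ (a : Fin m → Sˣ) (i j : Fin m), i ≠ j →
      (a i : S) + (a j : S) = 1 → lam (fun l => Additive.ofMul (a l)) = 0) → ∀ g, lam g = 0)
    {R : Type*} [CommRing R] (f : S →+* R) (hlift : ∀ u : Rˣ, ∃ v : Sˣ, Units.map (f : S →* R) v = u)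
    (x : MilnorK R m) : ∃ N : ℕ, 0 < N ∧ N • x = 0 := by
  refine LAlt_torsion (fun c h1 h2 h3 x => ?_) (fun lam hS g => ?_) x
  · obtain ⟨y, rfl⟩ := hlift x
    have h := hneg (fun a b => c (Units.map (f : S →* R) a) (Units.map (f : S →* R) b))
      (fun a b z => by
        show c (Units.map (f : S →* R) (a * b)) _ = _
        rw [map_mul, h1])
      (fun a b z => by
        show c _ (Units.map (f : S →* R) (b * z)) = _
        rw [map_mul, h2])
      (fun a b hab => h3 _ _ (by
        show f (a : S) + f (b : S) = 1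
        rw [← map_add, hab, map_one])) y
    have e : Units.map (f : S →* R) (-y) = - Units.map (f : S →* R) y := Units.ext (by
      show f (-(y : S)) = - f (y : S)
      exact map_neg f _)
    rw [e] at h
    exact h
  · choose v hv using fun i => hlift (Additive.toMul (g i))
    let π : Additive Sˣ →ₗ[ℤ] Additive Rˣ := (MonoidHom.toAdditive (Units.map (f : S →* R))).toIntLinearMap
    have h := hlam (lam.compLinearMap π) (fun a i j hij h => by
      refine hS (fun l => Units.map (f : S →* R) (a l)) i j hij ?_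
      show f (a i : S) + f (a j : S) = 1
      rw [← map_add, h, map_one]) (fun i => Additive.ofMul (v i))
    have e : lam.compLinearMap π (fun i => Additive.ofMul (v i)) = lam g := by
      show lam _ = lam g
      congr 1
      funext i
      show Additive.ofMul (Units.map (f : S →* R) (v i)) = g i
      rw [hv i]
      rfl
    rw [← e]
    exact h

/-- `c (x, -x) = 0` over a field -/
theorem F3_fneg {F : Type u} [Field F] (c : Fˣ → Fˣ → ℝ) (h1 : ∀ x y z, c (x * y) z = c x z + c y z)
    (h2 : ∀ x y z, c x (y * z) = c x y + c x z)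
    (h3 : ∀ x y : Fˣ, (x : F) + y = 1 → c x y = 0) (x : Fˣ) : c x (-x) = 0 := by
  have e1 := Pool.Agent.MP_b197b4_ntUV.symbol_antisymm c h1 h2 h3 x x
  have e2 : c x 1 = 0 := by
    have := h2 x 1 1
    rw [mul_one] at this
    linarith
  have e3 : c x (-1) + c x (-1) = 0 := by
    rw [← h2, ← e2]
    simp
  have e4 : c x (-x) = c x (-1) + c x x := by
    rw [← h2]
    congr 1
    simp
  rw [e4]
  linarith

/-- all functionals vanish, for fields in the universe `0` -/
theorem F3_flam0 (p : ℕ) [Fact p.Prime] (F : Type) [Field F] [Algebra (ZMod p) F] {n m : ℕ}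
    (hF : Algebra.trdeg (ZMod p) F ≤ n) (hm : NumN n m)
    (lam : (Additive Fˣ) [⋀^Fin m]→ₗ[ℤ] ℝ) (hS : Pool.Agent.MP_b197b4_ntUV.Steinberg lam) (g : Fin m → Additive Fˣ) :
    lam g = 0 := by
  let E := AlgebraicClosure F
  let k := algebraicClosure (ZMod p) E
  have hk : IsAlgClosed k := IsAlgClosure.isAlgClosed (ZMod p)
  have hk' : Infinite k := inferInstance
  have h1 : Algebra.trdeg k E ≤ n := by
    have h2 : Algebra.trdeg (ZMod p) F + Algebra.trdeg F E = Algebra.trdeg (ZMod p) E :=
      trdeg_add_eq (ZMod p) F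
    have h3 : Algebra.trdeg (ZMod p) k + Algebra.trdeg k E = Algebra.trdeg (ZMod p) E :=
      trdeg_add_eq (ZMod p) k
    have h4 : Algebra.trdeg F E = 0 := trdeg_eq_zero
    have h5 : Algebra.trdeg (ZMod p) k = 0 := trdeg_eq_zero
    rw [h4, add_zero] at h2
    rw [h5, zero_add] at h3
    rw [h3, ← h2]
    exact hF
  obtain ⟨lam', hS', hE⟩ := Pool.Agent.MP_b197b4_ntUV.extend_all (E := E) lam hS
  have h2 := F3_field (locFin_of_algebraic p k) (tdLt_of_trdeg_le h1) hm lam' hS'
    (fun i => Additive.ofMul (Units.map (algebraMap F E) (Additive.toMul (g i))))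
  rw [hE (fun i => Additive.toMul (g i))] at h2
  exact h2

/-- all functionals vanish, for fields -/
theorem F3_flam (p : ℕ) [Fact p.Prime] (F : Type u) [Field F] [Algebra (ZMod p) F] {n m : ℕ}
    (hF : Algebra.trdeg (ZMod p) F ≤ n) (hm : NumN n m)
    (lam : (Additive Fˣ) [⋀^Fin m]→ₗ[ℤ] ℝ) (hS : ∀ (a : Fin m → Fˣ) (i j : Fin m), i ≠ j →
      (a i : F) + (a j : F) = 1 → lam (fun l => Additive.ofMul (a l)) = 0) (g : Fin m → Additive Fˣ) :
    lam g = 0 := by
  have hc : Countable F := countable_of_trdeg hF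
  let F' : Type := Shrink.{0} F
  let e : F' ≃+* F := Shrink.ringEquiv.{0} F
  letI : Algebra (ZMod p) F' := (e.symm.toRingHom.comp (algebraMap (ZMod p) F)).toAlgebra
  have hF' : Algebra.trdeg (ZMod p) F' ≤ n := by
    let e' : F' ≃ₐ[ZMod p] F := AlgEquiv.ofRingEquiv (f := e) (fun r => by
      show e (e.symm (algebraMap (ZMod p) F r)) = _
      exact e.apply_symm_apply _)
    have h1 := e'.lift_trdeg_eq
    have h2 : Cardinal.lift.{u} (Algebra.trdeg (ZMod p) F') ≤ (n : Cardinal) := by
      rw [h1]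
      simpa using hF
    exact_mod_cast Cardinal.lift_le_nat_iff.1 h2
  let u : F'ˣ ≃* Fˣ := Units.mapEquiv e.toMulEquiv
  let lam' : (Additive F'ˣ) [⋀^Fin m]→ₗ[ℤ] ℝ := lam.compLinearMap u.toAdditive.toAddMonoidHom.toIntLinearMap
  have hS' : Pool.Agent.MP_b197b4_ntUV.Steinberg lam' := by
    intro a i j hij h
    refine hS (fun l => u (a l)) i j hij ?_
    show e (a i) + e (a j) = 1
    rw [← map_add, h, map_one]
  have h2 := F3_flam0 p F' hF' hm lam' hS' (fun i => Additive.ofMul (u.symm (Additive.toMul (g i))))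
  have h3 : lam' (fun i => Additive.ofMul (u.symm (Additive.toMul (g i)))) = lam g := by
    show lam _ = lam g
    congr 1
    funext i
    show Additive.ofMul (u (u.symm (Additive.toMul (g i)))) = g i
    rw [MulEquiv.apply_symm_apply]
    rfl
  rw [← h3]
  exact h2

/-- THE THEOREM for fields, for semilocal domains and for their quotients -/
theorem F3_main (p : ℕ) [Fact p.Prime] (S : Type u) [CommRing S] [IsDomain S] [Algebra (ZMod p) S]
    (hM : Finite (MaximalSpectrum S)) (hS : IsField S ∨ {x : S | IsAlgebraic (ZMod p) x}.Infinite) {n m : ℕ}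
    (htd : Algebra.trdeg (ZMod p) S ≤ n)
    (hm : 2 ^ n + 2 ≤ m) {R : Type*} [CommRing R] (f : S →+* R)
    (hf : Function.Surjective f) (x : MilnorK R m) : ∃ N : ℕ, 0 < N ∧ N • x = 0 := by
  rcases hS with hF | hinf
  · letI : Field S := hF.toField
    refine F3_quot (fun c h1 h2 h3 x => F3_fneg c h1 h2 h3 x) (F3_flam p S htd (num_main hm)) f (fun u => ?_) x
    obtain ⟨s, hs⟩ := hf (u : R)
    by_cases h0 : s = 0
    · have h1 : (u : R) = 0 := by rw [← hs, h0, map_zero]
      have h2 : (1 : R) = 0 := by rw [← Units.mul_inv u, h1, zero_mul]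
      refine ⟨1, Units.ext ?_⟩
      rw [map_one, Units.val_one, h1]
      exact h2
    · exact ⟨Units.mk0 s h0, Units.ext hs⟩
  · refine F3_quot (F3_neg p S hinf hM) (F3_lamU p S hinf hM htd (num_main hm)) f (fun u => ?_) x
    letI : Field (F3_k p S) := (F3_isField p S).toField
    have hi : Infinite (F3_k p S) := F3_inf p S hinf
    obtain ⟨v, hv⟩ := F3_lift (k := F3_k p S) hM f hf u
    exact ⟨v, Units.ext hv⟩

end big

end Pool.Agent.MP_b197b4_ntV3
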