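import Mathlib

/-!
# V3, leaf G1: the number of the vectors which are not combinations of the earlier ones
-/

set_option autoImplicit false
set_option linter.unusedSectionVars false

noncomputable section

namespace Pool.Agent.MP_b197b4_ntV3

open scoped BigOperators

private theorem G1_step {K E : Type} [Field K] [AddCommGroup E] [Module K E] {S : Set E} (hS : S.Finite) {x : E}
    (hx : x ∉ Submodule.span K S) :
    Module.finrank K (Submodule.span K (insert x S)) = Module.finrank K (Submodule.span K S) + 1 := by
  have hx0 : x ≠ 0 := by
    rintro rfl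
    exact hx (Submodule.zero_mem _)
  have : FiniteDimensional K (Submodule.span K S) := FiniteDimensional.span_of_finite K hS
  have h1 := Submodule.finrank_sup_add_finrank_inf_eq (Submodule.span K S) (Submodule.span K {x})
  have h2 : Submodule.span K S ⊓ Submodule.span K {x} = ⊥ :=
    (Submodule.disjoint_span_singleton' hx0).2 hx |>.eq_bot
  rw [h2, finrank_bot, add_zero, finrank_span_singleton hx0] at h1
  rw [Submodule.span_insert, sup_comm]
  exact h1

private theorem G1_aux {K E : Type} [Field K] [AddCommGroup E] [Module K E] {ι : Type} [Fintype ι] (v : ι → E)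
    (l : ι → ℕ) (hl : Function.Injective l) (m : ℕ) :
    {i | l i < m ∧ v i ∉ Submodule.span K (v '' {j | l j < l i})}.ncard =
      Module.finrank K (Submodule.span K (v '' {j | l j < m})) := by
  induction m with
  | zero =>
    have h1 : {i : ι | l i < 0 ∧ v i ∉ Submodule.span K (v '' {j | l j < l i})} = ∅ := by
      ext i
      simp
    have h2 : {j : ι | l j < 0} = ∅ := by
      ext i
      simp
    rw [h1, h2, Set.ncard_empty, Set.image_empty, Submodule.span_empty, finrank_bot]
  | succ m ih =>
    by_cases h : ∃ i, l i = m
    · obtain ⟨i, hi⟩ := h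
      have e1 : {j : ι | l j < m + 1} = insert i {j | l j < m} := by
        ext j
        rw [Set.mem_insert_iff, Set.mem_ofPred_eq, Set.mem_ofPred_eq]
        constructor
        · intro hj
          by_cases hjm : l j = m
          · exact Or.inl (hl (hjm.trans hi.symm))
          · exact Or.inr (by omega)
        · rintro (rfl | hj)
          · omega
          · omega
      rw [e1, Set.image_insert_eq]
      by_cases hx : v i ∈ Submodule.span K (v '' {j | l j < m})
      · have e2 : {i' : ι | l i' < m + 1 ∧ v i' ∉ Submodule.span K (v '' {j | l j < l i'})} =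
            {i' | l i' < m ∧ v i' ∉ Submodule.span K (v '' {j | l j < l i'})} := by
          ext j
          rw [Set.mem_ofPred_eq, Set.mem_ofPred_eq]
          constructor
          · rintro ⟨hj, hj2⟩
            refine ⟨?_, hj2⟩
            by_contra hjm
            have hji : j = i := hl (by omega)
            subst hji
            rw [hi] at hj2
            exact hj2 hx
          · rintro ⟨hj, hj2⟩
            exact ⟨by omega, hj2⟩
        rw [e2, ih, Submodule.span_insert_eq_span hx]
      · have e2 : {i' : ι | l i' < m + 1 ∧ v i' ∉ Submodule.span K (v '' {j | l j < l i'})} =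
            insert i {i' | l i' < m ∧ v i' ∉ Submodule.span K (v '' {j | l j < l i'})} := by
          ext j
          rw [Set.mem_insert_iff, Set.mem_ofPred_eq, Set.mem_ofPred_eq]
          constructor
          · rintro ⟨hj, hj2⟩
            by_cases hjm : l j = m
            · exact Or.inl (hl (hjm.trans hi.symm))
            · exact Or.inr ⟨by omega, hj2⟩
          · rintro (rfl | ⟨hj, hj2⟩)
            · refine ⟨by omega, ?_⟩
              rw [hi]
              exact hx
            · exact ⟨by omega, hj2⟩
        rw [e2, Set.ncard_insert_of_notMem, ih, G1_step (Set.toFinite _) hx]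
        rintro ⟨hj, -⟩
        omega
    · have e1 : {j : ι | l j < m + 1} = {j | l j < m} := by
        ext j
        rw [Set.mem_ofPred_eq, Set.mem_ofPred_eq]
        constructor
        · intro hj
          by_contra hjm
          exact h ⟨j, by omega⟩
        · intro hj
          omega
      have e2 : {i' : ι | l i' < m + 1 ∧ v i' ∉ Submodule.span K (v '' {j | l j < l i'})} =
          {i' | l i' < m ∧ v i' ∉ Submodule.span K (v '' {j | l j < l i'})} := by
        ext j
        rw [Set.mem_ofPred_eq, Set.mem_ofPred_eq]
        constructor
        · rintro ⟨hj, hj2⟩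
          refine ⟨?_, hj2⟩
          by_contra hjm
          exact h ⟨j, by omega⟩
        · rintro ⟨hj, hj2⟩
          exact ⟨by omega, hj2⟩
      rw [e1, e2, ih]

/-- PROOF. Induction on `m`: the number of the `i` with `l i < m`, `v i ∉ span {v j | l j < l i}` is `finrank (span {v j | l j < m})` (at most one `i` has `l i = m`; adding a vector in the span does not change the span, adding
another one raises the finrank by one). -/
theorem G1_rank {K E : Type} [Field K] [AddCommGroup E] [Module K E] {ι : Type} [Fintype ι] (v : ι → E) (l : ι → ℕ)
    (hl : Function.Injective l) :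
    {i | v i ∉ Submodule.span K (v '' {j | l j < l i})}.ncard = Module.finrank K (Submodule.span K (Set.range v)) := by
  have hm : ∀ i, l i < Finset.univ.sup l + 1 := fun i => Nat.lt_succ_of_le (Finset.le_sup (Finset.mem_univ i))
  have h := G1_aux (K := K) v l hl (Finset.univ.sup l + 1)
  have e1 : {j : ι | l j < Finset.univ.sup l + 1} = Set.univ := Set.eq_univ_of_forall hm
  have e2 : {i : ι | l i < Finset.univ.sup l + 1 ∧ v i ∉ Submodule.span K (v '' {j | l j < l i})} =
      {i | v i ∉ Submodule.span K (v '' {j | l j < l i})} := by
    ext i
    rw [Set.mem_ofPred_eq, Set.mem_ofPred_eq]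
    exact ⟨fun h => h.2, fun h => ⟨hm i, h⟩⟩
  rw [e1, e2, Set.image_univ] at h
  exact h

/-- PROOF. `G1_rank` for the rows and the columns and `Matrix.rank_transpose` (`Matrix.rank_eq_finrank_span_cols`, `Matrix.rank_eq_finrank_span_row`). -/
theorem G1_mat {K : Type} [Field K] {X Y : Type} [Fintype X] [Fintype Y] (M : X → Y → K) (lX : X → ℕ) (lY : Y → ℕ)
    (hX : Function.Injective lX) (hY : Function.Injective lY) :
    {x | M x ∉ Submodule.span K (M '' {x' | lX x' < lX x})}.ncard =
      {y | (fun x => M x y) ∉ Submodule.span K ((fun y x => M x y) '' {y' | lY y' < lY y})}.ncard := by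
  rw [G1_rank M lX hX]
  have h2 := G1_rank (K := K) (fun (y : Y) (x : X) => M x y) lY hY
  rw [h2]
  have h3 := Matrix.rank_eq_finrank_span_row (Matrix.of M)
  have h4 := Matrix.rank_eq_finrank_span_cols (Matrix.of M)
  exact h3.symm.trans h4

/-- PROOF. The kernel of the linear map `y ↦ ∑ x, y x • M x` has the dimension `card X - finrank (span (range M))` (rank nullity) and `q ^ dim` elements (`Module.card_eq_pow_finrank`). `G1_rank`; the complement of
the set is counted (`Set.ncard_compl` or `Set.ncard_add_ncard_compl`). -/
theorem G1_ker {K : Type} [Field K] [Fintype K] {X Y : Type} [Fintype X] [Fintype Y] (M : X → Y → K) (lX : X → ℕ)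
    (hX : Function.Injective lX) :
    {y : X → K | ∀ b, ∑ x, y x * M x b = 0}.ncard =
      Fintype.card K ^ {x | M x ∈ Submodule.span K (M '' {x' | lX x' < lX x})}.ncard := by
  have h1 := G1_rank (K := K) M lX hX
  have h2 := Set.ncard_add_ncard_compl {x | M x ∈ Submodule.span K (M '' {x' | lX x' < lX x})}
  have h3 : {x | M x ∈ Submodule.span K (M '' {x' | lX x' < lX x})}ᶜ =
      {x | M x ∉ Submodule.span K (M '' {x' | lX x' < lX x})} := rfl
  rw [h3, h1, Nat.card_eq_fintype_card] at h2
  have h4 := LinearMap.finrank_range_add_finrank_ker (Fintype.linearCombination K M)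
  rw [Fintype.range_linearCombination, Module.finrank_fintype_fun_eq_card] at h4
  have h5 : {y : X → K | ∀ b, ∑ x, y x * M x b = 0} = (LinearMap.ker (Fintype.linearCombination K M) : Set (X → K)) := by
    ext y
    rw [Set.mem_ofPred_eq, SetLike.mem_coe, LinearMap.mem_ker, Fintype.linearCombination_apply, funext_iff]
    refine forall_congr' fun b => ?_
    rw [Finset.sum_apply]
    rfl
  rw [h5, ← Nat.card_coe_set_eq]
  have h6 := Module.natCard_eq_pow_finrank (K := K) (V := LinearMap.ker (Fintype.linearCombination K M))
  rw [SetLike.coe_sort_coe, h6, Nat.card_eq_fintype_card]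
  congr 1
  omega

end Pool.Agent.MP_b197b4_ntV3
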