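import Pool.Agent.Lib.MP_b197b4_ntV3.TDefs

/-!
# V3, leaf T2: theta forms, basic facts
-/

set_option autoImplicit false
set_option linter.unusedSectionVars false

noncomputable section

namespace Pool.Agent.MP_b197b4_ntV3

open scoped BigOperators
open Pool.Agent.MP_b197b4_ntUV Pool.Agent.MP_b197b4_ntLV

variable {k F : Type} [Field k] [Field F] [Algebra k F]

private theorem T2_cast (x y : ℕ) : ((dsq x y : ℕ) : ℤ) = ((x : ℤ) - y) ^ 2 := by
  unfold dsq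
  rcases le_total x y with h | h
  · rw [Nat.sub_eq_zero_of_le h]
    push_cast [Nat.cast_sub h]
    ring
  · rw [Nat.sub_eq_zero_of_le h]
    push_cast [Nat.cast_sub h]
    ring

theorem dsq_self (x : ℕ) : dsq x x = 0 := by
  have h := T2_cast x x
  rw [sub_self] at h
  have h1 : ((dsq x x : ℕ) : ℤ) = 0 := by
    rw [h]
    norm_num
  exact_mod_cast h1

theorem dsq_pos {x y : ℕ} (h : x ≠ y) : 0 < dsq x y := by
  have h1 : (0 : ℤ) < ((dsq x y : ℕ) : ℤ) := by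
    rw [T2_cast]
    have h2 : ((x : ℤ) - y) ≠ 0 := sub_ne_zero.2 (by exact_mod_cast h)
    positivity
  exact_mod_cast h1

/-- `(2 a + i) ^ 2 + (2 (b - a) - i) ^ 2 = 2 b ^ 2 + 2 (b - c) ^ 2` for `c = 2 a + i`. PROOF. `c = 2 (c / 2) + c % 2`; cases `b ≤ c`, `c ≤ b`, and `c % 2 ≤ 2 (b - c / 2)` or not
(then `b = c / 2`, `c % 2 = 1`); `nlinarith` or `zify`, `ring`. -/
theorem dsq_id (b c : ℕ) (h : c / 2 ≤ b) :
    c ^ 2 + dsq (2 * (b - c / 2)) (c % 2) = 2 * b ^ 2 + 2 * dsq b c := by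
  have h1 : ((c ^ 2 + dsq (2 * (b - c / 2)) (c % 2) : ℕ) : ℤ) = ((2 * b ^ 2 + 2 * dsq b c : ℕ) : ℤ) := by
    obtain ⟨a, ha⟩ : ∃ a, a = c / 2 := ⟨_, rfl⟩
    obtain ⟨i, hi⟩ : ∃ i, i = c % 2 := ⟨_, rfl⟩
    have h2 : c = 2 * a + i := by omega
    rw [← ha] at h ⊢
    rw [← hi]
    rw [Nat.cast_add, Nat.cast_add, Nat.cast_mul, Nat.cast_mul, T2_cast, T2_cast]
    rw [h2]
    push_cast [Nat.cast_sub h]
    ring
  exact_mod_cast h1

theorem mem_Ex {e D : ℕ} (α : Fin e → ℕ) : α ∈ Ex e D ↔ ∑ j, α j ≤ D := by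
  unfold Ex
  rw [Finset.mem_filter, Fintype.mem_piFinset]
  refine ⟨fun h => h.2, fun h => ⟨fun j => ?_, h⟩⟩
  rw [Finset.mem_range]
  have h1 : α j ≤ ∑ j, α j := Finset.single_le_sum (fun i _ => Nat.zero_le _) (Finset.mem_univ j)
  omega

theorem mem_Rw {e D C : ℕ} (b : Fin e → ℕ) : b ∈ Rw e D C ↔ ∑ j, b j / 2 + C ≤ D := by
  unfold Rw
  rw [Finset.mem_filter, Fintype.mem_piFinset]
  refine ⟨fun h => h.2, fun h => ⟨fun j => ?_, h⟩⟩
  rw [Finset.mem_range]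
  have h1 : b j / 2 ≤ ∑ j, b j / 2 :=
    Finset.single_le_sum (f := fun j => b j / 2) (fun i _ => Nat.zero_le _) (Finset.mem_univ j)
  omega

/-- PROOF. `mono_mem`, the sum of the exponents is `D` (`Fin.sum_cons`). -/
theorem hm_mem {e D : ℕ} {V : Submodule k F} {T : Fin (e + 1) → F} (hT : ∀ i, T i ∈ V) {α : Fin e → ℕ}
    (h : ∑ j, α j ≤ D) : hm D T α ∈ V ^ D := by
  have h1 := mono_mem V T hT (Fin.cons (D - ∑ j, α j) α : Fin (e + 1) → ℕ)
  rw [Fin.sum_univ_succ, Fin.cons_zero] at h1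
  simp only [Fin.cons_succ] at h1
  rw [Nat.sub_add_cancel h] at h1
  exact h1

/-- PROOF. `mono`, `Fin.prod_univ_succ`, `pow_add`; `D - |α| + (D' - |β|) = D + D' - |α + β|`. -/
theorem hm_mul {e D D' : ℕ} {T : Fin (e + 1) → F} {α β : Fin e → ℕ} (h : ∑ j, α j ≤ D) (h' : ∑ j, β j ≤ D') :
    hm D T α * hm D' T β = hm (D + D') T (fun j => α j + β j) := by
  unfold hm mono
  rw [← Finset.prod_mul_distrib]
  refine Finset.prod_congr rfl fun i _ => ?_
  rw [← pow_add]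
  congr 1
  refine Fin.cases ?_ (fun j => ?_) i
  · rw [Fin.cons_zero, Fin.cons_zero, Fin.cons_zero, Finset.sum_add_distrib]
    omega
  · rw [Fin.cons_succ, Fin.cons_succ, Fin.cons_succ]

/-- every monomial of degree `D` is an `hm` -/
theorem hm_eq {e D : ℕ} (T : Fin (e + 1) → F) (b : Fin (e + 1) → ℕ) (h : ∑ i, b i = D) :
    mono T b = hm D T (fun j => b j.succ) := by
  unfold hm
  congr 1
  funext i
  refine Fin.cases ?_ (fun j => ?_) i
  · rw [Fin.cons_zero]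
    rw [Fin.sum_univ_succ] at h
    show b 0 = D - ∑ j : Fin e, b j.succ
    omega
  · rw [Fin.cons_succ]

theorem thY_mem {e D : ℕ} {V : Submodule k F} {T : Fin (e + 1) → F} (hT : ∀ i, T i ∈ V) (t : k) (i : Fin e → ℕ) :
    thY t D T i ∈ V ^ D := by
  unfold thY
  refine Submodule.sum_mem _ fun α hα => Submodule.smul_mem _ _ (hm_mem hT ((mem_Ex α).1 hα))

end Pool.Agent.MP_b197b4_ntV3
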