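import Pool.Agent.Lib.MP_b197b4_ntV3.GDefs
import Pool.Agent.Lib.MP_b197b4_ntV3.G1
import Pool.Agent.Lib.MP_b197b4_ntV3.T2

/-!
# V3, leaf G2: the sets `gA`
-/

set_option autoImplicit false
set_option linter.unusedSectionVars false

noncomputable section

namespace Pool.Agent.MP_b197b4_ntV3

open scoped BigOperators

variable {e : ℕ} {K : Type} [Field K]

private lemma G2_sum {s : Finset (Fin e → ℕ)} (p : (Fin e → ℕ) → Prop) [DecidablePred p] (f : (Fin e → ℕ) → K) :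
    ∑ a ∈ (Finset.univ : Finset ↥s).filter (fun a => p a.1), f a.1 = ∑ a ∈ s.filter p, f a := by
  rw [Finset.sum_filter, Finset.sum_filter]
  exact Finset.sum_coe_sort s fun a => if p a then f a else 0

private lemma G2_span (l : (Fin e → ℕ) → ℕ) (lam : (Fin e → ℕ) → K) (D D' : ℕ) (a : ↥(Ex e D)) :
    a.1 ∈ gA l lam D D' ↔ (fun b : ↥(Ex e D') => lam (a.1 + b.1)) ∈ Submodule.span K
      ((fun (a : ↥(Ex e D)) (b : ↥(Ex e D')) => lam (a.1 + b.1)) '' {a' | l a'.1 < l a.1}) := by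
  classical
  have hs : ({a' | l a'.1 < l a.1} : Set ↥(Ex e D)) =
      ↑((Finset.univ : Finset ↥(Ex e D)).filter fun a' => l a'.1 < l a.1) := by
    ext a'
    simp
  rw [hs, Submodule.mem_span_image_finset_iff_exists_fun']
  unfold gA
  rw [Finset.mem_filter]
  constructor
  · rintro ⟨_, c, hc⟩
    refine ⟨fun a' => c a'.1, ?_⟩
    funext b
    rw [Finset.sum_apply, hc b.1 b.2]
    simp only [Pi.smul_apply, smul_eq_mul]
    exact G2_sum (fun a' => l a' < l a.1) fun a' => c a' * lam (a' + b.1)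
  · rintro ⟨c, hc⟩
    refine ⟨a.2, fun a' => if h : a' ∈ Ex e D then c ⟨a', h⟩ else 0, fun b hb => ?_⟩
    have h1 := congrFun hc ⟨b, hb⟩
    rw [Finset.sum_apply] at h1
    simp only [Pi.smul_apply, smul_eq_mul] at h1
    rw [← h1, ← G2_sum (fun a' => l a' < l a.1)
      fun a' => (if h : a' ∈ Ex e D then c ⟨a', h⟩ else 0) * lam (a' + b)]
    refine Finset.sum_congr rfl fun a' _ => ?_
    rw [dif_pos a'.2]

private lemma G2_nc {s : Finset (Fin e → ℕ)} (t : Finset (Fin e → ℕ)) (ht : t ⊆ s) :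
    {a : ↥s | a.1 ∈ t}.ncard = t.card := by
  rw [← Set.ncard_image_of_injective _ Subtype.val_injective, ← Set.ncard_coe_finset t]
  congr 1
  ext a
  constructor
  · rintro ⟨b, hb, rfl⟩
    exact hb
  · intro ha
    exact ⟨⟨a, ht ha⟩, ha, rfl⟩

private lemma G2_sub (l : (Fin e → ℕ) → ℕ) (lam : (Fin e → ℕ) → K) (D D' : ℕ) : gA l lam D D' ⊆ Ex e D := by
  classical
  unfold gA
  exact Finset.filter_subset _ _

private lemma G2_one (l : (Fin e → ℕ) → ℕ) (lam : (Fin e → ℕ) → K) (D D' : ℕ) :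
    (Ex e D \ gA l lam D D').card = {a : ↥(Ex e D) | (fun b : ↥(Ex e D') => lam (a.1 + b.1)) ∉ Submodule.span K
      ((fun (a : ↥(Ex e D)) (b : ↥(Ex e D')) => lam (a.1 + b.1)) '' {a' | l a'.1 < l a.1})}.ncard := by
  rw [← G2_nc (Ex e D \ gA l lam D D') Finset.sdiff_subset]
  congr 1
  ext a
  rw [Set.mem_ofPred_eq, Set.mem_ofPred_eq, Finset.mem_sdiff, G2_span]
  exact ⟨fun h => h.2, fun h => ⟨a.2, h⟩⟩

/-- PROOF. `G1_mat` with `X` = the subtype of `Ex e D`, `Y` = the subtype of `Ex e D'`, `M a b = lam (a + b)`. The condition of `gA` says that the row is in the span of the earlier rows (sums over a filter and over a subtype;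
`Submodule.mem_span_image_iff_exists_fun` or `Finsupp.mem_span_image_iff_linearCombination`). -/
theorem G2_card (l : (Fin e → ℕ) → ℕ) (lam : (Fin e → ℕ) → K) (D D' : ℕ)
    (h1 : ∀ a ∈ Ex e D, ∀ b ∈ Ex e D, l a = l b → a = b) (h2 : ∀ a ∈ Ex e D', ∀ b ∈ Ex e D', l a = l b → a = b) :
    (Ex e D \ gA l lam D D').card = (Ex e D' \ gA l lam D' D).card := by
  rw [G2_one, G2_one, G1_mat (fun (a : ↥(Ex e D)) (b : ↥(Ex e D')) => lam (a.1 + b.1)) (fun a => l a.1)
    (fun b => l b.1) (fun a b h => Subtype.ext (h1 _ a.2 _ b.2 h)) (fun a b h => Subtype.ext (h2 _ a.2 _ b.2 h))]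
  have hc : (fun (a : ↥(Ex e D')) (b : ↥(Ex e D)) => lam (b.1 + a.1)) =
      fun (a : ↥(Ex e D')) (b : ↥(Ex e D)) => lam (a.1 + b.1) := by
    funext a b
    rw [add_comm]
  have hc' : ∀ a : ↥(Ex e D'), (fun b : ↥(Ex e D) => lam (b.1 + a.1)) = fun b : ↥(Ex e D) => lam (a.1 + b.1) :=
    fun a => congrFun hc a
  simp only [hc']

/-- PROOF. `G1_ker` in the same way (functions on `Ex e D`). -/
theorem G2_ker [Fintype K] (l : (Fin e → ℕ) → ℕ) (lam : (Fin e → ℕ) → K) (D D' : ℕ)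
    (h1 : ∀ a ∈ Ex e D, ∀ b ∈ Ex e D, l a = l b → a = b) :
    {y : ↥(Ex e D) → K | ∀ b ∈ Ex e D', ∑ a, y a * lam (a.1 + b) = 0}.ncard =
      Fintype.card K ^ (gA l lam D D').card := by
  have h := G1_ker (fun (a : ↥(Ex e D)) (b : ↥(Ex e D')) => lam (a.1 + b.1)) (fun a => l a.1)
    (fun a b h => Subtype.ext (h1 _ a.2 _ b.2 h))
  rw [← G2_nc (gA l lam D D') (G2_sub l lam D D')]
  have e1 : {a : ↥(Ex e D) | a.1 ∈ gA l lam D D'} = {x : ↥(Ex e D) | (fun b : ↥(Ex e D') => lam (x.1 + b.1)) ∈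
      Submodule.span K ((fun (a : ↥(Ex e D)) (b : ↥(Ex e D')) => lam (a.1 + b.1)) '' {x' | l x'.1 < l x.1})} := by
    ext a
    exact G2_span l lam D D' a
  rw [e1, ← h]
  congr 1
  ext y
  exact ⟨fun h b => h b.1 b.2, fun h b hb => h ⟨b, hb⟩⟩


end Pool.Agent.MP_b197b4_ntV3
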