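import Pool.Agent.Lib.MP_b197b4_ntV3.GDefs
import Pool.Agent.Lib.MP_b197b4_ntV3.T2

/-!
# V3, leaf G2r: more on the sets `gA`
-/

set_option autoImplicit false
set_option linter.unusedSectionVars false

noncomputable section

namespace Pool.Agent.MP_b197b4_ntV3

open scoped BigOperators

variable {e : ℕ} {K : Type} [Field K]

private theorem G2r_split (D D' : ℕ) : ∀ x : Fin e → ℕ, ∑ j, x j ≤ D + D' →
    ∃ a b : Fin e → ℕ, x = a + b ∧ ∑ j, a j ≤ D ∧ ∑ j, b j ≤ D' := by
  induction D with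
  | zero =>
    intro x hx
    refine ⟨0, x, (zero_add x).symm, by simp, by omega⟩
  | succ D ih =>
    intro x hx
    by_cases h : ∑ j, x j ≤ D + D'
    · obtain ⟨a, b, h1, h2, h3⟩ := ih x h
      exact ⟨a, b, h1, by omega, h3⟩
    · have hne : ∑ j, x j ≠ 0 := by omega
      obtain ⟨j, -, hj⟩ := Finset.exists_ne_zero_of_sum_ne_zero hne
      have hx' : x = (fun i => x i - (Pi.single j 1 : Fin e → ℕ) i) + Pi.single j 1 := by
        funext i
        rw [Pi.add_apply]
        by_cases hi : i = j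
        · subst hi
          rw [Pi.single_eq_same]
          omega
        · rw [Pi.single_eq_of_ne hi]
          omega
      have hs : ∑ i, (Pi.single j 1 : Fin e → ℕ) i = 1 := by
        rw [Finset.sum_pi_single']
        simp
      have hsum : ∑ i, x i = ∑ i, (x i - (Pi.single j 1 : Fin e → ℕ) i) + 1 := by
        conv_lhs => rw [hx']
        simp only [Pi.add_apply]
        rw [Finset.sum_add_distrib, hs]
      obtain ⟨a, b, h1, h2, h3⟩ := ih (fun i => x i - (Pi.single j 1 : Fin e → ℕ) i) (by omega)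
      refine ⟨a + Pi.single j 1, b, ?_, ?_, h3⟩
      · rw [hx', h1]
        abel
      · simp only [Pi.add_apply]
        rw [Finset.sum_add_distrib, hs]
        omega

/-- PROOF. Otherwise all rows are combinations of earlier ones, so (strong induction on `l`) all rows are `0`. Every `x` with `|x| ≤ D + D'` is `a + b` with `|a| ≤ D`, `|b| ≤ D'`. -/
theorem G2_ne (l : (Fin e → ℕ) → ℕ) (lam : (Fin e → ℕ) → K) (D D' : ℕ) {x : Fin e → ℕ} (hx : x ∈ Ex e (D + D'))
    (h : lam x ≠ 0) : (Ex e D \ gA l lam D D').Nonempty := by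
  classical
  by_contra hne
  rw [Finset.not_nonempty_iff_eq_empty, Finset.sdiff_eq_empty_iff_subset] at hne
  have key : ∀ n : ℕ, ∀ a ∈ Ex e D, l a = n → ∀ b ∈ Ex e D', lam (a + b) = 0 := by
    intro n
    induction n using Nat.strong_induction_on with
    | _ n ih =>
      intro a ha hn b hb
      have h1 := hne ha
      unfold gA at h1
      obtain ⟨-, c, hc⟩ := Finset.mem_filter.1 h1
      rw [hc b hb]
      refine Finset.sum_eq_zero fun a' ha' => ?_
      obtain ⟨h2, h3⟩ := Finset.mem_filter.1 ha'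
      rw [ih (l a') (by omega) a' h2 rfl b hb, mul_zero]
  obtain ⟨a, b, hab, ha, hb⟩ := G2r_split D D' x ((mem_Ex x).1 hx)
  exact h (by rw [hab]; exact key _ a ((mem_Ex a).2 ha) rfl b ((mem_Ex b).2 hb))

/-- PROOF. `lam (a + b) = ∑ d b' * lam (b' + a)` for all `|a| ≤ D' + C`. For `|b''| ≤ D'`: `lam ((b + δ) + b'') = lam (b + (δ + b''))`, `δ + b'' ∈ Ex e (D' + C)`, `= ∑ d b' * lam ((b' + δ) + b'')`, and
`l (b' + δ) < l (b + δ)`; `b' ↦ b' + δ` is injective: extend the coefficients by `0`. -/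
theorem G2_rel (l : (Fin e → ℕ) → ℕ) (hl : ∀ a b, l (a + b) = l a + l b) (lam : (Fin e → ℕ) → K) (D' C : ℕ)
    {b δ : Fin e → ℕ} (hb : b ∈ gA l lam D' (D' + C)) (hδ : δ ∈ Ex e C) : b + δ ∈ gA l lam (D' + C) D' := by
  classical
  unfold gA at hb
  obtain ⟨hbE, d, hd⟩ := Finset.mem_filter.1 hb
  have hadd : ∀ {u v : Fin e → ℕ} {m n : ℕ}, u ∈ Ex e m → v ∈ Ex e n → u + v ∈ Ex e (m + n) := by
    intro u v m n hu hv
    rw [mem_Ex] at hu hv ⊢
    simp only [Pi.add_apply]
    rw [Finset.sum_add_distrib]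
    omega
  unfold gA
  refine Finset.mem_filter.2 ⟨hadd hbE hδ, ?_⟩
  refine ⟨fun a' => ∑ b' ∈ (Ex e D').filter (fun b' => l b' < l b), if b' + δ = a' then d b' else 0, ?_⟩
  intro b'' hb''
  have h1 : δ + b'' ∈ Ex e (D' + C) := by
    have := hadd hδ hb''
    rwa [add_comm C D'] at this
  have h2 : b + δ + b'' = b + (δ + b'') := add_assoc _ _ _
  rw [h2, hd _ h1]
  simp only [Finset.sum_mul]
  rw [Finset.sum_comm]
  refine Finset.sum_congr rfl fun b' hb' => ?_
  obtain ⟨h3, h4⟩ := Finset.mem_filter.1 hb'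
  rw [Finset.sum_eq_single (b' + δ)]
  · rw [if_pos rfl, add_assoc]
  · intro a' _ ha'
    rw [if_neg (Ne.symm ha'), zero_mul]
  · intro h5
    exfalso
    refine h5 (Finset.mem_filter.2 ⟨hadd h3 hδ, ?_⟩)
    rw [hl, hl]
    omega

end Pool.Agent.MP_b197b4_ntV3
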