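import Pool.Agent.Lib.MP_b197b4_ntV3.GDefs
import Pool.Agent.Lib.MP_b197b4_ntV3.T2

/-!
# V3, leaf G3: `lam` is determined by its values outside of `SS A B`
-/

set_option autoImplicit false
set_option linter.unusedSectionVars false

noncomputable section

namespace Pool.Agent.MP_b197b4_ntV3

open scoped BigOperators

variable {e : ℕ} {K : Type} [Field K]

/-- PROOF. Strong induction on `l x`. If `x ∈ SS A B`, `x = a + b`, `a ∈ A`, `b ∈ B`. Row `a` of `lam`: coefficients `c`; column `b` of `lam'`: coefficients `d`.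
`lam (a + b) = ∑ c a' * lam (a' + b) = ∑ c a' * lam' (a' + b)` (`l (a' + b) < l x`) `= ∑ c a' * ∑ d b' * lam' (b' + a') = ∑ d b' * ∑ c a' * lam (a' + b')` (`l (a' + b') < l x`) `= ∑ d b' * lam (a + b') =
∑ d b' * lam' (a + b')` (`l (a + b') < l x`) `= lam' (a + b)`. (All the sums are in `Ex e (D + D')`.) -/
theorem G3_unique (l : (Fin e → ℕ) → ℕ) (hl : ∀ a b, l (a + b) = l a + l b) (lam lam' : (Fin e → ℕ) → K) (D D' : ℕ)
    (A B : Finset (Fin e → ℕ)) (hA : gA l lam D D' = A) (hB : gA l lam' D' D = B)
    (h : ∀ x ∈ Ex e (D + D') \ SS A B, lam x = lam' x) : ∀ x ∈ Ex e (D + D'), lam x = lam' x := by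
  classical
  have hadd : ∀ {M M' : ℕ} {a b : Fin e → ℕ}, a ∈ Ex e M → b ∈ Ex e M' → a + b ∈ Ex e (M + M') := by
    intro M M' a b ha hb
    rw [mem_Ex] at ha hb ⊢
    simp only [Pi.add_apply, Finset.sum_add_distrib]
    omega
  have key : ∀ n : ℕ, ∀ x ∈ Ex e (D + D'), l x = n → lam x = lam' x := by
    intro n
    induction n using Nat.strong_induction_on with
    | _ n ih =>
      intro x hx hn
      by_cases hxS : x ∈ SS A B
      · unfold SS at hxS
        rw [Finset.mem_image] at hxS
        obtain ⟨⟨a, b⟩, hab, rfl⟩ := hxS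
        rw [Finset.mem_product] at hab
        obtain ⟨haA, hbB⟩ := hab
        simp only at haA hbB hx hn ⊢
        rw [← hA] at haA
        rw [← hB] at hbB
        unfold gA at haA hbB
        obtain ⟨ha, c, hc⟩ := Finset.mem_filter.1 haA
        obtain ⟨hb, d, hd⟩ := Finset.mem_filter.1 hbB
        rw [hl] at hn
        have ih' : ∀ y ∈ Ex e (D + D'), l y < l a + l b → lam y = lam' y := by
          intro y hy hly
          exact ih (l y) (by omega) y hy rfl
        have s1 : lam (a + b) = ∑ a' ∈ (Ex e D).filter (fun a' => l a' < l a),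
            c a' * lam' (b + a') := by
          rw [hc b hb]
          refine Finset.sum_congr rfl fun a' ha' => ?_
          rw [Finset.mem_filter] at ha'
          rw [ih' (a' + b) (hadd ha'.1 hb) (by rw [hl]; omega), add_comm a' b]
        have s2 : lam' (b + a) = ∑ b' ∈ (Ex e D').filter (fun b' => l b' < l b),
            d b' * lam (a + b') := by
          rw [hd a ha]
          refine Finset.sum_congr rfl fun b' hb' => ?_
          rw [Finset.mem_filter] at hb'
          rw [ih' (a + b') (hadd ha hb'.1) (by rw [hl]; omega), add_comm b' a]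
        rw [s1, add_comm a b, s2]
        have s3 : ∀ a' ∈ (Ex e D).filter (fun a' => l a' < l a), c a' * lam' (b + a') =
            ∑ b' ∈ (Ex e D').filter (fun b' => l b' < l b), d b' * (c a' * lam (a' + b')) := by
          intro a' ha'
          rw [Finset.mem_filter] at ha'
          rw [hd a' ha'.1, Finset.mul_sum]
          refine Finset.sum_congr rfl fun b' hb' => ?_
          rw [Finset.mem_filter] at hb'
          rw [ih' (a' + b') (hadd ha'.1 hb'.1) (by rw [hl]; omega), add_comm b' a']
          ring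
        rw [Finset.sum_congr rfl s3, Finset.sum_comm]
        refine Finset.sum_congr rfl fun b' hb' => ?_
        rw [Finset.mem_filter] at hb'
        rw [← Finset.mul_sum, hc b' hb'.1]
      · exact h x (Finset.mem_sdiff.2 ⟨hx, hxS⟩)
  intro x hx
  exact key (l x) x hx rfl

/-- the extension by zero -/
def ez {M : ℕ} (f : ↥(Ex e M) → K) (x : Fin e → ℕ) : K := if h : x ∈ Ex e M then f ⟨x, h⟩ else 0

/-- PROOF. By `G3_unique` the restriction of `f` to `Ex e (D + D') \ SS A B` is injective on the set. -/
theorem G3_count [Fintype K] (l : (Fin e → ℕ) → ℕ) (hl : ∀ a b, l (a + b) = l a + l b) (D D' : ℕ)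
    (A B : Finset (Fin e → ℕ)) :
    {f : ↥(Ex e (D + D')) → K | gA l (ez f) D D' = A ∧ gA l (ez f) D' D = B}.ncard ≤
      Fintype.card K ^ (Ex e (D + D') \ SS A B).card := by
  classical
  have hf : {f : ↥(Ex e (D + D')) → K | gA l (ez f) D D' = A ∧ gA l (ez f) D' D = B}.ncard ≤
      (Set.univ : Set (↥(Ex e (D + D') \ SS A B) → K)).ncard := by
    refine Set.ncard_le_ncard_of_injOn
      (fun f => fun x : ↥(Ex e (D + D') \ SS A B) => f ⟨x.1, (Finset.mem_sdiff.1 x.2).1⟩)
      (fun f _ => Set.mem_univ _) ?_ Set.finite_univ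
    intro f hf g hg hfg
    have h1 := G3_unique l hl (ez f) (ez g) D D' A B hf.1 hg.2 (by
      intro x hx
      have hx1 := (Finset.mem_sdiff.1 hx).1
      have h2 := congrFun hfg ⟨x, hx⟩
      simp only at h2
      unfold ez
      rw [dif_pos hx1, dif_pos hx1]
      exact h2)
    funext x
    have h3 := h1 x.1 x.2
    unfold ez at h3
    rw [dif_pos x.2, dif_pos x.2] at h3
    exact h3
  refine hf.trans (le_of_eq ?_)
  rw [Set.ncard_univ, Nat.card_eq_fintype_card, Fintype.card_fun, Fintype.card_coe]

end Pool.Agent.MP_b197b4_ntV3
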