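import Pool.Agent.Lib.MP_b197b4_ntV3.GDefs
import Pool.Agent.Lib.MP_b197b4_ntV3.T2

/-!
# V3, leaf G4: compressions
-/

set_option autoImplicit false
set_option linter.unusedSectionVars false

noncomputable section

namespace Pool.Agent.MP_b197b4_ntV3

open scoped BigOperators

variable {e : ℕ}

private theorem G4_mem {i : Fin e} {A : Finset (Fin e → ℕ)} {a b : Fin e → ℕ} :
    b ∈ ln i A a ↔ b ∈ A ∧ ∀ j, j ≠ i → b j = a j := by
  unfold ln
  exact Finset.mem_filter

private theorem G4_mem_cp {i : Fin e} {D : ℕ} {A : Finset (Fin e → ℕ)} {a : Fin e → ℕ} :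
    a ∈ cp i D A ↔ ∑ j, a j ≤ D ∧ D - ∑ j, a j < (ln i A a).card := by
  unfold cp
  rw [Finset.mem_filter, mem_Ex]

private theorem G4_sum (i : Fin e) (a : Fin e → ℕ) (t : ℕ) :
    (∑ j, Function.update a i t j) + a i = (∑ j, a j) + t := by
  rw [Finset.sum_update_of_mem (Finset.mem_univ i), Finset.sum_eq_add_sum_sdiff_singleton_of_mem (Finset.mem_univ i) a]
  omega

private theorem G4_eq {i : Fin e} {a b : Fin e → ℕ} (h : ∀ j, j ≠ i → b j = a j) :
    b = Function.update a i (b i) := by
  funext j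
  by_cases hj : j = i
  · rw [hj, Function.update_self]
  · rw [Function.update_of_ne hj, h j hj]

private theorem G4_ln {i : Fin e} {A : Finset (Fin e → ℕ)} {a b : Fin e → ℕ} (h : ∀ j, j ≠ i → b j = a j) :
    ln i A b = ln i A a := by
  ext c
  rw [G4_mem, G4_mem]
  refine and_congr_right fun _ => forall_congr' fun j => imp_congr_right fun hj => ?_
  rw [h j hj]

private theorem G4_img (i : Fin e) (A : Finset (Fin e → ℕ)) (a : Fin e → ℕ) :
    ((ln i A a).image fun c => c i).card = (ln i A a).card := by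
  refine Finset.card_image_of_injOn ?_
  intro p hp q hq hpq
  have hp2 := (G4_mem.1 (Finset.mem_coe.1 hp)).2
  have hq2 := (G4_mem.1 (Finset.mem_coe.1 hq)).2
  funext j
  by_cases hj : j = i
  · rw [hj]
    exact hpq
  · rw [hp2 j hj, hq2 j hj]

private theorem G4_line (i : Fin e) (D : ℕ) {A : Finset (Fin e → ℕ)} (hA : A ⊆ Ex e D) {o : Fin e → ℕ}
    (ho : o i = 0) : (ln i (cp i D A) o).card = (ln i A o).card := by
  obtain ⟨m, hm⟩ : ∃ m : ℕ, m = (ln i A o).card := ⟨_, rfl⟩
  obtain ⟨s, hs⟩ : ∃ s : ℕ, s = ∑ j, o j := ⟨_, rfl⟩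
  have hsum : ∀ b : Fin e → ℕ, (∀ j, j ≠ i → b j = o j) → ∑ j, b j = s + b i := by
    intro b hb
    have h1 := G4_sum i o (b i)
    rw [← G4_eq hb, ho, ← hs] at h1
    omega
  have hle : m ≤ D + 1 - s := by
    rw [hm, ← G4_img, ← Finset.card_range (D + 1 - s)]
    refine Finset.card_le_card fun t ht => ?_
    obtain ⟨b, hb, rfl⟩ := Finset.mem_image.1 ht
    obtain ⟨hb1, hb2⟩ := G4_mem.1 hb
    have h1 := (mem_Ex b).1 (hA hb1)
    rw [hsum b hb2] at h1
    rw [Finset.mem_range]
    omega
  have himg : (ln i (cp i D A) o).image (fun c => c i) = Finset.Ico (D + 1 - s - m) (D + 1 - s) := by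
    ext t
    rw [Finset.mem_image, Finset.mem_Ico]
    constructor
    · rintro ⟨b, hb, rfl⟩
      obtain ⟨hb1, hb2⟩ := G4_mem.1 hb
      obtain ⟨h1, h2⟩ := G4_mem_cp.1 hb1
      rw [G4_ln hb2, ← hm] at h2
      rw [hsum b hb2] at h1 h2
      omega
    · rintro ⟨h1, h2⟩
      have hb2 : ∀ j, j ≠ i → Function.update o i t j = o j := fun j hj => Function.update_of_ne hj _ _
      have h3 := hsum _ hb2
      rw [Function.update_self] at h3
      refine ⟨Function.update o i t, G4_mem.2 ⟨G4_mem_cp.2 ?_, hb2⟩, Function.update_self ..⟩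
      rw [G4_ln hb2, ← hm, h3]
      omega
  rw [← G4_img, himg, Nat.card_Ico, ← hm]
  omega

private theorem G4_fib (i : Fin e) (A : Finset (Fin e → ℕ)) (T : Finset (Fin e → ℕ))
    (hT : ∀ a ∈ A, Function.update a i 0 ∈ T) (hT0 : ∀ o ∈ T, o i = 0) :
    A.card = ∑ o ∈ T, (ln i A o).card := by
  classical
  rw [Finset.card_eq_sum_card_fiberwise (f := fun a => Function.update a i 0) (t := T)
    (fun a ha => hT a (Finset.mem_coe.1 ha))]
  refine Finset.sum_congr rfl fun o ho => congrArg Finset.card ?_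
  ext b
  rw [Finset.mem_filter, G4_mem]
  refine and_congr_right fun _ => ?_
  constructor
  · intro h j hj
    rw [← h]
    exact (Function.update_of_ne hj _ _).symm
  · intro h
    funext j
    by_cases hj : j = i
    · rw [hj, hT0 o ho]
      exact Function.update_self ..
    · rw [← h j hj]
      exact Function.update_of_ne hj _ _

theorem cp_sub (i : Fin e) (D : ℕ) (A : Finset (Fin e → ℕ)) : cp i D A ⊆ Ex e D :=
  Finset.filter_subset _ _

theorem cp_mono (i : Fin e) (D : ℕ) {A A' : Finset (Fin e → ℕ)} (h : A ⊆ A') : cp i D A ⊆ cp i D A' := by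
  intro a ha
  obtain ⟨h1, h2⟩ := G4_mem_cp.1 ha
  refine G4_mem_cp.2 ⟨h1, h2.trans_le (Finset.card_le_card fun b hb => ?_)⟩
  obtain ⟨h3, h4⟩ := G4_mem.1 hb
  exact G4_mem.2 ⟨h h3, h4⟩

/-- PROOF. The line of `a` has `D - ∑_{j ≠ i} a j + 1` points in `Ex e D`. -/
theorem cp_Ex (i : Fin e) (D : ℕ) : cp i D (Ex e D) = Ex e D := by
  refine Finset.Subset.antisymm (cp_sub i D _) fun a ha => ?_
  have h1 := (mem_Ex a).1 ha
  refine G4_mem_cp.2 ⟨h1, ?_⟩
  have h2 : (Finset.range (D - ∑ j, a j + 1)).card ≤ (ln i (Ex e D) a).card := by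
    refine Finset.card_le_card_of_injOn (fun t => Function.update a i (a i + t)) ?_ ?_
    · intro t ht
      have ht1 := Finset.mem_range.1 (Finset.mem_coe.1 ht)
      refine Finset.mem_coe.2 (G4_mem.2 ⟨(mem_Ex _).2 ?_, fun j hj => Function.update_of_ne hj _ _⟩)
      have h3 := G4_sum i a (a i + t)
      change ∑ j, Function.update a i (a i + t) j ≤ D
      omega
    · intro t _ t' _ h
      have h3 := congrFun h i
      simp only [Function.update_self] at h3
      omega
  rw [Finset.card_range] at h2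
  omega

/-- PROOF. Let `o` = the restriction of `a` to the coordinates `≠ i`. On the line of `a` the points of `cp i D A` are the `m = (ln i A a).card` points with the largest `a i` (`m ≤ D - |o| + 1`). Sum over the lines
(`Finset.card_eq_sum_card_fiberwise` for the map `a ↦ Function.update a i 0`). -/
theorem cp_card (i : Fin e) (D : ℕ) {A : Finset (Fin e → ℕ)} (hA : A ⊆ Ex e D) : (cp i D A).card = A.card := by
  classical
  have h0 : ∀ o ∈ (A ∪ cp i D A).image (fun a => Function.update a i 0), o i = 0 := by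
    intro o ho
    obtain ⟨a, _, rfl⟩ := Finset.mem_image.1 ho
    exact Function.update_self ..
  rw [G4_fib i A _ (fun a ha => Finset.mem_image_of_mem _ (Finset.mem_union_left (cp i D A) ha)) h0,
    G4_fib i (cp i D A) _ (fun a ha => Finset.mem_image_of_mem _ (Finset.mem_union_right A ha)) h0]
  exact Finset.sum_congr rfl fun o ho => G4_line i D hA (h0 o ho)

end Pool.Agent.MP_b197b4_ntV3
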