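import Pool.Agent.Lib.MP_b197b4_ntV3.GDefs
import Pool.Agent.Lib.MP_b197b4_ntV3.T2

/-!
# V3, leaf G4b: compressions, sums
-/

set_option autoImplicit false
set_option linter.unusedSectionVars false

noncomputable section

namespace Pool.Agent.MP_b197b4_ntV3

open scoped BigOperators

variable {e : ℕ}

open scoped Pointwise in
/-- the sumset of two nonempty finite sets of numbers -/
private theorem G4b_sum {S T U : Finset ℕ} (hS : S.Nonempty) (hT : T.Nonempty)
    (h : ∀ u ∈ S, ∀ v ∈ T, u + v ∈ U) : S.card + T.card - 1 ≤ U.card := by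
  refine (cauchy_davenport_add_of_linearOrder_isCancelAdd hS hT).trans (Finset.card_le_card ?_)
  intro y hy
  obtain ⟨u, hu, v, hv, rfl⟩ := Finset.mem_add.1 hy
  exact h u hu v hv

/-- the coordinate `i` is injective on a line in the direction `i` -/
private theorem G4b_card (i : Fin e) (A : Finset (Fin e → ℕ)) (a : Fin e → ℕ) :
    ((ln i A a).image fun c => c i).card = (ln i A a).card := by
  refine Finset.card_image_of_injOn ?_
  intro p hp q hq hpq
  unfold ln at hp hq
  have hp2 := (Finset.mem_filter.1 (Finset.mem_coe.1 hp)).2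
  have hq2 := (Finset.mem_filter.1 (Finset.mem_coe.1 hq)).2
  funext j
  by_cases hj : j = i
  · rw [hj]
    exact hpq
  · rw [hp2 j hj, hq2 j hj]

/-- PROOF. `a ∈ cp i D A`, `b ∈ cp i D' B`: the lines have `m ≥ D - |a| + 1`, `m' ≥ D' - |b| + 1` points; `ln i (SS A B) (a + b)` contains the sums of the points of the two lines, at least `m + m' - 1` points
(`Finset.card_add_card_sub_one_le..` / the sumset of two nonempty finite sets of numbers; e.g. `min + B` and `A + max`), and `m + m' - 1 > D + D' - |a + b|`. -/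
theorem cp_add (i : Fin e) (D D' : ℕ) {A B : Finset (Fin e → ℕ)} (hA : A ⊆ Ex e D) (hB : B ⊆ Ex e D') :
    SS (cp i D A) (cp i D' B) ⊆ cp i (D + D') (SS A B) := by
  classical
  intro x hx
  unfold SS at hx
  obtain ⟨⟨a, b⟩, hab, rfl⟩ := Finset.mem_image.1 hx
  obtain ⟨ha, hb⟩ := Finset.mem_product.1 hab
  change a ∈ cp i D A at ha
  change b ∈ cp i D' B at hb
  change a + b ∈ cp i (D + D') (SS A B)
  unfold cp at ha hb
  obtain ⟨ha1, ha2⟩ := Finset.mem_filter.1 ha
  obtain ⟨hb1, hb2⟩ := Finset.mem_filter.1 hb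
  rw [mem_Ex] at ha1 hb1
  have hs : ∑ j, (a + b) j = ∑ j, a j + ∑ j, b j := by
    simp only [Pi.add_apply]
    exact Finset.sum_add_distrib
  unfold cp
  refine Finset.mem_filter.2 ⟨?_, ?_⟩
  · rw [mem_Ex, hs]
    omega
  · have hP := G4b_card i A a
    have hQ := G4b_card i B b
    have hPn : ((ln i A a).image fun c => c i).Nonempty := by
      rw [← Finset.card_pos, hP]
      omega
    have hQn : ((ln i B b).image fun c => c i).Nonempty := by
      rw [← Finset.card_pos, hQ]
      omega
    have h1 := G4b_sum (U := (ln i (SS A B) (a + b)).image fun c => c i) hPn hQn (by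
      intro u hu v hv
      obtain ⟨p, hp, rfl⟩ := Finset.mem_image.1 hu
      obtain ⟨q, hq, rfl⟩ := Finset.mem_image.1 hv
      unfold ln at hp hq
      obtain ⟨hp1, hp2⟩ := Finset.mem_filter.1 hp
      obtain ⟨hq1, hq2⟩ := Finset.mem_filter.1 hq
      refine Finset.mem_image.2 ⟨p + q, ?_, rfl⟩
      unfold ln SS
      refine Finset.mem_filter.2 ⟨Finset.mem_image.2 ⟨(p, q), Finset.mem_product.2 ⟨hp1, hq1⟩, rfl⟩,
        fun j hj => ?_⟩
      rw [Pi.add_apply, Pi.add_apply, hp2 j hj, hq2 j hj])
    have h3 : ((ln i (SS A B) (a + b)).image fun c => c i).card ≤ (ln i (SS A B) (a + b)).card :=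
      Finset.card_image_le
    rw [hP, hQ] at h1
    rw [hs]
    omega

end Pool.Agent.MP_b197b4_ntV3
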