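import Pool.Agent.Lib.MP_b197b4_ntV3.GDefs
import Pool.Agent.Lib.MP_b197b4_ntV3.T2

/-!
# V3, leaf G4c: compressions, weights
-/

set_option autoImplicit false
set_option linter.unusedSectionVars false

noncomputable section

namespace Pool.Agent.MP_b197b4_ntV3

open scoped BigOperators

variable {e : ℕ}

private theorem G4cNat (N : ℕ) (V : Finset ℕ) (hV : ∀ v ∈ V, v ≤ N) :
    ((Finset.range (N + 1)).filter (fun v => N - v < V.card)).card = V.card ∧
    ∑ v ∈ V, v + (((Finset.range (N + 1)).filter (fun v => N - v < V.card)) \ V).card ≤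
      ∑ v ∈ (Finset.range (N + 1)).filter (fun v => N - v < V.card), v := by
  have hm : V.card ≤ N + 1 := by
    have h1 : V ⊆ Finset.range (N + 1) := fun v hv => Finset.mem_range.2 (by have := hV v hv; omega)
    have h2 := Finset.card_le_card h1
    rwa [Finset.card_range] at h2
  have hI : (Finset.range (N + 1)).filter (fun v => N - v < V.card) = Finset.Ico (N + 1 - V.card) (N + 1) := by
    ext v
    rw [Finset.mem_filter, Finset.mem_range, Finset.mem_Ico]
    omega
  have hc : ((Finset.range (N + 1)).filter (fun v => N - v < V.card)).card = V.card := by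
    rw [hI, Nat.card_Ico]
    omega
  refine ⟨hc, ?_⟩
  obtain ⟨W, hW⟩ : ∃ W, W = (Finset.range (N + 1)).filter (fun v => N - v < V.card) := ⟨_, rfl⟩
  rw [← hW] at hc ⊢
  have h1 : ∑ v ∈ V ∩ W, v + ∑ v ∈ V \ W, v = ∑ v ∈ V, v := Finset.sum_inter_add_sum_sdiff V W _
  have h2 : ∑ v ∈ W ∩ V, v + ∑ v ∈ W \ V, v = ∑ v ∈ W, v := Finset.sum_inter_add_sum_sdiff W V _
  have h3 : (V \ W).card = (W \ V).card := by
    have h4 := Finset.card_inter_add_card_sdiff V W
    have h5 := Finset.card_inter_add_card_sdiff W V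
    rw [Finset.inter_comm] at h5
    omega
  have h6 : ∑ v ∈ V \ W, v ≤ (V \ W).card • (N - V.card) := by
    refine Finset.sum_le_card_nsmul _ _ _ fun v hv => ?_
    obtain ⟨hv1, hv2⟩ := Finset.mem_sdiff.1 hv
    rw [hW, Finset.mem_filter, Finset.mem_range] at hv2
    have := hV v hv1
    omega
  have h7 : (W \ V).card • (N - V.card + 1) ≤ ∑ v ∈ W \ V, v := by
    refine Finset.card_nsmul_le_sum _ _ _ fun v hv => ?_
    obtain ⟨hv1, hv2⟩ := Finset.mem_sdiff.1 hv
    rw [hW, Finset.mem_filter, Finset.mem_range] at hv1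
    by_cases h8 : V.card ≤ N
    · omega
    · exfalso
      apply hv2
      have h9 : V = Finset.range (N + 1) := by
        refine Finset.eq_of_subset_of_card_le (fun v hv => Finset.mem_range.2 (by have := hV v hv; omega)) ?_
        rw [Finset.card_range]
        omega
      rw [h9]
      exact Finset.mem_range.2 hv1.1
  rw [h3] at h6
  rw [Finset.inter_comm] at h2
  have h8 : (W \ V).card • (N - V.card + 1) = (W \ V).card • (N - V.card) + (W \ V).card := by
    rw [smul_eq_mul, smul_eq_mul, mul_add, mul_one]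
  omega

/-- the fibre -/
private def G4cF (i : Fin e) (A : Finset (Fin e → ℕ)) (c : Fin e → ℕ) : Finset (Fin e → ℕ) :=
  A.filter fun a => Function.update a i 0 = c

private theorem G4c_key (i : Fin e) (a b : Fin e → ℕ) :
    Function.update b i 0 = Function.update a i 0 ↔ ∀ j, j ≠ i → b j = a j := by
  constructor
  · intro h j hj
    have h1 := congrFun h j
    rwa [Function.update_of_ne hj, Function.update_of_ne hj] at h1
  · intro h
    funext j
    by_cases hj : j = i
    · subst hj
      rw [Function.update_self, Function.update_self]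
    · rw [Function.update_of_ne hj, Function.update_of_ne hj, h j hj]

private theorem G4c_sum (i : Fin e) (a : Fin e → ℕ) : ∑ j, a j = ∑ j, Function.update a i 0 j + a i := by
  rw [← Finset.add_sum_erase _ _ (Finset.mem_univ i), ← Finset.add_sum_erase _ (Function.update a i 0) (Finset.mem_univ i),
    Function.update_self, zero_add, add_comm]
  congr 1
  refine Finset.sum_congr rfl fun j hj => ?_
  rw [Function.update_of_ne (Finset.ne_of_mem_erase hj)]

private theorem G4c_ln (i : Fin e) (A : Finset (Fin e → ℕ)) (a : Fin e → ℕ) :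
    ln i A a = G4cF i A (Function.update a i 0) := by
  unfold ln G4cF
  refine Finset.filter_congr fun b _ => ?_
  exact (G4c_key i a b).symm

private theorem G4c_inj (i : Fin e) (A : Finset (Fin e → ℕ)) (c : Fin e → ℕ) :
    Set.InjOn (fun a : Fin e → ℕ => a i) (G4cF i A c : Set (Fin e → ℕ)) := by
  intro a ha b hb h
  have ha' := (Finset.mem_filter.1 ha).2
  have hb' := (Finset.mem_filter.1 hb).2
  have h1 := (G4c_key i a b).1 (hb'.trans ha'.symm)
  funext j
  by_cases hj : j = i
  · rw [hj]
    exact h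
  · exact (h1 j hj).symm

/-- the weight of a fibre -/
private theorem G4c_wt (i : Fin e) (A : Finset (Fin e → ℕ)) (c : Fin e → ℕ) :
    ∑ a ∈ G4cF i A c, ∑ j, a j = ((G4cF i A c).image fun a => a i).card * ∑ j, c j +
      ∑ v ∈ (G4cF i A c).image (fun a => a i), v := by
  rw [Finset.sum_image (G4c_inj i A c), Finset.card_image_of_injOn (G4c_inj i A c), ← smul_eq_mul, ← Finset.sum_const,
    ← Finset.sum_add_distrib]
  refine Finset.sum_congr rfl fun a ha => ?_
  rw [G4c_sum i a, (Finset.mem_filter.1 ha).2]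

/-- the fibre of the compression -/
private theorem G4c_cp (i : Fin e) (D : ℕ) {A : Finset (Fin e → ℕ)} {a0 : Fin e → ℕ} (h0 : a0 ∈ Ex e D) :
    (G4cF i (cp i D A) (Function.update a0 i 0)).image (fun a => a i) =
      (Finset.range (D - ∑ j, Function.update a0 i 0 j + 1)).filter
        fun v => D - ∑ j, Function.update a0 i 0 j - v < ((G4cF i A (Function.update a0 i 0)).image fun a => a i).card := by
  have hs := G4c_sum i a0
  have h0' := (mem_Ex a0).1 h0
  ext v
  rw [Finset.mem_image, Finset.mem_filter, Finset.mem_range, Finset.card_image_of_injOn (G4c_inj i A _)]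
  constructor
  · rintro ⟨a, ha, rfl⟩
    obtain ⟨h1, h2⟩ := Finset.mem_filter.1 ha
    obtain ⟨h3, h4⟩ := Finset.mem_filter.1 h1
    rw [G4c_ln, h2] at h4
    have h5 := G4c_sum i a
    rw [h2] at h5
    have h6 := (mem_Ex a).1 h3
    constructor
    · omega
    · have h7 : D - ∑ j, Function.update a0 i 0 j - a i = D - ∑ j, a j := by omega
      rw [h7]
      exact h4
  · rintro ⟨h1, h2⟩
    have hu : Function.update (Function.update a0 i v) i 0 = Function.update a0 i 0 := Function.update_idem _ _ _
    have h5 := G4c_sum i (Function.update a0 i v)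
    rw [hu, Function.update_self] at h5
    refine ⟨Function.update a0 i v, Finset.mem_filter.2 ⟨Finset.mem_filter.2 ⟨(mem_Ex _).2 (by omega), ?_⟩, hu⟩,
      Function.update_self _ _ _⟩
    rw [G4c_ln, hu]
    have h7 : D - ∑ j, Function.update a0 i v j = D - ∑ j, Function.update a0 i 0 j - v := by omega
    rw [h7]
    exact h2

private theorem G4c_fib (i : Fin e) (D : ℕ) {A : Finset (Fin e → ℕ)} (hA : A ⊆ Ex e D) {a0 : Fin e → ℕ} (h0 : a0 ∈ Ex e D) :
    ∑ a ∈ G4cF i A (Function.update a0 i 0), ∑ j, a j +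
      (((G4cF i (cp i D A) (Function.update a0 i 0)).image fun a => a i) \
        ((G4cF i A (Function.update a0 i 0)).image fun a => a i)).card ≤
      ∑ a ∈ G4cF i (cp i D A) (Function.update a0 i 0), ∑ j, a j := by
  have hV : ∀ v ∈ (G4cF i A (Function.update a0 i 0)).image (fun a => a i), v ≤ D - ∑ j, Function.update a0 i 0 j := by
    intro v hv
    obtain ⟨a, ha, rfl⟩ := Finset.mem_image.1 hv
    obtain ⟨h1, h2⟩ := Finset.mem_filter.1 ha
    have h5 := G4c_sum i a
    rw [h2] at h5
    have h6 := (mem_Ex a).1 (hA h1)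
    omega
  obtain ⟨h1, h2⟩ := G4cNat _ _ hV
  rw [G4c_wt, G4c_wt, G4c_cp i D h0, h1]
  omega

private theorem G4c_tot (i : Fin e) (D : ℕ) (B : Finset (Fin e → ℕ)) (hB : B ⊆ Ex e D) :
    wt B = ∑ c ∈ (Ex e D).image (fun a => Function.update a i 0), ∑ a ∈ G4cF i B c, ∑ j, a j := by
  unfold wt
  exact (Finset.sum_fiberwise_of_maps_to (fun a ha => Finset.mem_image_of_mem _ (hB ha)) _).symm

/-- PROOF. On each line the sum of the `m` largest possible values of `a i` is at least the sum of the values of the points of `A`. -/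
theorem cp_wt (i : Fin e) (D : ℕ) {A : Finset (Fin e → ℕ)} (hA : A ⊆ Ex e D) : wt A ≤ wt (cp i D A) := by
  rw [G4c_tot i D A hA, G4c_tot i D (cp i D A) (Finset.filter_subset _ _)]
  refine Finset.sum_le_sum fun c hc => ?_
  obtain ⟨a0, h0, rfl⟩ := Finset.mem_image.1 hc
  exact le_trans (Nat.le_add_right _ _) (G4c_fib i D hA h0)

/-- PROOF. If `a ∈ A`, `a + e_i ∈ Ex e D`, `a + e_i ∉ A` for some `a`, the points of `A` on this line are not the last `m` ones, so the sum of their values is less than that of the last `m` points. -/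
theorem cp_wt_lt (i : Fin e) (D : ℕ) {A : Finset (Fin e → ℕ)} (hA : A ⊆ Ex e D) {a : Fin e → ℕ} (ha : a ∈ A)
    (h1 : a + Pi.single i 1 ∈ Ex e D) (h2 : a + Pi.single i 1 ∉ A) : wt A < wt (cp i D A) := by
  rw [G4c_tot i D A hA, G4c_tot i D (cp i D A) (Finset.filter_subset _ _)]
  refine Finset.sum_lt_sum (fun c hc => ?_) ⟨Function.update a i 0, Finset.mem_image_of_mem _ (hA ha), ?_⟩
  · obtain ⟨a0, h0, rfl⟩ := Finset.mem_image.1 hc
    exact le_trans (Nat.le_add_right _ _) (G4c_fib i D hA h0)
  refine lt_of_lt_of_le ?_ (G4c_fib i D hA (hA ha))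
  refine Nat.lt_add_of_pos_right (Finset.card_pos.2 ?_)
  have hV : ∀ v ∈ (G4cF i A (Function.update a i 0)).image (fun a => a i), v ≤ D - ∑ j, Function.update a i 0 j := by
    intro v hv
    obtain ⟨b, hb, rfl⟩ := Finset.mem_image.1 hv
    obtain ⟨h3, h4⟩ := Finset.mem_filter.1 hb
    have h5 := G4c_sum i b
    rw [h4] at h5
    have h6 := (mem_Ex b).1 (hA h3)
    omega
  obtain ⟨h3, _⟩ := G4cNat _ _ hV
  by_contra hne
  have hsub : (G4cF i (cp i D A) (Function.update a i 0)).image (fun a => a i) ⊆
      (G4cF i A (Function.update a i 0)).image (fun a => a i) := by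
    rw [← Finset.sdiff_eq_empty_iff_subset]
    exact Finset.not_nonempty_iff_eq_empty.1 hne
  rw [G4c_cp i D (hA ha)] at hsub
  have heq := Finset.eq_of_subset_of_card_le hsub (le_of_eq h3.symm)
  have hai : a i ∈ (G4cF i A (Function.update a i 0)).image (fun a => a i) :=
    Finset.mem_image.2 ⟨a, Finset.mem_filter.2 ⟨ha, rfl⟩, rfl⟩
  have hai' := hai
  rw [← heq, Finset.mem_filter, Finset.mem_range] at hai'
  have hup : Function.update (a + Pi.single i 1) i 0 = Function.update a i 0 := by
    rw [G4c_key]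
    intro j hj
    rw [Pi.add_apply, Pi.single_eq_of_ne hj, add_zero]
  have h5 := G4c_sum i (a + Pi.single i 1)
  rw [hup, Pi.add_apply, Pi.single_eq_same] at h5
  have h6 := (mem_Ex _).1 h1
  have hai2 : a i + 1 ∈ (G4cF i A (Function.update a i 0)).image (fun a => a i) := by
    rw [← heq, Finset.mem_filter, Finset.mem_range]
    omega
  obtain ⟨b, hb, hbi⟩ := Finset.mem_image.1 hai2
  obtain ⟨h7, h8⟩ := Finset.mem_filter.1 hb
  apply h2
  have h9 : b = a + Pi.single i 1 := by
    funext j
    by_cases hj : j = i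
    · rw [hj, Pi.add_apply, Pi.single_eq_same]
      exact hbi
    · rw [Pi.add_apply, Pi.single_eq_of_ne hj, add_zero]
      exact (G4c_key i a b).1 h8 j hj
  rw [← h9]
  exact h7

end Pool.Agent.MP_b197b4_ntV3
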