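import Pool.Agent.Lib.MP_b197b4_ntV3.G4
import Pool.Agent.Lib.MP_b197b4_ntV3.G4b
import Pool.Agent.Lib.MP_b197b4_ntV3.G4c

/-!
# V3, leaf G5: reduction to sets closed upwards
-/

set_option autoImplicit false
set_option linter.unusedSectionVars false

noncomputable section

namespace Pool.Agent.MP_b197b4_ntV3

open scoped BigOperators

variable {e : ℕ}

/-- PROOF. If `UpC` fails: `a ∈ A`, `a ≤ b ∈ Ex e D`, `b ∉ A`; go from `a` to `b` by steps `+ e_i`. -/
theorem UpC_of_step (D : ℕ) {A : Finset (Fin e → ℕ)} (hA : A ⊆ Ex e D)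
    (h : ∀ a ∈ A, ∀ i, a + Pi.single i 1 ∈ Ex e D → a + Pi.single i 1 ∈ A) : UpC D A := by
  have key : ∀ n : ℕ, ∀ a ∈ A, ∀ b ∈ Ex e D, (∀ j, a j ≤ b j) → ∑ j, (b j - a j) = n → b ∈ A := by
    intro n
    induction n with
    | zero =>
      intro a ha b hb hab hs
      have h1 : ∀ j, b j - a j = 0 := fun j => (Finset.sum_eq_zero_iff.1 hs) j (Finset.mem_univ j)
      have h2 : b = a := by
        funext j
        have := h1 j
        have := hab j
        omega
      rw [h2]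
      exact ha
    | succ n ih =>
      intro a ha b hb hab hs
      obtain ⟨i, hi⟩ : ∃ i, a i < b i := by
        by_contra hcon
        push Not at hcon
        have : ∑ j, (b j - a j) = 0 := Finset.sum_eq_zero fun j _ => Nat.sub_eq_zero_of_le (hcon j)
        omega
      have h3 : ∀ j, (a + Pi.single i 1 : Fin e → ℕ) j ≤ b j := by
        intro j
        rw [Pi.add_apply]
        by_cases hj : j = i
        · subst hj
          rw [Pi.single_eq_same]
          exact hi
        · rw [Pi.single_eq_of_ne hj, add_zero]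
          exact hab j
      have h4 : a + Pi.single i 1 ∈ Ex e D := by
        rw [mem_Ex]
        exact (Finset.sum_le_sum fun j _ => h3 j).trans ((mem_Ex b).1 hb)
      refine ih (a + Pi.single i 1) (h a ha i h4) b hb h3 ?_
      have h5 : ∑ j, (b j - a j) = ∑ j, b j - ∑ j, a j := Finset.sum_tsub_distrib _ fun j _ => hab j
      have h6 : ∑ j, (b j - (a + Pi.single i 1 : Fin e → ℕ) j) =
          ∑ j, b j - ∑ j, (a + Pi.single i 1 : Fin e → ℕ) j := Finset.sum_tsub_distrib _ fun j _ => h3 j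
      have h7 : ∑ j, (a + Pi.single i 1 : Fin e → ℕ) j = ∑ j, a j + 1 := by
        simp only [Pi.add_apply]
        rw [Finset.sum_add_distrib]
        congr 1
        simp
      rw [h6, h7]
      omega
  exact fun a ha b hb hab => key _ a ha b hb hab rfl

/-- PROOF. The finite set of the pairs `(A', B')` with `A' ⊆ Ex e (D' + C)`, `B' ⊆ Ex e D'`, `A'.card = A.card`, `B'.card = B.card`, `(SS A' B').card ≤ (SS A B).card`, `SS B' (Ex e C) ⊆ A'` contains `(A, B)`; take a pair with the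
largest `wt A' + wt B'` (`Finset.exists_max_image`). It is compressed: otherwise (`UpC_of_step`) `cp_wt_lt`, `cp_wt` for some `i` make the weight of `(cp i (D'+C) A', cp i D' B')` larger, and this pair is in the set: `cp_card`,
`cp_add` and `cp_card` for `SS A' B' ⊆ Ex e (D' + C + D')`; `SS (cp B') (Ex e C) = SS (cp B') (cp (Ex e C)) ⊆ cp (SS B' (Ex e C)) ⊆ cp A'` (`cp_Ex`, `cp_add`, `cp_mono`). -/
theorem G5_main (D' C : ℕ) {A B : Finset (Fin e → ℕ)} (hA : A ⊆ Ex e (D' + C)) (hB : B ⊆ Ex e D')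
    (hAB : SS B (Ex e C) ⊆ A) :
    ∃ A' B' : Finset (Fin e → ℕ), A' ⊆ Ex e (D' + C) ∧ B' ⊆ Ex e D' ∧ A'.card = A.card ∧ B'.card = B.card ∧
      (SS A' B').card ≤ (SS A B).card ∧ SS B' (Ex e C) ⊆ A' ∧ UpC (D' + C) A' ∧ UpC D' B' := by
  classical
  obtain ⟨P, hP⟩ : ∃ P : Finset (Finset (Fin e → ℕ) × Finset (Fin e → ℕ)),
      ∀ p, p ∈ P ↔ ((p.1 ⊆ Ex e (D' + C) ∧ p.2 ⊆ Ex e D') ∧ (p.1.card = A.card ∧ p.2.card = B.card ∧
        (SS p.1 p.2).card ≤ (SS A B).card ∧ SS p.2 (Ex e C) ⊆ p.1)) := by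
    refine ⟨((Ex e (D' + C)).powerset ×ˢ (Ex e D').powerset).filter fun p => (p.1.card = A.card ∧ p.2.card = B.card ∧
        (SS p.1 p.2).card ≤ (SS A B).card ∧ SS p.2 (Ex e C) ⊆ p.1), fun p => ?_⟩
    rw [Finset.mem_filter, Finset.mem_product, Finset.mem_powerset, Finset.mem_powerset]
  obtain ⟨⟨A', B'⟩, hm, hmax⟩ := Finset.exists_max_image P (fun p => wt p.1 + wt p.2)
    ⟨(A, B), (hP _).2 ⟨⟨hA, hB⟩, rfl, rfl, le_rfl, hAB⟩⟩
  obtain ⟨⟨hA', hB'⟩, c1, c2, c3, c4⟩ := (hP _).1 hm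
  simp only at hA' hB' c1 c2 c3 c4
  have hSS : SS A' B' ⊆ Ex e (D' + C + D') := by
    intro x hx
    unfold SS at hx
    rw [Finset.mem_image] at hx
    obtain ⟨⟨u, v⟩, huv, rfl⟩ := hx
    rw [Finset.mem_product] at huv
    rw [mem_Ex]
    have h1 := (mem_Ex u).1 (hA' huv.1)
    have h2 := (mem_Ex v).1 (hB' huv.2)
    simp only [Pi.add_apply]
    rw [Finset.sum_add_distrib]
    omega
  have hin : ∀ i : Fin e, (cp i (D' + C) A', cp i D' B') ∈ P := by
    intro i
    refine (hP _).2 ⟨⟨cp_sub _ _ _, cp_sub _ _ _⟩, ?_, ?_, ?_, ?_⟩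
    · exact (cp_card i (D' + C) hA').trans c1
    · exact (cp_card i D' hB').trans c2
    · refine (Finset.card_le_card (cp_add i (D' + C) D' hA' hB')).trans ?_
      rw [cp_card i (D' + C + D') hSS]
      exact c3
    · have h1 := cp_add i D' C hB' (Finset.Subset.refl (Ex e C))
      rw [cp_Ex] at h1
      exact h1.trans (cp_mono i (D' + C) c4)
  have hle : ∀ i : Fin e, wt (cp i (D' + C) A') + wt (cp i D' B') ≤ wt A' + wt B' := fun i =>
    hmax _ (hin i)
  refine ⟨A', B', hA', hB', c1, c2, c3, c4, ?_, ?_⟩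
  · refine UpC_of_step (D' + C) hA' fun a ha i h1 => ?_
    by_contra h2
    have h3 := cp_wt_lt i (D' + C) hA' ha h1 h2
    have h4 := cp_wt i D' hB'
    have h5 := hle i
    omega
  · refine UpC_of_step D' hB' fun a ha i h1 => ?_
    by_contra h2
    have h3 := cp_wt_lt i D' hB' ha h1 h2
    have h4 := cp_wt i (D' + C) hA'
    have h5 := hle i
    omega

end Pool.Agent.MP_b197b4_ntV3
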