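import Pool.Agent.Lib.MP_b197b4_ntV3.GDefs
import Pool.Agent.Lib.MP_b197b4_ntV3.T2

/-!
# V3, leaf G6: the top layers of a set closed downwards are small
-/

set_option autoImplicit false
set_option linter.unusedSectionVars false

noncomputable section

namespace Pool.Agent.MP_b197b4_ntV3

open scoped BigOperators

variable {e : ℕ}

/-- PROOF. `h = D' / e`. For `s ∈ S`, `D' < |s|` (so `e ≥ 1`) there is `i` with `h ≤ s i` (`Finset.exists_le_of_sum_le`), and `s - m e_i ∈ S` for `1 ≤ m ≤ h`. The map `(s, m) ↦ (i, |s| - D' - 1, s - m e_i)` from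
`{s ∈ S | D' < |s|} × {1..h}` to `Fin e × Fin C × S` is injective (`|s| = D' + 1 + second`, `m = |s| - |s - m e_i|`). -/
theorem G6_layers (D' C : ℕ) {S : Finset (Fin e → ℕ)} (hS : S ⊆ Ex e (D' + C))
    (hd : ∀ s ∈ S, ∀ t : Fin e → ℕ, (∀ j, t j ≤ s j) → t ∈ S) :
    (D' / e) * (S.filter fun s => D' < ∑ j, s j).card ≤ e * C * S.card := by
  classical
  rcases Nat.eq_zero_or_pos e with he | he
  · subst he
    rw [Nat.div_zero, zero_mul]
    exact Nat.zero_le _
  have hex : ∀ s : Fin e → ℕ, ∃ i : Fin e, D' < ∑ j, s j → D' / e < s i := by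
    intro s
    by_cases h : D' < ∑ j, s j
    · by_contra hn
      push Not at hn
      have h1 : ∀ i, s i ≤ D' / e := fun i => (hn i).2
      have h2 : ∑ j, s j ≤ ∑ _j : Fin e, D' / e := Finset.sum_le_sum fun i _ => h1 i
      rw [Finset.sum_const, Finset.card_univ, Fintype.card_fin, smul_eq_mul] at h2
      have h3 : e * (D' / e) ≤ D' := Nat.mul_div_le D' e
      omega
    · exact ⟨⟨0, he⟩, fun h' => absurd h' h⟩
  choose ix hix using hex
  have key : ((Finset.range (D' / e)) ×ˢ (S.filter fun s => D' < ∑ j, s j)).card ≤
      ((Finset.univ : Finset (Fin e)) ×ˢ ((Finset.range C) ×ˢ S)).card := by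
    refine Finset.card_le_card_of_injOn
      (fun p => (ix p.2, ∑ j, p.2 j - D' - 1, Function.update p.2 (ix p.2) (p.2 (ix p.2) - (p.1 + 1)))) ?_ ?_
    · rintro ⟨m, s⟩ hp
      rw [Finset.mem_coe, Finset.mem_product, Finset.mem_range, Finset.mem_filter] at hp
      obtain ⟨-, hs, hgt⟩ := hp
      have hle : ∑ j, s j ≤ D' + C := (Finset.mem_filter.1 (hS hs)).2
      dsimp only at hle hs hgt ⊢
      rw [Finset.mem_coe, Finset.mem_product, Finset.mem_product, Finset.mem_range]
      refine ⟨Finset.mem_univ _, ?_, hd s hs _ fun j => ?_⟩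
      · dsimp only
        omega
      · dsimp only
        by_cases hj : j = ix s
        · subst hj
          rw [Function.update_self]
          exact Nat.sub_le _ _
        · rw [Function.update_of_ne hj]
    · rintro ⟨m, s⟩ hp ⟨m', s'⟩ hp' heq
      rw [Finset.mem_coe, Finset.mem_product, Finset.mem_range, Finset.mem_filter] at hp hp'
      obtain ⟨hm, hs, hgt⟩ := hp
      obtain ⟨hm', hs', hgt'⟩ := hp'
      dsimp only at hm hs hgt hm' hs' hgt' heq
      rw [Prod.mk.injEq, Prod.mk.injEq] at heq
      obtain ⟨h1, h2, h3⟩ := heq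
      have hi := hix s hgt
      have hi' := hix s' hgt'
      have hsum : ∑ j, s j = ∑ j, s' j := by omega
      have hne : ∀ j, j ≠ ix s → s j = s' j := by
        intro j hj
        have := congrFun h3 j
        rwa [Function.update_of_ne hj, Function.update_of_ne (by rw [← h1]; exact hj)] at this
      have hii : s (ix s) = s' (ix s) := by
        have e1 := Finset.add_sum_erase Finset.univ s (Finset.mem_univ (ix s))
        have e2 := Finset.add_sum_erase Finset.univ s' (Finset.mem_univ (ix s))
        have e3 : ∑ j ∈ Finset.univ.erase (ix s), s j = ∑ j ∈ Finset.univ.erase (ix s), s' j :=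
          Finset.sum_congr rfl fun j hj => hne j (Finset.ne_of_mem_erase hj)
        omega
      have hss : s = s' := by
        funext j
        by_cases hj : j = ix s
        · rw [hj]
          exact hii
        · exact hne j hj
      subst hss
      have h4 := congrFun h3 (ix s)
      rw [Function.update_self, Function.update_self] at h4
      have hmm : m = m' := by omega
      rw [hmm]
  rw [Finset.card_product, Finset.card_product, Finset.card_product, Finset.card_range,
    Finset.card_range, Finset.card_univ, Fintype.card_fin, ← mul_assoc] at key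
  exact key

end Pool.Agent.MP_b197b4_ntV3
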