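import Pool.Agent.Lib.MP_b197b4_ntV3.G7a
import Pool.Agent.Lib.MP_b197b4_ntV3.G5
import Pool.Agent.Lib.MP_b197b4_ntV3.G6

/-!
# V3, leaf G7: the inequality for lattice points
-/

set_option autoImplicit false
set_option linter.unusedSectionVars false

noncomputable section

namespace Pool.Agent.MP_b197b4_ntV3

open scoped BigOperators

variable {e : ℕ}

private theorem G7_mem (D : ℕ) (a : Fin e → ℕ) : a ∈ Ex e D ↔ ∑ j, a j ≤ D := by
  unfold Ex
  rw [Finset.mem_filter, Fintype.mem_piFinset]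
  refine ⟨fun h => h.2, fun h => ⟨fun i => ?_, h⟩⟩
  have h1 : a i ≤ ∑ j, a j := Finset.single_le_sum (f := a) (fun _ _ => Nat.zero_le _) (Finset.mem_univ i)
  rw [Finset.mem_range]
  omega

private theorem G7_down {D : ℕ} {A : Finset (Fin e → ℕ)} (hA : UpC D A) :
    ∀ s ∈ Ex e D \ A, ∀ t : Fin e → ℕ, (∀ j, t j ≤ s j) → t ∈ Ex e D \ A := by
  intro s hs t ht
  rw [Finset.mem_sdiff] at hs ⊢
  refine ⟨?_, fun h => hs.2 (hA t h s hs.1 ht)⟩
  rw [G7_mem]
  exact (Finset.sum_le_sum fun j _ => ht j).trans ((G7_mem _ _).1 hs.1)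

/-- PROOF. `G7_count`; `r` = the common cardinality `≥ 1`. `G6_layers` for `S = Ex e (D'+C) \ A` gives `(D' / e) S'' ≤ e C r`; for `T = Ex e D' \ B ⊆ Ex e ((D' - 1) + 1)` it gives `((D'-1) / e) T'' ≤ e r`. Choose `D0` with
`(D0 - 1) / e > 2 ^ e * (Ex e C).card * (e * C + e)`: then `2 ^ e * (Ex e C).card * (S'' + T'') < r`. -/
theorem G7_up (he : 1 ≤ e) (C : ℕ) (heC : e ≤ C) : ∃ D0, ∀ D', D0 ≤ D' → ∀ A B : Finset (Fin e → ℕ),
    A ⊆ Ex e (D' + C) → B ⊆ Ex e D' → SS B (Ex e C) ⊆ A → UpC (D' + C) A → UpC D' B →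
    (Ex e (D' + C) \ A).card = (Ex e D' \ B).card → (Ex e D' \ B).Nonempty →
    (Ex e (D' + C + D') \ SS A B).card < (2 ^ e + 1) * (Ex e D' \ B).card := by
  refine ⟨e * (2 ^ e * (Ex e C).card * (e * C + e) + 1) + 1, fun D' hD' A B hA hB hAB hAu hBu hcard hne => ?_⟩
  have h1 := G7_count D' C heC hA hB hAB hAu hBu
  have hS := G6_layers D' C (S := Ex e (D' + C) \ A) Finset.sdiff_subset (G7_down hAu)
  have hD1 : D' - 1 + 1 = D' := by omega
  have hT := G6_layers (D' - 1) 1 (S := Ex e D' \ B) (by rw [hD1]; exact Finset.sdiff_subset) (G7_down hBu)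
  have hr : 0 < (Ex e D' \ B).card := Finset.card_pos.2 hne
  have hTT : ((Ex e D' \ B).filter fun s => ∑ j, s j = D').card ≤ ((Ex e D' \ B).filter fun s => D' - 1 < ∑ j, s j).card := by
    refine Finset.card_le_card fun s hs => ?_
    rw [Finset.mem_filter] at hs ⊢
    exact ⟨hs.1, by omega⟩
  have hh : 2 ^ e * (Ex e C).card * (e * C + e) + 1 ≤ (D' - 1) / e := by
    rw [Nat.le_div_iff_mul_le (by omega)]
    have h2 : (2 ^ e * (Ex e C).card * (e * C + e) + 1) * e = e * (2 ^ e * (Ex e C).card * (e * C + e) + 1) := Nat.mul_comm _ _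
    omega
  have hh2 : (D' - 1) / e ≤ D' / e := Nat.div_le_div_right (by omega)
  rw [hcard] at hS
  generalize ((Ex e D' \ B).filter fun s => ∑ j, s j = D').card = T0 at h1 hTT
  generalize ((Ex e D' \ B).filter fun s => D' - 1 < ∑ j, s j).card = T1 at hT hTT
  generalize ((Ex e (D' + C) \ A).filter fun s => D' < ∑ j, s j).card = S1 at h1 hS
  generalize (Ex e D' \ B).card = r at *
  generalize (D' - 1) / e = h at *
  generalize D' / e = h' at *
  obtain ⟨K, hK⟩ : ∃ K : ℕ, K = 2 ^ e * (Ex e C).card := ⟨_, rfl⟩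
  rw [← hK] at h1 hh
  have h2 : h * (S1 + T0) ≤ (e * C + e) * r := by
    calc h * (S1 + T0) = h * S1 + h * T0 := Nat.mul_add _ _ _
      _ ≤ h' * S1 + h * T1 := Nat.add_le_add (Nat.mul_le_mul_right _ hh2) (Nat.mul_le_mul_left _ hTT)
      _ ≤ e * C * r + e * 1 * r := Nat.add_le_add hS hT
      _ = (e * C + e) * r := by ring
  have h3 : K * (S1 + T0) < r := by
    by_contra hcon
    push Not at hcon
    have h4 : h * r ≤ K * (e * C + e) * r := by
      calc h * r ≤ h * (K * (S1 + T0)) := Nat.mul_le_mul_left _ hcon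
        _ = K * (h * (S1 + T0)) := by ring
        _ ≤ K * ((e * C + e) * r) := Nat.mul_le_mul_left _ h2
        _ = K * (e * C + e) * r := by ring
    have h5 : (K * (e * C + e) + 1) * r ≤ h * r := Nat.mul_le_mul_right _ hh
    have h6 : (K * (e * C + e) + 1) * r = K * (e * C + e) * r + r := by ring
    omega
  have h4 : (2 ^ e + 1) * r = 2 ^ e * r + r := by ring
  rw [h4]
  omega

/-- PROOF. `G5_main` and `G7_up` (cardinalities of the complements in `Ex`; `SS A B ⊆ Ex e (D'+C+D')`). -/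
theorem G7_main (he : 1 ≤ e) (C : ℕ) (heC : e ≤ C) : ∃ D0, ∀ D', D0 ≤ D' → ∀ A B : Finset (Fin e → ℕ),
    A ⊆ Ex e (D' + C) → B ⊆ Ex e D' → SS B (Ex e C) ⊆ A →
    (Ex e (D' + C) \ A).card = (Ex e D' \ B).card → (Ex e D' \ B).Nonempty →
    (Ex e (D' + C + D') \ SS A B).card < (2 ^ e + 1) * (Ex e D' \ B).card := by
  obtain ⟨D0, hD0⟩ := G7_up he C heC
  refine ⟨D0, fun D' hD' A B hA hB hAB hcard hne => ?_⟩
  obtain ⟨A', B', hA', hB', hcA, hcB, hSS, hAB', hAu, hBu⟩ := G5_main D' C hA hB hAB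
  have e1 : (Ex e (D' + C) \ A').card = (Ex e (D' + C) \ A).card := by
    rw [Finset.card_sdiff_of_subset hA', Finset.card_sdiff_of_subset hA, hcA]
  have e2 : (Ex e D' \ B').card = (Ex e D' \ B).card := by
    rw [Finset.card_sdiff_of_subset hB', Finset.card_sdiff_of_subset hB, hcB]
  have hne' : (Ex e D' \ B').Nonempty := by
    rw [← Finset.card_pos, e2]
    exact Finset.card_pos.2 hne
  have h1 := hD0 D' hD' A' B' hA' hB' hAB' hAu hBu (by rw [e1, e2, hcard]) hne'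
  rw [e2] at h1
  refine lt_of_le_of_lt ?_ h1
  have hsub : ∀ A B : Finset (Fin e → ℕ), A ⊆ Ex e (D' + C) → B ⊆ Ex e D' → SS A B ⊆ Ex e (D' + C + D') := by
    intro A B hA hB x hx
    unfold SS at hx
    obtain ⟨p, hp, rfl⟩ := Finset.mem_image.1 hx
    rw [Finset.mem_product] at hp
    have h2 := (G7_mem _ _).1 (hA hp.1)
    have h3 := (G7_mem _ _).1 (hB hp.2)
    rw [G7_mem]
    have h4 : ∑ j, (p.1 + p.2) j = ∑ j, p.1 j + ∑ j, p.2 j := by
      simp only [Pi.add_apply, Finset.sum_add_distrib]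
    omega
  rw [Finset.card_sdiff_of_subset (hsub A B hA hB), Finset.card_sdiff_of_subset (hsub A' B' hA' hB')]
  omega

end Pool.Agent.MP_b197b4_ntV3
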