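import Pool.Agent.Lib.MP_b197b4_ntV3.GDefs
import Pool.Agent.Lib.MP_b197b4_ntV3.T2

/-!
# V3, leaf G7a: the inequality for lattice points, counting
-/

set_option autoImplicit false
set_option linter.unusedSectionVars false

noncomputable section

namespace Pool.Agent.MP_b197b4_ntV3

open scoped BigOperators

variable {e : ℕ}

private theorem G7a_mem {D : ℕ} {a : Fin e → ℕ} : a ∈ Ex e D ↔ ∑ j, a j ≤ D := by
  unfold Ex
  rw [Finset.mem_filter, Fintype.mem_piFinset]
  constructor
  · exact fun h => h.2
  · intro h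
    refine ⟨fun j => ?_, h⟩
    rw [Finset.mem_range]
    have : a j ≤ ∑ j, a j := Finset.single_le_sum (fun _ _ => Nat.zero_le _) (Finset.mem_univ j)
    omega

private theorem G7a_cut (D' : ℕ) : ∀ (n : ℕ) (b : Fin e → ℕ), ∑ j, b j = D' + n →
    ∃ b' : Fin e → ℕ, (∀ j, b' j ≤ b j) ∧ ∑ j, b' j = D' := by
  intro n
  induction n with
  | zero => exact fun b hb => ⟨b, fun _ => le_rfl, hb⟩
  | succ n ih =>
    intro b hb
    have h1 : ∃ j, 0 < b j := by
      by_contra h
      push Not at h
      have h2 : ∑ j, b j = 0 := Finset.sum_eq_zero fun j _ => Nat.le_zero.1 (h j)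
      omega
    obtain ⟨j, hj⟩ := h1
    have h2 : ∑ i, Function.update b j (b j - 1) i = D' + n := by
      have h3 := Finset.add_sum_erase Finset.univ b (Finset.mem_univ j)
      have h4 := Finset.add_sum_erase Finset.univ (Function.update b j (b j - 1)) (Finset.mem_univ j)
      have h5 : ∑ x ∈ Finset.univ.erase j, Function.update b j (b j - 1) x =
          ∑ x ∈ Finset.univ.erase j, b x := by
        apply Finset.sum_congr rfl
        intro x hx
        exact Function.update_of_ne (Finset.ne_of_mem_erase hx) _ _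
      rw [h5, Function.update_self] at h4
      omega
    obtain ⟨b', h3, h4⟩ := ih _ h2
    refine ⟨b', fun i => (h3 i).trans ?_, h4⟩
    by_cases hij : i = j
    · subst hij
      rw [Function.update_self]
      omega
    · rw [Function.update_of_ne hij]

private theorem G7a_cube : (Fintype.piFinset fun _ : Fin e => Finset.range 2).card = 2 ^ e := by
  rw [Fintype.card_piFinset]
  simp

/-- PROOF. `S = Ex e (D'+C) \ A`, `T = Ex e D' \ B` are closed downwards, `S ∩ Ex e D' ⊆ T` (`0 ∈ Ex e C`), `U = Ex e (D'+C+D') \ SS A B`. For `x ∈ U` let `b j = x j / 2`, `a j = x j - x j / 2`.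
Case `|b| ≤ D'`: `|a| ≤ (|x| + e) / 2 ≤ D' + C`, so `a ∈ S` or `b ∈ T`; if `a ∈ S` then `b ≤ a` is in `S`, so in `T`. So `b ∈ T`: at most `2 ^ e * T.card` such `x` (`x = 2 b + i`).
Case `|b| > D'`: choose `b' ≤ b` with `|b'| = D'`, `γ = b - b'`, `|γ| = |b| - D' ≤ C`, `a' = x - b'`, `|a'| = |x| - D' ≤ D' + C`, `> D'`; `a' ∈ S` or `b' ∈ T`. If `a' ∈ S`: `x = 2 (a' - γ) - i`, at most
`2 ^ e * (Ex e C).card * S''.card` such `x`, `S''` = the points of `S` with `|s| > D'`; if `b' ∈ T`: `x = 2 (b' + γ) + i`, at most `2 ^ e * (Ex e C).card * T''.card`, `T''` = the points of `T` with `|t| = D'`. -/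
theorem G7_count (D' C : ℕ) (heC : e ≤ C) {A B : Finset (Fin e → ℕ)} (hA : A ⊆ Ex e (D' + C)) (hB : B ⊆ Ex e D')
    (hAB : SS B (Ex e C) ⊆ A) (hAu : UpC (D' + C) A) (hBu : UpC D' B) :
    (Ex e (D' + C + D') \ SS A B).card ≤ 2 ^ e * (Ex e D' \ B).card +
      2 ^ e * (Ex e C).card * (((Ex e (D' + C) \ A).filter fun s => D' < ∑ j, s j).card +
        ((Ex e D' \ B).filter fun s => ∑ j, s j = D').card) := by
  classical
  set Q : Finset (Fin e → ℕ) := Fintype.piFinset fun _ : Fin e => Finset.range 2 with hQ
  set S' := (Ex e (D' + C) \ A).filter fun s => D' < ∑ j, s j with hS'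
  set T' := (Ex e D' \ B).filter fun s => ∑ j, s j = D' with hT'
  have hsub : Ex e (D' + C + D') \ SS A B ⊆
      ((Ex e D' \ B) ×ˢ Q).image (fun p => fun j => 2 * p.1 j + p.2 j) ∪
      (((S' ×ˢ Ex e C) ×ˢ Q).image (fun p => fun j => 2 * p.1.1 j - 2 * p.1.2 j - p.2 j) ∪
      ((T' ×ˢ Ex e C) ×ˢ Q).image (fun p => fun j => 2 * (p.1.1 j + p.1.2 j) + p.2 j)) := by
    intro x hx
    rw [Finset.mem_sdiff, G7a_mem] at hx
    obtain ⟨hx1, hx2⟩ := hx
    have hno : ∀ a b : Fin e → ℕ, a ∈ A → b ∈ B → (∀ j, a j + b j = x j) → False := by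
      intro a b ha hb hab
      apply hx2
      unfold SS
      rw [Finset.mem_image]
      exact ⟨(a, b), Finset.mem_product.2 ⟨ha, hb⟩, funext hab⟩
    have hq : (fun j => x j % 2) ∈ Q := by
      rw [hQ, Fintype.mem_piFinset]
      intro j
      rw [Finset.mem_range]
      exact Nat.mod_lt _ two_pos
    have hxs : ∑ j, x j = ∑ j, (x j - x j / 2) + ∑ j, x j / 2 := by
      rw [← Finset.sum_add_distrib]
      apply Finset.sum_congr rfl
      intro j _
      omega
    have hxa : ∑ j, (x j - x j / 2) ≤ ∑ j, x j / 2 + e := by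
      have h1 : ∑ j, (x j - x j / 2) ≤ ∑ j : Fin e, (x j / 2 + 1) := by
        apply Finset.sum_le_sum
        intro j _
        omega
      rw [Finset.sum_add_distrib] at h1
      simpa using h1
    have hxb : ∑ j, x j / 2 ≤ ∑ j, (x j - x j / 2) := by
      apply Finset.sum_le_sum
      intro j _
      omega
    by_cases hb : ∑ j, x j / 2 ≤ D'
    · apply Finset.mem_union_left
      rw [Finset.mem_image]
      refine ⟨((fun j => x j / 2), fun j => x j % 2), Finset.mem_product.2 ⟨?_, hq⟩, ?_⟩
      · rw [Finset.mem_sdiff, G7a_mem]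
        refine ⟨hb, fun hbB => ?_⟩
        have hbA : (fun j => x j / 2) ∈ A := by
          apply hAB
          unfold SS
          rw [Finset.mem_image]
          refine ⟨((fun j => x j / 2), fun _ => 0), Finset.mem_product.2 ⟨hbB, ?_⟩, ?_⟩
          · rw [G7a_mem]
            simp
          · funext j
            simp
        refine hno (fun j => x j - x j / 2) (fun j => x j / 2) ?_ hbB (fun j => ?_)
        · apply hAu _ hbA
          · rw [G7a_mem]
            omega
          · intro j
            show x j / 2 ≤ x j - x j / 2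
            omega
        · show x j - x j / 2 + x j / 2 = x j
          omega
      · funext j
        show 2 * (x j / 2) + x j % 2 = x j
        omega
    · apply Finset.mem_union_right
      obtain ⟨b', hb1, hb2⟩ := G7a_cut D' (∑ j, x j / 2 - D') (fun j => x j / 2) (by omega)
      have hb1' : ∀ j, b' j ≤ x j / 2 := hb1
      have hγ : (fun j => x j / 2 - b' j) ∈ Ex e C := by
        rw [G7a_mem]
        have h1 : ∑ j, x j / 2 = ∑ j, (x j / 2 - b' j) + ∑ j, b' j := by
          rw [← Finset.sum_add_distrib]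
          apply Finset.sum_congr rfl
          intro j _
          have := hb1' j
          omega
        omega
      have ha1 : ∑ j, x j = ∑ j, (x j - b' j) + ∑ j, b' j := by
        rw [← Finset.sum_add_distrib]
        apply Finset.sum_congr rfl
        intro j _
        have := hb1' j
        omega
      by_cases hB' : b' ∈ B
      · apply Finset.mem_union_left
        rw [Finset.mem_image]
        refine ⟨(((fun j => x j - b' j), fun j => x j / 2 - b' j), fun j => x j % 2),
          Finset.mem_product.2 ⟨Finset.mem_product.2 ⟨?_, hγ⟩, hq⟩, ?_⟩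
        · have e1 : ∑ j, (x j - b' j) ≤ D' + C := by omega
          have e2 : D' < ∑ j, (x j - b' j) := by omega
          rw [hS', Finset.mem_filter, Finset.mem_sdiff, G7a_mem]
          refine ⟨⟨e1, fun haA => ?_⟩, e2⟩
          refine hno _ b' haA hB' (fun j => ?_)
          show x j - b' j + b' j = x j
          have := hb1' j
          omega
        · funext j
          show 2 * (x j - b' j) - 2 * (x j / 2 - b' j) - x j % 2 = x j
          have := hb1' j
          omega
      · apply Finset.mem_union_right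
        rw [Finset.mem_image]
        refine ⟨((b', fun j => x j / 2 - b' j), fun j => x j % 2),
          Finset.mem_product.2 ⟨Finset.mem_product.2 ⟨?_, hγ⟩, hq⟩, ?_⟩
        · rw [hT', Finset.mem_filter, Finset.mem_sdiff, G7a_mem]
          exact ⟨⟨hb2.le, hB'⟩, hb2⟩
        · funext j
          show 2 * (b' j + (x j / 2 - b' j)) + x j % 2 = x j
          have := hb1' j
          omega
  have hc := Finset.card_le_card hsub
  have h1 : ((((Ex e D' \ B) ×ˢ Q).image (fun p => fun j => 2 * p.1 j + p.2 j)) :
      Finset (Fin e → ℕ)).card ≤ (Ex e D' \ B).card * 2 ^ e := by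
    refine Finset.card_image_le.trans ?_
    rw [Finset.card_product, hQ, G7a_cube]
  have h2 : ((((S' ×ˢ Ex e C) ×ˢ Q).image (fun p => fun j => 2 * p.1.1 j - 2 * p.1.2 j - p.2 j)) :
      Finset (Fin e → ℕ)).card ≤ S'.card * (Ex e C).card * 2 ^ e := by
    refine Finset.card_image_le.trans ?_
    rw [Finset.card_product, Finset.card_product, hQ, G7a_cube]
  have h3 : ((((T' ×ˢ Ex e C) ×ˢ Q).image (fun p => fun j => 2 * (p.1.1 j + p.1.2 j) + p.2 j)) :
      Finset (Fin e → ℕ)).card ≤ T'.card * (Ex e C).card * 2 ^ e := by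
    refine Finset.card_image_le.trans ?_
    rw [Finset.card_product, Finset.card_product, hQ, G7a_cube]
  refine hc.trans ((Finset.card_union_le _ _).trans ?_)
  refine (Nat.add_le_add h1 ((Finset.card_union_le _ _).trans (Nat.add_le_add h2 h3))).trans (le_of_eq ?_)
  ring

end Pool.Agent.MP_b197b4_ntV3
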