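import Pool.Agent.Lib.MP_b197b4_ntV3.T2

/-!
# V3, leaf G8o: an additive injective function on the exponents
-/

set_option autoImplicit false
set_option linter.unusedSectionVars false

noncomputable section

namespace Pool.Agent.MP_b197b4_ntV3

open scoped BigOperators

variable {e : ℕ}

private theorem G8o_inj (M : ℕ) : ∀ (e : ℕ) (a b : Fin e → ℕ), (∀ j, a j ≤ M) → (∀ j, b j ≤ M) →
    ∑ j, a j * (M + 1) ^ (j : ℕ) = ∑ j, b j * (M + 1) ^ (j : ℕ) → a = b := by
  intro e
  induction e with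
  | zero =>
    intro a b _ _ _
    funext j
    exact j.elim0
  | succ e ih =>
    intro a b ha hb h
    rw [Fin.sum_univ_succ, Fin.sum_univ_succ] at h
    have e1 : ∀ c : Fin (e + 1) → ℕ, ∑ i : Fin e, c i.succ * (M + 1) ^ (i.succ : ℕ)
        = (M + 1) * ∑ i : Fin e, c i.succ * (M + 1) ^ (i : ℕ) := by
      intro c
      rw [Finset.mul_sum]
      refine Finset.sum_congr rfl fun i _ => ?_
      rw [Fin.val_succ, pow_succ]
      ring
    rw [e1, e1, Fin.val_zero, pow_zero, mul_one, mul_one] at h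
    have h0 : a 0 = b 0 := by
      have h2 := congrArg (fun x => x % (M + 1)) h
      simp only [Nat.add_mul_mod_self_left] at h2
      rwa [Nat.mod_eq_of_lt (Nat.lt_succ_of_le (ha 0)), Nat.mod_eq_of_lt (Nat.lt_succ_of_le (hb 0))] at h2
    rw [h0] at h
    have h3 := Nat.eq_of_mul_eq_mul_left (Nat.succ_pos M) (Nat.add_left_cancel h)
    have h4 := ih (fun i => a i.succ) (fun i => b i.succ) (fun i => ha _) (fun i => hb _) h3
    funext j
    refine Fin.cases h0 (fun i => ?_) j
    exact congrFun h4 i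

/-- PROOF. `l a = ∑ j, a j * W ^ j`, `W = M + 1` (digits; `Nat.ofDigits` or induction on `e`). -/
theorem G8_ord (e M : ℕ) : ∃ l : (Fin e → ℕ) → ℕ, (∀ a b, l (a + b) = l a + l b) ∧
    ∀ a ∈ Ex e M, ∀ b ∈ Ex e M, l a = l b → a = b := by
  have hle : ∀ a ∈ Ex e M, ∀ j, a j ≤ M := by
    intro a ha j
    rw [mem_Ex] at ha
    exact le_trans (Finset.single_le_sum (f := fun j => a j) (fun i _ => Nat.zero_le _) (Finset.mem_univ j)) ha
  refine ⟨fun a => ∑ j, a j * (M + 1) ^ (j : ℕ), fun a b => ?_, fun a ha b hb h => ?_⟩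
  · rw [← Finset.sum_add_distrib]
    refine Finset.sum_congr rfl fun j _ => ?_
    rw [Pi.add_apply, add_mul]
  · exact G8o_inj M e a b (hle a ha) (hle b hb) h

end Pool.Agent.MP_b197b4_ntV3
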