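import Pool.Agent.Lib.MP_b197b4_ntV3.G2
import Pool.Agent.Lib.MP_b197b4_ntV3.G2r
import Pool.Agent.Lib.MP_b197b4_ntV3.G3
import Pool.Agent.Lib.MP_b197b4_ntV3.G7
import Pool.Agent.Lib.MP_b197b4_ntV3.G8o

/-!
# V3, leaf G8: generic forms over a finite field
-/

set_option autoImplicit false
set_option linter.unusedSectionVars false

noncomputable section

namespace Pool.Agent.MP_b197b4_ntV3

open scoped BigOperators

variable {e : ℕ}

private theorem G8_ncard {X : Type} [Fintype X] (P : X → Prop) [DecidablePred P] :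
    {x | P x}.ncard = (Finset.univ.filter P).card := by
  rw [← Set.ncard_coe_finset]
  congr 1
  ext x
  rw [Set.mem_ofPred_eq, Finset.mem_coe, Finset.mem_filter]
  exact ⟨fun h => ⟨Finset.mem_univ _, h⟩, fun h => h.2⟩

private theorem G8_ez {K : Type} [Field K] {M : ℕ} {f : ↥(Ex e M) → K} (hf : f ≠ 0) :
    ∃ x ∈ Ex e M, ez f x ≠ 0 := by
  obtain ⟨x, hx⟩ := Function.ne_iff.1 hf
  refine ⟨x.1, x.2, ?_⟩
  unfold ez
  rw [dif_pos x.2]
  exact hx

private theorem G8_sub {K : Type} [Field K] (l : (Fin e → ℕ) → ℕ) (lam : (Fin e → ℕ) → K) (D D' : ℕ) :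
    gA l lam D D' ⊆ Ex e D := by
  classical
  unfold gA
  exact Finset.filter_subset _ _

open Classical in
private theorem G8_bound (C : ℕ) (D' : ℕ)
    (h7 : ∀ A B : Finset (Fin e → ℕ),
      A ⊆ Ex e (D' + C) → B ⊆ Ex e D' → SS B (Ex e C) ⊆ A →
      (Ex e (D' + C) \ A).card = (Ex e D' \ B).card → (Ex e D' \ B).Nonempty →
      (Ex e (D' + C + D') \ SS A B).card < (2 ^ e + 1) * (Ex e D' \ B).card)
    (K : Type) [Field K] [Fintype K] (l : (Fin e → ℕ) → ℕ) (hl : ∀ a b, l (a + b) = l a + l b)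
    (hl1 : ∀ a ∈ Ex e (D' + C), ∀ b ∈ Ex e (D' + C), l a = l b → a = b)
    (hl2 : ∀ a ∈ Ex e D', ∀ b ∈ Ex e D', l a = l b → a = b) (A B : Finset (Fin e → ℕ)) :
    ∑ f ∈ Finset.univ.filter (fun f : ↥(Ex e (D' + C + D')) → K =>
        f ≠ 0 ∧ gA l (ez f) (D' + C) D' = A ∧ gA l (ez f) D' (D' + C) = B),
      (Finset.univ.filter (fun y : Fin (2 ^ e + 1) → ↥(Ex e (D' + C)) → K =>
        ∀ i, ∀ b ∈ Ex e D', ∑ a, y i a * ez f (a.1 + b) = 0)).card ≤
      Fintype.card K ^ ((2 ^ e + 1) * (Ex e (D' + C)).card - 1) := by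
  rcases Finset.eq_empty_or_nonempty (Finset.univ.filter (fun f : ↥(Ex e (D' + C + D')) → K =>
        f ≠ 0 ∧ gA l (ez f) (D' + C) D' = A ∧ gA l (ez f) D' (D' + C) = B)) with h0 | ⟨f, hf⟩
  · rw [h0, Finset.sum_empty]
    exact Nat.zero_le _
  rw [Finset.mem_filter] at hf
  obtain ⟨-, hf0, hfA, hfB⟩ := hf
  have hAs : A ⊆ Ex e (D' + C) := hfA ▸ G8_sub l (ez f) (D' + C) D'
  have hBs : B ⊆ Ex e D' := hfB ▸ G8_sub l (ez f) D' (D' + C)
  have hc : (Ex e (D' + C) \ A).card = (Ex e D' \ B).card := by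
    rw [← hfA, ← hfB]
    exact G2_card l (ez f) (D' + C) D' hl1 hl2
  have hr : 1 ≤ (Ex e (D' + C) \ A).card := by
    obtain ⟨x, hx, hx0⟩ := G8_ez hf0
    rw [← hfA]
    exact Finset.card_pos.2 (G2_ne l (ez f) (D' + C) D' hx hx0)
  have hS : SS B (Ex e C) ⊆ A := by
    intro x hx
    unfold SS at hx
    obtain ⟨p, hp, rfl⟩ := Finset.mem_image.1 hx
    rw [Finset.mem_product] at hp
    rw [← hfA]
    refine G2_rel l hl (ez f) D' C ?_ hp.2
    rw [hfB]
    exact hp.1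
  have hu := h7 A B hAs hBs hS hc (Finset.card_pos.1 (hc ▸ hr))
  have hcnt : (Finset.univ.filter (fun f : ↥(Ex e (D' + C + D')) → K =>
        f ≠ 0 ∧ gA l (ez f) (D' + C) D' = A ∧ gA l (ez f) D' (D' + C) = B)).card ≤
      Fintype.card K ^ (Ex e (D' + C + D') \ SS A B).card := by
    refine le_trans ?_ (G3_count l hl (D' + C) D' A B)
    rw [G8_ncard]
    refine Finset.card_le_card ?_
    intro g hg
    rw [Finset.mem_filter] at hg ⊢
    exact ⟨hg.1, hg.2.2⟩
  have hker : ∀ g ∈ Finset.univ.filter (fun f : ↥(Ex e (D' + C + D')) → K =>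
        f ≠ 0 ∧ gA l (ez f) (D' + C) D' = A ∧ gA l (ez f) D' (D' + C) = B),
      (Finset.univ.filter (fun y : Fin (2 ^ e + 1) → ↥(Ex e (D' + C)) → K =>
        ∀ i, ∀ b ∈ Ex e D', ∑ a, y i a * ez g (a.1 + b) = 0)).card ≤
      Fintype.card K ^ (A.card * (2 ^ e + 1)) := by
    intro g hg
    rw [Finset.mem_filter] at hg
    have h1 := G2_ker l (ez g) (D' + C) D' hl1
    rw [G8_ncard, hg.2.2.1] at h1
    have h2 : Finset.univ.filter (fun y : Fin (2 ^ e + 1) → ↥(Ex e (D' + C)) → K =>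
        ∀ i, ∀ b ∈ Ex e D', ∑ a, y i a * ez g (a.1 + b) = 0) =
        Fintype.piFinset fun _ : Fin (2 ^ e + 1) => Finset.univ.filter (fun y : ↥(Ex e (D' + C)) → K =>
          ∀ b ∈ Ex e D', ∑ a, y a * ez g (a.1 + b) = 0) := by
      ext y
      rw [Finset.mem_filter, Fintype.mem_piFinset]
      constructor
      · intro h i
        rw [Finset.mem_filter]
        exact ⟨Finset.mem_univ _, h.2 i⟩
      · intro h
        exact ⟨Finset.mem_univ _, fun i => (Finset.mem_filter.1 (h i)).2⟩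
    rw [h2, Fintype.card_piFinset_const, h1, ← pow_mul]
  refine (Finset.sum_le_card_nsmul _ _ _ hker).trans ?_
  rw [smul_eq_mul]
  refine (Nat.mul_le_mul_right _ hcnt).trans ?_
  rw [← pow_add]
  refine Nat.pow_le_pow_right Fintype.card_pos ?_
  have h3 : A.card + (Ex e (D' + C) \ A).card = (Ex e (D' + C)).card := by
    rw [Finset.card_sdiff_of_subset hAs]
    have := Finset.card_le_card hAs
    omega
  rw [← hc] at hu
  rw [← h3]
  have h4 : (2 ^ e + 1) * (A.card + (Ex e (D' + C) \ A).card) =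
      A.card * (2 ^ e + 1) + (2 ^ e + 1) * (Ex e (D' + C) \ A).card := by ring
  rw [h4]
  omega

/-- PROOF. `D = D' + C`, `n = (Ex e D).card`, `c = 2 ^ e + 1`, `l` from `G8_ord` for `M = D + D'`. Call `y : Fin c → (Ex e D → K)` bad if there is `f ≠ 0` on `Ex e (D + D')` with `∑ a, y i a * ez f (a + b) = 0` for all `i`, `b`. For a fixed `f ≠ 0`
with `A = gA l (ez f) D D'`, `B = gA l (ez f) D' D` the number of `y` is `(q ^ A.card) ^ c` (`G2_ker`), `A.card = n - r`, `r = (Ex e D \ A).card = (Ex e D' \ B).card ≥ 1` (`G2_card`, `G2_ne`), `SS B (Ex e C) ⊆ A` (`G2_rel`). The number of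
the `f` with given `A`, `B` is `≤ q ^ u`, `u = (Ex e (D+D') \ SS A B).card < c r` (`G3_count`, `G7_main`). So the number of the bad `y` is at most `∑_{A, B} q ^ u * q ^ (c (n - r)) ≤ 2 ^ n * 2 ^ n' * q ^ (c n - 1) < q ^ (c n)`
(`A ∈ (Ex e D).powerset`, `B ∈ (Ex e D').powerset`), if `2 ^ (n + n') < q`. -/
theorem G8_main (he : 1 ≤ e) (C : ℕ) (heC : e ≤ C) : ∃ D0, ∀ D', D0 ≤ D' → ∃ q0 : ℕ, ∀ (K : Type) [Field K] [Fintype K],
    q0 ≤ Fintype.card K → ∃ y : Fin (2 ^ e + 1) → (Fin e → ℕ) → K, ∀ lam : (Fin e → ℕ) → K,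
      (∀ i, ∀ b ∈ Ex e D', ∑ a ∈ Ex e (D' + C), y i a * lam (a + b) = 0) → ∀ x ∈ Ex e (D' + C + D'), lam x = 0 := by
  classical
  obtain ⟨D0, h0⟩ := G7_main he C heC
  refine ⟨D0, fun D' hD' => ⟨2 ^ (Ex e (D' + C)).card * 2 ^ (Ex e D').card + 1, ?_⟩⟩
  intro K _ _ hq
  obtain ⟨l, hl, hli⟩ := G8_ord e (D' + C + D')
  have hl1 : ∀ a ∈ Ex e (D' + C), ∀ b ∈ Ex e (D' + C), l a = l b → a = b := by
    intro a ha b hb
    rw [mem_Ex] at ha hb
    exact hli a ((mem_Ex a).2 (by omega)) b ((mem_Ex b).2 (by omega))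
  have hl2 : ∀ a ∈ Ex e D', ∀ b ∈ Ex e D', l a = l b → a = b := by
    intro a ha b hb
    rw [mem_Ex] at ha hb
    exact hli a ((mem_Ex a).2 (by omega)) b ((mem_Ex b).2 (by omega))
  have hex : ∃ y : Fin (2 ^ e + 1) → ↥(Ex e (D' + C)) → K, ∀ f : ↥(Ex e (D' + C + D')) → K,
      (∀ i, ∀ b ∈ Ex e D', ∑ a, y i a * ez f (a.1 + b) = 0) → f = 0 := by
    by_contra hno
    push Not at hno
    have hcov : (Finset.univ : Finset (Fin (2 ^ e + 1) → ↥(Ex e (D' + C)) → K)) ⊆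
        ((Ex e (D' + C)).powerset ×ˢ (Ex e D').powerset).biUnion fun p =>
          (Finset.univ.filter (fun f : ↥(Ex e (D' + C + D')) → K =>
            f ≠ 0 ∧ gA l (ez f) (D' + C) D' = p.1 ∧ gA l (ez f) D' (D' + C) = p.2)).biUnion fun f =>
          Finset.univ.filter (fun y : Fin (2 ^ e + 1) → ↥(Ex e (D' + C)) → K =>
            ∀ i, ∀ b ∈ Ex e D', ∑ a, y i a * ez f (a.1 + b) = 0) := by
      intro y _
      obtain ⟨f, hf, hf0⟩ := hno y
      rw [Finset.mem_biUnion]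
      refine ⟨(gA l (ez f) (D' + C) D', gA l (ez f) D' (D' + C)), ?_, ?_⟩
      · rw [Finset.mem_product, Finset.mem_powerset, Finset.mem_powerset]
        exact ⟨G8_sub _ _ _ _, G8_sub _ _ _ _⟩
      · rw [Finset.mem_biUnion]
        refine ⟨f, ?_, ?_⟩
        · rw [Finset.mem_filter]
          exact ⟨Finset.mem_univ _, hf0, rfl, rfl⟩
        · rw [Finset.mem_filter]
          exact ⟨Finset.mem_univ _, hf⟩
    have h1 := Finset.card_le_card hcov
    have h2 := h1.trans (Finset.card_biUnion_le.trans (Finset.sum_le_sum fun p _ =>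
      (Finset.card_biUnion_le.trans (G8_bound C D' (h0 D' hD') K l hl hl1 hl2 p.1 p.2))))
    rw [Finset.sum_const, Finset.card_product, Finset.card_powerset, Finset.card_powerset, smul_eq_mul,
      Finset.card_univ, Fintype.card_pi, Finset.prod_const, Finset.card_univ, Fintype.card_fin,
      Fintype.card_pi, Finset.prod_const, Finset.card_univ, Fintype.card_coe, ← pow_mul] at h2
    have h3 : 1 ≤ (2 ^ e + 1) * (Ex e (D' + C)).card := by
      refine Nat.mul_pos (by positivity) (Finset.card_pos.2 ⟨0, ?_⟩)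
      rw [mem_Ex]
      simp
    have h4 : (Ex e (D' + C)).card * (2 ^ e + 1) = ((2 ^ e + 1) * (Ex e (D' + C)).card - 1) + 1 := by
      rw [Nat.sub_add_cancel h3, mul_comm]
    rw [h4, pow_succ] at h2
    have h5 : 0 < Fintype.card K ^ ((2 ^ e + 1) * (Ex e (D' + C)).card - 1) := pow_pos Fintype.card_pos _
    have h6 : Fintype.card K ≤ 2 ^ (Ex e (D' + C)).card * 2 ^ (Ex e D').card :=
      Nat.le_of_mul_le_mul_left (by rw [mul_comm _ (2 ^ _ * 2 ^ _)]; exact h2) h5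
    omega
  obtain ⟨y, hy⟩ := hex
  refine ⟨fun i a => if h : a ∈ Ex e (D' + C) then y i ⟨a, h⟩ else 0, fun lam hlam => ?_⟩
  have hz : (fun x : ↥(Ex e (D' + C + D')) => lam x.1) = 0 := by
    refine hy _ fun i b hb => ?_
    refine Eq.trans ?_ (hlam i b hb)
    rw [← Finset.sum_coe_sort (Ex e (D' + C))]
    refine Finset.sum_congr rfl fun a _ => ?_
    have ha : a.1 + b ∈ Ex e (D' + C + D') := by
      have h1 := (mem_Ex a.1).1 a.2
      have h2 := (mem_Ex b).1 hb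
      rw [mem_Ex]
      simp only [Pi.add_apply, Finset.sum_add_distrib]
      omega
    beta_reduce
    rw [dif_pos a.2]
    unfold ez
    rw [dif_pos ha]
  intro x hx
  exact congrFun hz ⟨x, hx⟩

end Pool.Agent.MP_b197b4_ntV3
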