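import Pool.Agent.Lib.MP_b197b4_ntV3.T2

/-!
# V3, leaf G9a: duality
-/

set_option autoImplicit false
set_option linter.unusedSectionVars false

noncomputable section

namespace Pool.Agent.MP_b197b4_ntV3

open scoped BigOperators
open Pool.Agent.MP_b197b4_ntUV Pool.Agent.MP_b197b4_ntLV

private def G9aZ {e : ℕ} {K : Type} [Field K] {c D D' : ℕ} (y : Fin c → (Fin e → ℕ) → K)
    (p : Fin c × {b // b ∈ Ex e D'}) : {x // x ∈ Ex e (D + D')} → K :=
  fun x => ∑ a ∈ Ex e D, if a + p.2.1 = x.1 then y p.1 a else 0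

/-- PROOF. Otherwise the span of the vectors `Z i b = (x ↦ ∑ a ∈ Ex e D, if a + b = x then y i a else 0)`, `b ∈ Ex e D'`, in the space of the functions on `Ex e (D + D')` is not everything, and there is a linear functional `φ ≠ 0` which
vanishes on it (`Submodule.exists_le_ker_of_lt_top`); `lam x = φ (Pi.single x 1)` for `x ∈ Ex e (D + D')`, `0` otherwise, contradicts `hy`. So `Pi.single x 1` is a combination of the `Z i b`. -/
theorem G9_dual {e : ℕ} {K : Type} [Field K] {c D D' : ℕ} (y : Fin c → (Fin e → ℕ) → K)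
    (hy : ∀ lam : (Fin e → ℕ) → K, (∀ i, ∀ b ∈ Ex e D', ∑ a ∈ Ex e D, y i a * lam (a + b) = 0) →
      ∀ x ∈ Ex e (D + D'), lam x = 0) {x : Fin e → ℕ} (hx : x ∈ Ex e (D + D')) :
    ∃ g : Fin c → (Fin e → ℕ) → K, ∀ x' ∈ Ex e (D + D'),
      ∑ i, ∑ a ∈ Ex e D, ∑ b ∈ Ex e D', (if a + b = x' then y i a * g i b else 0) = if x' = x then 1 else 0 := by
  classical
  have key : ∀ v : {x // x ∈ Ex e (D + D')} → K,
      v ∈ Submodule.span K (Set.range (G9aZ (D := D) (D' := D') y)) := by
    by_contra hne
    have hlt : Submodule.span K (Set.range (G9aZ (D := D) (D' := D') y)) < ⊤ := by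
      rw [lt_top_iff_ne_top]
      intro h
      apply hne
      intro v
      rw [h]
      exact Submodule.mem_top
    obtain ⟨φ, hφ0, hφ⟩ := Submodule.exists_le_ker_of_lt_top _ hlt
    apply hφ0
    have hφs : ∀ v : {x // x ∈ Ex e (D + D')} → K, φ v = ∑ z, v z * φ (Pi.single z 1) := by
      intro v
      have hv : v = ∑ z, v z • (Pi.single z (1 : K) : {x // x ∈ Ex e (D + D')} → K) := by
        funext w
        rw [Finset.sum_apply, Finset.sum_eq_single w]
        · simp
        · intro z _ hz
          simp [Ne.symm hz]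
        · intro h
          exact absurd (Finset.mem_univ _) h
      conv_lhs => rw [hv]
      rw [map_sum]
      refine Finset.sum_congr rfl fun z _ => ?_
      rw [map_smul, smul_eq_mul]
    have h1 := hy (fun x => if h : x ∈ Ex e (D + D') then φ (Pi.single ⟨x, h⟩ 1) else 0) (by
      intro i b hb
      have h2 : φ (G9aZ (D := D) (D' := D') y (i, ⟨b, hb⟩)) = 0 := by
        have := hφ (Submodule.subset_span (Set.mem_range_self (i, (⟨b, hb⟩ : {b // b ∈ Ex e D'}))))
        exact this
      rw [hφs] at h2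
      rw [← h2]
      unfold G9aZ
      simp only [Finset.sum_mul]
      rw [Finset.sum_comm]
      refine Finset.sum_congr rfl fun a ha => ?_
      have hab : a + b ∈ Ex e (D + D') := by
        rw [mem_Ex] at ha hb ⊢
        simp only [Pi.add_apply, Finset.sum_add_distrib]
        omega
      rw [Finset.sum_eq_single (⟨a + b, hab⟩ : {x // x ∈ Ex e (D + D')})]
      · simp [hab]
      · intro z _ hz
        have : a + b ≠ z.1 := fun h => hz (Subtype.ext h.symm)
        simp [this]
      · intro h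
        exact absurd (Finset.mem_univ _) h)
    apply LinearMap.ext
    intro v
    rw [hφs]
    rw [LinearMap.zero_apply]
    refine Finset.sum_eq_zero fun z _ => ?_
    have h3 := h1 z.1 z.2
    simp only [z.2, dif_pos] at h3
    have h4 : φ (Pi.single z 1) = 0 := h3
    rw [h4, mul_zero]
  obtain ⟨cf, hcf⟩ := (Submodule.mem_span_range_iff_exists_fun K).1 (key (Pi.single ⟨x, hx⟩ 1))
  refine ⟨fun i b => if h : b ∈ Ex e D' then cf (i, ⟨b, h⟩) else 0, ?_⟩
  intro x' hx'
  have h5 := congrFun hcf ⟨x', hx'⟩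
  rw [Finset.sum_apply] at h5
  have h6 : (Pi.single (⟨x, hx⟩ : {x // x ∈ Ex e (D + D')}) (1 : K) : {x // x ∈ Ex e (D + D')} → K) ⟨x', hx'⟩ =
      if x' = x then 1 else 0 := by
    rw [Pi.single_apply]
    simp only [Subtype.mk.injEq]
  rw [h6] at h5
  rw [← h5, Fintype.sum_prod_type]
  refine Finset.sum_congr rfl fun i _ => ?_
  rw [Finset.sum_comm, ← Finset.sum_coe_sort (Ex e D')]
  refine Finset.sum_congr rfl fun b _ => ?_
  simp only [Pi.smul_apply, smul_eq_mul, G9aZ, Finset.mul_sum]
  refine Finset.sum_congr rfl fun a _ => ?_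
  simp only [b.2, dif_pos]
  split_ifs with h7
  · exact mul_comm _ _
  · rw [mul_zero]

end Pool.Agent.MP_b197b4_ntV3
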