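import Pool.Agent.Lib.MP_b197b4_ntV3.T3

/-!
# V3, leaf T4: `2 ^ (e + 1) - 1` forms of degree `D` whose ideal contains all monomials of degree `2 D - C`
-/

set_option autoImplicit false
set_option linter.unusedSectionVars false

noncomputable section

namespace Pool.Agent.MP_b197b4_ntV3

open scoped BigOperators
open Pool.Agent.MP_b197b4_ntUV Pool.Agent.MP_b197b4_ntLV

variable {k F : Type} [Field k] [Field F] [Algebra k F]

/-- PROOF. Induction on `d = ∑ b - m`: lower one positive exponent. -/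
theorem T4_lower {n : ℕ} (b : Fin (n + 1) → ℕ) (m : ℕ) (h : m ≤ ∑ i, b i) :
    ∃ a : Fin (n + 1) → ℕ, (∀ i, a i ≤ b i) ∧ ∑ i, a i = m := by
  obtain ⟨s, hs⟩ := cnt_exists (d := m) b h
  exact ⟨cnt s, hs, cnt_sum s⟩

/-- The combinations with the forms `y j` are combinations with the forms `z i` if every `y j` is a `z i`. -/
private theorem T4_sub {V : Submodule k F} {d : ℕ} {ι κ : Type} [Fintype ι] [Fintype κ] {y : κ → F}
    {z : ι → F} (f : κ → ι) (hf : ∀ j, z (f j) = y j) {w : F} (h : Cb V d Finset.univ y w) :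
    Cb V d Finset.univ z w := by
  obtain ⟨g, hg, rfl⟩ := h
  refine Cb_sum _ _ fun j _ => ?_
  rw [← hf j]
  exact Cb_single (Finset.mem_univ _) (hg j)

private theorem T4_deg {V : Submodule k F} {d d' : ℕ} {ι : Type} {I : Finset ι} {y : ι → F} {w : F}
    (hd : d = d') (h : Cb V d I y w) : Cb V d' I y w := by
  subst hd
  exact h

/-- PROOF. Induction on `e`, for all `C`. `e = 0`: `Y = T 0 ^ D`, `D0 = C`: `b 0 ≥ 2 D - C ≥ D`. Step to `e + 1`: `C1 = C + e + 1`, `D1` from the induction hypothesis for `2 * C1`, `D0 = max D1 (2 * C1)`. `t` from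
`T3_theta (e + 1) C1 D`. `Y` = the `2 ^ (e + 1)` theta forms `thY t D T i`, `i j ∈ {0, 1}` (`Fin (e + 1) → Bool`), and the `2 ^ (e + 1) - 1` forms `Y'` of the induction hypothesis for `T ∘ Fin.succ`
(`Fintype.equivFinOfCardEq` for `(Fin (e + 1) → Bool) ⊕ Fin (2 ^ (e + 1) - 1)`). By `T4_lower`, `mono_split`, `mono_mem`, `Cb_mul` it is enough to treat `∑ b = 2 D - C1` (`≥ D`). `L = {w | Cb V (D - C1) univ Y w}` is a submodule
(`Cb_zero`, `Cb_add`, `Cb_smul`); it contains the `thY t D T i * z` (`Cb_single`), and the `mono T b` with `b 0 < C1`: `mono T b = mono (T ∘ succ) (b ∘ succ) * T 0 ^ b 0`, `∑ b (succ) = 2 D - C1 - b 0 ≥ 2 D - 2 C1`, so `Cb V (2D - C1 - b 0 - D) univ Y' ..`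
by the induction hypothesis; `Cb_mul` with `T 0 ^ b 0 ∈ V ^ (b 0)`; `D - C1 - b 0 + b 0 = D - C1` as `D ≥ 2 C1`. -/
theorem T4_main [Infinite k] (e C : ℕ) : ∃ D0, ∀ D, D0 ≤ D → ∀ (V : Submodule k F) (T : Fin (e + 1) → F),
    (∀ i, T i ∈ V) → ∃ Y : Fin (2 ^ (e + 1) - 1) → F, (∀ i, Y i ∈ V ^ D) ∧
      ∀ b : Fin (e + 1) → ℕ, 2 * D ≤ ∑ i, b i + C → Cb V (∑ i, b i - D) Finset.univ Y (mono T b) := by
  induction e generalizing C with
  | zero =>
    refine ⟨C, fun D hD V T hT => ⟨fun _ => T 0 ^ D, fun _ => Submodule.pow_mem_pow V (hT 0) D,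
      fun b hb => ?_⟩⟩
    have hs : ∑ i, b i = b 0 := Fin.sum_univ_one b
    rw [hs] at hb ⊢
    have hm : mono T b = T 0 ^ D * T 0 ^ (b 0 - D) := by
      unfold mono
      rw [Fin.prod_univ_one, ← pow_add]
      congr 1
      omega
    rw [hm]
    exact Cb_single (i := (⟨0, by norm_num⟩ : Fin (2 ^ (0 + 1) - 1)))
      (y := fun _ : Fin (2 ^ (0 + 1) - 1) => T 0 ^ D) (Finset.mem_univ _)
      (Submodule.pow_mem_pow V (hT 0) _)
  | succ e ih =>
    obtain ⟨C1, hC1⟩ : ∃ C1, C1 = C + (e + 1) := ⟨_, rfl⟩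
    obtain ⟨D1, hD1⟩ := ih (2 * C1)
    refine ⟨max D1 (2 * C1), fun D hD V T hT => ?_⟩
    have hDa : D1 ≤ D := le_trans (le_max_left _ _) hD
    have hDb : 2 * C1 ≤ D := le_trans (le_max_right _ _) hD
    obtain ⟨t, ht⟩ := T3_theta (k := k) (F := F) (e + 1) C1 D (by omega) (by omega)
    obtain ⟨Y', hY', hYb⟩ := hD1 D hDa V (fun i => T i.succ) fun i => hT _
    have hcard : Fintype.card ((Fin (e + 1) → Bool) ⊕ Fin (2 ^ (e + 1) - 1)) =
        2 ^ (e + 1 + 1) - 1 := by
      rw [Fintype.card_sum, Fintype.card_fin, Fintype.card_fun, Fintype.card_bool, Fintype.card_fin]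
      have h1 : 0 < 2 ^ (e + 1) := by positivity
      have h2 : 2 ^ (e + 1 + 1) = 2 * 2 ^ (e + 1) := by ring
      omega
    let σ := Fintype.equivFinOfCardEq hcard
    obtain ⟨Y, hYd⟩ : ∃ Y : Fin (2 ^ (e + 1 + 1) - 1) → F, Y = fun x => Sum.elim
      (fun β : Fin (e + 1) → Bool => thY t D T (fun j => if β j then 1 else 0)) Y' (σ.symm x) :=
      ⟨_, rfl⟩
    have hYl : ∀ β : Fin (e + 1) → Bool, Y (σ (Sum.inl β)) =
        thY t D T (fun j => if β j then 1 else 0) := fun β => by
      rw [hYd]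
      show Sum.elim _ _ (σ.symm (σ (Sum.inl β))) = _
      rw [Equiv.symm_apply_apply]
      rfl
    have hYr : ∀ j, Y (σ (Sum.inr j)) = Y' j := fun j => by
      rw [hYd]
      show Sum.elim _ _ (σ.symm (σ (Sum.inr j))) = _
      rw [Equiv.symm_apply_apply]
      rfl
    refine ⟨Y, fun x => ?_, fun b hb => ?_⟩
    · obtain ⟨x, rfl⟩ := σ.surjective x
      rcases x with β | j
      · rw [hYl]
        exact thY_mem hT t _
      · rw [hYr]
        exact hY' j
    · obtain ⟨a, hab, ha⟩ := T4_lower b (2 * D - C1) (by omega)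
      let L : Submodule k F :=
        { carrier := {w | Cb V (D - C1) Finset.univ Y w}
          zero_mem' := Cb_zero V _ _ _
          add_mem' := fun h h' => Cb_add h h'
          smul_mem' := fun c _ h => Cb_smul c h }
      have hL : mono T a ∈ L := by
        refine ht V T hT L ?_ ?_ a ha
        · intro i hi z hz
          show Cb V (D - C1) Finset.univ Y _
          have h1 : thY t D T i = Y (σ (Sum.inl fun j => decide (i j = 1))) := by
            rw [hYl]
            congr 1
            funext j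
            have h2 := hi j
            by_cases h3 : i j = 1
            · simp [h3]
            · simp only [h3, decide_false]
              simp only [Bool.false_eq_true, if_false]
              omega
          rw [h1]
          exact Cb_single (Finset.mem_univ _) hz
        · intro b' hb' hb0
          show Cb V (D - C1) Finset.univ Y _
          have h1 : ∑ i, b' i = b' 0 + ∑ i : Fin (e + 1), b' i.succ := Fin.sum_univ_succ b'
          have h2 : mono T b' = mono (fun i => T i.succ) (fun i => b' i.succ) * T 0 ^ b' 0 := by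
            unfold mono
            rw [Fin.prod_univ_succ, mul_comm]
          have h3 := hYb (fun i => b' i.succ) (by omega)
          have h4 : Cb V (∑ i : Fin (e + 1), b' i.succ - D) Finset.univ Y
              (mono (fun i => T i.succ) (fun i => b' i.succ)) :=
            T4_sub (fun j => σ (Sum.inr j)) hYr h3
          rw [h2]
          refine T4_deg ?_ (Cb_mul h4 (Submodule.pow_mem_pow V (hT 0) (b' 0)))
          omega
      have hL' : Cb V (D - C1) Finset.univ Y (mono T a) := hL
      have h5 := Cb_mul hL' (mono_mem V T hT (fun i => b i - a i))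
      rw [← mono_split T a b hab] at h5
      have h6 : ∑ i, (b i - a i) + ∑ i, a i = ∑ i, b i := by
        rw [← Finset.sum_add_distrib]
        exact Finset.sum_congr rfl fun i _ => Nat.sub_add_cancel (hab i)
      refine T4_deg ?_ h5
      omega

end Pool.Agent.MP_b197b4_ntV3
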