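import Pool.Agent.Lib.MP_b197b4_ntV3.G8
import Pool.Agent.Lib.MP_b197b4_ntV3.G9a
import Pool.Agent.Lib.MP_b197b4_ntV3.T4

/-!
# V3, leaf G9: `2 ^ e + 1` forms
-/

set_option autoImplicit false
set_option linter.unusedSectionVars false

noncomputable section

namespace Pool.Agent.MP_b197b4_ntV3

open scoped BigOperators
open Pool.Agent.MP_b197b4_ntUV Pool.Agent.MP_b197b4_ntLV

variable {k F : Type} [Field k] [Field F] [Algebra k F]

/-- PROOF. `C1 = C + e`, `D0'` from `G8_main he C1`, `D0 = D0' + 2 * C1`, `D' = D - C1`; a finite subfield `K` of `k` with at least `q0` elements (`hk ∅ q0`), `y` from `G8_main`. `Y i = ∑ α ∈ Ex e D, y i α • hm D T α ∈ V ^ D` (`hm_mem`).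
By `T4_lower`, `mono_split`, `mono_mem`, `Cb_mul` it is enough to treat `∑ b = 2 D - C1 = D + D'`: `mono T b = hm (D + D') T x`, `x = b ∘ succ` (`hm_eq`), `= ∑ x', (if x' = x then 1 else 0) • hm (D+D') T x' =
∑ i, Y i * (∑ β ∈ Ex e D', g i β • hm D' T β)` (`G9_dual`, `hm_mul`). -/
theorem G9_main (hk : LocFin k) (e C : ℕ) (he : 1 ≤ e) : ∃ D0, ∀ D, D0 ≤ D → ∀ (V : Submodule k F) (T : Fin (e + 1) → F),
    (∀ i, T i ∈ V) → ∃ Y : Fin (2 ^ e + 1) → F, (∀ i, Y i ∈ V ^ D) ∧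
      ∀ b : Fin (e + 1) → ℕ, 2 * D ≤ ∑ i, b i + C → Cb V (∑ i, b i - D) Finset.univ Y (mono T b) := by
  classical
  obtain ⟨C1, hC1⟩ : ∃ C1, C1 = C + e := ⟨_, rfl⟩
  obtain ⟨D0', hD0⟩ := G8_main (e := e) he C1 (by omega)
  refine ⟨D0' + 2 * C1, fun D hD V T hT => ?_⟩
  obtain ⟨D', hD'⟩ : ∃ D', D' = D - C1 := ⟨_, rfl⟩
  have hDD : D = D' + C1 := by omega
  subst hDD
  obtain ⟨q0, hq0⟩ := hD0 D' (by omega)
  obtain ⟨K, hKf, hKc, -⟩ := hk ∅ q0
  have : Finite K := hKf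
  let hKF : Fintype K := Fintype.ofFinite K
  obtain ⟨y, hy⟩ := hq0 K (by rwa [← Nat.card_eq_fintype_card])
  obtain ⟨ψ, hψ⟩ : ∃ ψ : K →+* k, ψ = K.subtype := ⟨_, rfl⟩
  refine ⟨fun i => ∑ α ∈ Ex e (D' + C1), ψ (y i α) • hm (D' + C1) T α,
    fun i => Submodule.sum_mem _ fun α hα => Submodule.smul_mem _ _ (hm_mem hT ((mem_Ex α).1 hα)),
    fun b hb => ?_⟩
  obtain ⟨a, hab, ha⟩ := T4_lower b (D' + C1 + D') (by omega)
  have hx : (fun j : Fin e => a j.succ) ∈ Ex e (D' + C1 + D') := by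
    rw [mem_Ex, ← ha, Fin.sum_univ_succ]
    exact Nat.le_add_left _ _
  obtain ⟨g, hg⟩ := G9_dual y hy hx
  have hterm : ∀ i, (∑ α ∈ Ex e (D' + C1), ψ (y i α) • hm (D' + C1) T α) *
      (∑ β ∈ Ex e D', ψ (g i β) • hm D' T β) =
      ∑ α ∈ Ex e (D' + C1), ∑ β ∈ Ex e D', ∑ x' ∈ Ex e (D' + C1 + D'),
        ψ (if α + β = x' then y i α * g i β else 0) • hm (D' + C1 + D') T x' := by
    intro i
    rw [Finset.sum_mul_sum]
    refine Finset.sum_congr rfl fun α hα => Finset.sum_congr rfl fun β hβ => ?_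
    have h1 : α + β ∈ Ex e (D' + C1 + D') := by
      have h2 := (mem_Ex α).1 hα
      have h3 := (mem_Ex β).1 hβ
      rw [mem_Ex]
      have h4 : ∑ j, (α + β) j = ∑ j, α j + ∑ j, β j := Finset.sum_add_distrib
      omega
    rw [smul_mul_smul_comm, hm_mul ((mem_Ex α).1 hα) ((mem_Ex β).1 hβ), Finset.sum_eq_single_of_mem (α + β) h1]
    · rw [if_pos rfl, map_mul]
      rfl
    · intro x' _ hne
      rw [if_neg (Ne.symm hne), map_zero, zero_smul]
  have hkey : ∑ i, (∑ α ∈ Ex e (D' + C1), ψ (y i α) • hm (D' + C1) T α) *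
      (∑ β ∈ Ex e D', ψ (g i β) • hm D' T β) = mono T a := by
    rw [hm_eq T a ha, Finset.sum_congr rfl fun i _ => hterm i]
    have h2 : ∀ x' ∈ Ex e (D' + C1 + D'), (∑ i, ∑ α ∈ Ex e (D' + C1), ∑ β ∈ Ex e D',
        ψ (if α + β = x' then y i α * g i β else 0) • hm (D' + C1 + D') T x') =
        (if x' = (fun j : Fin e => a j.succ) then (1 : k) else 0) • hm (D' + C1 + D') T x' := by
      intro x' hx'
      have h3 := congrArg ψ (hg x' hx')
      rw [map_sum] at h3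
      rw [apply_ite ψ, map_one, map_zero] at h3
      rw [← h3, Finset.sum_smul]
      refine Finset.sum_congr rfl fun i _ => ?_
      rw [map_sum, Finset.sum_smul]
      refine Finset.sum_congr rfl fun α _ => ?_
      rw [map_sum, Finset.sum_smul]
    have h4 : ∑ x' ∈ Ex e (D' + C1 + D'), (∑ i, ∑ α ∈ Ex e (D' + C1), ∑ β ∈ Ex e D',
        ψ (if α + β = x' then y i α * g i β else 0) • hm (D' + C1 + D') T x') =
        hm (D' + C1 + D') T (fun j : Fin e => a j.succ) := by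
      rw [Finset.sum_congr rfl h2, Finset.sum_eq_single_of_mem _ hx, if_pos rfl, one_smul]
      intro x' _ hne
      rw [if_neg hne, zero_smul]
    rw [← h4]
    refine Eq.trans ?_ Finset.sum_comm
    refine Finset.sum_congr rfl fun i _ => ?_
    refine Eq.trans ?_ Finset.sum_comm
    refine Finset.sum_congr rfl fun α _ => ?_
    exact Finset.sum_comm
  have hcb : Cb V D' Finset.univ
      (fun i => ∑ α ∈ Ex e (D' + C1), ψ (y i α) • hm (D' + C1) T α) (mono T a) :=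
    ⟨fun i => ∑ β ∈ Ex e D', ψ (g i β) • hm D' T β,
      fun i => Submodule.sum_mem _ fun β hβ => Submodule.smul_mem _ _ (hm_mem hT ((mem_Ex β).1 hβ)),
      hkey⟩
  have h5 := Cb_mul hcb (mono_mem V T hT (fun i => b i - a i))
  rw [← mono_split T a b hab] at h5
  have h6 : ∑ i, (b i - a i) + ∑ i, a i = ∑ i, b i := by
    rw [← Finset.sum_add_distrib]
    exact Finset.sum_congr rfl fun i _ => Nat.sub_add_cancel (hab i)
  have h7 : D' + ∑ i, (b i - a i) = ∑ i, b i - (D' + C1) := by omega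
  rw [h7] at h5
  exact h5

end Pool.Agent.MP_b197b4_ntV3
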