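import Pool.Agent.Lib.MP_b197b4_ntV3.TDefs

/-!
# V3, block G (generic forms): definitions

`Ex e D` = the exponents `a : Fin e → ℕ` with `|a| ≤ D` (TDefs). `l` = an additive function `(Fin e → ℕ) → ℕ`, used as an order of the exponents.
-/

set_option autoImplicit false
set_option linter.unusedSectionVars false

noncomputable section

namespace Pool.Agent.MP_b197b4_ntV3

open scoped BigOperators

variable {e : ℕ}

/-- the sums -/
def SS (A B : Finset (Fin e → ℕ)) : Finset (Fin e → ℕ) := (A ×ˢ B).image fun p => p.1 + p.2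

open Classical in
/-- The exponents `a` with `|a| ≤ D` such that the row `b ↦ lam (a + b)`, `|b| ≤ D'`, is a combination of the earlier rows. -/
def gA {K : Type} [Field K] (l : (Fin e → ℕ) → ℕ) (lam : (Fin e → ℕ) → K) (D D' : ℕ) : Finset (Fin e → ℕ) :=
  (Ex e D).filter fun a => ∃ c : (Fin e → ℕ) → K, ∀ b ∈ Ex e D',
    lam (a + b) = ∑ a' ∈ (Ex e D).filter (fun a' => l a' < l a), c a' * lam (a' + b)

/-- `A` is closed upwards in `Ex e D` -/
def UpC (D : ℕ) (A : Finset (Fin e → ℕ)) : Prop := ∀ a ∈ A, ∀ b ∈ Ex e D, (∀ j, a j ≤ b j) → b ∈ A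

/-- the points of `A` on the line of `a` in the direction `i` -/
def ln (i : Fin e) (A : Finset (Fin e → ℕ)) (a : Fin e → ℕ) : Finset (Fin e → ℕ) :=
  A.filter fun b => ∀ j, j ≠ i → b j = a j

/-- the compression: on each line in the direction `i` the points of `A` are moved to the end of the line -/
def cp (i : Fin e) (D : ℕ) (A : Finset (Fin e → ℕ)) : Finset (Fin e → ℕ) :=
  (Ex e D).filter fun a => D - ∑ j, a j < (ln i A a).card

/-- the weight -/
def wt (A : Finset (Fin e → ℕ)) : ℕ := ∑ a ∈ A, ∑ j, a j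

end Pool.Agent.MP_b197b4_ntV3
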