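import Mathlib

/-!
# V3, leaf T1: a matrix of monomials in a generic element
-/

set_option autoImplicit false
set_option linter.unusedSectionVars false

noncomputable section

namespace Pool.Agent.MP_b197b4_ntV3

open scoped BigOperators

/-- PROOF. The matrix `A` over `Polynomial k` with the entries `X ^ g i j` if `R i j`, `0` otherwise, has the value `1` (unit matrix) at `0`, so `A.det` has the value `1` at `0` (`RingHom.map_det` for
`Polynomial.evalRingHom 0`); so `X * A.det ≠ 0` has finitely many roots and, `k` being infinite, there is `t ≠ 0` with `eval t A.det ≠ 0`. The matrix `B = A.map (eval t)` is invertible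
(`Matrix.isUnit_iff_isUnit_det`), and `E j = ∑ i, B⁻¹ j i • ∑ l, B i l • E l`. -/
theorem T1_main {k : Type} [Field k] [Infinite k] {ι : Type} [Fintype ι] [DecidableEq ι] (R : ι → ι → Prop)
    [DecidableRel R] (g : ι → ι → ℕ) (hR : ∀ i, R i i) (h0 : ∀ i, g i i = 0) (h1 : ∀ i j, i ≠ j → 0 < g i j) :
    ∃ t : k, t ≠ 0 ∧ ∀ (M : Type) [AddCommGroup M] [Module k M] (L : Submodule k M) (E : ι → M),
      (∀ i, ∑ j, (if R i j then t ^ g i j else 0) • E j ∈ L) → ∀ j, E j ∈ L := by
  classical
  obtain ⟨A, hA⟩ : ∃ A : Matrix ι ι (Polynomial k),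
      A = fun i j => if R i j then Polynomial.X ^ g i j else 0 := ⟨_, rfl⟩
  have hmap : ∀ t : k, (Polynomial.evalRingHom t).mapMatrix A =
      fun i j => if R i j then t ^ g i j else 0 := by
    intro t
    funext i j
    rw [hA]
    show Polynomial.evalRingHom t (if R i j then Polynomial.X ^ g i j else 0) = _
    by_cases h : R i j
    · rw [if_pos h, if_pos h]
      simp
    · rw [if_neg h, if_neg h]
      simp
  have hdet : ∀ t : k, Polynomial.eval t A.det = ((Polynomial.evalRingHom t).mapMatrix A).det := by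
    intro t
    exact RingHom.map_det (Polynomial.evalRingHom t) A
  have h0' : (Polynomial.evalRingHom (0 : k)).mapMatrix A = 1 := by
    rw [hmap 0]
    funext i j
    by_cases hij : i = j
    · subst hij
      rw [if_pos (hR i), h0 i, pow_zero, Matrix.one_apply_eq]
    · rw [Matrix.one_apply_ne hij, zero_pow (h1 i j hij).ne', ite_self]
  have hne : A.det ≠ 0 := by
    intro h
    have h2 := hdet 0
    rw [h, h0', Matrix.det_one, Polynomial.eval_zero] at h2
    exact zero_ne_one h2
  have hne' : (Polynomial.X * A.det : Polynomial k) ≠ 0 := mul_ne_zero Polynomial.X_ne_zero hne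
  obtain ⟨t, ht⟩ : ∃ t : k, Polynomial.eval t (Polynomial.X * A.det) ≠ 0 := by
    by_contra hcon
    push Not at hcon
    exact hne' (Polynomial.funext fun t => by rw [hcon t, Polynomial.eval_zero])
  rw [Polynomial.eval_mul, Polynomial.eval_X] at ht
  have ht0 : t ≠ 0 := left_ne_zero_of_mul ht
  have htd : Polynomial.eval t A.det ≠ 0 := right_ne_zero_of_mul ht
  refine ⟨t, ht0, ?_⟩
  intro M _ _ L E hE j
  obtain ⟨B, hB⟩ : ∃ B : Matrix ι ι k, B = (Polynomial.evalRingHom t).mapMatrix A := ⟨_, rfl⟩
  have hBij : ∀ i j, B i j = if R i j then t ^ g i j else 0 := by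
    intro i j
    rw [hB, hmap t]
  have hBd : IsUnit B.det := by
    rw [hB, ← hdet t]
    exact isUnit_iff_ne_zero.2 htd
  have hinv : B⁻¹ * B = 1 := Matrix.nonsing_inv_mul B hBd
  have key : E j = ∑ i, B⁻¹ j i • ∑ l, (if R i l then t ^ g i l else 0) • E l := by
    have h2 : ∀ i, B⁻¹ j i • ∑ l, (if R i l then t ^ g i l else 0) • E l =
        ∑ l, (B⁻¹ j i * B i l) • E l := by
      intro i
      rw [Finset.smul_sum]
      refine Finset.sum_congr rfl fun l _ => ?_
      rw [smul_smul, hBij]
    rw [Finset.sum_congr rfl fun i _ => h2 i, Finset.sum_comm]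
    have h3 : ∀ l, ∑ i, (B⁻¹ j i * B i l) • E l = (if j = l then (1 : k) else 0) • E l := by
      intro l
      rw [← Finset.sum_smul]
      have h4 : ∑ i, B⁻¹ j i * B i l = (B⁻¹ * B) j l := (Matrix.mul_apply).symm
      rw [h4, hinv, Matrix.one_apply]
    rw [Finset.sum_congr rfl fun l _ => h3 l, Finset.sum_eq_single j]
    · rw [if_pos rfl, one_smul]
    · intro l _ hl
      rw [if_neg (Ne.symm hl), zero_smul]
    · intro h
      exact absurd (Finset.mem_univ j) h
  rw [key]
  exact Submodule.sum_mem _ fun i _ => Submodule.smul_mem _ _ (hE i)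

end Pool.Agent.MP_b197b4_ntV3
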