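import Pool.Agent.Lib.MP_b197b4_ntV3.T3a
import Pool.Agent.Lib.MP_b197b4_ntV3.T1

/-!
# V3, leaf T3: the theta forms cover all monomials but those with a small exponent of `T 0`
-/

set_option autoImplicit false
set_option linter.unusedSectionVars false

noncomputable section

namespace Pool.Agent.MP_b197b4_ntV3

open scoped BigOperators
open Pool.Agent.MP_b197b4_ntUV Pool.Agent.MP_b197b4_ntLV

variable {k F : Type} [Field k] [Field F] [Algebra k F]

/-- PROOF. `T1_main` with `ι` = the subtype of `Rw e D C`, `R c b = RR D c b` (classically decidable; `RR D b b`: `b - b / 2 ≤ b / 2 + 1`, so the sum is `≤ D - C + e ≤ D`), `g c b = ∑ j, 2 * dsq (b j) (c j)` (`dsq_self`, `dsq_pos`).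
This is the `t`. Given `V`, `T`, `L`: if `∑ b ≤ 2 D - C`, `b ∉ Rw` then `hm (2D-C) T b = mono T (Fin.cons (2D - C - |b|) b)` is in `L`, for `|b| ≥ 2 ∑ (b j / 2) > 2 (D - C)`. Put `E b = t ^ (∑ j, 2 * b j ^ 2) • hm (2D-C) T b`.
For `c`: `(if RR D c b then t ^ g c b else 0) • E b = t ^ (∑ j, c j ^ 2) • ((if RR D c b then t ^ (∑ dsq (2 * (b j - c j / 2)) (c j % 2)) else 0) • hm (2D-C) T b)` by `dsq_id` (sum over `j`); so `T3_col` gives the hypothesis
(`hm_mem` for `z`, `∑ c j / 2 ≤ D - C`). Hence `E b ∈ L`, `hm (2D-C) T b ∈ L` (`t ≠ 0`). Conclude with `hm_eq`. -/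
theorem T3_theta [Infinite k] (e C D : ℕ) (heC : e ≤ C) (hCD : C ≤ D) :
    ∃ t : k, ∀ (V : Submodule k F) (T : Fin (e + 1) → F), (∀ i, T i ∈ V) → ∀ L : Submodule k F,
      (∀ i : Fin e → ℕ, (∀ j, i j < 2) → ∀ z ∈ V ^ (D - C), thY t D T i * z ∈ L) →
      (∀ b : Fin (e + 1) → ℕ, ∑ i, b i = 2 * D - C → b 0 < C → mono T b ∈ L) →
      ∀ b : Fin (e + 1) → ℕ, ∑ i, b i = 2 * D - C → mono T b ∈ L := by
  classical
  obtain ⟨t, ht0, ht⟩ := T1_main (k := k) (ι := {b : Fin e → ℕ // b ∈ Rw e D C})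
    (fun c b => RR D c.1 b.1) (fun c b => ∑ j, 2 * dsq (b.1 j) (c.1 j))
    (by
      rintro ⟨b, hb⟩
      rw [mem_Rw] at hb
      refine ⟨fun j => Nat.div_le_self _ _, ?_⟩
      have h1 : ∑ j, (b j - b j / 2) ≤ ∑ j, (b j / 2 + 1) :=
        Finset.sum_le_sum fun j _ => by omega
      have h2 : ∑ j, (b j / 2 + 1) = ∑ j, b j / 2 + e := by
        rw [Finset.sum_add_distrib]
        simp
      show ∑ j, (b j - b j / 2) ≤ D
      omega)
    (by
      rintro ⟨b, hb⟩
      exact Finset.sum_eq_zero fun j _ => by rw [dsq_self, mul_zero])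
    (by
      rintro ⟨c, hc⟩ ⟨b, hb⟩ hne
      have h1 : ∃ j, b j ≠ c j := by
        by_contra hcon
        push Not at hcon
        exact hne (Subtype.ext (funext fun j => (hcon j).symm))
      obtain ⟨j, hj⟩ := h1
      refine Finset.sum_pos' (fun _ _ => Nat.zero_le _) ⟨j, Finset.mem_univ j, ?_⟩
      have := dsq_pos hj
      show 0 < 2 * dsq (b j) (c j)
      omega)
  refine ⟨t, fun V T hT L hY hmon b hb => ?_⟩
  have hL : ∀ b : Fin e → ℕ, ∑ j, b j ≤ 2 * D - C → b ∉ Rw e D C → hm (2 * D - C) T b ∈ L := by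
    intro b hb1 hb2
    rw [mem_Rw] at hb2
    have h1 : 2 * ∑ j, b j / 2 ≤ ∑ j, b j := by
      rw [Finset.mul_sum]
      exact Finset.sum_le_sum fun j _ => by omega
    unfold hm
    refine hmon _ ?_ ?_
    · rw [Fin.sum_univ_succ]
      simp only [Fin.cons_zero, Fin.cons_succ]
      omega
    · rw [Fin.cons_zero]
      omega
  have key : ∀ b : {b : Fin e → ℕ // b ∈ Rw e D C},
      t ^ (∑ j, 2 * b.1 j ^ 2) • hm (2 * D - C) T b.1 ∈ L := by
    refine ht F L (fun b => t ^ (∑ j, 2 * b.1 j ^ 2) • hm (2 * D - C) T b.1) ?_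
    rintro ⟨c, hc⟩
    have hc' := (mem_Rw c).1 hc
    have col := T3_col hCD t V T hT L hL c hc
      (hY (fun j => c j % 2) (fun j => Nat.mod_lt _ (by norm_num)) (hm (D - C) T fun j => c j / 2)
        (hm_mem hT (by omega)))
    have heq : ∑ b : {b : Fin e → ℕ // b ∈ Rw e D C},
        (if RR D c b.1 then t ^ (∑ j, 2 * dsq (b.1 j) (c j)) else 0) •
          (t ^ (∑ j, 2 * b.1 j ^ 2) • hm (2 * D - C) T b.1) =
        t ^ (∑ j, c j ^ 2) • ∑ b ∈ Rw e D C,
          (if RR D c b then t ^ (∑ j, dsq (2 * (b j - c j / 2)) (c j % 2)) else 0) •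
            hm (2 * D - C) T b := by
      rw [Finset.smul_sum, ← Finset.sum_coe_sort (Rw e D C)]
      refine Finset.sum_congr rfl fun b _ => ?_
      by_cases h : RR D c b.1
      · rw [if_pos h, if_pos h, smul_smul, smul_smul, ← pow_add, ← pow_add]
        have hexp : ∑ j, 2 * dsq (b.1 j) (c j) + ∑ j, 2 * b.1 j ^ 2 =
            ∑ j, c j ^ 2 + ∑ j, dsq (2 * (b.1 j - c j / 2)) (c j % 2) := by
          rw [← Finset.sum_add_distrib, ← Finset.sum_add_distrib]
          refine Finset.sum_congr rfl fun j _ => ?_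
          have := dsq_id (b.1 j) (c j) (h.1 j)
          omega
        rw [hexp]
      · rw [if_neg h, if_neg h, zero_smul, zero_smul, smul_zero]
    show ∑ b : {b : Fin e → ℕ // b ∈ Rw e D C},
        (if RR D c b.1 then t ^ (∑ j, 2 * dsq (b.1 j) (c j)) else 0) •
          (t ^ (∑ j, 2 * b.1 j ^ 2) • hm (2 * D - C) T b.1) ∈ L
    rw [heq]
    exact L.smul_mem _ col
  rw [hm_eq T b hb]
  have hsum : ∑ j : Fin e, b j.succ ≤ 2 * D - C := by
    rw [Fin.sum_univ_succ] at hb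
    omega
  by_cases hmem : (fun j : Fin e => b j.succ) ∈ Rw e D C
  · have h1 := key ⟨_, hmem⟩
    exact (L.smul_mem_iff (pow_ne_zero _ ht0)).mp h1
  · exact hL _ hsum hmem

end Pool.Agent.MP_b197b4_ntV3
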