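import Pool.Agent.Lib.MP_b197b4_ntV3.T2

/-!
# V3, leaf T3a: the columns
-/

set_option autoImplicit false
set_option linter.unusedSectionVars false

noncomputable section

namespace Pool.Agent.MP_b197b4_ntV3

open scoped BigOperators
open Pool.Agent.MP_b197b4_ntUV Pool.Agent.MP_b197b4_ntLV

variable {k F : Type} [Field k] [Field F] [Algebra k F]

open Classical in
/-- PROOF. `a j = c j / 2`, `i j = c j % 2`. `thY t D T i * hm (D - C) T a = ∑ α ∈ Ex e D, t ^ (∑ dsq (2 * α j) (i j)) • hm (2 * D - C) T (α + a)` (`hm_mul`, `D + (D - C) = 2 * D - C`). The map `α ↦ α + a` is injective; its image is the set of the `b` with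
`RR D c b`, and `α j = b j - c j / 2`. The terms with `b ∉ Rw e D C` are in `L` (`|b| ≤ D + (D - C)`). So the sum of the others, the left side, is in `L` (`Finset.sum_image`, `Finset.sum_filter`, `Submodule.sub_mem`). -/
theorem T3_col {e C D : ℕ} (hCD : C ≤ D) (t : k) (V : Submodule k F) (T : Fin (e + 1) → F) (hT : ∀ i, T i ∈ V)
    (L : Submodule k F)
    (hL : ∀ b : Fin e → ℕ, ∑ j, b j ≤ 2 * D - C → b ∉ Rw e D C → hm (2 * D - C) T b ∈ L)
    (c : Fin e → ℕ) (hc : c ∈ Rw e D C)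
    (hY : thY t D T (fun j => c j % 2) * hm (D - C) T (fun j => c j / 2) ∈ L) :
    ∑ b ∈ Rw e D C, (if RR D c b then t ^ (∑ j, dsq (2 * (b j - c j / 2)) (c j % 2)) else 0) •
      hm (2 * D - C) T b ∈ L := by
  have ha : ∑ j, c j / 2 ≤ D - C := by
    have h := (mem_Rw c).1 hc
    omega
  have hDD : D + (D - C) = 2 * D - C := by omega
  let φ : (Fin e → ℕ) → (Fin e → ℕ) := fun α j => α j + c j / 2
  let g : (Fin e → ℕ) → F := fun b => t ^ (∑ j, dsq (2 * (b j - c j / 2)) (c j % 2)) • hm (2 * D - C) T b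
  have h1 : thY t D T (fun j => c j % 2) * hm (D - C) T (fun j => c j / 2) = ∑ α ∈ Ex e D, g (φ α) := by
    unfold thY
    rw [Finset.sum_mul]
    refine Finset.sum_congr rfl fun α hα => ?_
    rw [smul_mul_assoc, hm_mul ((mem_Ex α).1 hα) ha, hDD]
    simp only [g, φ, Nat.add_sub_cancel]
  have hφ : ∀ α β, φ α = φ β → α = β := by
    intro α β h
    funext j
    have h' : α j + c j / 2 = β j + c j / 2 := congrFun h j
    omega
  have h2 : ∑ b ∈ (Ex e D).image φ, g b = ∑ α ∈ Ex e D, g (φ α) :=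
    Finset.sum_image fun α _ β _ h => hφ α β h
  have h3 : ∀ b, b ∈ (Ex e D).image φ ↔ RR D c b := by
    intro b
    rw [Finset.mem_image]
    constructor
    · rintro ⟨α, hα, rfl⟩
      refine ⟨fun j => Nat.le_add_left _ _, ?_⟩
      have h4 : ∑ j, (φ α j - c j / 2) = ∑ j, α j :=
        Finset.sum_congr rfl fun j _ => Nat.add_sub_cancel (α j) (c j / 2)
      rw [h4]
      exact (mem_Ex α).1 hα
    · rintro ⟨h, h'⟩
      exact ⟨fun j => b j - c j / 2, (mem_Ex _).2 h', funext fun j => Nat.sub_add_cancel (h j)⟩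
  have h5 : ∑ b ∈ Rw e D C, (if RR D c b then t ^ (∑ j, dsq (2 * (b j - c j / 2)) (c j % 2)) else 0) •
      hm (2 * D - C) T b = ∑ b ∈ ((Ex e D).image φ).filter (fun b => b ∈ Rw e D C), g b := by
    have h6 : ((Ex e D).image φ).filter (fun b => b ∈ Rw e D C) = (Rw e D C).filter fun b => RR D c b := by
      ext b
      rw [Finset.mem_filter, Finset.mem_filter, h3, and_comm]
    rw [h6, Finset.sum_filter]
    refine Finset.sum_congr rfl fun b _ => ?_
    rw [ite_smul, zero_smul]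
  have h7 : ∑ b ∈ ((Ex e D).image φ).filter (fun b => b ∉ Rw e D C), g b ∈ L := by
    refine Submodule.sum_mem L fun b hb => L.smul_mem _ ?_
    obtain ⟨hb1, hb2⟩ := Finset.mem_filter.1 hb
    refine hL b ?_ hb2
    obtain ⟨hb3, hb4⟩ := (h3 b).1 hb1
    have h8 : ∑ j, b j = ∑ j, (b j - c j / 2) + ∑ j, c j / 2 := by
      rw [← Finset.sum_add_distrib]
      exact Finset.sum_congr rfl fun j _ => (Nat.sub_add_cancel (hb3 j)).symm
    omega
  have h9 := Finset.sum_filter_add_sum_filter_not ((Ex e D).image φ) (fun b => b ∈ Rw e D C) g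
  rw [h2, ← h1] at h9
  rw [h5]
  have h10 : ∑ b ∈ ((Ex e D).image φ).filter (fun b => b ∈ Rw e D C), g b =
      thY t D T (fun j => c j % 2) * hm (D - C) T (fun j => c j / 2) -
        ∑ b ∈ ((Ex e D).image φ).filter (fun b => b ∉ Rw e D C), g b := eq_sub_of_add_eq h9
  rw [h10]
  exact L.sub_mem hY h7

end Pool.Agent.MP_b197b4_ntV3
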