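import Pool.Agent.Lib.MP_b197b4_ntV3.C1a

/-!
# V3, theta forms: definitions

`hm D T α = T_0 ^ (D - |α|) * T_1 ^ α_1 ... T_e ^ α_e`, `thY t D T i = ∑_{|α| ≤ D} t ^ (∑_j (2 α_j - i_j)^2) hm D T α`.
-/

set_option autoImplicit false
set_option linter.unusedSectionVars false

noncomputable section

namespace Pool.Agent.MP_b197b4_ntV3

open scoped BigOperators
open Pool.Agent.MP_b197b4_ntUV Pool.Agent.MP_b197b4_ntLV

variable {k F : Type} [Field k] [Field F] [Algebra k F]

/-- the square of the difference of two natural numbers -/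
def dsq (x y : ℕ) : ℕ := (x - y) ^ 2 + (y - x) ^ 2

/-- the exponents `α` with `|α| ≤ D` -/
def Ex (e D : ℕ) : Finset (Fin e → ℕ) :=
  (Fintype.piFinset fun _ => Finset.range (D + 1)).filter fun α => ∑ j, α j ≤ D

/-- the homogeneous monomial of degree `D` in `T 0, …, T e` with the exponents `α` of `T 1, …, T e` -/
def hm {e : ℕ} (D : ℕ) (T : Fin (e + 1) → F) (α : Fin e → ℕ) : F := mono T (Fin.cons (D - ∑ j, α j) α)

/-- the theta form of degree `D` -/
def thY {e : ℕ} (t : k) (D : ℕ) (T : Fin (e + 1) → F) (i : Fin e → ℕ) : F :=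
  ∑ α ∈ Ex e D, t ^ (∑ j, dsq (2 * α j) (i j)) • hm D T α

/-- the rows which are covered by the theta forms -/
def Rw (e D C : ℕ) : Finset (Fin e → ℕ) :=
  (Fintype.piFinset fun _ => Finset.range (2 * D + 2)).filter fun b => ∑ j, b j / 2 + C ≤ D

/-- `hm` of the row `b` appears in the column of the row `c` -/
def RR {e : ℕ} (D : ℕ) (c b : Fin e → ℕ) : Prop := (∀ j, c j / 2 ≤ b j) ∧ ∑ j, (b j - c j / 2) ≤ D

end Pool.Agent.MP_b197b4_ntV3
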